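import Pool.Agent.W_MP_d8b8b7_gt_G3.Chart

/-!
# Uniform size of charts
-/

namespace Pool.Agent.W_MP_d8b8b7_gt

open MeasureTheory Set Filter Topology
open scoped ContDiff ENNReal

variable {N : ℕ}

/-- Uniform size of charts (Lebesgue number of the cover of X by the open sets V ∩ κ⁻¹(ball 0 (1/2)),
one for each centre x₀ = ψ 0 in X; κ (ψ 0) = 0). -/
theorem Setup.chart_radius (S : Setup N) : ∃ r : ℝ, 0 < r ∧ ∀ x ∈ S.X,
    ∃ (ψ : EN 4 → EN N) (κ : EN N → EN 4) (V : Set (EN N)) (h : EN 4 → ℝ) (σ : ℝ),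
      IsChart S.toGeom S.nu S.fr ψ κ V h σ ∧
      ∀ z ∈ S.X, ‖z - x‖ ≤ r → z ∈ V ∧ κ z ∈ Metric.ball (0 : EN 4) (1 / 2) ∧ ψ (κ z) = z := by
  choose! ψ κ V h σ hc h0 using S.charts
  have hopen : ∀ i : S.X, IsOpen (V i ∩ κ i ⁻¹' Metric.ball (0 : EN 4) (1 / 2)) := fun i =>
    (hc i i.2).openV.inter ((hc i i.2).smooth_kap.continuous.isOpen_preimage _ Metric.isOpen_ball)
  have hcov : S.X ⊆ ⋃ i : S.X, (V i ∩ κ i ⁻¹' Metric.ball (0 : EN 4) (1 / 2)) := by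
    intro x hx
    refine mem_iUnion.mpr ⟨⟨x, hx⟩, ?_, ?_⟩
    · have h1 : ψ x 0 ∈ ψ x '' Metric.ball (0 : EN 4) 1 :=
        ⟨0, Metric.mem_ball_self one_pos, rfl⟩
      rw [← (hc x hx).image, h0 x hx] at h1
      exact h1.2
    · have h1 : κ x (ψ x 0) = 0 := (hc x hx).kap_psi 0 (Metric.mem_ball_self one_pos)
      rw [h0 x hx] at h1
      show κ x x ∈ Metric.ball (0 : EN 4) (1 / 2)
      rw [h1]
      exact Metric.mem_ball_self (by norm_num)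
  obtain ⟨δ, hδ, hL⟩ := lebesgue_number_lemma_of_metric S.cptX hopen hcov
  refine ⟨δ / 2, half_pos hδ, fun x hx => ?_⟩
  obtain ⟨i, hi⟩ := hL x hx
  refine ⟨ψ i, κ i, V i, h i, σ i, hc i i.2, fun z hz hzx => ?_⟩
  have hzb : z ∈ Metric.ball x δ := by
    rw [Metric.mem_ball, dist_eq_norm]
    linarith
  obtain ⟨hzV, hzκ⟩ := hi hzb
  refine ⟨hzV, hzκ, ?_⟩
  have h2 : z ∈ ψ i '' Metric.ball (0 : EN 4) 1 := by
    rw [← (hc i i.2).image]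
    exact ⟨hz, hzV⟩
  obtain ⟨y, hy, rfl⟩ := h2
  rw [(hc i i.2).kap_psi y hy]

end Pool.Agent.W_MP_d8b8b7_gt
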