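import Pool.Agent.W_MP_d8b8b7_gt_G3.GDefs
import Pool.Agent.W_MP_d8b8b7_gt.PtBound
import Pool.Agent.W_MP_d8b8b7_gt.L2

/-!
# The L2(nu) norm of fields of bilinear forms
-/

namespace Pool.Agent.W_MP_d8b8b7_gt

open MeasureTheory Set Filter Topology
open scoped ContDiff ENNReal

variable {N : ℕ}

namespace Setup

variable (S : Setup N)

/-- comparison of square roots of integrals of squares -/
theorem nrmB_aux_mono {f g : EN N → ℝ} (hf : ∀ x, 0 ≤ f x)
    (hgi : Integrable (fun x => g x ^ 2) S.nu) {C : ℝ} (hC : 0 ≤ C)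
    (h : ∀ x ∈ S.X, f x ≤ C * g x) :
    Real.sqrt (∫ x, f x ^ 2 ∂S.nu) ≤ C * Real.sqrt (∫ x, g x ^ 2 ∂S.nu) := by
  have h1 : ∫ x, f x ^ 2 ∂S.nu ≤ ∫ x, C ^ 2 * g x ^ 2 ∂S.nu := by
    refine integral_mono_of_nonneg (Filter.Eventually.of_forall fun x => sq_nonneg _)
      (hgi.const_mul _) ?_
    filter_upwards [S.ae_mem_X] with x hx
    rw [← mul_pow]
    exact pow_le_pow_left₀ (hf x) (h x hx) 2
  rw [integral_const_mul] at h1
  refine (Real.sqrt_le_sqrt h1).trans (le_of_eq ?_)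
  rw [Real.sqrt_mul (sq_nonneg C), Real.sqrt_sq hC]

theorem nrmB_nonneg (β : EN N → Bil N) : 0 ≤ S.nrmB β := by
  exact Real.sqrt_nonneg _

/-- continuous fields are bounded on the compact set X, which carries nu -/
theorem memLp_of_continuous {F : Type*} [NormedAddCommGroup F] {f : EN N → F}
    (hf : Continuous f) (p : ℝ≥0∞) : MemLp f p S.nu := by
  obtain ⟨B, hB⟩ := S.cptX.exists_bound_of_continuousOn hf.continuousOn
  refine MemLp.of_bound hf.aestronglyMeasurable B ?_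
  filter_upwards [S.ae_mem_X] with x hx
  exact hB x hx

theorem nrmB_aux_int {F : Type*} [NormedAddCommGroup F] {f : EN N → F} (hf : Continuous f) :
    Integrable (fun x => ‖f x‖ ^ 2) S.nu := by
  have h := S.memLp_of_continuous (hf.norm.pow 2) 1
  rwa [memLp_one_iff_integrable] at h

/-- a unit vector -/
noncomputable def nrmB_e : C6 := EuclideanSpace.single 0 1

theorem nrmB_norm_e : ‖nrmB_e‖ = 1 := by
  simp [nrmB_e]

theorem nrmB_norm_smul_e (t : ℝ) : ‖t • nrmB_e‖ = |t| := by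
  rw [norm_smul, nrmB_norm_e, mul_one, Real.norm_eq_abs]

theorem nrmB_L2F {f : EN N → ℝ} (hf : Continuous f) : S.L2F (fun x => f x • nrmB_e) := by
  have h : Continuous fun x => f x • nrmB_e := hf.smul continuous_const
  exact ⟨h.measurable, S.memLp_of_continuous h 2⟩

theorem nrmB_eq_nrm (β : EN N → Bil N) : S.nrmB β = S.nrm (fun x => ‖β x‖ • nrmB_e) := by
  unfold nrmB nrm
  congr 1
  refine integral_congr_ae (Filter.Eventually.of_forall fun x => ?_)
  simp only [nrmB_norm_smul_e, abs_norm]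

theorem nrmB_add_le {β γ : EN N → Bil N} (hβ : Continuous β) (hγ : Continuous γ) :
    S.nrmB (β + γ) ≤ S.nrmB β + S.nrmB γ := by
  rw [S.nrmB_eq_nrm β, S.nrmB_eq_nrm γ]
  refine le_trans ?_ (S.nrm_add_le (S.nrmB_L2F hβ.norm) (S.nrmB_L2F hγ.norm))
  have hc : Continuous fun x => ‖β x‖ • nrmB_e + ‖γ x‖ • nrmB_e :=
    (hβ.norm.smul continuous_const).add (hγ.norm.smul continuous_const)
  have h := S.nrmB_aux_mono (f := fun x => ‖(β + γ) x‖)
    (g := fun x => ‖‖β x‖ • nrmB_e + ‖γ x‖ • nrmB_e‖) (fun x => norm_nonneg _)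
    (S.nrmB_aux_int hc) zero_le_one fun x _ => by
      rw [one_mul, ← add_smul, nrmB_norm_smul_e,
        abs_of_nonneg (add_nonneg (norm_nonneg _) (norm_nonneg _))]
      exact norm_add_le _ _
  rw [one_mul] at h
  exact h

theorem nrmB_smul (c : ℝ) (β : EN N → Bil N) : S.nrmB (c • β) = |c| * S.nrmB β := by
  unfold nrmB
  have h : ∀ x, ‖(c • β) x‖ ^ 2 = c ^ 2 * ‖β x‖ ^ 2 := by
    intro x
    rw [Pi.smul_apply, norm_smul, mul_pow, Real.norm_eq_abs, sq_abs]
  simp_rw [h]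
  rw [integral_const_mul, Real.sqrt_mul (sq_nonneg c), Real.sqrt_sq_eq_abs]

theorem nrmB_zero : S.nrmB 0 = 0 := by
  unfold nrmB
  simp

theorem nrmB_sum_le {ι : Type*} (s : Finset ι) {β : ι → EN N → Bil N}
    (hβ : ∀ i ∈ s, Continuous (β i)) : S.nrmB (∑ i ∈ s, β i) ≤ ∑ i ∈ s, S.nrmB (β i) := by
  classical
  induction s using Finset.induction_on with
  | empty => simp [S.nrmB_zero]
  | insert a s ha ih =>
    rw [Finset.sum_insert ha, Finset.sum_insert ha]
    have h1 : Continuous (β a) := hβ a (Finset.mem_insert_self _ _)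
    have h2 : ∀ i ∈ s, Continuous (β i) := fun i hi => hβ i (Finset.mem_insert_of_mem hi)
    have h3 : Continuous (∑ i ∈ s, β i) := by
      have h4 := continuous_finsetSum s h2
      convert h4 using 1
      funext x
      rw [Finset.sum_apply]
    exact (S.nrmB_add_le h1 h3).trans (by linarith [ih h2])

/-- comparison on X -/
theorem nrmB_le_of_le {β γ : EN N → Bil N} (hγ : Continuous γ) {C : ℝ} (hC : 0 ≤ C)
    (h : ∀ x ∈ S.X, ‖β x‖ ≤ C * ‖γ x‖) : S.nrmB β ≤ C * S.nrmB γ := by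
  exact S.nrmB_aux_mono (fun x => norm_nonneg _) (S.nrmB_aux_int hγ) hC h

theorem nrmB_le_nrm {β : EN N → Bil N} {b : EN N → C6} (hb : S.L2F b) {C : ℝ}
    (hC : 0 ≤ C) (h : ∀ x ∈ S.X, ‖β x‖ ≤ C * ‖b x‖) : S.nrmB β ≤ C * S.nrm b := by
  exact S.nrmB_aux_mono (fun x => norm_nonneg _) (L2F.integrable_sq S hb) hC h

theorem nrm_le_nrmB {β : EN N → Bil N} (hβ : Continuous β) {b : EN N → C6} {C : ℝ}
    (hC : 0 ≤ C) (h : ∀ x ∈ S.X, ‖b x‖ ≤ C * ‖β x‖) : S.nrm b ≤ C * S.nrmB β := by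
  exact S.nrmB_aux_mono (fun x => norm_nonneg _) (S.nrmB_aux_int hβ) hC h

/-- sup bound -/
theorem nrmB_le_sup : ∃ C : ℝ, 0 ≤ C ∧ ∀ (β : EN N → Bil N) (c : ℝ), 0 ≤ c →
    (∀ x ∈ S.X, ‖β x‖ ≤ c) → S.nrmB β ≤ C * c := by
  refine ⟨Real.sqrt (∫ x, (1 : ℝ) ^ 2 ∂S.nu), Real.sqrt_nonneg _, fun β c hc h => ?_⟩
  have h1 := S.nrmB_aux_mono (f := fun x => ‖β x‖) (g := fun _ => (1 : ℝ))
    (fun x => norm_nonneg _) (integrable_const _) hc fun x hx => by
      rw [mul_one]; exact h x hx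
  rw [mul_comm]
  exact h1

/-- components are controlled by the full norm: `exists_bound` -/
theorem nrm_cp_le : ∃ C : ℝ, 0 ≤ C ∧ ∀ β : EN N → Bil N, Continuous β →
    S.nrm (S.cp β) ≤ C * S.nrmB β := by
  obtain ⟨C, hC1, hC, -, -⟩ := S.exists_bound
  have hC0 : 0 ≤ C := by linarith
  exact ⟨C, hC0, fun β hβ => S.nrm_le_nrmB hβ hC0 fun x hx => (hC x hx).2.2.2.2.2 β⟩

/-- the tangential part of an alternating field is controlled by its components:
`rc_cp` and the bound of `rc` in `exists_bound` -/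
theorem nrmB_pull_le : ∃ C : ℝ, 0 ≤ C ∧ ∀ β : EN N → Bil N, Continuous β →
    (∀ x v, β x v v = 0) → S.nrmB (fun x => Bil.pull (S.D x) (β x)) ≤ C * S.nrm (S.cp β) := by
  obtain ⟨C, hC1, hC, -, -⟩ := S.exists_bound
  have hC0 : 0 ≤ C := by linarith
  refine ⟨C, hC0, fun β hβ halt => S.nrmB_le_nrm (S.L2F_cp hβ) hC0 fun x hx => ?_⟩
  rw [← S.rc_cp hx β (halt x)]
  exact (hC x hx).2.2.2.2.1 _

/-- the L1 norm is controlled by the L2 norm (nu is finite), for components -/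
theorem nrmB_aux_L1 {b : EN N → C6} (hb : S.L2F b) :
    ∫ x, ‖b x‖ ∂S.nu ≤ S.nrm (fun _ => (1 : ℝ) • nrmB_e) * S.nrm b := by
  have h := L2F.integral_mul_norm_le S (S.nrmB_L2F (continuous_const (y := (1 : ℝ)))) hb
  refine le_trans (le_of_eq ?_) h
  refine integral_congr_ae (Filter.Eventually.of_forall fun x => ?_)
  simp only [nrmB_norm_smul_e, abs_one, one_mul]

/-- the L1 norm is controlled by the L2 norm (nu is finite) -/
theorem integral_norm_le : ∃ C : ℝ, 0 ≤ C ∧ ∀ β : EN N → Bil N, Continuous β →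
    ∫ x, ‖β x‖ ∂S.nu ≤ C * S.nrmB β := by
  refine ⟨S.nrm (fun _ => (1 : ℝ) • nrmB_e), S.nrm_nonneg _, fun β hβ => ?_⟩
  rw [S.nrmB_eq_nrm β]
  refine le_trans (le_of_eq ?_) (S.nrmB_aux_L1 (S.nrmB_L2F hβ.norm))
  refine integral_congr_ae (Filter.Eventually.of_forall fun x => ?_)
  simp only [nrmB_norm_smul_e, abs_norm]

/-- the L1 norm is controlled by the L2 norm (nu is finite), for components -/
theorem integral_norm_le' : ∃ C : ℝ, 0 ≤ C ∧ ∀ b : EN N → C6, S.L2F b →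
    ∫ x, ‖b x‖ ∂S.nu ≤ C * S.nrm b := by
  exact ⟨_, S.nrm_nonneg _, fun b hb => S.nrmB_aux_L1 hb⟩

theorem nrm_mono {a b : EN N → C6} (hb : S.L2F b) {C : ℝ} (hC : 0 ≤ C)
    (h : ∀ x ∈ S.X, ‖a x‖ ≤ C * ‖b x‖) : S.nrm a ≤ C * S.nrm b := by
  exact S.nrmB_aux_mono (fun x => norm_nonneg _) (L2F.integrable_sq S hb) hC h

theorem nrm_congr {a b : EN N → C6} (h : a =ᵐ[S.nu] b) : S.nrm a = S.nrm b := by
  unfold nrm
  congr 1
  refine integral_congr_ae ?_
  filter_upwards [h] with x hx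
  rw [hx]

theorem nrm_zero_iff {a : EN N → C6} (ha : S.L2F a) : S.nrm a = 0 ↔ a =ᵐ[S.nu] 0 := by
  unfold nrm
  rw [Real.sqrt_eq_zero (integral_nonneg fun x => sq_nonneg _),
    integral_eq_zero_iff_of_nonneg (fun x => sq_nonneg _) (L2F.integrable_sq S ha)]
  constructor
  · intro h
    filter_upwards [h] with x hx
    have h1 : ‖a x‖ ^ 2 = 0 := hx
    exact norm_eq_zero.1 (pow_eq_zero_iff two_ne_zero |>.1 h1)
  · intro h
    filter_upwards [h] with x hx
    show ‖a x‖ ^ 2 = 0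
    rw [hx]
    simp

/-- the total mass is positive: otherwise `ker_up` for the function 1 at a point of X would give
the contradiction 0 < volume (ball 0 1) ≤ 0 -/
theorem nu_pos : 0 < S.nu univ := by
  rw [pos_iff_ne_zero]
  intro h0
  have hν : S.nu = 0 := Measure.measure_univ_eq_zero.1 h0
  obtain ⟨x, hx⟩ := S.neX
  have h := S.ker_up x hx S.d0 S.d0_pos le_rfl (fun _ => 1) measurable_const
  rw [hν] at h
  simp only [Measure.restrict_zero, lintegral_zero_measure, mul_zero, setLIntegral_one] at h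
  exact absurd h (not_le.2 (Metric.measure_ball_pos volume (0 : EN N) one_pos))

end Setup

end Pool.Agent.W_MP_d8b8b7_gt
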