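import Pool.Agent.W_MP_d8b8b7_gt_G3.Mom
import Pool.Agent.W_MP_d8b8b7_gt_G3.NrmB
import Pool.Agent.W_MP_d8b8b7_gt.RbAlg
import Pool.Agent.W_MP_d8b8b7_gt.RbL2

/-!
# L2 boundedness of the operators with amplitude
-/

namespace Pool.Agent.W_MP_d8b8b7_gt

open MeasureTheory Set Filter Topology
open scoped ContDiff ENNReal

variable {N : ℕ}

namespace Setup

variable (S : Setup N)

/-- Schur bound.  By `ker_up` the inner integral is at most
C1 δ^-4 ∫_{closedBall x (C1 δ)} f dν; integrate in x over X (ν is carried by X), exchange the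
integrals (Tonelli; y in closedBall x r iff x in closedBall y r; the set of pairs is closed, hence
measurable) and use `vol_ball`: total ≤ C1 δ^-4 C1 (C1 δ)^4 ∫ f dν = C1^6 ∫ f dν. -/
theorem lintegral_avg_le {δ : ℝ} (hδ : 0 < δ) (hδ' : δ ≤ S.d0) {f : EN N → ℝ≥0∞}
    (hf : Measurable f) :
    ∫⁻ x, ∫⁻ s in Metric.ball (0 : EN N) 1, f (S.rho (x + δ • s)) ∂volume ∂S.nu ≤
      ENNReal.ofReal (S.C1 ^ 6) * ∫⁻ x, f x ∂S.nu := by
  have hC1 : 0 ≤ S.C1 := zero_le_one.trans S.one_le_C1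
  have hC1' : 0 < S.C1 := zero_lt_one.trans_le S.one_le_C1
  have hr : 0 < S.C1 * δ := by positivity
  have h1 : ∫⁻ x, ∫⁻ s in Metric.ball 0 1, f (S.rho (x + δ • s)) ∂volume ∂S.nu ≤
      ∫⁻ x, ENNReal.ofReal (S.C1 * δ⁻¹ ^ 4) *
        ∫⁻ y in Metric.closedBall x (S.C1 * δ), f y ∂S.nu ∂S.nu := by
    apply lintegral_mono_ae
    filter_upwards [S.ae_mem_X] with x hx
    exact S.ker_up x hx δ hδ hδ' f hf
  have h2 : ∀ x : EN N, ∫⁻ y in Metric.closedBall x (S.C1 * δ), f y ∂S.nu =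
      ∫⁻ y, {p : EN N × EN N | dist p.2 p.1 ≤ S.C1 * δ}.indicator (fun p => f p.2) (x, y) ∂S.nu := by
    intro x
    rw [← lintegral_indicator Metric.isClosed_closedBall.measurableSet]
    rfl
  have hset : MeasurableSet {p : EN N × EN N | dist p.2 p.1 ≤ S.C1 * δ} :=
    (isClosed_le (continuous_snd.dist continuous_fst) continuous_const).measurableSet
  have hmeas : Measurable (fun p : EN N × EN N =>
      {p : EN N × EN N | dist p.2 p.1 ≤ S.C1 * δ}.indicator (fun p => f p.2) p) :=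
    (hf.comp measurable_snd).indicator hset
  have h3 : ∫⁻ x, ∫⁻ y, {p : EN N × EN N | dist p.2 p.1 ≤ S.C1 * δ}.indicator
      (fun p => f p.2) (x, y) ∂S.nu ∂S.nu =
      ∫⁻ y, ∫⁻ x, {p : EN N × EN N | dist p.2 p.1 ≤ S.C1 * δ}.indicator
      (fun p => f p.2) (x, y) ∂S.nu ∂S.nu :=
    lintegral_lintegral_swap (f := fun x y => {p : EN N × EN N | dist p.2 p.1 ≤ S.C1 * δ}.indicator
      (fun p => f p.2) (x, y)) hmeas.aemeasurable
  have h4 : ∀ y : EN N, ∫⁻ x, {p : EN N × EN N | dist p.2 p.1 ≤ S.C1 * δ}.indicator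
      (fun p => f p.2) (x, y) ∂S.nu ≤ ENNReal.ofReal (S.C1 * (S.C1 * δ) ^ 4) * f y := by
    intro y
    have h5 : ∀ x, {p : EN N × EN N | dist p.2 p.1 ≤ S.C1 * δ}.indicator
        (fun p => f p.2) (x, y) = (Metric.closedBall y (S.C1 * δ)).indicator (fun _ => f y) x := by
      intro x
      by_cases hx : dist y x ≤ S.C1 * δ
      · rw [indicator_of_mem (by exact hx), indicator_of_mem]
        rw [Metric.mem_closedBall, dist_comm]
        exact hx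
      · rw [indicator_of_notMem (by exact hx), indicator_of_notMem]
        rw [Metric.mem_closedBall, dist_comm]
        exact hx
    simp_rw [h5]
    rw [lintegral_indicator Metric.isClosed_closedBall.measurableSet, setLIntegral_const, mul_comm]
    gcongr
    exact S.vol_ball y _ hr
  refine h1.trans ?_
  rw [lintegral_const_mul' _ _ ENNReal.ofReal_ne_top]
  simp_rw [h2]
  rw [h3]
  calc ENNReal.ofReal (S.C1 * δ⁻¹ ^ 4) * ∫⁻ y, ∫⁻ x,
      {p : EN N × EN N | dist p.2 p.1 ≤ S.C1 * δ}.indicator (fun p => f p.2) (x, y) ∂S.nu ∂S.nu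
      ≤ ENNReal.ofReal (S.C1 * δ⁻¹ ^ 4) * ∫⁻ y, ENNReal.ofReal (S.C1 * (S.C1 * δ) ^ 4) * f y ∂S.nu := by
        gcongr with y
        exact h4 y
    _ = ENNReal.ofReal (S.C1 ^ 6) * ∫⁻ y, f y ∂S.nu := by
        rw [lintegral_const_mul' _ _ ENNReal.ofReal_ne_top, ← mul_assoc,
          ← ENNReal.ofReal_mul (by positivity)]
        congr 2
        field_simp

/-- pointwise bound on X: for x in X and ‖s‖ < 1 the point x + δ s is in Ud, where
‖ex b y‖ ≤ C ‖b (rho y)‖; the amplitude is bounded on the compact set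
{‖h‖ ≤ 1} × X. -/
theorem norm_Op_le (A : EN N → EN N → (Bil N →L[ℝ] Bil N))
    (hA : ContDiff ℝ ∞ (fun z : EN N × EN N => A z.1 z.2)) :
    ∃ C : ℝ, 0 ≤ C ∧ ∀ (q : EN N → ℝ) (c : ℝ), QF q → (∀ s, |q s| ≤ c) → ∀ δ : ℝ, 0 < δ →
      δ ≤ S.d0 / 2 → ∀ b : EN N → C6, S.L2F b → ∀ x ∈ S.X,
      ‖S.Op q A δ b x‖ ≤ C * c * ∫ s in Metric.ball 0 1, ‖b (S.rho (x + δ • s))‖ := by
  obtain ⟨C, hC, hX, hU, -⟩ := S.exists_bound
  obtain ⟨C', -, hball⟩ := S.integral_ball_le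
  obtain ⟨CA, hCA, hA'⟩ := PtBound_cpt ((isCompact_closedBall (0 : EN N) 1).prod S.cptX)
    hA.continuous
  have hC0 : 0 ≤ C := by linarith
  have hd1 := S.d0_le
  refine ⟨CA * C, by positivity, fun q c hq hc δ hδ hδ' b hb x hx => ?_⟩
  have hc0 : 0 ≤ c := (abs_nonneg _).trans (hc 0)
  have hint := (hball x hx δ hδ hδ' b hb).1
  have hint' : Integrable ((Metric.ball (0 : EN N) 1).indicator
      fun s => (CA * C * c) * ‖b (S.rho (x + δ • s))‖) volume := by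
    rw [integrable_indicator_iff Metric.isOpen_ball.measurableSet]
    exact hint.const_mul _
  have h1 : ‖S.Op q A δ b x‖ ≤ ∫ s, (Metric.ball (0 : EN N) 1).indicator
      (fun s => (CA * C * c) * ‖b (S.rho (x + δ • s))‖) s := by
    unfold Op
    refine norm_integral_le_of_norm_le hint' (Filter.Eventually.of_forall fun s => ?_)
    by_cases hs : s ∈ Metric.ball (0 : EN N) 1
    · rw [Set.indicator_of_mem hs]
      have hs' : ‖s‖ < 1 := by rwa [mem_ball_zero_iff] at hs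
      have hy := S.rbAlg_mem_Ud hx hδ hδ' hs'
      have h2 : S.ex b (x + δ • s) = S.rc b (S.rho (x + δ • s)) := Set.indicator_of_mem hy _
      rw [h2, norm_smul, Real.norm_eq_abs]
      have h3 : ‖S.rc b (S.rho (x + δ • s))‖ ≤ C * ‖b (S.rho (x + δ • s))‖ :=
        (hX _ (S.rho_mem_X hy)).2.2.2.2.1 b
      have hds : ‖δ • s‖ ≤ 1 := by
        rw [norm_smul, Real.norm_eq_abs, abs_of_pos hδ]
        have : δ * ‖s‖ ≤ 1 * 1 := mul_le_mul (by linarith) hs'.le (norm_nonneg _) zero_le_one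
        linarith
      have h4 : ‖A (δ • s) x‖ ≤ CA := by
        refine hA' (δ • s, x) ⟨?_, hx⟩
        rw [mem_closedBall_zero_iff]
        exact hds
      have h5 : ‖A (δ • s) x (S.rc b (S.rho (x + δ • s)))‖ ≤
          CA * (C * ‖b (S.rho (x + δ • s))‖) :=
        ((A (δ • s) x).le_of_opNorm_le h4 _).trans (mul_le_mul_of_nonneg_left h3 hCA)
      calc |q s| * ‖A (δ • s) x (S.rc b (S.rho (x + δ • s)))‖
          ≤ c * (CA * (C * ‖b (S.rho (x + δ • s))‖)) :=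
            mul_le_mul (hc s) h5 (norm_nonneg _) hc0
        _ = (CA * C * c) * ‖b (S.rho (x + δ • s))‖ := by ring
    · rw [Set.indicator_of_notMem hs]
      have hs' : 1 ≤ ‖s‖ := by
        rw [mem_ball_zero_iff, not_lt] at hs
        exact hs
      rw [hq.supp s hs', zero_smul, norm_zero]
  rwa [integral_indicator Metric.isOpen_ball.measurableSet, integral_const_mul] at h1

/-- L2 boundedness: square `norm_Op_le`, Cauchy-Schwarz on the unit ball, `lintegral_avg_le` for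
f = ‖b‖^2. -/
theorem nrmB_Op_le (A : EN N → EN N → (Bil N →L[ℝ] Bil N))
    (hA : ContDiff ℝ ∞ (fun z : EN N × EN N => A z.1 z.2)) :
    ∃ C : ℝ, 0 ≤ C ∧ ∀ (q : EN N → ℝ) (c : ℝ), QF q → (∀ s, |q s| ≤ c) → ∀ δ : ℝ, 0 < δ →
      δ ≤ S.d0 / 2 → ∀ b : EN N → C6, S.L2F b →
      S.nrmB (S.Op q A δ b) ≤ C * c * S.nrm b := by
  obtain ⟨C1, hC1, h1⟩ := S.RbL2_key
  obtain ⟨C2, hC2, h2⟩ := S.norm_Op_le A hA
  refine ⟨C1 * C2, by positivity, fun q c hq hc δ hδ hδ' b hb => ?_⟩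
  have hc0 : 0 ≤ c := (abs_nonneg _).trans (hc 0)
  have h3 := (h1 δ hδ hδ' b hb (C2 * c) (by positivity)
    (fun x => ‖S.Op q A δ b x‖ • nrmB_e) (fun x hx => by
      have h4 : ‖‖S.Op q A δ b x‖ • nrmB_e‖ = ‖S.Op q A δ b x‖ := by
        rw [nrmB_norm_smul_e, abs_norm]
      refine (le_of_eq h4).trans ?_
      exact h2 q c hq hc δ hδ hδ' b hb x hx)).2
  rw [S.nrmB_eq_nrm]
  refine h3.trans (le_of_eq ?_)
  ring

/-- sup bound with loss δ^-2: `norm_Op_le` and `integral_ball_le` -/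
theorem sup_Op_le (A : EN N → EN N → (Bil N →L[ℝ] Bil N))
    (hA : ContDiff ℝ ∞ (fun z : EN N × EN N => A z.1 z.2)) :
    ∃ C : ℝ, 0 ≤ C ∧ ∀ (q : EN N → ℝ) (c : ℝ), QF q → (∀ s, |q s| ≤ c) → ∀ δ : ℝ, 0 < δ →
      δ ≤ S.d0 / 2 → ∀ b : EN N → C6, S.L2F b → ∀ x ∈ S.X,
      ‖S.Op q A δ b x‖ ≤ C * c * δ⁻¹ ^ 2 * S.nrm b := by
  obtain ⟨C1, hC1, h1⟩ := S.integral_ball_le
  obtain ⟨C2, hC2, h2⟩ := S.norm_Op_le A hA
  refine ⟨C2 * C1, by positivity, fun q c hq hc δ hδ hδ' b hb x hx => ?_⟩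
  have hc0 : 0 ≤ c := (abs_nonneg _).trans (hc 0)
  have h3 := (h1 x hx δ hδ hδ' b hb).2
  calc ‖S.Op q A δ b x‖ ≤ C2 * c * ∫ s in Metric.ball 0 1, ‖b (S.rho (x + δ • s))‖ :=
        h2 q c hq hc δ hδ hδ' b hb x hx
    _ ≤ C2 * c * (C1 * δ⁻¹ ^ 2 * S.nrm b) := mul_le_mul_of_nonneg_left h3 (by positivity)
    _ = C2 * C1 * c * δ⁻¹ ^ 2 * S.nrm b := by ring

/-- L2 bound of the regularisation, in components: `Rb_eq_Op`, `nrmB_Op_le`, `nrm_cp_le` -/
theorem nrm_Rb_le : ∃ C : ℝ, 0 ≤ C ∧ ∀ (q : EN N → ℝ) (c : ℝ), QF q → (∀ s, |q s| ≤ c) →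
    ∀ δ : ℝ, 0 < δ → δ ≤ S.d0 / 2 → ∀ b : EN N → C6, S.L2F b →
      S.L2F (S.cp (S.Rb q δ b)) ∧ S.nrm (S.cp (S.Rb q δ b)) ≤ C * c * S.nrm b := by
  obtain ⟨C1, hC1, h1⟩ := S.nrm_cp_le
  obtain ⟨C2, hC2, h2⟩ := S.nrmB_Op_le S.ampR S.smooth_ampR
  refine ⟨C1 * C2, by positivity, fun q c hq hc δ hδ hδ' b hb => ?_⟩
  have hcont : Continuous (S.Rb q δ b) := (S.isForm_Rb hq.smooth hδ hb).smooth.continuous
  refine ⟨S.L2F_cp hcont, ?_⟩
  have h3 := h2 q c hq hc δ hδ hδ' b hb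
  rw [← S.Rb_eq_Op] at h3
  calc S.nrm (S.cp (S.Rb q δ b)) ≤ C1 * S.nrmB (S.Rb q δ b) := h1 _ hcont
    _ ≤ C1 * (C2 * c * S.nrm b) := mul_le_mul_of_nonneg_left h3 hC1
    _ = C1 * C2 * c * S.nrm b := by ring

end Setup

end Pool.Agent.W_MP_d8b8b7_gt
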