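import Pool.Agent.W_MP_d8b8b7_gt.Currents

/-!
# Pull back of 1-forms and 2-forms by smooth maps between Euclidean spaces commutes with d
-/

namespace Pool.Agent.W_MP_d8b8b7_gt

open MeasureTheory Set Filter Topology
open scoped ContDiff ENNReal

section pull_abstract

variable {E F : Type*} [NormedAddCommGroup E] [NormedSpace ℝ E] [NormedAddCommGroup F]
  [NormedSpace ℝ F]

theorem pd_symm2 {f : E → F} (hf : ContDiff ℝ ∞ f) (x u v : E) :
    fderiv ℝ (fderiv ℝ f) x u v = fderiv ℝ (fderiv ℝ f) x v u := by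
  have : IsSymmSndFDerivAt ℝ f x := (hf.contDiffAt).isSymmSndFDerivAt (by
    simp only [minSmoothness_of_isRCLikeNormedField]
    exact ENat.LEInfty.out)
  exact this u v

/-- derivative of x ↦ fderiv f x v -/
theorem pd_fderiv_apply {f : E → F} (hf : ContDiff ℝ ∞ f) (x u v : E) :
    fderiv ℝ (fun y => fderiv ℝ f y v) x u = fderiv ℝ (fderiv ℝ f) x u v := by
  have h1 : ContDiff ℝ ∞ (fderiv ℝ f) := hf.fderiv_right (m := ∞) (by simp)
  have h1d : DifferentiableAt ℝ (fderiv ℝ f) x := (h1.differentiable (by simp)) x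
  have h2 := (h1d.hasFDerivAt.clm_apply (hasFDerivAt_const v x)).fderiv
  rw [h2]
  simp

theorem pd_comp {G : Type*} [NormedAddCommGroup G] [NormedSpace ℝ G] {B : F → G}
    {B' : F →L[ℝ] G} {φ : E → F} {φ' : E →L[ℝ] F} {x : E} (hB : HasFDerivAt B B' (φ x))
    (hφ : HasFDerivAt φ φ' x) : HasFDerivAt (fun y => B (φ y)) (B'.comp φ') x :=
  hB.comp x hφ

theorem pd_abs {φ : E → F} (hφ : ContDiff ℝ ∞ φ) {B : F → (F →L[ℝ] F →L[ℝ] ℝ)}
    (hB : ContDiff ℝ ∞ B) (x u v w : E) :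
    fderiv ℝ (fun y => B (φ y) (fderiv ℝ φ y v) (fderiv ℝ φ y w)) x u =
      fderiv ℝ B (φ x) (fderiv ℝ φ x u) (fderiv ℝ φ x v) (fderiv ℝ φ x w)
      + B (φ x) (fderiv ℝ (fderiv ℝ φ) x u v) (fderiv ℝ φ x w)
      + B (φ x) (fderiv ℝ φ x v) (fderiv ℝ (fderiv ℝ φ) x u w) := by
  have hD : ContDiff ℝ ∞ (fderiv ℝ φ) := hφ.fderiv_right (m := ∞) (by simp)
  have hDd : HasFDerivAt (fderiv ℝ φ) (fderiv ℝ (fderiv ℝ φ) x) x :=
    ((hD.differentiable (by simp)) x).hasFDerivAt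
  have hφd : HasFDerivAt φ (fderiv ℝ φ x) x := ((hφ.differentiable (by simp)) x).hasFDerivAt
  have hv := hDd.clm_apply (hasFDerivAt_const v x)
  have hw := hDd.clm_apply (hasFDerivAt_const w x)
  have hBd : HasFDerivAt B (fderiv ℝ B (φ x)) (φ x) :=
    ((hB.differentiable (by simp)) (φ x)).hasFDerivAt
  have hc := pd_comp (G := F →L[ℝ] F →L[ℝ] ℝ) hBd hφd
  have h1 := (hc.clm_apply hv).clm_apply hw
  rw [h1.fderiv]
  simp
  ring

theorem pd_dOne {α : E → (E →L[ℝ] ℝ)} (hα : ContDiff ℝ ∞ α) (x a b c : E) :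
    fderiv ℝ (fun y => fderiv ℝ α y b c - fderiv ℝ α y c b) x a =
      fderiv ℝ (fderiv ℝ α) x a b c - fderiv ℝ (fderiv ℝ α) x a c b := by
  have h1 : ContDiff ℝ ∞ (fderiv ℝ α) := hα.fderiv_right (m := ∞) (by simp)
  have h1d : HasFDerivAt (fderiv ℝ α) (fderiv ℝ (fderiv ℝ α) x) x :=
    ((h1.differentiable (by simp)) x).hasFDerivAt
  have hb := (h1d.clm_apply (hasFDerivAt_const b x)).clm_apply (hasFDerivAt_const c x)
  have hc := (h1d.clm_apply (hasFDerivAt_const c x)).clm_apply (hasFDerivAt_const b x)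
  have h2 : (fun y => fderiv ℝ α y b c - fderiv ℝ α y c b) =
      (fun y => fderiv ℝ α y b c) - fun y => fderiv ℝ α y c b := rfl
  rw [h2, (hb.sub hc).fderiv]
  simp

end pull_abstract

variable {M N : ℕ}

/-- pull back of a 1-form by φ -/
noncomputable def pullOne (φ : EN M → EN N) (α : EN N → Cov N) (x : EN M) : Cov M :=
  (α (φ x)).comp (fderiv ℝ φ x)

/-- pull back of a 2-form by φ -/
noncomputable def pullTwo (φ : EN M → EN N) (β : EN N → Bil N) (x : EN M) : Bil M :=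
  Bil.pull (fderiv ℝ φ x) (β (φ x))

theorem contDiff_pullOne {φ : EN M → EN N} (hφ : ContDiff ℝ ∞ φ) {α : EN N → Cov N}
    (hα : ContDiff ℝ ∞ α) : ContDiff ℝ ∞ (pullOne φ α) :=
  (hα.comp hφ).clm_comp (hφ.fderiv_right (m := ∞) (by simp))

theorem contDiff_pullTwo {φ : EN M → EN N} (hφ : ContDiff ℝ ∞ φ) {β : EN N → Bil N}
    (hβ : ContDiff ℝ ∞ β) : ContDiff ℝ ∞ (pullTwo φ β) :=
  Bil.contDiff_pull (hβ.comp hφ) (hφ.fderiv_right (m := ∞) (by simp))

theorem isForm_pullTwo {φ : EN M → EN N} (hφ : ContDiff ℝ ∞ φ) {β : EN N → Bil N}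
    (hβ : IsForm β) : IsForm (pullTwo φ β) :=
  ⟨contDiff_pullTwo hφ hβ.smooth, fun _ _ => hβ.alt _ _⟩

/-- derivative of a form evaluated at three moving arguments -/
theorem pd_fderiv_pullTwo {φ : EN M → EN N} (hφ : ContDiff ℝ ∞ φ) {β : EN N → Bil N}
    (hβ : ContDiff ℝ ∞ β) (x u v w : EN M) :
    fderiv ℝ (pullTwo φ β) x u v w =
      fderiv ℝ β (φ x) (fderiv ℝ φ x u) (fderiv ℝ φ x v) (fderiv ℝ φ x w)
      + β (φ x) (fderiv ℝ (fderiv ℝ φ) x u v) (fderiv ℝ φ x w)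
      + β (φ x) (fderiv ℝ φ x v) (fderiv ℝ (fderiv ℝ φ) x u w) := by
  have hd : DifferentiableAt ℝ (pullTwo φ β) x :=
    ((contDiff_pullTwo hφ hβ).differentiable (by simp)) x
  rw [← Bil.fderiv_apply hd u v w]
  exact pd_abs hφ (B := fun y => Bil.toCLM (β y)) (Bil.contDiff_toCLM.mp hβ) x u v w

/-- d commutes with the pull back of 1-forms:
D_u (α(φ) (Dφ v)) = (Dα(φ) (Dφ u)) (Dφ v) + α(φ) (D²φ u v), the second term is symmetric in u, v. -/
theorem dOne_pullOne {φ : EN M → EN N} (hφ : ContDiff ℝ ∞ φ) {α : EN N → Cov N}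
    (hα : ContDiff ℝ ∞ α) (x : EN M) : dOne (pullOne φ α) x = pullTwo φ (dOne α) x := by
  have key : ∀ u v : EN M, fderiv ℝ (pullOne φ α) x u v =
      fderiv ℝ α (φ x) (fderiv ℝ φ x u) (fderiv ℝ φ x v)
      + α (φ x) (fderiv ℝ (fderiv ℝ φ) x u v) := by
    intro u v
    have hD : ContDiff ℝ ∞ (fderiv ℝ φ) := hφ.fderiv_right (m := ∞) (by simp)
    have hDd : HasFDerivAt (fderiv ℝ φ) (fderiv ℝ (fderiv ℝ φ) x) x :=
      ((hD.differentiable (by simp)) x).hasFDerivAt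
    have hφd : HasFDerivAt φ (fderiv ℝ φ x) x := ((hφ.differentiable (by simp)) x).hasFDerivAt
    have hαd : HasFDerivAt α (fderiv ℝ α (φ x)) (φ x) :=
      ((hα.differentiable (by simp)) (φ x)).hasFDerivAt
    have h1 := (hαd.comp x hφd).clm_comp hDd
    have h2 : pullOne φ α = fun y => ((α ∘ φ) y).comp (fderiv ℝ φ y) := rfl
    rw [h2, h1.fderiv]
    simp
    ring
  ext u v
  rw [dOne_apply, key, key]
  show _ = dOne α (φ x) (fderiv ℝ φ x u) (fderiv ℝ φ x v)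
  rw [dOne_apply, pd_symm2 hφ x v u]
  ring

/-- d commutes with the pull back of 2-forms (product rule; the terms with D²φ cancel because β is
alternating and D²φ symmetric) -/
theorem dTwo_pullTwo {φ : EN M → EN N} (hφ : ContDiff ℝ ∞ φ) {β : EN N → Bil N}
    (hβ : IsForm β) (x u v w : EN M) :
    dTwo (pullTwo φ β) x u v w =
      dTwo β (φ x) (fderiv ℝ φ x u) (fderiv ℝ φ x v) (fderiv ℝ φ x w) := by
  have hanti : ∀ y a b, β y a b = - β y b a := by
    intro y a b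
    have h := hβ.alt y (a + b)
    have ha := hβ.alt y a
    have hb := hβ.alt y b
    rw [Bil.add_left, Bil.add_right, Bil.add_right, ha, hb] at h
    linarith
  unfold dTwo
  rw [pd_fderiv_pullTwo hφ hβ.smooth, pd_fderiv_pullTwo hφ hβ.smooth,
    pd_fderiv_pullTwo hφ hβ.smooth, pd_symm2 hφ x v u, pd_symm2 hφ x w u, pd_symm2 hφ x w v,
    hanti (φ x) (fderiv ℝ φ x u) (fderiv ℝ (fderiv ℝ φ) x v w),
    hanti (φ x) (fderiv ℝ φ x v) (fderiv ℝ (fderiv ℝ φ) x u w)]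
  ring

/-- d d = 0 -/
theorem dTwo_dOne {α : EN N → Cov N} (hα : IsOne α) (x u v w : EN N) :
    dTwo (dOne α) x u v w = 0 := by
  have key : ∀ a b c : EN N, fderiv ℝ (dOne α) x a b c =
      fderiv ℝ (fderiv ℝ α) x a b c - fderiv ℝ (fderiv ℝ α) x a c b := by
    intro a b c
    have hd : DifferentiableAt ℝ (dOne α) x :=
      ((dOne_isForm hα).smooth.differentiable (by simp)) x
    rw [← Bil.fderiv_apply hd a b c]
    exact pd_dOne hα x a b c
  unfold dTwo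
  rw [key, key, key, pd_symm2 hα x v u, pd_symm2 hα x w u, pd_symm2 hα x w v]
  ring

/-- dTwo depends only on the germ -/
theorem dTwo_congr {β γ : EN N → Bil N} {x : EN N} (h : β =ᶠ[𝓝 x] γ) (u v w : EN N) :
    dTwo β x u v w = dTwo γ x u v w := by
  unfold dTwo
  rw [h.fderiv_eq]

/-- dOne depends only on the germ -/
theorem dOne_congr {α α' : EN N → Cov N} {x : EN N} (h : α =ᶠ[𝓝 x] α') :
    dOne α x = dOne α' x := by
  unfold dOne
  rw [h.fderiv_eq]

theorem dTwo_add {β γ : EN N → Bil N} (hβ : ContDiff ℝ ∞ β) (hγ : ContDiff ℝ ∞ γ)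
    (x u v w : EN N) : dTwo (β + γ) x u v w = dTwo β x u v w + dTwo γ x u v w := by
  have h : fderiv ℝ (β + γ) x = fderiv ℝ β x + fderiv ℝ γ x :=
    fderiv_add ((hβ.differentiable (by simp)) x) ((hγ.differentiable (by simp)) x)
  unfold dTwo
  rw [h]
  simp only [_root_.add_apply, Bil.add_apply]
  ring

theorem dTwo_smul {β : EN N → Bil N} (hβ : ContDiff ℝ ∞ β) (c : ℝ) (x u v w : EN N) :
    dTwo (c • β) x u v w = c * dTwo β x u v w := by
  have h : fderiv ℝ (c • β) x = c • fderiv ℝ β x :=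
    fderiv_const_smul ((hβ.differentiable (by simp)) x) c
  unfold dTwo
  rw [h]
  simp only [_root_.smul_apply, Bil.smul_apply]
  ring

theorem abs_dTwo_le (β : EN N → Bil N) (x u v w : EN N) :
    |dTwo β x u v w| ≤ 3 * ‖fderiv ℝ β x‖ * ‖u‖ * ‖v‖ * ‖w‖ := by
  have key : ∀ a b c : EN N, |fderiv ℝ β x a b c| ≤ ‖fderiv ℝ β x‖ * ‖a‖ * ‖b‖ * ‖c‖ := by
    intro a b c
    refine (Bil.abs_apply_le _ _ _).trans ?_
    gcongr
    exact (fderiv ℝ β x).le_opNorm a
  have h1 := key u v w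
  have h2 := key v u w
  have h3 := key w u v
  unfold dTwo
  have h4 : |fderiv ℝ β x u v w - fderiv ℝ β x v u w + fderiv ℝ β x w u v| ≤
      |fderiv ℝ β x u v w| + |fderiv ℝ β x v u w| + |fderiv ℝ β x w u v| :=
    (abs_add_le _ _).trans (add_le_add_left (abs_sub _ _) _)
  refine h4.trans ?_
  nlinarith [h1, h2, h3]

end Pool.Agent.W_MP_d8b8b7_gt
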