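import Pool.Agent.W_MP_d8b8b7_gt_G3.RbDeriv
import Pool.Agent.W_MP_d8b8b7_gt_G3.PullD
import Pool.Agent.W_MP_d8b8b7_gt_G3.OpL2

/-!
# Continuity of dTwo (Rb q δ b) x in b
-/

namespace Pool.Agent.W_MP_d8b8b7_gt

open MeasureTheory Set Filter Topology
open scoped ContDiff ENNReal

variable {N : ℕ}

/-- the derivative of a profile is bounded -/
theorem dTwoRb_bound {q : EN N → ℝ} (hq : QF q) :
    ∃ M : ℝ, 0 ≤ M ∧ ∀ s, ‖fderiv ℝ q s‖ ≤ M := by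
  have hc : Continuous (fderiv ℝ q) := hq.smooth.continuous_fderiv (by simp)
  obtain ⟨M, hM⟩ := (isCompact_closedBall (0 : EN N) 1).exists_bound_of_continuousOn hc.continuousOn
  refine ⟨|M|, abs_nonneg M, fun s => ?_⟩
  by_cases hs : s ∈ Metric.closedBall (0 : EN N) 1
  · exact (hM s hs).trans (le_abs_self M)
  · rw [mem_closedBall_zero_iff, not_le] at hs
    have h1 : q =ᶠ[𝓝 s] fun _ => 0 := by
      filter_upwards [(isOpen_lt continuous_const continuous_norm).mem_nhds hs] with y hy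
      exact hq.supp y (le_of_lt hy)
    rw [h1.fderiv_eq, fderiv_fun_const]
    simp

namespace Setup

variable (S : Setup N)

/-- the L1 form of `ker_up` -/
theorem dTwoRb_ker {δ : ℝ} (hδ : 0 < δ) (hδ' : δ ≤ S.d0) {x : EN N} (hx : x ∈ S.X)
    {b : EN N → C6} (hb : S.L2F b) :
    ∫ s in Metric.ball 0 1, ‖b (S.rho (x + δ • s))‖ ≤
      S.C1 * δ⁻¹ ^ 4 * ∫ z in Metric.closedBall x (S.C1 * δ), ‖b z‖ ∂S.nu := by
  have hC1 : 0 ≤ S.C1 := zero_le_one.trans S.one_le_C1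
  have hbx : Measurable (fun s : EN N => b (S.rho (x + δ • s))) :=
    hb.meas.comp (S.measurable_rho.comp ((measurable_const_smul δ).const_add x))
  have hbi : Integrable b S.nu := hb.memLp.integrable one_le_two
  rw [integral_norm_eq_lintegral_enorm hbx.aestronglyMeasurable,
    integral_norm_eq_lintegral_enorm hb.meas.aestronglyMeasurable]
  have h1 := S.ker_up x hx δ hδ hδ' (fun y => ‖b y‖ₑ) hb.meas.enorm
  have hfin : ∫⁻ z in Metric.closedBall x (S.C1 * δ), ‖b z‖ₑ ∂S.nu < ⊤ :=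
    lt_of_le_of_lt (setLIntegral_le_lintegral _ _) hbi.2
  have h2 : (∫⁻ s in Metric.ball (0 : EN N) 1, ‖b (S.rho (x + δ • s))‖ₑ).toReal ≤
      (ENNReal.ofReal (S.C1 * δ⁻¹ ^ 4) *
        ∫⁻ z in Metric.closedBall x (S.C1 * δ), ‖b z‖ₑ ∂S.nu).toReal :=
    ENNReal.toReal_mono (ENNReal.mul_lt_top ENNReal.ofReal_lt_top hfin).ne h1
  rwa [ENNReal.toReal_mul, ENNReal.toReal_ofReal (by positivity)] at h2

/-- continuity of dTwo (Rb q δ b) x in b for the L1 norm on closedBall x (C1 δ): `fderiv_Rb`,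
`norm_Op_le`-type bound and `ker_up` for the function ‖b‖ -/
theorem abs_dTwo_Rb_le {q : EN N → ℝ} (hq : QF q) {δ : ℝ} (hδ : 0 < δ) (hδ' : δ ≤ S.d0 / 2)
    {x : EN N} (hx : x ∈ S.X) : ∃ C : ℝ, 0 ≤ C ∧ ∀ b : EN N → C6, S.L2F b → ∀ u v w : EN N,
      |dTwo (S.Rb q δ b) x u v w| ≤
        C * ‖u‖ * ‖v‖ * ‖w‖ * ∫ z in Metric.closedBall x (S.C1 * δ), ‖b z‖ ∂S.nu := by
  have hC1 : 0 ≤ S.C1 := zero_le_one.trans S.one_le_C1
  have hd := S.d0_pos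
  obtain ⟨C, hC, hle⟩ := S.norm_Op_le S.ampR S.smooth_ampR
  obtain ⟨M, hM, hMle⟩ := dTwoRb_bound hq
  refine ⟨3 * (δ⁻¹ * (C * M * (S.C1 * δ⁻¹ ^ 4))), by positivity, fun b hb u v w => ?_⟩
  set I : ℝ := ∫ z in Metric.closedBall x (S.C1 * δ), ‖b z‖ ∂S.nu with hI
  have hI0 : 0 ≤ I := integral_nonneg fun z => norm_nonneg _
  have h1 : ‖fderiv ℝ (S.Rb q δ b) x‖ ≤ δ⁻¹ * (C * M * (S.C1 * δ⁻¹ ^ 4)) * I := by
    apply ContinuousLinearMap.opNorm_le_bound _ (by positivity)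
    intro v
    rw [S.fderiv_Rb hq hδ hb x v, norm_smul, norm_neg, Real.norm_eq_abs, abs_of_pos (inv_pos.2 hδ),
      S.Rb_eq_Op]
    have hq' : QF (fun s => fderiv ℝ q s v) := QF_dirs hq [v]
    have h2 := hle (fun s => fderiv ℝ q s v) (M * ‖v‖) hq' (fun s => by
      rw [← Real.norm_eq_abs]
      exact (ContinuousLinearMap.le_opNorm _ _).trans
        (mul_le_mul_of_nonneg_right (hMle s) (norm_nonneg _))) δ hδ hδ' b hb x hx
    have h3 := S.dTwoRb_ker hδ (by linarith) hx hb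
    calc δ⁻¹ * ‖S.Op (fun s => fderiv ℝ q s v) S.ampR δ b x‖
        ≤ δ⁻¹ * (C * (M * ‖v‖) * (S.C1 * δ⁻¹ ^ 4 * I)) := by
          apply mul_le_mul_of_nonneg_left _ (by positivity)
          exact h2.trans (mul_le_mul_of_nonneg_left h3 (by positivity))
      _ = δ⁻¹ * (C * M * (S.C1 * δ⁻¹ ^ 4)) * I * ‖v‖ := by ring
  calc |dTwo (S.Rb q δ b) x u v w| ≤ 3 * ‖fderiv ℝ (S.Rb q δ b) x‖ * ‖u‖ * ‖v‖ * ‖w‖ :=
        abs_dTwo_le _ _ _ _ _
    _ ≤ 3 * (δ⁻¹ * (C * M * (S.C1 * δ⁻¹ ^ 4)) * I) * ‖u‖ * ‖v‖ * ‖w‖ := by gcongr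
    _ = 3 * (δ⁻¹ * (C * M * (S.C1 * δ⁻¹ ^ 4))) * ‖u‖ * ‖v‖ * ‖w‖ * I := by ring

end Setup

end Pool.Agent.W_MP_d8b8b7_gt
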