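import Pool.Agent.W_MP_d8b8b7_gt_G3.Mom
import Pool.Agent.W_MP_d8b8b7_gt.RbAlg

/-!
# Derivatives of the regularisation
-/

namespace Pool.Agent.W_MP_d8b8b7_gt

open MeasureTheory Set Filter Topology
open scoped ContDiff ENNReal

variable {N : ℕ}

namespace Setup

variable (S : Setup N)

/-- the kernel of `Rb` as a jointly smooth family of linear maps -/
noncomputable def RbDeriv_ker (q : EN N → ℝ) (δ : ℝ) (z : EN N × EN N) : Bil N →L[ℝ] Bil N :=
  (δ⁻¹ ^ N * q (δ⁻¹ • (z.2 - z.1))) • Bil.pullL (S.D z.2)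

theorem RbDeriv_smooth_pullL : ContDiff ℝ ∞ (fun y => Bil.pullL (S.D y) :
    EN N → (Bil N →L[ℝ] Bil N)) := by
  rw [contDiff_clm_apply_iff]
  intro b
  exact Bil.contDiff_pull contDiff_const S.smooth_D

theorem RbDeriv_smooth {q : EN N → ℝ} (hq : ContDiff ℝ ∞ q) (δ : ℝ) :
    ContDiff ℝ ∞ (S.RbDeriv_ker q δ) := by
  have hsub : ContDiff ℝ ∞ (fun z : EN N × EN N => z.2 - z.1) := contDiff_snd.sub contDiff_fst
  have hsc : ContDiff ℝ ∞ (fun z : EN N × EN N => δ⁻¹ • (z.2 - z.1)) := hsub.const_smul δ⁻¹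
  have hf : ContDiff ℝ ∞ (fun z : EN N × EN N => δ⁻¹ ^ N * q (δ⁻¹ • (z.2 - z.1))) :=
    contDiff_const.mul (hq.comp hsc)
  exact hf.smul (S.RbDeriv_smooth_pullL.comp contDiff_snd)

theorem RbDeriv_eq (q : EN N → ℝ) {δ : ℝ} (hδ : 0 < δ) (b : EN N → C6) (x : EN N) :
    S.Rb q δ b x = ∫ y, S.RbDeriv_ker q δ (x, y) (S.ex b y) := by
  rw [S.Rb_eq_Op, S.Op_eq_integral S.ampR hδ b x]
  refine integral_congr_ae (Eventually.of_forall fun y => ?_)
  simp only
  rw [S.ampR_apply, add_sub_cancel]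
  rfl

theorem RbDeriv_pdir {q : EN N → ℝ} (hq : ContDiff ℝ ∞ q) (δ : ℝ) (x y v : EN N) :
    pdir (S.RbDeriv_ker q δ) v (x, y) =
      (-δ⁻¹) • S.RbDeriv_ker (fun s => fderiv ℝ q s v) δ (x, y) := by
  rw [← fderiv_fst_apply (S.RbDeriv_smooth hq δ) x y v]
  have h1 : HasFDerivAt (fun x : EN N => δ⁻¹ • (y - x)) (δ⁻¹ • (-ContinuousLinearMap.id ℝ (EN N)))
      x := ((hasFDerivAt_id x).const_sub y).const_smul δ⁻¹
  have h2 : HasFDerivAt q (fderiv ℝ q (δ⁻¹ • (y - x))) (δ⁻¹ • (y - x)) :=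
    (hq.differentiable (by simp) _).hasFDerivAt
  have h3 : HasFDerivAt (fun x : EN N => q (δ⁻¹ • (y - x)))
      ((fderiv ℝ q (δ⁻¹ • (y - x))).comp (δ⁻¹ • (-ContinuousLinearMap.id ℝ (EN N)))) x :=
    HasFDerivAt.comp x h2 h1
  have h4 := (h3.const_mul (δ⁻¹ ^ N)).smul_const (Bil.pullL (S.D y))
  have h5 : fderiv ℝ (fun x => S.RbDeriv_ker q δ (x, y)) x = _ := h4.fderiv
  rw [h5]
  simp only [RbDeriv_ker, ContinuousLinearMap.smulRight_apply, smul_apply,
    ContinuousLinearMap.comp_apply, neg_apply, ContinuousLinearMap.id_apply, map_smul, map_neg,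
    smul_eq_mul, smul_smul]
  congr 1
  ring

/-- With c(y) = pull (D y) (ex b y), integrable on R^N,
Rb q δ b x = ∫ δ^-N q (δ^-1 (y - x)) c(y) dy (change of variables y = x + δ s); differentiate under
the integral sign (dominated by C ‖c(y)‖): the derivative in direction v is
- δ^-1 ∫ δ^-N (∂_v q)(δ^-1 (y - x)) c(y) dy. -/
theorem fderiv_Rb {q : EN N → ℝ} (hq : QF q) {δ : ℝ} (hδ : 0 < δ) {b : EN N → C6}
    (hb : S.L2F b) (x v : EN N) :
    fderiv ℝ (S.Rb q δ b) x v = (-δ⁻¹) • S.Rb (fun s => fderiv ℝ q s v) δ b x := by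
  have h1 : S.Rb q δ b = fun x => ∫ y, S.RbDeriv_ker q δ (x, y) (S.ex b y) := by
    funext x
    exact S.RbDeriv_eq q hδ b x
  rw [h1, paramC_fderiv_apply (E := EN N) (F := EN N) (G := Bil N) (H := Bil N)
    (μ := (volume : Measure (EN N))) (S.RbDeriv_smooth hq.smooth δ) (S.integrable_ex hb)
    S.Ud_bounded (fun y hy => S.ex_zero_of_not_mem hy) x v, S.RbDeriv_eq _ hδ b x,
    ← integral_smul]
  refine integral_congr_ae (Eventually.of_forall fun y => ?_)
  simp only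
  rw [S.RbDeriv_pdir hq.smooth δ x y v]
  rfl

theorem QF_dirs {q : EN N → ℝ} (hq : QF q) (l : List (EN N)) : QF (dirs l q) := by
  induction l with
  | nil => exact hq
  | cons v l ih => exact ih.dir v

theorem Mom_dirs {k : ℕ} {q : EN N → ℝ} (hq : Mom k q) (l : List (EN N)) :
    Mom (k + l.length) (dirs l q) := by
  induction l with
  | nil => exact hq
  | cons v l ih => exact ih.dir v

/-- iterated derivatives of `Rb`: induction on j with `fderiv_Rb` and
`iteratedFDeriv_succ_apply_left` -/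
theorem iteratedFDeriv_Rb {q : EN N → ℝ} (hq : QF q) {δ : ℝ} (hδ : 0 < δ) {b : EN N → C6}
    (hb : S.L2F b) (j : ℕ) (x : EN N) (m : Fin j → EN N) :
    iteratedFDeriv ℝ j (S.Rb q δ b) x m =
      (-δ⁻¹) ^ j • S.Rb (dirs (List.ofFn m) q) δ b x := by
  induction j generalizing x with
  | zero =>
    rw [iteratedFDeriv_zero_apply, pow_zero, one_smul]
    simp [dirs]
  | succ j ih =>
    have hs : ContDiff ℝ ∞ (S.Rb q δ b) := (S.isForm_Rb hq.smooth hδ hb).smooth
    have hd : DifferentiableAt ℝ (iteratedFDeriv ℝ j (S.Rb q δ b)) x :=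
      (hs.differentiable_iteratedFDeriv (m := j) (by exact_mod_cast ENat.natCast_lt_top j)) x
    rw [iteratedFDeriv_succ_apply_left,
      ← fderiv_continuousMultilinear_apply_const_apply hd (Fin.tail m) (m 0)]
    have h1 : (fun y => iteratedFDeriv ℝ j (S.Rb q δ b) y (Fin.tail m)) =
        fun y => (-δ⁻¹) ^ j • S.Rb (dirs (List.ofFn (Fin.tail m)) q) δ b y := by
      funext y
      exact ih y (Fin.tail m)
    have hq' : QF (dirs (List.ofFn (Fin.tail m)) q) := QF_dirs hq _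
    have hs' : ContDiff ℝ ∞ (S.Rb (dirs (List.ofFn (Fin.tail m)) q) δ b) :=
      (S.isForm_Rb hq'.smooth hδ hb).smooth
    have hd' : DifferentiableAt ℝ (S.Rb (dirs (List.ofFn (Fin.tail m)) q) δ b) x :=
      hs'.differentiable (by simp) x
    rw [h1, fderiv_fun_const_smul hd', smul_apply, S.fderiv_Rb hq' hδ hb, smul_smul, ← pow_succ,
      List.ofFn_succ]
    rfl

/-- The norm of a j-linear map is bounded by the sum over the basis vectors; hence the iterated
derivatives of `Rb` are bounded by the sum over all coordinate directions. -/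
theorem norm_iteratedFDeriv_Rb_le {q : EN N → ℝ} (hq : QF q) {δ : ℝ} (hδ : 0 < δ)
    {b : EN N → C6} (hb : S.L2F b) (j : ℕ) (x : EN N) :
    ‖iteratedFDeriv ℝ j (S.Rb q δ b) x‖ ≤ δ⁻¹ ^ j * ∑ f : Fin j → Fin N,
      ‖S.Rb (dirs (List.ofFn fun a => EuclideanSpace.single (f a) (1 : ℝ)) q) δ b x‖ := by
  have hδ' : 0 ≤ δ⁻¹ := (inv_pos.mpr hδ).le
  refine ContinuousMultilinearMap.opNorm_le_bound
    (mul_nonneg (pow_nonneg hδ' j) (Finset.sum_nonneg fun f _ => norm_nonneg _)) fun m => ?_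
  have hm : m = fun a => ∑ i : Fin N, (m a i) • EuclideanSpace.single i (1 : ℝ) := by
    funext a
    ext k
    simp [Pi.single_apply]
  have h1 : iteratedFDeriv ℝ j (S.Rb q δ b) x m = ∑ f : Fin j → Fin N,
      (∏ a, m a (f a)) • iteratedFDeriv ℝ j (S.Rb q δ b) x
        (fun a => EuclideanSpace.single (f a) (1 : ℝ)) := by
    conv_lhs => rw [hm]
    rw [ContinuousMultilinearMap.map_sum]
    refine Finset.sum_congr rfl fun f _ => ?_
    rw [ContinuousMultilinearMap.map_smul_univ]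
  rw [h1, Finset.mul_sum, Finset.sum_mul]
  refine (norm_sum_le _ _).trans (Finset.sum_le_sum fun f _ => ?_)
  rw [norm_smul, S.iteratedFDeriv_Rb hq hδ hb, norm_smul, norm_pow, norm_neg, norm_inv,
    Real.norm_of_nonneg hδ.le]
  have h2 : ‖∏ a, m a (f a)‖ ≤ ∏ a, ‖m a‖ := by
    rw [norm_prod]
    exact Finset.prod_le_prod (fun a _ => norm_nonneg _) fun a _ => PiLp.norm_apply_le (m a) (f a)
  calc ‖∏ a, m a (f a)‖ * (δ⁻¹ ^ j * ‖S.Rb (dirs (List.ofFn fun a =>
        EuclideanSpace.single (f a) (1 : ℝ)) q) δ b x‖)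
      ≤ (∏ a, ‖m a‖) * (δ⁻¹ ^ j * ‖S.Rb (dirs (List.ofFn fun a =>
        EuclideanSpace.single (f a) (1 : ℝ)) q) δ b x‖) :=
        mul_le_mul_of_nonneg_right h2 (mul_nonneg (pow_nonneg hδ' j) (norm_nonneg _))
    _ = _ := by ring

end Setup

end Pool.Agent.W_MP_d8b8b7_gt
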