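import Pool.Agent.W_MP_d8b8b7_gt_G3.RSmooth
import Pool.Agent.W_MP_d8b8b7_gt_G3.RbDeriv

/-!
# Regularisation of the components of a smooth form
-/

namespace Pool.Agent.W_MP_d8b8b7_gt

open MeasureTheory Set Filter Topology
open scoped ContDiff ENNReal

variable {N : ℕ}

namespace Setup

variable (S : Setup N)

/-- For y in Ud: ex (cp β) y = rc (cp β) (rho y) = pull (D (rho y)) (β (rho y)) by `rc_cp`, and
pull (D y) of it is pull (D y) (β (rho y)) by `D_rho_D`. -/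
theorem pull_ex_cp {β : EN N → Bil N} (hβ : ∀ x v, β x v v = 0) {y : EN N} (hy : y ∈ S.Ud) :
    Bil.pull (S.D y) (S.ex (S.cp β) y) = Bil.pull (S.D y) (β (S.rho y)) := by
  have h2 : S.ex (S.cp β) y = S.rc (S.cp β) (S.rho y) := Set.indicator_of_mem hy _
  rw [h2, S.rc_cp (S.rho_mem_X hy) β (hβ _)]
  ext u v
  simp only [Bil.pull_apply]
  rw [S.D_rho_D (S.Ud_subset_U hy), S.D_rho_D (S.Ud_subset_U hy)]

/-- at points of X -/
theorem g3_Rb_cp {q : EN N → ℝ} (hq : QF q) {δ : ℝ} (hδ : 0 < δ) (hδ' : δ ≤ S.d0 / 2)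
    {β : EN N → Bil N} (hβ : ∀ x v, β x v v = 0) {x : EN N} (hx : x ∈ S.X) :
    S.Rb q δ (S.cp β) x = S.R q δ β x := by
  unfold Rb
  refine integral_congr_ae (Eventually.of_forall fun s => ?_)
  show q s • Bil.pull (S.D (x + δ • s)) (S.ex (S.cp β) (x + δ • s)) =
    q s • Bil.pull (S.D (x + δ • s)) (β (S.rho (x + δ • s)))
  rcases lt_or_ge ‖s‖ 1 with hs | hs
  · rw [S.pull_ex_cp hβ (S.rbAlg_mem_Ud hx hδ hδ' hs)]
  · rw [hq.supp s hs, zero_smul, zero_smul]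

/-- near X, if δ < d0 / 2: for y near x in X and ‖s‖ < 1 the point y + δ s is in Ud -/
theorem Rb_cp_eventually {q : EN N → ℝ} (hq : QF q) {δ : ℝ} (hδ : 0 < δ) (hδ' : δ < S.d0 / 2)
    {β : EN N → Bil N} (hβ : ∀ x v, β x v v = 0) {x : EN N} (hx : x ∈ S.X) :
    ∀ᶠ y in 𝓝 x, S.Rb q δ (S.cp β) y = S.R q δ β y := by
  filter_upwards [Metric.ball_mem_nhds x (sub_pos.mpr hδ')] with y hy
  rw [Metric.mem_ball, dist_eq_norm] at hy
  unfold Rb
  refine integral_congr_ae (Eventually.of_forall fun s => ?_)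
  show q s • Bil.pull (S.D (y + δ • s)) (S.ex (S.cp β) (y + δ • s)) =
    q s • Bil.pull (S.D (y + δ • s)) (β (S.rho (y + δ • s)))
  rcases lt_or_ge ‖s‖ 1 with hs | hs
  · have h1 : ‖(y - x) + δ • s‖ < S.d0 / 2 := by
      have h2 : ‖δ • s‖ ≤ δ := by
        rw [norm_smul, Real.norm_eq_abs, abs_of_pos hδ]
        nlinarith [norm_nonneg s]
      have h3 := norm_add_le (y - x) (δ • s)
      linarith
    have h4 : y + δ • s ∈ S.Ud := by
      have h5 := S.add_mem_Ud hx h1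
      have h6 : x + ((y - x) + δ • s) = y + δ • s := by abel
      rwa [h6] at h5
    rw [S.pull_ex_cp hβ h4]
  · rw [hq.supp s hs, zero_smul, zero_smul]

/-- R maps components of exact forms to components of exact forms (on X):
`g3_Rb_cp`, `Geom.dOne_Rone`. -/
theorem cp_Rb_dOne {q : EN N → ℝ} (hq : QF q) {δ : ℝ} (hδ : 0 < δ) (hδ' : δ ≤ S.d0 / 2)
    {α : EN N → Cov N} (hα : IsOne α) {x : EN N} (hx : x ∈ S.X) :
    S.cp (S.Rb q δ (S.cp (dOne α))) x = S.cp (dOne (S.Rone q δ α)) x := by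
  have h1 : S.Rb q δ (S.cp (dOne α)) x = dOne (S.Rone q δ α) x := by
    rw [S.g3_Rb_cp hq hδ hδ' (dOne_isForm hα).alt hx]
    exact (S.dOne_Rone hq δ hα x).symm
  exact congrArg (fun b => comp6 b (fun a => S.fr a x)) h1

/-- `Rb` of the components of a closed form is closed -/
theorem closed_Rb_cp {q : EN N → ℝ} (hq : QF q) {δ : ℝ} (hδ : 0 < δ) (hδ' : δ < S.d0 / 2)
    {β : EN N → Bil N} (hβ : IsForm β) (hc : S.Closed β) : S.Closed (S.Rb q δ (S.cp β)) := by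
  intro x hx u v w hu hv hw
  rw [dTwo_congr (S.Rb_cp_eventually hq hδ hδ' hβ.alt hx) u v w]
  exact S.closed_R hq hδ (by linarith [S.d0_pos]) hβ hc x hx u v w hu hv hw

end Setup

end Pool.Agent.W_MP_d8b8b7_gt
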