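import Pool.Agent.W_MP_d8b8b7_gt_G3.ChartApprox
import Pool.Agent.W_MP_d8b8b7_gt_G3.DTwoRb
import Pool.Agent.W_MP_d8b8b7_gt_G3.ChartRad
import Pool.Agent.W_MP_d8b8b7_gt_G3.RbCp

/-!
# The regularisation of a weakly closed form is closed
-/

namespace Pool.Agent.W_MP_d8b8b7_gt

open MeasureTheory Set Filter Topology
open scoped ContDiff ENNReal

variable {N : ℕ}

theorem closedRb_zero {A M : ℝ} (hA : 0 ≤ A) (hM : 0 ≤ M) (h : ∀ ε : ℝ, 0 < ε → A ≤ M * ε) :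
    A = 0 := by
  rcases eq_or_lt_of_le hA with h0 | h0
  · exact h0.symm
  · exfalso
    have h1 := h (A / (2 * (M + 1))) (by positivity)
    have h2 : M * (A / (2 * (M + 1))) < A := by
      rw [mul_div_assoc', div_lt_iff₀ (by positivity)]
      nlinarith
    linarith

namespace Setup

variable (S : Setup N)

theorem closedRb_L2F_sub {a b : EN N → C6} (ha : S.L2F a) (hb : S.L2F b) : S.L2F (a - b) := by
  have h : a - b = a + (-1 : ℝ) • b := by
    rw [neg_smul, one_smul, sub_eq_add_neg]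
  rw [h]
  exact L2F.add S ha (L2F.smul S hb (-1))

/-- (Q1) With r from `chart_radius` take d1 with d1 < d0/2 and C1 d1 ≤ r.  For x in X choose the
chart of `chart_radius` and β from `chart_approx`; dTwo (Rb q δ (cp β)) x u v w = 0 by
`Rb_cp_eventually`, `dTwo_congr` and `dTwo_R_eq_zero`; Rb and dTwo are additive, so
|dTwo (Rb q δ z) x u v w| = |dTwo (Rb q δ (z - cp β)) x u v w| ≤ C ε by `abs_dTwo_Rb_le`,
because X ∩ closedBall x (C1 δ) ⊆ V ∩ κ⁻¹ ball. -/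
theorem closed_Rb : ∃ d1 : ℝ, 0 < d1 ∧ d1 < S.d0 / 2 ∧ ∀ δ : ℝ, 0 < δ → δ ≤ d1 →
    ∀ q : EN N → ℝ, QF q → ∀ z : EN N → C6, S.L2F z → S.WClosed z → S.Closed (S.Rb q δ z) := by
  obtain ⟨r, hr, hch⟩ := S.chart_radius
  have hC1 : 0 < S.C1 := zero_lt_one.trans_le S.one_le_C1
  have hd := S.d0_pos
  refine ⟨min (S.d0 / 4) (r / S.C1), lt_min (by linarith) (by positivity),
    lt_of_le_of_lt (min_le_left _ _) (by linarith), ?_⟩
  intro δ hδ hδ1 q hq z hz hw x hx u v w hu hv hw'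
  have h1 : δ ≤ S.d0 / 4 := hδ1.trans (min_le_left _ _)
  have h2 : S.C1 * δ ≤ r := by
    have h3 := hδ1.trans (min_le_right _ _)
    rw [le_div_iff₀ hC1] at h3
    linarith
  obtain ⟨C, hC, hle⟩ := S.abs_dTwo_Rb_le hq hδ (by linarith) hx
  obtain ⟨ψ, κ, V, h, σ, hc, hV⟩ := hch x hx
  rw [← abs_eq_zero]
  refine closedRb_zero (M := C * ‖u‖ * ‖v‖ * ‖w‖) (abs_nonneg _) (by positivity) ?_
  intro ε hε
  obtain ⟨β, hβ, hβc, hβi⟩ := S.chart_approx hc hz hw hε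
  have hcpβ : S.L2F (S.cp β) := S.L2F_cp hβ.smooth.continuous
  have hsub : S.L2F (z - S.cp β) := closedRb_L2F_sub S hz hcpβ
  have e1 : S.Rb q δ z = S.Rb q δ (z - S.cp β) + S.Rb q δ (S.cp β) := by
    rw [← S.Rb_add hq.smooth hq.supp hδ hsub hcpβ, sub_add_cancel]
  have e2 : dTwo (S.Rb q δ (S.cp β)) x u v w = 0 := by
    rw [dTwo_congr (S.Rb_cp_eventually hq hδ (by linarith) hβ.alt hx) u v w]
    apply S.dTwo_R_eq_zero hq hδ (by linarith) hβ hx
    intro z' hz' hz'x u' v' w' hu' hv' hw''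
    obtain ⟨g1, g2, -⟩ := hV z' hz' (hz'x.trans h2)
    exact hβc z' hz' g1 g2 u' v' w' hu' hv' hw''
  have e3 : dTwo (S.Rb q δ z) x u v w = dTwo (S.Rb q δ (z - S.cp β)) x u v w := by
    rw [e1, dTwo_add (S.isForm_Rb hq.smooth hδ hsub).smooth
      (S.isForm_Rb hq.smooth hδ hcpβ).smooth, e2, add_zero]
  rw [e3]
  refine (hle _ hsub u v w).trans ?_
  apply mul_le_mul_of_nonneg_left _ (by positivity)
  have hfi : Integrable (fun y => ‖(z - S.cp β) y‖) S.nu :=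
    (hsub.memLp.integrable one_le_two).norm
  have hsets : (Metric.closedBall x (S.C1 * δ) : Set (EN N)) ≤ᵐ[S.nu]
      (V ∩ κ ⁻¹' Metric.ball 0 (1 / 2) : Set (EN N)) := by
    filter_upwards [S.ae_mem_X] with y hy hyb
    have hyb' : ‖y - x‖ ≤ S.C1 * δ := by
      rw [← dist_eq_norm]
      exact hyb
    obtain ⟨g1, g2, -⟩ := hV y hy (hyb'.trans h2)
    exact ⟨g1, g2⟩
  have hmono : ∫ y in Metric.closedBall x (S.C1 * δ), ‖(z - S.cp β) y‖ ∂S.nu ≤
      ∫ y in V ∩ κ ⁻¹' Metric.ball 0 (1 / 2), ‖(z - S.cp β) y‖ ∂S.nu :=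
    setIntegral_mono_set hfi.integrableOn (ae_of_all _ fun y => norm_nonneg _) hsets
  refine hmono.trans ?_
  refine le_trans (le_of_eq ?_) hβi.le
  apply integral_congr_ae
  apply ae_of_all
  intro y
  exact norm_sub_rev _ _

end Setup

end Pool.Agent.W_MP_d8b8b7_gt
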