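import Pool.Agent.W_MP_d8b8b7_gt_G3.OpL2
import Pool.Agent.W_MP_d8b8b7_gt.RbL2

/-!
# Rb p δ b → b in L2 for a profile of integral one
-/

namespace Pool.Agent.W_MP_d8b8b7_gt

open MeasureTheory Set Filter Topology
open scoped ContDiff ENNReal

variable {N : ℕ}

namespace Setup

variable (S : Setup N)

/-- Convergence for continuous fields, uniformly on X: at x in X,
Rb p δ (cp β) x = ∫ p(s) pull (D (x + δ s)) (rc (cp β) (rho (x + δ s))) and
rc (cp β) = pull (D ·) (β ·) on X for alternating β, so the integrand is a uniformly continuous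
function of x + δ s; D (rho y) D y = D y.  The components of pull (D x) (β x) are those of β x. -/
theorem Rb_cont_conv {p : EN N → ℝ} (hp : QF p) (h1 : ∫ s, p s = 1) {β : EN N → Bil N}
    (hβ : Continuous β) (ha : ∀ x v, β x v v = 0) {ε : ℝ} (hε : 0 < ε) :
    ∃ d : ℝ, 0 < d ∧ d ≤ S.d0 / 2 ∧ ∀ δ : ℝ, 0 < δ → δ ≤ d → ∀ x ∈ S.X,
      ‖S.cp (S.Rb p δ (S.cp β)) x - S.cp β x‖ ≤ ε := by
  obtain ⟨d, hd, hd', h⟩ := S.unif_Rb_cp hβ ha hp.smooth.continuous hp.supp ε hε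
  refine ⟨d, hd, hd', fun δ hδ hδ' x hx => ?_⟩
  have h2 := h δ hδ hδ' x hx
  rw [h1, one_smul] at h2
  exact h2

/-- continuous alternating fields are dense in L2: approximate rc b : R^N → Bil N (measurable,
bounded by C ‖b‖ on X, in L2(nu)) by a continuous function with compact support
(`MemLp.exists_hasCompactSupport_eLpNorm_sub_le` or similar), antisymmetrise it
(β ↦ (β - flip β)/2 does not increase the distance to the alternating field rc b), and apply cp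
(bounded by `exists_bound`; cp (rc b) = b on X). -/
theorem dense_cont {b : EN N → C6} (hb : S.L2F b) {ε : ℝ} (hε : 0 < ε) :
    ∃ β : EN N → Bil N, Continuous β ∧ (∀ x v, β x v v = 0) ∧ S.nrm (b - S.cp β) < ε := by
  obtain ⟨β, h1, h2, h3⟩ := S.dense_cp hb (half_pos hε)
  exact ⟨β, h1, h2, h3.trans_lt (half_lt_self hε)⟩

/-- Rb p δ b → b in L2 -/
theorem Rb_conv {p : EN N → ℝ} (hp : QF p) (h1 : ∫ s, p s = 1) {b : EN N → C6}
    (hb : S.L2F b) {ε : ℝ} (hε : 0 < ε) :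
    ∃ d : ℝ, 0 < d ∧ d ≤ S.d0 / 2 ∧ ∀ δ : ℝ, 0 < δ → δ ≤ d →
      S.nrm (S.cp (S.Rb p δ b) - b) < ε := by
  have h2 := S.tendsto_nrm_Rb hb hp.smooth.continuous hp.supp
  rw [h1] at h2
  simp only [one_smul] at h2
  have h3 : ∀ᶠ δ : ℝ in 𝓝[>] 0, S.nrm (S.cp (S.Rb p δ b) - b) < ε :=
    h2.eventually (gt_mem_nhds hε)
  obtain ⟨u, hu, hsub⟩ := mem_nhdsGT_iff_exists_Ioo_subset.1 h3
  have hu0 : (0 : ℝ) < u := hu
  refine ⟨min (u / 2) (S.d0 / 2), lt_min (by linarith) (by linarith [S.d0_pos]),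
    min_le_right _ _, fun δ hδ hδ' => ?_⟩
  exact hsub ⟨hδ, lt_of_le_of_lt (hδ'.trans (min_le_left _ _)) (by linarith)⟩

end Setup

end Pool.Agent.W_MP_d8b8b7_gt
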