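import Pool.Agent.W_MP_d8b8b7_gt_G3.ClosedRb
import Pool.Agent.W_MP_d8b8b7_gt_G3.RbConv

/-!
# Consequences: density, smooth weakly closed forms are closed, closure of the exact forms
-/

namespace Pool.Agent.W_MP_d8b8b7_gt

open MeasureTheory Set Filter Topology
open scoped ContDiff ENNReal

variable {N : ℕ}

/-- averages over small balls converge -/
theorem weak_avg {p : EN N → ℝ} (hp : QF p) (h0 : ∀ s, 0 ≤ p s) (h1 : ∫ s, p s = 1)
    {g : EN N → ℝ} (hg : Continuous g) (x : EN N) {ε : ℝ} (hε : 0 < ε) :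
    ∃ d : ℝ, 0 < d ∧ ∀ δ : ℝ, 0 < δ → δ ≤ d → |(∫ s, p s * g (x + δ • s)) - g x| ≤ ε := by
  obtain ⟨d, hd, hgd⟩ := Metric.continuousAt_iff.1 (hg.continuousAt (x := x)) ε hε
  refine ⟨d / 2, by positivity, fun δ hδ hδd => ?_⟩
  have hpi : Integrable p := hp.integrable
  have hgc : Continuous fun s : EN N => g (x + δ • s) :=
    hg.comp (continuous_const.add (continuous_const_smul δ))
  have hi : Integrable fun s : EN N => p s * g (x + δ • s) := by
    have hcs : HasCompactSupport fun s : EN N => p s * g (x + δ • s) :=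
      hp.hasCompactSupport.mul_right
    exact (hp.smooth.continuous.mul hgc).integrable_of_hasCompactSupport hcs
  have e1 : (∫ s, p s * g (x + δ • s)) - g x = ∫ s, p s * (g (x + δ • s) - g x) := by
    have e2 : (∫ s, p s * g x) = g x := by rw [integral_mul_const, h1, one_mul]
    rw [← e2, ← integral_sub hi (hpi.mul_const _), e2]
    apply integral_congr_ae
    apply ae_of_all
    intro s
    ring
  rw [e1]
  calc |∫ s, p s * (g (x + δ • s) - g x)| ≤ ∫ s, |p s * (g (x + δ • s) - g x)| :=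
        abs_integral_le_integral_abs
    _ ≤ ∫ s, p s * ε := by
        have hi2 : Integrable fun s : EN N => p s * (g (x + δ • s) - g x) := by
          have := hi.sub (hpi.mul_const (g x))
          refine this.congr (ae_of_all _ fun s => ?_)
          simp only [Pi.sub_apply]
          ring
        apply integral_mono hi2.abs (hpi.mul_const ε)
        intro s
        change |p s * (g (x + δ • s) - g x)| ≤ p s * ε
        rw [abs_mul, abs_of_nonneg (h0 s)]
        by_cases hs : 1 ≤ ‖s‖
        · rw [hp.supp s hs, zero_mul, zero_mul]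
        · apply mul_le_mul_of_nonneg_left _ (h0 s)
          rw [not_le] at hs
          have h3 : dist (x + δ • s) x < d := by
            rw [dist_eq_norm, add_sub_cancel_left, norm_smul, Real.norm_eq_abs, abs_of_pos hδ]
            nlinarith
          have h4 := hgd h3
          rw [Real.dist_eq] at h4
          exact h4.le
    _ = ε := by rw [integral_mul_const, h1, one_mul]

namespace Setup

variable (S : Setup N)

/-- closed smooth forms are L2 dense in the weakly closed forms: Rb p δ z, δ → 0 -/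
theorem dense_closed {z : EN N → C6} (hz : S.L2F z) (hw : S.WClosed z) {ε : ℝ} (hε : 0 < ε) :
    ∃ β, IsForm β ∧ S.Closed β ∧ S.nrm (S.cp β - z) < ε := by
  obtain ⟨p, hp, hp0, hp1⟩ := exists_QF_one (N := N)
  obtain ⟨d1, hd1, -, hcl⟩ := S.closed_Rb
  obtain ⟨d, hd, -, hconv⟩ := S.Rb_conv hp hp1 hz hε
  have hδ : 0 < min d1 d := lt_min hd1 hd
  exact ⟨S.Rb p (min d1 d) z, S.isForm_Rb hp.smooth hδ hz,
    hcl _ hδ (min_le_left _ _) p hp z hz hw, hconv _ hδ (min_le_right _ _)⟩

theorem weak_continuous {β : EN N → Bil N} (hβ : IsForm β) (u v w : EN N) :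
    Continuous fun y => dTwo β (S.rho y) (S.D y u) (S.D y v) (S.D y w) := by
  have hρ : Continuous S.rho := S.smooth_rho.continuous
  have hD : Continuous S.D := S.smooth_rho.continuous_fderiv (by simp)
  have hf : Continuous fun y => fderiv ℝ β (S.rho y) :=
    (hβ.smooth.continuous_fderiv (by simp)).comp hρ
  have hu : Continuous fun y => S.D y u := hD.clm_apply continuous_const
  have hv : Continuous fun y => S.D y v := hD.clm_apply continuous_const
  have hw : Continuous fun y => S.D y w := hD.clm_apply continuous_const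
  have key : ∀ {a b c : EN N → EN N}, Continuous a → Continuous b → Continuous c →
      Continuous fun y => fderiv ℝ β (S.rho y) (a y) (b y) (c y) := by
    intro a b c ha hb hc
    have h1 : Continuous fun y => Bil.toCLM (fderiv ℝ β (S.rho y) (a y)) :=
      Bil.toCLM.continuous.comp (hf.clm_apply ha)
    exact (h1.clm_apply hb).clm_apply hc
  unfold dTwo
  exact ((key hu hv hw).sub (key hv hu hw)).add (key hw hu hv)

/-- a smooth weakly closed form is closed: dTwo (R p δ β) x u v w = ∫ p(s) dTwo β (rho (x + δ s)) ... ds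
vanishes for small δ (`closed_Rb`, `Rb_cp_eventually`) and tends to dTwo β x (D x u) (D x v) (D x w) -/
theorem closed_of_wclosed {β : EN N → Bil N} (hβ : IsForm β) (hw : S.WClosed (S.cp β)) :
    S.Closed β := by
  intro x hx u v w hu hv hw'
  have hd0 := S.d0_pos
  obtain ⟨p, hp, hp0, hp1⟩ := exists_QF_one (N := N)
  obtain ⟨d1, hd1, hd1', hcl⟩ := S.closed_Rb
  have hL2 : S.L2F (S.cp β) := S.L2F_cp hβ.smooth.continuous
  set g : EN N → ℝ := fun y => dTwo β (S.rho y) (S.D y u) (S.D y v) (S.D y w) with hg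
  have hgc : Continuous g := S.weak_continuous hβ u v w
  have hgx : g x = dTwo β x u v w := by
    have hu' : S.D x u = u := hu
    have hv' : S.D x v = v := hv
    have hw'' : S.D x w = w := hw'
    rw [hg]
    simp only
    rw [S.rho_fix x hx, hu', hv', hw'']
  rw [← hgx, ← abs_eq_zero]
  refine closedRb_zero (M := 1) (abs_nonneg _) zero_le_one fun ε hε => ?_
  obtain ⟨d, hd, havg⟩ := weak_avg hp hp0 hp1 hgc x hε
  have hδ : 0 < min d1 d := lt_min hd1 hd
  have h1 := havg _ hδ (min_le_right _ _)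
  have h2 : dTwo (S.Rb p (min d1 d) (S.cp β)) x u v w = 0 :=
    hcl _ hδ (min_le_left _ _) p hp _ hL2 hw x hx u v w hu hv hw'
  rw [dTwo_congr (S.Rb_cp_eventually hp hδ (lt_of_le_of_lt (min_le_left _ _) hd1') hβ.alt hx) u v w,
    Geom.dTwo_R _ hp _ hβ] at h2
  have h3 : ∫ s, p s * g (x + (min d1 d) • s) = 0 := h2
  rw [h3, zero_sub, abs_neg] at h1
  linarith

/-- a smooth closed form is weakly closed: the field `stokes` -/
theorem wclosed_of_closed {β : EN N → Bil N} (hβ : IsForm β) (hc : S.Closed β) :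
    S.WClosed (S.cp β) := by
  intro α hα
  exact S.stokes α β hα hβ hc

theorem Ex.B_eq_zero {b z : EN N → C6} (hb : S.Ex b) (hz : S.L2F z) (hw : S.WClosed z) :
    S.B b z = 0 := by
  rw [← abs_eq_zero]
  refine closedRb_zero (M := S.nrm z) (abs_nonneg _) (S.nrm_nonneg z) fun ε hε => ?_
  obtain ⟨α, hα, hlt⟩ := hb.2 ε hε
  have hcp : S.L2F (S.cp (dOne α)) := S.L2F_cp (dOne_isForm hα).smooth.continuous
  have hsub : S.L2F (b - S.cp (dOne α)) := closedRb_L2F_sub S hb.1 hcp
  have e1 : S.B b z = S.B (b - S.cp (dOne α)) z := by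
    have h1 := S.B_add_left hsub hcp hz
    rw [sub_add_cancel, hw α hα, add_zero] at h1
    exact h1
  rw [e1]
  calc |S.B (b - S.cp (dOne α)) z| ≤ S.nrm (b - S.cp (dOne α)) * S.nrm z := S.abs_B_le hsub hz
    _ ≤ ε * S.nrm z := mul_le_mul_of_nonneg_right hlt.le (S.nrm_nonneg z)
    _ = S.nrm z * ε := mul_comm _ _

/-- elements of the closure of the exact forms are weakly closed (exact forms are closed) -/
theorem Ex.wclosed {b : EN N → C6} (hb : S.Ex b) : S.WClosed b := by
  intro α hα
  rw [S.B_comm]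
  apply Ex.B_eq_zero S hb (S.L2F_cp (dOne_isForm hα).smooth.continuous)
  apply S.wclosed_of_closed (dOne_isForm hα)
  intro x _ u v w _ _ _
  exact dTwo_dOne hα x u v w

/-- the regularisation preserves the closure of the exact forms: `cp_Rb_dOne`, `nrm_Rb_le` -/
theorem Ex.Rb {b : EN N → C6} (hb : S.Ex b) {q : EN N → ℝ} (hq : QF q) {δ : ℝ} (hδ : 0 < δ)
    (hδ' : δ ≤ S.d0 / 2) : S.Ex (S.cp (S.Rb q δ b)) := by
  obtain ⟨C, hC, hle⟩ := S.nrm_Rb_le
  obtain ⟨c, hc, hqc⟩ := hq.bounded
  refine ⟨(hle q c hq hqc δ hδ hδ' b hb.1).1, fun ε hε => ?_⟩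
  obtain ⟨α, hα, hlt⟩ := hb.2 (ε / (C * c + 1)) (by positivity)
  have hcp : S.L2F (S.cp (dOne α)) := S.L2F_cp (dOne_isForm hα).smooth.continuous
  have hsub : S.L2F (b - S.cp (dOne α)) := closedRb_L2F_sub S hb.1 hcp
  refine ⟨S.Rone q δ α, S.isOne_Rone hq δ hα, ?_⟩
  have e1 : S.Rb q δ b = S.Rb q δ (b - S.cp (dOne α)) + S.Rb q δ (S.cp (dOne α)) := by
    rw [← S.Rb_add hq.smooth hq.supp hδ hsub hcp, sub_add_cancel]
  have e2 : (S.cp (S.Rb q δ b) - S.cp (dOne (S.Rone q δ α)) : EN N → C6) =ᵐ[S.nu]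
      S.cp (S.Rb q δ (b - S.cp (dOne α))) := by
    filter_upwards [S.ae_mem_X] with x hx
    rw [Pi.sub_apply, e1, S.cp_add, S.cp_Rb_dOne hq hδ hδ' hα hx, add_sub_cancel_right]
  rw [S.nrm_congr e2]
  have h1 := (hle q c hq hqc δ hδ hδ' _ hsub).2
  refine lt_of_le_of_lt h1 ?_
  have h2 : C * c * S.nrm (b - S.cp (dOne α)) ≤ C * c * (ε / (C * c + 1)) :=
    mul_le_mul_of_nonneg_left hlt.le (by positivity)
  refine lt_of_le_of_lt h2 ?_
  rw [mul_div_assoc', div_lt_iff₀ (by positivity)]
  nlinarith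

end Setup

end Pool.Agent.W_MP_d8b8b7_gt
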