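import Pool.Agent.W_MP_d8b8b7_gt_G3.MetricInv
import Pool.Agent.W_MP_d8b8b7_gt_G3.PullD
import Pool.Agent.W_MP_d8b8b7_gt.Alg
import Pool.Agent.W_MP_d8b8b7_gt.AntiL

/-!
# The self-dual projection as a smooth field of operators on bilinear forms

`antiL` and `smooth_antiL` are those of `W_MP_d8b8b7_gt/AntiL.lean`.
-/

namespace Pool.Agent.W_MP_d8b8b7_gt

open MeasureTheory Set Filter Topology
open scoped ContDiff ENNReal

variable {N : ℕ}

namespace Setup

variable (S : Setup N)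

theorem smooth_F : ContDiff ℝ ∞ S.F := S.PtBound_smooth_F

/-- smoothness of a field of operators on Bil N can be tested on fixed forms -/
theorem contDiff_op_iff {E : Type*} [NormedAddCommGroup E] [NormedSpace ℝ E]
    {A : E → (Bil N →L[ℝ] Bil N)} :
    ContDiff ℝ ∞ A ↔ ∀ b : Bil N, ContDiff ℝ ∞ (fun x => A x b) :=
  contDiff_clm_apply_iff

theorem contDiff_pullL {E : Type*} [NormedAddCommGroup E] [NormedSpace ℝ E]
    {A : E → (EN N →L[ℝ] EN N)} (hA : ContDiff ℝ ∞ A) :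
    ContDiff ℝ ∞ (fun x => Bil.pullL (A x)) :=
  contDiff_op_iff.mpr fun b => Bil.contDiff_pull (contDiff_const (c := b)) hA

/-- the operator of `exists_sdField` -/
noncomputable def sdOp (P : EN N → (EN N →L[ℝ] EN N)) (x : EN N) : Bil N →L[ℝ] Bil N :=
  (1 / 4 : ℝ) • (∑ i : Fin N, (Bil.app (S.D x (P x (EuclideanSpace.single i 1)))
    (S.D x (S.J x (EuclideanSpace.single i 1)))).smulRight (S.F x)) +
  (S.antiL x).comp (Bil.pullL (S.D x))

theorem sdOp_apply (P : EN N → (EN N →L[ℝ] EN N)) (x : EN N) (b : Bil N) :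
    S.sdOp P x b = (1 / 4 : ℝ) • ((∑ i : Fin N, b (S.D x (P x (EuclideanSpace.single i 1)))
      (S.D x (S.J x (EuclideanSpace.single i 1)))) • S.F x) +
      S.antiB x (Bil.pull (S.D x) b) := by
  have h1 : S.sdOp P x b = (1 / 4 : ℝ) • ((∑ i : Fin N,
      (Bil.app (S.D x (P x (EuclideanSpace.single i 1)))
      (S.D x (S.J x (EuclideanSpace.single i 1)))).smulRight (S.F x)) b) +
      S.antiL x (Bil.pullL (S.D x) b) := rfl
  rw [h1, _root_.sum_apply, Finset.sum_smul, S.antiL_apply]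
  rfl

theorem sdOp_smooth {P : EN N → (EN N →L[ℝ] EN N)} (hP : ContDiff ℝ ∞ P) :
    ContDiff ℝ ∞ (S.sdOp P) := by
  rw [contDiff_op_iff]
  intro b
  have h0 : (fun x => S.sdOp P x b) = fun x =>
      (1 / 4 : ℝ) • ((∑ i : Fin N, b (S.D x (P x (EuclideanSpace.single i 1)))
      (S.D x (S.J x (EuclideanSpace.single i 1)))) • S.F x) +
      S.antiL x (Bil.pull (S.D x) b) := by
    funext x
    rw [S.sdOp_apply, S.antiL_apply]
  rw [h0]
  have hD := S.smooth_D
  have h1 : ContDiff ℝ ∞ (fun x => ∑ i : Fin N, b (S.D x (P x (EuclideanSpace.single i 1)))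
      (S.D x (S.J x (EuclideanSpace.single i 1)))) := by
    refine ContDiff.sum fun i _ => ?_
    exact Bil.contDiff_apply contDiff_const
      (hD.clm_apply (hP.clm_apply contDiff_const))
      (hD.clm_apply (S.smooth_J.clm_apply contDiff_const))
  have h2 : ContDiff ℝ ∞ (fun x => S.antiL x (Bil.pull (S.D x) b)) :=
    S.smooth_antiL.clm_apply (Bil.contDiff_pull contDiff_const hD)
  exact (contDiff_const_smul' (1 / 4 : ℝ) (h1.smul S.smooth_F)).add h2

/-- the trace term -/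
theorem sdOp_trace {P : EN N → (EN N →L[ℝ] EN N)} {x : EN N} (hx : x ∈ S.X)
    (hP : ∀ v, P x v = ∑ a, inner ℝ (S.fr a x) v • S.fr a x) (b : Bil N) (hb : ∀ v, b v v = 0) :
    ∑ i : Fin N, b (S.D x (P x (EuclideanSpace.single i 1)))
      (S.D x (S.J x (EuclideanSpace.single i 1))) =
      2 * (b (S.fr 0 x) (S.fr 1 x) + b (S.fr 2 x) (S.fr 3 x)) := by
  have h1 : ∀ i : Fin N, b (S.D x (P x (EuclideanSpace.single i 1)))
      (S.D x (S.J x (EuclideanSpace.single i 1))) =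
      ∑ a, b (S.fr a x) (S.J x (S.fr a x i • EuclideanSpace.single i (1 : ℝ))) := by
    intro i
    rw [hP, map_sum, Bil.sum_left]
    refine Finset.sum_congr rfl fun a _ => ?_
    have e1 : inner ℝ (S.fr a x) (EuclideanSpace.single i (1 : ℝ)) = S.fr a x i := by
      rw [EuclideanSpace.inner_single_right]
      simp
    rw [e1, map_smul, S.pt_Dfr hx, S.pt_DJ hx, Bil.smul_left, map_smul, Bil.smul_right]
  rw [Finset.sum_congr rfl fun i _ => h1 i, Finset.sum_comm]
  have h2 : ∀ a : Fin 4, ∑ i : Fin N, b (S.fr a x)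
      (S.J x (S.fr a x i • EuclideanSpace.single i (1 : ℝ))) = b (S.fr a x) (S.J x (S.fr a x)) := by
    intro a
    rw [← Bil.sum_right, ← map_sum]
    congr 2
    ext k
    simp [Pi.single_apply]
  rw [Finset.sum_congr rfl fun a _ => h2 a, Fin.sum_univ_four]
  rw [S.J_fr1 hx, S.J_fr3 hx]
  have e0 : S.J x (S.fr 0 x) = S.fr 1 x := S.fr_J0 x hx
  have e2 : S.J x (S.fr 2 x) = S.fr 3 x := S.fr_J2 x hx
  rw [e0, e2, Bil.neg_right, Bil.neg_right, pt_skew hb (S.fr 1 x) (S.fr 0 x),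
    pt_skew hb (S.fr 3 x) (S.fr 2 x)]
  ring

/-- The self-dual projection: b ↦ (1/4) (∑_i b'(P e_i, J e_i)) F + antiB b', b' = pull (D x) b.
By `half_add_star` the self-dual part of c is pr2 c + (wedge c Fc / 2) Fc and
wedge c Fc = c 0 + c 5 = b(f0, J f0) + b(f2, J f2) = (1/2) ∑_a b(f_a, J f_a) for alternating b
(b(f1, J f1) = - b(f1, f0) = b(f0, f1)), and
∑_i P e_i ⊗ e_i = ∑_a f_a ⊗ f_a, so ∑_i b(P e_i, J e_i) = ∑_a b(f_a, J f_a); `cp_anti`, `cp_F`. -/
theorem exists_sdField : ∃ A : EN N → (Bil N →L[ℝ] Bil N), ContDiff ℝ ∞ A ∧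
    ∀ x ∈ S.X, ∀ b : Bil N,
      A x b = A x (Bil.pull (S.D x) b) ∧ A x b = Bil.pull (S.D x) (A x b) ∧
      ((∀ v, b v v = 0) → (∀ v, A x b v v = 0) ∧
        comp6 (A x b) (fun a => S.fr a x) = sd (comp6 b (fun a => S.fr a x))) := by
  obtain ⟨P, hPs, hP⟩ := S.exists_metric_inv
  refine ⟨S.sdOp P, S.sdOp_smooth hPs, fun x hx b => ?_⟩
  have hDD : ∀ v, S.D x (S.D x v) = S.D x v := fun v => S.D_D hx v
  have hJD : ∀ v, S.J x (S.D x v) = S.J x v := fun v => S.J_D x hx v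
  have hFD : ∀ u v, S.F x (S.D x u) (S.D x v) = S.F x u v := by
    intro u v
    rw [S.pt_F, S.pt_F, hDD, hDD, hJD, hJD]
  refine ⟨?_, ?_, fun hb => ?_⟩
  · rw [S.sdOp_apply, S.sdOp_apply]
    have h1 : Bil.pull (S.D x) (Bil.pull (S.D x) b) = Bil.pull (S.D x) b := by
      ext u v
      simp only [Bil.pull_apply, hDD]
    rw [h1]
    congr 2
    congr 1
    refine Finset.sum_congr rfl fun i _ => ?_
    simp only [Bil.pull_apply, hDD]
  · rw [S.sdOp_apply]
    ext u v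
    simp only [Bil.add_apply, Bil.smul_apply, Bil.pull_apply, hFD, Geom.antiB, Bil.sub_apply,
      Bil.flip_apply, hDD, hJD]
  · have halt : ∀ v, S.sdOp P x b v v = 0 := by
      intro v
      rw [S.sdOp_apply]
      simp only [Bil.add_apply, Bil.smul_apply, Geom.antiB, Bil.sub_apply, Bil.flip_apply,
        S.F_alt hx]
      ring
    refine ⟨halt, ?_⟩
    have hb' : ∀ v, Bil.pull (S.D x) b v v = 0 := fun v => hb _
    have h1 := S.cp_anti hx (fun _ => Bil.pull (S.D x) b) hb'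
    have h2 := S.cp_F hx
    have h3 : S.cp (fun _ => Bil.pull (S.D x) b) x = comp6 b (fun a => S.fr a x) := by
      apply pt_ext6 <;>
      · simp only [cp, pt_comp6_0, pt_comp6_1, pt_comp6_2, pt_comp6_3, pt_comp6_4, pt_comp6_5,
          Bil.pull_apply, S.pt_Dfr hx]
    rw [h3] at h1
    have h4 : comp6 (S.sdOp P x b) (fun a => S.fr a x) =
        ((1 / 4 : ℝ) * (2 * (b (S.fr 0 x) (S.fr 1 x) + b (S.fr 2 x) (S.fr 3 x)))) • S.cp S.F x +
          S.cp (S.anti (fun _ => Bil.pull (S.D x) b)) x := by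
      rw [S.sdOp_apply, S.sdOp_trace hx (hP x hx) b hb]
      have e1 : S.anti (fun _ => Bil.pull (S.D x) b) x = S.antiB x (Bil.pull (S.D x) b) := rfl
      apply pt_ext6 <;>
      · simp only [cp, c6_add, c6_smul, pt_comp6_0, pt_comp6_1, pt_comp6_2, pt_comp6_3, pt_comp6_4,
          pt_comp6_5, Bil.add_apply, Bil.smul_apply, e1]
        ring
    rw [h4, h1, h2]
    have h5 : sd (comp6 b (fun a => S.fr a x)) = pr2 (comp6 b (fun a => S.fr a x)) +
        (wedge (comp6 b (fun a => S.fr a x)) Fc / 2) • Fc := half_add_star _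
    rw [h5, wedge_Fc, add_comm]
    congr 2
    have e0 : comp6 b (fun a => S.fr a x) 0 = b (S.fr 0 x) (S.fr 1 x) := rfl
    have e5 : comp6 b (fun a => S.fr a x) 5 = b (S.fr 2 x) (S.fr 3 x) := rfl
    rw [e0, e5]
    ring

end Setup

end Pool.Agent.W_MP_d8b8b7_gt
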