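import Pool.Agent.W_MP_d8b8b7_gt_G3.NrmB
import Pool.Agent.W_MP_d8b8b7_gt_G3.SdField

/-!
# From `AntiLe` to bounds on the neighbourhood Ud
-/

namespace Pool.Agent.W_MP_d8b8b7_gt

open MeasureTheory Set Filter Topology
open scoped ContDiff ENNReal

variable {N : ℕ}

section abstract_bounds

variable {E F G : Type*} [NormedAddCommGroup E] [NormedSpace ℝ E] [NormedAddCommGroup F]
  [NormedSpace ℝ F] [NormedAddCommGroup G] [NormedSpace ℝ G]

/-- the derivatives of order ≤ k of a smooth map are bounded on bounded sets -/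
theorem ckBound_bdd [ProperSpace E] {f : E → F} (hf : ContDiff ℝ ∞ f) {s : Set E}
    (hs : Bornology.IsBounded s) (k : ℕ) :
    ∃ B : ℝ, 0 ≤ B ∧ ∀ y ∈ s, ∀ j ≤ k, ‖iteratedFDeriv ℝ j f y‖ ≤ B := by
  have hK : IsCompact (closure s) := hs.isCompact_closure
  have h : ∀ j : ℕ, ∃ B : ℝ, 0 ≤ B ∧ ∀ y ∈ s, ‖iteratedFDeriv ℝ j f y‖ ≤ B := by
    intro j
    have hc : Continuous (iteratedFDeriv ℝ j f) :=
      hf.continuous_iteratedFDeriv (m := j) (by exact_mod_cast le_top)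
    obtain ⟨B, hB⟩ := hK.exists_bound_of_continuousOn hc.continuousOn
    exact ⟨|B|, abs_nonneg _, fun y hy => (hB y (subset_closure hy)).trans (le_abs_self _)⟩
  choose B hB0 hB using h
  refine ⟨∑ j ∈ Finset.range (k + 1), B j, Finset.sum_nonneg fun j _ => hB0 j,
    fun y hy j hj => (hB j y hy).trans ?_⟩
  exact Finset.single_le_sum (f := B) (fun i _ => hB0 i) (Finset.mem_range.mpr (by omega))

/-- derivatives of f y (g y) at a point where those of f and g are bounded -/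
theorem ckBound_clm {f : E → F →L[ℝ] G} {g : E → F} (hf : ContDiff ℝ ∞ f)
    (hg : ContDiff ℝ ∞ g) {k : ℕ} {y : E} {A B : ℝ}
    (hA : ∀ j ≤ k, ‖iteratedFDeriv ℝ j f y‖ ≤ A)
    (hB : ∀ j ≤ k, ‖iteratedFDeriv ℝ j g y‖ ≤ B) (j : ℕ) (hj : j ≤ k) :
    ‖iteratedFDeriv ℝ j (fun y => f y (g y)) y‖ ≤ 2 ^ k * A * B := by
  have hA0 : 0 ≤ A := (norm_nonneg _).trans (hA 0 (Nat.zero_le _))
  have hB0 : 0 ≤ B := (norm_nonneg _).trans (hB 0 (Nat.zero_le _))
  refine (norm_iteratedFDeriv_clm_apply hf hg y (n := j) (by exact_mod_cast le_top)).trans ?_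
  have h1 : ∑ i ∈ Finset.range (j + 1),
      ((j.choose i : ℕ) : ℝ) * ‖iteratedFDeriv ℝ i f y‖ * ‖iteratedFDeriv ℝ (j - i) g y‖ ≤
      ∑ i ∈ Finset.range (j + 1), ((j.choose i : ℕ) : ℝ) * (A * B) := by
    refine Finset.sum_le_sum fun i hi => ?_
    rw [mul_assoc]
    have hi' : i ≤ j := Nat.lt_succ_iff.mp (Finset.mem_range.mp hi)
    exact mul_le_mul_of_nonneg_left
      (mul_le_mul (hA i (hi'.trans hj)) (hB (j - i) ((Nat.sub_le _ _).trans hj))
        (norm_nonneg _) hA0) (Nat.cast_nonneg _)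
  refine h1.trans ?_
  rw [← Finset.sum_mul, mul_assoc]
  refine mul_le_mul_of_nonneg_right ?_ (mul_nonneg hA0 hB0)
  have h2 : (∑ i ∈ Finset.range (j + 1), ((j.choose i : ℕ) : ℝ)) = 2 ^ j := by
    exact_mod_cast Nat.sum_range_choose j
  rw [h2]
  exact pow_le_pow_right₀ (by norm_num) hj

/-- derivatives of g ∘ f at a point -/
theorem ckBound_comp {g : F → G} {f : E → F} (hg : ContDiff ℝ ∞ g) (hf : ContDiff ℝ ∞ f)
    {k : ℕ} {y : E} {C D : ℝ} (hD1 : 1 ≤ D) (hC : ∀ j ≤ k, ‖iteratedFDeriv ℝ j g (f y)‖ ≤ C)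
    (hD : ∀ j ≤ k, ‖iteratedFDeriv ℝ j f y‖ ≤ D) (j : ℕ) (hj : j ≤ k) :
    ‖iteratedFDeriv ℝ j (g ∘ f) y‖ ≤ k.factorial * C * D ^ k := by
  have hC0 : 0 ≤ C := (norm_nonneg _).trans (hC 0 (Nat.zero_le _))
  have h := norm_iteratedFDeriv_comp_le hg hf (n := j) (by exact_mod_cast le_top) y (C := C)
    (D := D) (fun i hi => hC i (hi.trans hj)) (fun i hi1 hi => (hD i (hi.trans hj)).trans
      (le_self_pow₀ hD1 (by omega)))
  refine h.trans ?_
  have h1 : ((j.factorial : ℕ) : ℝ) ≤ k.factorial := by exact_mod_cast Nat.factorial_le hj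
  have h2 : D ^ j ≤ D ^ k := pow_le_pow_right₀ hD1 hj
  exact mul_le_mul (mul_le_mul_of_nonneg_right h1 hC0) h2 (by positivity) (by positivity)

theorem ckBound_add_smul {f g : E → F} (hf : ContDiff ℝ ∞ f) (hg : ContDiff ℝ ∞ g) (t : ℝ)
    (y : E) (j : ℕ) :
    ‖iteratedFDeriv ℝ j (fun y => f y + t • g y) y‖ ≤
      ‖iteratedFDeriv ℝ j f y‖ + |t| * ‖iteratedFDeriv ℝ j g y‖ := by
  have hf' : ContDiff ℝ j f := hf.of_le (by exact_mod_cast le_top)
  have hg' : ContDiff ℝ j g := hg.of_le (by exact_mod_cast le_top)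
  have hg2 : ContDiff ℝ j (t • g) := contDiff_const.smul hg'
  have h1 : iteratedFDeriv ℝ j (fun y => f y + t • g y) y =
      iteratedFDeriv ℝ j f y + t • iteratedFDeriv ℝ j g y := by
    have h2 : (fun y => f y + t • g y) = f + t • g := rfl
    rw [h2, iteratedFDeriv_add_apply hf'.contDiffAt hg2.contDiffAt,
      iteratedFDeriv_const_smul_apply hg'.contDiffAt]
  rw [h1]
  refine (norm_add_le _ _).trans (add_le_add le_rfl ?_)
  rw [norm_smul, Real.norm_eq_abs]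

end abstract_bounds

namespace Setup

variable (S : Setup N)

theorem isForm_anti {β : EN N → Bil N} (hβ : ContDiff ℝ ∞ β) : IsForm (S.anti β) := by
  refine ⟨?_, fun x v => ?_⟩
  · exact (S.smooth_antiL).clm_apply hβ
  · simp [Geom.anti, Geom.antiB]

theorem isForm_F : IsForm S.F := by
  refine ⟨S.smooth_F, fun x v => ?_⟩
  simp [Geom.F, Geom.inv, S.om_alt]

/-- u = (fun y => anti β (rho y)) satisfies u = u ∘ rho near every point y of Ud, so its derivatives at y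
are controlled by those at rho y ∈ X (`norm_iteratedFDeriv_comp_le` with g = u, f = rho; the derivatives of
rho are bounded on the bounded set Ud); then multiply by the smooth operators pull (D y). -/
theorem CkUd_anti (k : ℕ) : ∃ C : ℝ, 0 ≤ C ∧ ∀ (β : EN N → Bil N) (c : ℝ), ContDiff ℝ ∞ β →
    S.AntiLe k β c → S.CkUd k (S.anti β) (C * c) := by
  obtain ⟨R, hR0, hR⟩ := ckBound_bdd S.smooth_rho S.Ud_bounded k
  have hPs : ContDiff ℝ ∞ (fun y => Bil.pullL (S.D y)) := contDiff_pullL S.smooth_D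
  obtain ⟨P, hP0, hP⟩ := ckBound_bdd hPs S.Ud_bounded k
  refine ⟨2 ^ k * P * (k.factorial * (R + 1) ^ k), by positivity, fun β c hβ hc => ?_⟩
  intro y hy j hj
  have hg : ContDiff ℝ ∞ (fun y => S.anti β (S.rho y)) := (S.isForm_anti hβ).smooth.comp S.smooth_rho
  have hyX : S.rho y ∈ S.X := S.rho_mem_X hy
  have hcomp : ∀ i ≤ k, ‖iteratedFDeriv ℝ i (fun y => S.anti β (S.rho y)) y‖ ≤
      k.factorial * c * (R + 1) ^ k := by
    intro i hi
    have hev : (fun y => S.anti β (S.rho y)) =ᶠ[𝓝 y] (fun y => S.anti β (S.rho y)) ∘ S.rho := by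
      filter_upwards [S.openU.mem_nhds (S.Ud_subset_U hy)] with z hz
      simp only [Function.comp_apply]
      rw [S.rho_fix _ (S.rho_mem z hz)]
    rw [(hev.iteratedFDeriv ℝ i).eq_of_nhds]
    exact ckBound_comp hg S.smooth_rho (by linarith) (fun i hi => hc _ hyX i hi)
      (fun i hi => (hR y hy i hi).trans (by linarith)) i hi
  have h := ckBound_clm hPs hg (hP y hy) hcomp j hj
  have h2 : 2 ^ k * P * (k.factorial * c * (R + 1) ^ k) =
      2 ^ k * P * (k.factorial * (R + 1) ^ k) * c := by ring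
  rw [← h2]
  exact h

theorem CkUd_F (k : ℕ) : ∃ C : ℝ, 0 ≤ C ∧ S.CkUd k S.F C := by
  have hPs : ContDiff ℝ ∞ (fun y => Bil.pull (S.D y) (S.F (S.rho y))) :=
    Bil.contDiff_pull (S.smooth_F.comp S.smooth_rho) S.smooth_D
  obtain ⟨P, hP0, hP⟩ := ckBound_bdd hPs S.Ud_bounded k
  exact ⟨P, hP0, hP⟩

theorem CkUd.add_smul {k : ℕ} {g h : EN N → Bil N} (hg : ContDiff ℝ ∞ g) (hh : ContDiff ℝ ∞ h)
    {B C : ℝ} (h1 : S.CkUd k g B) (h2 : S.CkUd k h C) (t : ℝ) :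
    S.CkUd k (g + t • h) (B + |t| * C) := by
  intro y hy j hj
  have hgs : ContDiff ℝ ∞ (fun y => Bil.pull (S.D y) (g (S.rho y))) :=
    Bil.contDiff_pull (hg.comp S.smooth_rho) S.smooth_D
  have hhs : ContDiff ℝ ∞ (fun y => Bil.pull (S.D y) (h (S.rho y))) :=
    Bil.contDiff_pull (hh.comp S.smooth_rho) S.smooth_D
  have h := ckBound_add_smul hgs hhs t y j
  exact h.trans (add_le_add (h1 y hy j hj) (mul_le_mul_of_nonneg_left (h2 y hy j hj)
    (abs_nonneg _)))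

/-- order zero: sup bound and L2 bound of the components of the anti-invariant part -/
theorem nrm_cp_anti_le (k : ℕ) : ∃ C : ℝ, 0 ≤ C ∧ ∀ (β : EN N → Bil N) (c : ℝ), ContDiff ℝ ∞ β →
    S.AntiLe k β c → 0 ≤ c ∧ (∀ x ∈ S.X, ‖S.anti β x‖ ≤ c) ∧ S.nrm (S.cp (S.anti β)) ≤ C * c := by
  obtain ⟨C1, hC1, h1⟩ := S.nrm_cp_le
  obtain ⟨C2, hC2, h2⟩ := S.nrmB_le_sup
  refine ⟨C1 * C2, mul_nonneg hC1 hC2, fun β c hβ hc => ?_⟩
  have hsup : ∀ x ∈ S.X, ‖S.anti β x‖ ≤ c := by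
    intro x hx
    have h := hc x hx 0 (Nat.zero_le _)
    rw [norm_iteratedFDeriv_zero, S.rho_fix x hx] at h
    exact h
  have hc0 : 0 ≤ c := by
    obtain ⟨x, hx⟩ := S.neX
    exact (norm_nonneg _).trans (hsup x hx)
  refine ⟨hc0, hsup, ?_⟩
  calc S.nrm (S.cp (S.anti β)) ≤ C1 * S.nrmB (S.anti β) := h1 _ (S.isForm_anti hβ).smooth.continuous
    _ ≤ C1 * (C2 * c) := mul_le_mul_of_nonneg_left (h2 _ c hc0 hsup) hC1
    _ = C1 * C2 * c := by ring

end Setup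

end Pool.Agent.W_MP_d8b8b7_gt
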