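import Pool.Agent.W_MP_d8b8b7_gt.PtBound

/-!
# The support of nu is X
-/

namespace Pool.Agent.W_MP_d8b8b7_gt

open MeasureTheory Set Filter Topology
open scoped ContDiff ENNReal

variable {N : ℕ}

/-- balls around points of X have positive measure: `ker_up` for the constant function 1 -/
theorem Setup.nu_closedBall_ne_zero (S : Setup N) {x : EN N} (hx : x ∈ S.X) {r : ℝ} (hr : 0 < r) :
    S.nu (Metric.closedBall x r) ≠ 0 := by
  have hC : 0 < S.C1 := lt_of_lt_of_le zero_lt_one S.one_le_C1
  set δ : ℝ := min S.d0 (r / S.C1) with hδ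
  have hδ0 : 0 < δ := lt_min S.d0_pos (by positivity)
  have hδ1 : δ ≤ S.d0 := min_le_left _ _
  have hδ2 : S.C1 * δ ≤ r := by
    have h := min_le_right S.d0 (r / S.C1)
    rw [le_div_iff₀ hC] at h
    linarith
  intro h0
  have h1 := S.ker_up x hx δ hδ0 hδ1 (fun _ => 1) measurable_const
  have h2 : S.nu (Metric.closedBall x (S.C1 * δ)) = 0 :=
    measure_mono_null (Metric.closedBall_subset_closedBall hδ2) h0
  simp only [lintegral_const, Measure.restrict_apply MeasurableSet.univ, univ_inter, one_mul,
    h2, mul_zero, nonpos_iff_eq_zero] at h1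
  exact (Metric.measure_ball_pos volume (0 : EN N) zero_lt_one).ne' h1

/-- continuous functions which agree nu-a.e. agree on X: nu (closedBall x r) > 0 for x in X, r > 0,
by `ker_up` applied to the indicator function of closedBall x (C1 δ) (`near`) -/
theorem Setup.eqOn_of_ae (S : Setup N) {F : Type*} [TopologicalSpace F] [T2Space F]
    {f g : EN N → F} (hf : Continuous f) (hg : Continuous g) (h : f =ᵐ[S.nu] g) :
    ∀ x ∈ S.X, f x = g x := by
  intro x hx
  by_contra hne
  have hopen : IsOpen {y | f y ≠ g y} := isOpen_ne_fun hf hg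
  obtain ⟨r, hr, hsub⟩ := Metric.nhds_basis_closedBall.mem_iff.1 (hopen.mem_nhds hne)
  refine S.nu_closedBall_ne_zero hx hr (measure_mono_null hsub ?_)
  exact ae_iff.1 h

end Pool.Agent.W_MP_d8b8b7_gt
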