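import Pool.Agent.W_MP_d8b8b7_gt_G3.LaxAbs
import Pool.Agent.W_MP_d8b8b7_gt_G3.Weak

/-!
# Solution of the elliptic problem in the closure of the exact forms
-/

namespace Pool.Agent.W_MP_d8b8b7_gt

open MeasureTheory Set Filter Topology
open scoped ContDiff ENNReal

variable {N : ℕ}

/-- the self-dual part as a continuous linear map -/
noncomputable def lax_sdL : C6 →L[ℝ] C6 := (1 / 2 : ℝ) • (ContinuousLinearMap.id ℝ C6 + l2_starL)

theorem lax_sdL_apply (a : C6) : lax_sdL a = Setup.sd a := rfl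

theorem lax_inner_star (a b : C6) : inner ℝ a (star6 b) = wedge a b := by
  rw [← wedge_star, star6_star6]

theorem lax_inner_sd_comm (a b : C6) : inner ℝ (Setup.sd a) b = inner ℝ a (Setup.sd b) := by
  have h1 : inner ℝ (star6 a) b = inner ℝ a (star6 b) := by
    rw [real_inner_comm, lax_inner_star, lax_inner_star, wedge_comm]
  unfold Setup.sd
  rw [inner_smul_left, inner_smul_right, inner_add_left, inner_add_right, h1]
  simp

theorem lax_norm_sq (a : C6) : ‖a‖ ^ 2 = 2 * ‖Setup.sd a‖ ^ 2 - wedge a a := by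
  rw [← real_inner_self_eq_norm_sq (Setup.sd a), lax_inner_sd_comm]
  have h1 : Setup.sd (Setup.sd a) = Setup.sd a := by
    unfold Setup.sd
    have h2 : star6 ((1 / 2 : ℝ) • (a + star6 a)) = (1 / 2 : ℝ) • (a + star6 a) := by
      have h3 : l2_starL ((1 / 2 : ℝ) • (a + star6 a)) = (1 / 2 : ℝ) • (l2_starL a + l2_starL (star6 a)) := by
        rw [map_smul, map_add]
      change l2_starL _ = _
      rw [h3]
      change (1 / 2 : ℝ) • (star6 a + star6 (star6 a)) = _
      rw [star6_star6, add_comm]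
    rw [h2, ← two_smul ℝ, smul_smul]
    norm_num
  rw [h1]
  unfold Setup.sd
  rw [inner_smul_right, inner_add_right, lax_inner_star, real_inner_self_eq_norm_sq]
  ring

theorem lax_star_of_sd {a : C6} (h : Setup.sd a = a) : star6 a = a := by
  have h1 : (2 : ℝ) • Setup.sd a = a + star6 a := by
    unfold Setup.sd
    rw [smul_smul]
    norm_num
  rw [h, two_smul] at h1
  exact (add_left_cancel h1).symm

namespace Setup

variable (S : Setup N)

theorem lax_nrm_ae {b b' : EN N → C6} (h : b =ᵐ[S.nu] b') : S.nrm b = S.nrm b' := by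
  unfold nrm
  congr 1
  refine integral_congr_ae ?_
  filter_upwards [h] with x hx
  rw [hx]

theorem lax_norm (f : Lp C6 2 S.nu) : ‖f‖ = S.nrm f := by
  have h1 : ‖f‖ ^ 2 = S.nrm f ^ 2 := by
    rw [← real_inner_self_eq_norm_sq, L2.inner_def, S.nrm_sq]
    refine integral_congr_ae (Eventually.of_forall fun x => ?_)
    exact real_inner_self_eq_norm_sq _
  exact (sq_eq_sq₀ (norm_nonneg _) (S.nrm_nonneg _)).1 h1

/-- classes of components of exact forms -/
noncomputable def laxV : Submodule ℝ (Lp C6 2 S.nu) where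
  carrier := {f | ∃ α : EN N → Cov N, IsOne α ∧ f =ᵐ[S.nu] S.cp (dOne α)}
  add_mem' := by
    rintro f g ⟨α, hα, hf⟩ ⟨β, hβ, hg⟩
    refine ⟨α + β, hα.add hβ, ?_⟩
    have hd : ∀ x, dOne (α + β) x = (dOne α + dOne β) x := by
      intro x
      ext u v
      rw [Pi.add_apply, Bil.add_apply, dOne_apply, dOne_apply, dOne_apply,
        fderiv_add (hα.differentiable (by simp) x) (hβ.differentiable (by simp) x)]
      change (fderiv ℝ α x u v + fderiv ℝ β x u v) - (fderiv ℝ α x v u + fderiv ℝ β x v u) = _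
      ring
    have hd' : dOne (α + β) = dOne α + dOne β := funext hd
    filter_upwards [Lp.coeFn_add f g, hf, hg] with x h1 h2 h3
    rw [h1, Pi.add_apply, h2, h3, hd', S.cp_add]
  zero_mem' := by
    refine ⟨0, contDiff_const, ?_⟩
    have hd : dOne (0 : EN N → Cov N) = (0 : ℝ) • (0 : EN N → Bil N) := by
      funext x
      ext u v
      rw [dOne_apply]
      have h0 : fderiv ℝ (0 : EN N → Cov N) x = 0 := by
        rw [show (0 : EN N → Cov N) = fun _ => 0 from rfl]
        simp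
      rw [h0]
      simp
    filter_upwards [Lp.coeFn_zero C6 2 S.nu] with x h1
    rw [h1, hd, S.cp_smul, zero_smul]
    rfl
  smul_mem' := by
    rintro c f ⟨α, hα, hf⟩
    refine ⟨c • α, contDiff_const.smul hα, ?_⟩
    have hd : dOne (c • α) = c • dOne α := by
      funext x
      ext u v
      rw [Pi.smul_apply, Bil.smul_apply, dOne_apply, dOne_apply,
        fderiv_const_smul (hα.differentiable (by simp) x)]
      change c * fderiv ℝ α x u v - c * fderiv ℝ α x v u = _
      ring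
    filter_upwards [Lp.coeFn_smul c f, hf] with x h1 h2
    rw [h1, Pi.smul_apply, h2, hd, S.cp_smul]

/-- elements of the closure are in `Ex` -/
theorem lax_ex {f : Lp C6 2 S.nu} (hf : f ∈ S.laxV.topologicalClosure) : S.Ex f := by
  refine ⟨⟨(Lp.stronglyMeasurable f).measurable, Lp.memLp f⟩, fun ε hε => ?_⟩
  have h1 : f ∈ closure (S.laxV : Set (Lp C6 2 S.nu)) := by
    rw [← Submodule.topologicalClosure_coe]
    exact hf
  obtain ⟨v, hv, hd⟩ := Metric.mem_closure_iff.1 h1 ε hε
  obtain ⟨α, hα, hvα⟩ := hv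
  refine ⟨α, hα, ?_⟩
  rw [dist_eq_norm, S.lax_norm] at hd
  have h2 : (f - v : Lp C6 2 S.nu) =ᵐ[S.nu] ((f : EN N → C6) - S.cp (dOne α)) := by
    filter_upwards [Lp.coeFn_sub f v, hvα] with x h3 h4
    rw [h3, Pi.sub_apply, Pi.sub_apply, h4]
  rwa [S.lax_nrm_ae h2] at hd

/-- Solution.  H = Lp C6 2 ν, W = closure of {components of exact forms}, P = the self-dual part
(a continuous linear map composed with L2 functions).  For x in W: B(x, x) = 0 (`Ex.B_eq_zero`), so
‖x‖² = 2 B(sd x, x) = 2 ⟨sd x, x⟩ = 2 ‖sd x‖² (`norm_sq_eq_B`-type identity; wedge (sd a) b = ⟨sd a, b⟩,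
⟨sd a, b⟩ = ⟨sd a, sd b⟩).  `lax` with the class of cp g gives b; for all α:
0 = ⟨cp g - sd b, sd (cp (dOne α))⟩ = ⟨cp g - sd b, cp (dOne α)⟩ = B (cp g - sd b) (cp (dOne α)) because
cp g - sd b is self-dual; so it is weakly closed. -/
theorem exists_ell {g : EN N → Bil N} (hg : IsForm g)
    (hs : ∀ x ∈ S.X, sd (S.cp g x) = S.cp g x) :
    ∃ b, S.Ell b g ∧ S.nrm b ≤ 2 * S.nrm (S.cp g) := by
  set P : Lp C6 2 S.nu →L[ℝ] Lp C6 2 S.nu := lax_sdL.compLpL 2 S.nu with hP
  have hPa : ∀ f : Lp C6 2 S.nu, P f =ᵐ[S.nu] fun x => sd (f x) := fun f =>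
    ContinuousLinearMap.coeFn_compLpL lax_sdL f
  set W := S.laxV.topologicalClosure with hW
  have hid : ∀ f ∈ W, ‖f‖ ^ 2 = 2 * ‖P f‖ ^ 2 := by
    intro f hf
    have hex := S.lax_ex hf
    have hB : S.B f f = 0 := Ex.B_eq_zero S hex hex.1 (Ex.wclosed S hex)
    have h1 : ‖f‖ ^ 2 = ∫ x, ‖f x‖ ^ 2 ∂S.nu := by rw [S.lax_norm, S.nrm_sq]
    have h2 : ‖P f‖ ^ 2 = ∫ x, ‖sd (f x)‖ ^ 2 ∂S.nu := by
      rw [S.lax_norm, S.nrm_sq]
      refine integral_congr_ae ?_
      filter_upwards [hPa f] with x hx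
      rw [hx]
    have hi1 : Integrable (fun x => ‖sd (f x)‖ ^ 2) S.nu := by
      have h3 : S.L2F (P f) := ⟨(Lp.stronglyMeasurable _).measurable, Lp.memLp _⟩
      refine (L2F.integrable_sq S h3).congr ?_
      filter_upwards [hPa f] with x hx
      rw [hx]
    rw [h1, h2, ← integral_const_mul]
    have h4 : ∫ x, ‖f x‖ ^ 2 ∂S.nu = ∫ x, (2 * ‖sd (f x)‖ ^ 2 - wedge (f x) (f x)) ∂S.nu :=
      integral_congr_ae (Eventually.of_forall fun x => lax_norm_sq (f x))
    rw [h4, integral_sub (hi1.const_mul 2) (S.integrable_wedge hex.1 hex.1)]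
    change _ - S.B f f = _
    rw [hB, sub_zero]
  have hbd : ∀ f ∈ W, ‖f‖ ≤ 2 * ‖P f‖ := by
    intro f hf
    have h1 := hid f hf
    have h2 := norm_nonneg f
    have h3 := norm_nonneg (P f)
    nlinarith
  have hgL : S.L2F (S.cp g) := S.L2F_cp hg.smooth.continuous
  obtain ⟨b, hb, hb1, hb2⟩ := lax W (Submodule.isClosed_topologicalClosure _) P 2 hbd
    (hgL.memLp.toLp (S.cp g))
  have hgn : ‖hgL.memLp.toLp (S.cp g)‖ = S.nrm (S.cp g) := by
    rw [S.lax_norm, S.lax_nrm_ae hgL.memLp.coeFn_toLp]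
  have hexb := S.lax_ex hb
  refine ⟨b, ⟨hexb, hg, hs, fun α hα => ?_⟩, ?_⟩
  · have hdL : S.L2F (S.cp (dOne α)) := S.L2F_cp (dOne_isForm hα).smooth.continuous
    have hmem : hdL.memLp.toLp (S.cp (dOne α)) ∈ W :=
      S.laxV.le_topologicalClosure ⟨α, hα, hdL.memLp.coeFn_toLp⟩
    have h1 := hb2 _ hmem
    rw [L2.inner_def] at h1
    unfold B
    rw [← h1]
    refine integral_congr_ae ?_
    filter_upwards [S.ae_mem_X, Lp.coeFn_sub (hgL.memLp.toLp (S.cp g)) (P b), hgL.memLp.coeFn_toLp,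
      hPa b, hPa (hdL.memLp.toLp (S.cp (dOne α))), hdL.memLp.coeFn_toLp] with x hx e1 e2 e3 e4 e5
    rw [e1, Pi.sub_apply, e2, e3, e4, e5]
    have hsd : sd (S.cp g x - sd (b x)) = S.cp g x - sd (b x) := by
      have h2 : lax_sdL (S.cp g x - sd (b x)) = lax_sdL (S.cp g x) - lax_sdL (sd (b x)) := map_sub _ _ _
      change lax_sdL (S.cp g x - sd (b x)) = _
      rw [h2]
      change sd (S.cp g x) - sd (sd (b x)) = _
      rw [hs x hx]
      congr 1
      change lax_sdL (lax_sdL (b x)) = lax_sdL (b x)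
      have h5 : ∀ a : C6, sd (sd a) = sd a := by
        intro a
        unfold Setup.sd
        have h2 : star6 ((1 / 2 : ℝ) • (a + star6 a)) = (1 / 2 : ℝ) • (a + star6 a) := by
          have h3 : l2_starL ((1 / 2 : ℝ) • (a + star6 a)) =
              (1 / 2 : ℝ) • (l2_starL a + l2_starL (star6 a)) := by
            rw [map_smul, map_add]
          change l2_starL _ = _
          rw [h3]
          change (1 / 2 : ℝ) • (star6 a + star6 (star6 a)) = _
          rw [star6_star6, add_comm]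
        rw [h2, ← two_smul ℝ, smul_smul]
        norm_num
      exact h5 _
    rw [← lax_inner_sd_comm, hsd, ← lax_inner_star, lax_star_of_sd hsd, real_inner_comm]
  · rw [← S.lax_norm, ← hgn]
    have h1 := hid b hb
    have h2 := norm_nonneg b
    have h3 := norm_nonneg (P b)
    have h4 := norm_nonneg (hgL.memLp.toLp (S.cp g))
    nlinarith

end Setup

end Pool.Agent.W_MP_d8b8b7_gt
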