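import Pool.Agent.W_MP_d8b8b7_gt_G3.Regular
import Pool.Agent.W_MP_d8b8b7_gt_G3.Lax

/-!
# Smooth solution of the elliptic problem
-/

namespace Pool.Agent.W_MP_d8b8b7_gt

open MeasureTheory Set Filter Topology
open scoped ContDiff ENNReal

variable {N : ℕ}

namespace Setup

variable (S : Setup N)

/-- weak closedness only depends on the class almost everywhere -/
theorem smoothEll_wclosed_congr {b b' : EN N → C6} (h : b' =ᵐ[S.nu] b) (hb : S.WClosed b) :
    S.WClosed b' := by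
  intro α hα
  rw [← hb α hα]
  unfold B
  refine integral_congr_ae ?_
  filter_upwards [h] with x hx
  rw [hx]

/-- the L2 norm only depends on the class almost everywhere -/
theorem smoothEll_nrm_congr {b b' : EN N → C6} (h : b' =ᵐ[S.nu] b) : S.nrm b' = S.nrm b := by
  unfold nrm
  congr 1
  refine integral_congr_ae ?_
  filter_upwards [h] with x hx
  rw [hx]

theorem smoothEll_ell_congr {b b' : EN N → C6} {g : EN N → Bil N} (hb' : S.L2F b')
    (h : b' =ᵐ[S.nu] b) (hE : S.Ell b g) : S.Ell b' g := by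
  refine ⟨⟨hb', fun ε hε => ?_⟩, hE.form, hE.self, ?_⟩
  · obtain ⟨α, hα, hα'⟩ := hE.ex.2 ε hε
    refine ⟨α, hα, ?_⟩
    rw [S.smoothEll_nrm_congr (b := b - S.cp (dOne α))]
    · exact hα'
    · filter_upwards [h] with x hx
      rw [Pi.sub_apply, Pi.sub_apply, hx]
  · refine S.smoothEll_wclosed_congr ?_ hE.wcl
    filter_upwards [h] with x hx
    rw [hx]

/-- smooth solution of the elliptic problem with estimate: `exists_ell`, `regular`; closed by
`Ex.wclosed` and `closed_of_wclosed` -/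
theorem exists_smooth_ell : ∃ C : ℝ, 0 ≤ C ∧ ∀ (g : EN N → Bil N) (B : ℝ), IsForm g →
    (∀ x ∈ S.X, sd (S.cp g x) = S.cp g x) → 0 ≤ B → S.CkUd 5 g B → S.nrm (S.cp g) ≤ B →
    ∃ w : EN N → Bil N, IsForm w ∧ S.Closed w ∧ S.Ell (S.cp w) g ∧
      (∀ x ∈ S.X, w x = Bil.pull (S.D x) (w x)) ∧ ∀ x ∈ S.X, ‖w x‖ ≤ C * B := by
  obtain ⟨C, hC, hreg⟩ := S.regular
  refine ⟨2 * C, by positivity, ?_⟩
  intro g B hg hs hB hCk hn
  obtain ⟨b, hb, hnb⟩ := S.exists_ell hg hs
  have hCk2 : S.CkUd 5 g (2 * B) := fun y hy j hj => (hCk y hy j hj).trans (by linarith)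
  obtain ⟨w, hw, hwb, hwp, hwn⟩ := hreg b g (2 * B) hb (by linarith) hCk2
  refine ⟨w, hw, ?_, ?_, hwp, fun x hx => (hwn x hx).trans (le_of_eq (by ring))⟩
  · exact S.closed_of_wclosed hw (S.smoothEll_wclosed_congr hwb (Ex.wclosed S hb.ex))
  · exact S.smoothEll_ell_congr (S.L2F_cp hw.smooth.continuous) hwb hb

end Setup

end Pool.Agent.W_MP_d8b8b7_gt
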