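import Pool.Agent.W_MP_d8b8b7_gt_G3.CorrA
import Pool.Agent.W_MP_d8b8b7_gt_G3.SmoothEll
import Pool.Agent.W_MP_d8b8b7_gt_G3.CkBound
import Pool.Agent.W_MP_d8b8b7_gt_G3.EqAe

/-!
# The correction theorem for b+ = 1
-/

namespace Pool.Agent.W_MP_d8b8b7_gt

open MeasureTheory Set Filter Topology
open scoped ContDiff ENNReal

variable {N : ℕ}

namespace Setup

theorem corrLor_sd_eq (a : C6) : sd a = pr2 a + (wedge a Fc / 2) • Fc := half_add_star a

theorem corrLor_pr2_sd (a : C6) : pr2 (sd a) = pr2 a := by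
  rw [corrLor_sd_eq]
  have h := pr2_linear 1 (wedge a Fc / 2) (pr2 a) Fc
  rw [one_smul, one_smul, pr2_pr2, pr2_Fc, smul_zero, add_zero] at h
  exact h

/-- forms with components pr2 b + t Fc are self-dual -/
theorem corrLor_sd_self (b : C6) (t : ℝ) : sd (pr2 b + t • Fc) = pr2 b + t • Fc := by
  have h := pr2_linear 1 t (pr2 b) Fc
  rw [one_smul, one_smul, pr2_pr2, pr2_Fc, smul_zero, add_zero] at h
  rw [corrLor_sd_eq, h, wedge_Fc]
  congr 2
  simp only [c6_add, c6_smul, pr2_c0, pr2_c5, Fc_c0, Fc_c5]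
  ring

theorem corrLor_star_of_sd {b : C6} (hb : sd b = b) : star6 b = b := by
  have h1 : (1 / 2 : ℝ) • (b + star6 b) = b := hb
  have h2 : b + star6 b = (2 : ℝ) • b := by
    calc b + star6 b = (2 : ℝ) • ((1 / 2 : ℝ) • (b + star6 b)) := by
          rw [smul_smul]
          norm_num
      _ = (2 : ℝ) • b := by rw [h1]
  rw [two_smul] at h2
  exact add_left_cancel h2

theorem corrLor_wedge_sd_left (a : C6) {b : C6} (hb : sd b = b) : wedge (sd a) b = wedge a b := by
  have hs := corrLor_star_of_sd hb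
  have h1 : sd a = (1 / 2 : ℝ) • (a + star6 a) := rfl
  have h2 : wedge (star6 a) b = wedge a b := by
    have e1 : wedge (star6 a) b = inner ℝ b a := by
      rw [wedge_comm, wedge_star]
    have e2 : wedge a b = inner ℝ a b := by
      conv_lhs => rw [← hs]
      exact wedge_star a b
    rw [e1, e2, real_inner_comm]
  rw [h1, wedge_smul_left, wedge_add_left, h2]
  ring

theorem corrLor_wedge_self {a : C6} (ha : sd a = a) : wedge a a = ‖a‖ ^ 2 := by
  have hs := corrLor_star_of_sd ha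
  have e2 : wedge a a = inner ℝ a a := by
    conv_lhs => rw [← hs]
    rw [hs]
    have := wedge_star a a
    rwa [hs] at this
  rw [e2, real_inner_self_eq_norm_sq]

variable (S : Setup N)

theorem corrLor_B_congr {a a' b b' : EN N → C6} (h : ∀ x ∈ S.X, a x = a' x)
    (h' : ∀ x ∈ S.X, b x = b' x) : S.B a b = S.B a' b' := by
  unfold B
  refine integral_congr_ae ?_
  filter_upwards [S.ae_mem_X] with x hx
  rw [h x hx, h' x hx]

/-- B (cp F) (cp om) = 2 ν(X) -/
theorem corrLor_B_F_om : S.B (S.cp S.F) (S.cp S.om) = 2 * (S.nu univ).toReal := by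
  have h1 : S.B (S.cp S.F) (S.cp S.om) = ∫ _x, (2 : ℝ) ∂S.nu := by
    unfold B
    refine integral_congr_ae ?_
    filter_upwards [S.ae_mem_X] with x hx
    rw [S.cp_F hx, wedge_comm, wedge_Fc]
    have h0 : S.cp S.om x 0 = S.om x (S.fr 0 x) (S.fr 1 x) := rfl
    have h5 : S.cp S.om x 5 = S.om x (S.fr 2 x) (S.fr 3 x) := rfl
    rw [h0, h5, ← S.fr_J0 x hx, ← S.fr_J2 x hx]
    have e0 := S.fr_orth x hx 0 0
    have e2 := S.fr_orth x hx 2 2
    rw [if_pos rfl] at e0 e2
    have f0 := S.F_self hx (S.fr 0 x) (S.fr_tan x hx 0)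
    have f2 := S.F_self hx (S.fr 2 x) (S.fr_tan x hx 2)
    rw [← f0, ← f2]
    rw [show S.F x (S.fr 0 x) (S.J x (S.fr 0 x)) = 1 from e0,
      show S.F x (S.fr 2 x) (S.J x (S.fr 2 x)) = 1 from e2]
    norm_num
  rw [h1, integral_const, smul_eq_mul, mul_comm]
  rfl

theorem corrLor_cp_zero_of_ae {h : EN N → Bil N} (hh : IsForm h) (hae : S.cp h =ᵐ[S.nu] 0) :
    ∀ x ∈ S.X, S.cp h x = 0 := by
  have hc1 : Continuous (fun x => Bil.pull (S.D x) (h x)) :=
    (Bil.contDiff_pull hh.smooth S.smooth_D).continuous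
  have hae2 : (fun x => Bil.pull (S.D x) (h x)) =ᵐ[S.nu] fun _ => (0 : Bil N) := by
    filter_upwards [hae, S.ae_mem_X] with x hx hxX
    rw [← S.rc_cp hxX h (hh.alt x)]
    ext u v
    rw [S.rc_apply]
    have hx' : S.cp h x = 0 := hx
    rw [hx']
    simp only [c6_zero, Bil.zero_apply]
    ring
  have hX := S.eqOn_of_ae hc1 continuous_const hae2
  intro x hx
  have h0 : ∀ a b : Fin 4, h x (S.fr a x) (S.fr b x) = 0 := by
    intro a b
    have h1 : Bil.pull (S.D x) (h x) (S.fr a x) (S.fr b x) = 0 := by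
      rw [hX x hx]
      rfl
    rw [Bil.pull_apply, S.pt_Dfr hx, S.pt_Dfr hx] at h1
    exact h1
  apply pt_ext6
  · exact h0 0 1
  · exact h0 0 2
  · exact h0 0 3
  · exact h0 1 2
  · exact h0 1 3
  · exact h0 2 3

/-- (G3), second form, before exactness.  g = anti β + t F with t = - B (cp (anti β)) (cp om) /
B (cp F) (cp om), B (cp F) (cp om) = ∫ wedge Fc (cp om) = ∫ wedge Fc Fc = 2 ν(X) > 0
(cp om = Fc + pr2 (cp om)), |t| ≤ C c.  w from `exists_smooth_ell`, v its self-dual part, h = g - v smooth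
closed.  B (cp h) (cp om) = B (cp g) (cp om) - B (sd (cp w)) (cp om) = 0 - B (cp w) (cp om) = 0 (om is self-dual:
wedge (sd a) (cp om) = wedge a (cp om); w is in the closure of exact forms and om is closed).
`Lor` for h: ∫ ‖cp h‖² · pair om om ≤ 0, so cp h = 0 a.e.; g and v are tangential and continuous, so
g = v on X (`eqOn_of_ae`), and pr2 (cp w) = pr2 (cp v) = pr2 (cp g) = pr2 (cp β). -/
theorem correction_lor_aux (hL : S.Lor) : ∃ (k : ℕ) (C : ℝ), ∀ β, IsForm β →
    ∀ c, S.AntiLe k β c →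
    ∃ w, IsForm w ∧ S.Closed w ∧ S.Ex (S.cp w) ∧ (∀ x ∈ S.X, S.anti w x = S.anti β x) ∧
      ∀ z ∈ S.X1, |S.ev w z| ≤ C * c := by
  obtain ⟨C1, hC1, hck1⟩ := S.CkUd_anti 5
  obtain ⟨C2, hC2, hck2⟩ := S.CkUd_F 5
  obtain ⟨C3, hC3, hn3⟩ := S.nrm_cp_anti_le 5
  obtain ⟨C4, hC4, hell⟩ := S.exists_smooth_ell
  obtain ⟨Cb, hCb, hbX, _, hbX1⟩ := S.exists_bound
  have hM : 0 < 2 * (S.nu univ).toReal := by
    have h1 : 0 < (S.nu univ).toReal := ENNReal.toReal_pos S.nu_pos.ne' (measure_ne_top _ _)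
    linarith
  set M : ℝ := 2 * (S.nu univ).toReal with hMdef
  have hFomB : S.B (S.cp S.F) (S.cp S.om) = M := S.corrLor_B_F_om
  have hFf : IsForm S.F := S.isForm_F
  have homf : IsForm S.om := ⟨S.smooth_om, S.om_alt⟩
  have hL2om : S.L2F (S.cp S.om) := S.L2F_cp homf.smooth.continuous
  have hL2F : S.L2F (S.cp S.F) := S.L2F_cp hFf.smooth.continuous
  set T : ℝ := C3 * S.nrm (S.cp S.om) / M with hT
  have hnom := S.nrm_nonneg (S.cp S.om)
  have hnF := S.nrm_nonneg (S.cp S.F)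
  have hT0 : 0 ≤ T := by positivity
  set K : ℝ := C1 + T * C2 + C3 + T * S.nrm (S.cp S.F) with hK
  have hK0 : 0 ≤ K := by positivity
  refine ⟨5, C4 * K * Cb ^ 3, fun β hβ c hc => ?_⟩
  obtain ⟨hc0, _, hn0⟩ := hn3 β c hβ.smooth hc
  -- the form g
  set g0 : EN N → Bil N := S.anti β with hg0
  have hg0f : IsForm g0 := S.isForm_anti hβ.smooth
  have hL2g0 : S.L2F (S.cp g0) := S.L2F_cp hg0f.smooth.continuous
  set t : ℝ := - S.B (S.cp g0) (S.cp S.om) / M with ht
  have htle : |t| ≤ T * c := by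
    have h1 : |S.B (S.cp g0) (S.cp S.om)| ≤ C3 * c * S.nrm (S.cp S.om) :=
      (S.abs_B_le hL2g0 hL2om).trans (mul_le_mul_of_nonneg_right hn0 hnom)
    rw [ht, abs_div, abs_neg, abs_of_pos hM, hT, div_mul_eq_mul_div]
    refine div_le_div_of_nonneg_right ?_ hM.le
    calc |S.B (S.cp g0) (S.cp S.om)| ≤ C3 * c * S.nrm (S.cp S.om) := h1
      _ = C3 * S.nrm (S.cp S.om) * c := by ring
  set g : EN N → Bil N := g0 + t • S.F with hgdef
  have hgf : IsForm g := hg0f.add (hFf.smul t)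
  have hcpg : ∀ x, S.cp g x = S.cp g0 x + t • S.cp S.F x := by
    intro x
    rw [hgdef, S.cp_add, S.cp_smul]
  have hcpgX : ∀ x ∈ S.X, S.cp g x = pr2 (S.cp β x) + t • Fc := by
    intro x hx
    rw [hcpg, S.cp_F hx, hg0, S.cp_anti hx β (hβ.alt x)]
  have hself : ∀ x ∈ S.X, sd (S.cp g x) = S.cp g x := by
    intro x hx
    rw [hcpgX x hx]
    exact corrLor_sd_self _ _
  have hcpg' : S.cp g = S.cp g0 + t • S.cp S.F := funext hcpg
  have hL2g : S.L2F (S.cp g) := S.L2F_cp hgf.smooth.continuous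
  have hKc : 0 ≤ K * c := mul_nonneg hK0 hc0
  have hck : S.CkUd 5 g (K * c) := by
    have h1 := CkUd.add_smul S hg0f.smooth hFf.smooth (hck1 β c hβ.smooth hc) hck2 t
    intro y hy j hj
    refine (h1 y hy j hj).trans ?_
    have h2 : |t| * C2 ≤ T * c * C2 := mul_le_mul_of_nonneg_right htle hC2
    have h3 : 0 ≤ C3 * c := mul_nonneg hC3 hc0
    have h4 : 0 ≤ T * S.nrm (S.cp S.F) * c := by positivity
    rw [hK]
    nlinarith
  have hnrm : S.nrm (S.cp g) ≤ K * c := by
    rw [hcpg']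
    have h1 := S.nrm_add_le hL2g0 (L2F.smul S hL2F t)
    rw [S.nrm_smul] at h1
    refine h1.trans ?_
    have h2 : |t| * S.nrm (S.cp S.F) ≤ T * c * S.nrm (S.cp S.F) :=
      mul_le_mul_of_nonneg_right htle hnF
    have h3 : 0 ≤ C1 * c := mul_nonneg hC1 hc0
    have h4 : 0 ≤ T * C2 * c := by positivity
    rw [hK]
    nlinarith
  obtain ⟨w, hw, hwc, hwe, _, hwb⟩ := hell g (K * c) hgf hself hKc hck hnrm
  refine ⟨w, hw, hwc, hwe.ex, ?_, ?_⟩
  · -- the anti-invariant parts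
    obtain ⟨v, hv, hvcp, _⟩ := S.exists_sd_form hw
    set h : EN N → Bil N := g + (-1 : ℝ) • v with hh
    have hhf : IsForm h := hgf.add (hv.smul (-1))
    have hcph : ∀ x, S.cp h x = S.cp g x - S.cp v x := by
      intro x
      rw [hh, S.cp_add, S.cp_smul, neg_one_smul, sub_eq_add_neg]
    have hcphX : ∀ x ∈ S.X, S.cp h x = S.cp g x - sd (S.cp w x) := by
      intro x hx
      rw [hcph, hvcp x hx]
    have hwh : S.WClosed (S.cp h) := by
      intro α hα
      rw [← hwe.wcl α hα]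
      exact S.corrLor_B_congr (fun _ _ => rfl) hcphX
    have hhc : S.Closed h := S.closed_of_wclosed hhf hwh
    have hL2h : S.L2F (S.cp h) := S.L2F_cp hhf.smooth.continuous
    have hL2w : S.L2F (S.cp w) := S.L2F_cp hw.smooth.continuous
    have homc : S.WClosed (S.cp S.om) := S.wclosed_of_closed homf S.om_closed
    have hBw : S.B (S.cp w) (S.cp S.om) = 0 := hwe.ex.B_eq_zero S hL2om homc
    have hBg : S.B (S.cp g) (S.cp S.om) = 0 := by
      rw [hcpg', S.B_add_left hL2g0 (L2F.smul S hL2F t) hL2om, S.B_smul_left, hFomB, ht,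
        div_mul_cancel₀ _ hM.ne']
      ring
    have hBsum : S.B (S.cp h) (S.cp S.om) + S.B (S.cp w) (S.cp S.om) =
        S.B (S.cp g) (S.cp S.om) := by
      rw [← S.B_add_left hL2h hL2w hL2om]
      unfold B
      refine integral_congr_ae ?_
      filter_upwards [S.ae_mem_X] with x hx
      show wedge (S.cp h x + S.cp w x) (S.cp S.om x) = wedge (S.cp g x) (S.cp S.om x)
      rw [wedge_add_left]
      have h1 : wedge (sd (S.cp w x)) (S.cp S.om x) = wedge (S.cp w x) (S.cp S.om x) :=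
        corrLor_wedge_sd_left _ (S.sd_cp_om hx)
      rw [← h1, ← wedge_add_left, hcphX x hx, sub_add_cancel]
    have hBh : S.B (S.cp S.om) (S.cp h) = 0 := by
      rw [S.B_comm]
      linarith
    have hlor := hL h hhf hhc
    have hpo : S.pair S.om h = 0 := hBh
    rw [hpo] at hlor
    have hpp : S.pair h h ≤ 0 := by
      by_contra hcon
      push Not at hcon
      have := mul_pos hcon S.pair_om_pos
      linarith
    have hsdh : ∀ x ∈ S.X, sd (S.cp h x) = S.cp h x := by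
      intro x hx
      have h1 : S.cp h x = pr2 (S.cp β x - S.cp w x) +
          (t - wedge (S.cp w x) Fc / 2) • Fc := by
        rw [hcphX x hx, hcpgX x hx, corrLor_sd_eq, sub_smul]
        have h2 := pr2_linear 1 (-1) (S.cp β x) (S.cp w x)
        rw [one_smul, one_smul, neg_one_smul, neg_one_smul, ← sub_eq_add_neg,
          ← sub_eq_add_neg] at h2
        rw [h2]
        abel
      rw [h1]
      exact corrLor_sd_self _ _
    have hnn : S.nrm (S.cp h) ^ 2 = S.pair h h := by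
      rw [S.nrm_sq]
      unfold pair B
      refine integral_congr_ae ?_
      filter_upwards [S.ae_mem_X] with x hx
      exact (corrLor_wedge_self (hsdh x hx)).symm
    have hn0 : S.nrm (S.cp h) = 0 := by
      have h1 := sq_nonneg (S.nrm (S.cp h))
      have h2 : S.nrm (S.cp h) ^ 2 = 0 := le_antisymm (hnn.trans_le hpp) h1
      exact pow_eq_zero_iff (two_ne_zero) |>.mp h2
    have hae : S.cp h =ᵐ[S.nu] 0 := (S.nrm_zero_iff hL2h).mp hn0
    have hzero := S.corrLor_cp_zero_of_ae hhf hae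
    intro x hx
    refine S.anti_eq_of_pr2 hx (hw.alt x) (hβ.alt x) ?_
    have h1 : S.cp g x = S.cp v x := by
      have h2 := hzero x hx
      rw [hcph] at h2
      exact sub_eq_zero.mp h2
    have h3 : pr2 (S.cp w x) = pr2 (S.cp g x) := by
      rw [h1, hvcp x hx, corrLor_pr2_sd]
    rw [h3, hcpgX x hx]
    have h4 := pr2_linear 1 t (pr2 (S.cp β x)) Fc
    rw [one_smul, one_smul, pr2_pr2, pr2_Fc, smul_zero, add_zero] at h4
    exact h4
  · -- the bound
    intro z hz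
    have hzX : z.1 ∈ S.X := hz.1
    have h1 : |w z.1 z.2 (S.J z.1 z.2)| ≤ ‖w z.1‖ * ‖z.2‖ * ‖S.J z.1 z.2‖ :=
      Bil.abs_apply_le _ _ _
    have h2 : ‖z.2‖ ≤ Cb := hbX1 z hz
    have h3 : ‖S.J z.1 z.2‖ ≤ Cb * Cb := by
      refine ((S.J z.1).le_opNorm z.2).trans ?_
      exact mul_le_mul (hbX z.1 hzX).1 h2 (norm_nonneg _) (by linarith)
    have h4 : ‖w z.1‖ ≤ C4 * (K * c) := hwb z.1 hzX
    have hw0 : 0 ≤ C4 * (K * c) := mul_nonneg hC4 hKc
    calc |S.ev w z| ≤ ‖w z.1‖ * ‖z.2‖ * ‖S.J z.1 z.2‖ := h1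
      _ ≤ C4 * (K * c) * Cb * (Cb * Cb) := by
        refine mul_le_mul (mul_le_mul h4 h2 (norm_nonneg _) hw0) h3 (norm_nonneg _) ?_
        exact mul_nonneg hw0 (by linarith)
      _ = C4 * K * Cb ^ 3 * c := by ring

end Setup

end Pool.Agent.W_MP_d8b8b7_gt
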