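import Pool.Agent.W_MP_d8b8b7_gt_G3.Chart

/-!
# Change of variables in charts
-/

namespace Pool.Agent.W_MP_d8b8b7_gt

open MeasureTheory Set Filter Topology
open scoped ContDiff ENNReal

variable {N : ℕ}

namespace IsChart

variable {S : Setup N} {ψ : EN 4 → EN N} {κ : EN N → EN 4} {V : Set (EN N)} {h : EN 4 → ℝ} {σ : ℝ}

/-- the measure nu on V is the push forward of h(y) dy on the ball -/
theorem restrict_eq (hc : IsChart S.toGeom S.nu S.fr ψ κ V h σ) :
    S.nu.restrict V = Measure.map ψ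
      ((volume.restrict (Metric.ball (0 : EN 4) 1)).withDensity (fun y => ENNReal.ofReal (h y))) := by
  have hψ : Measurable ψ := hc.smooth_psi.continuous.measurable
  refine Measure.ext fun s hs => ?_
  rw [Measure.map_apply hψ hs, withDensity_apply _ (hψ hs)]
  have h1 := hc.lint (s.indicator (1 : EN N → ℝ≥0∞)) (measurable_one.indicator hs)
  rw [lintegral_indicator_one hs] at h1
  rw [h1, ← lintegral_indicator (hψ hs)]
  refine lintegral_congr fun y => ?_
  by_cases hy : ψ y ∈ s
  · have hy' : y ∈ ψ ⁻¹' s := hy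
    rw [indicator_of_mem hy, indicator_of_mem hy', Pi.one_apply, one_mul]
  · have hy' : y ∉ ψ ⁻¹' s := hy
    rw [indicator_of_notMem hy, indicator_of_notMem hy', zero_mul]

theorem measurable_dens (hc : IsChart S.toGeom S.nu S.fr ψ κ V h σ) :
    Measurable fun y => ENNReal.ofReal (h y) :=
  hc.smooth_h.continuous.measurable.ennreal_ofReal

/-- change of variables for Bochner integrals (both sides are 0 if f is not integrable) -/
theorem integral_eq (hc : IsChart S.toGeom S.nu S.fr ψ κ V h σ) {f : EN N → ℝ}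
    (hf : Measurable f) :
    ∫ x in V, f x ∂S.nu = ∫ y in Metric.ball (0 : EN 4) 1, h y * f (ψ y) := by
  have hψ : Measurable ψ := hc.smooth_psi.continuous.measurable
  rw [hc.restrict_eq, integral_map hψ.aemeasurable hf.aestronglyMeasurable,
    integral_withDensity_eq_integral_toReal_smul hc.measurable_dens
      (Eventually.of_forall fun _ => ENNReal.ofReal_lt_top)]
  refine setIntegral_congr_fun Metric.isOpen_ball.measurableSet fun y hy => ?_
  show (ENNReal.ofReal (h y)).toReal • f (ψ y) = h y * f (ψ y)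
  rw [ENNReal.toReal_ofReal (hc.h_pos y hy).le, smul_eq_mul]

theorem integrableOn_iff (hc : IsChart S.toGeom S.nu S.fr ψ κ V h σ) {f : EN N → ℝ}
    (hf : Measurable f) :
    IntegrableOn f V S.nu ↔ IntegrableOn (fun y => h y * f (ψ y)) (Metric.ball (0 : EN 4) 1) := by
  have hψ : Measurable ψ := hc.smooth_psi.continuous.measurable
  rw [IntegrableOn, hc.restrict_eq, integrable_map_measure hf.aestronglyMeasurable hψ.aemeasurable,
    integrable_withDensity_iff_integrable_smul' hc.measurable_dens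
      (Eventually.of_forall fun _ => ENNReal.ofReal_lt_top)]
  refine integrable_congr ?_
  refine (ae_restrict_iff' Metric.isOpen_ball.measurableSet).2 (Eventually.of_forall fun y hy => ?_)
  show (ENNReal.ofReal (h y)).toReal • f (ψ y) = h y * f (ψ y)
  rw [ENNReal.toReal_ofReal (hc.h_pos y hy).le, smul_eq_mul]

/-- the same on smaller balls: apply `integral_eq` to the indicator of κ⁻¹(ball 0 r) times f -/
theorem integral_ball_eq (hc : IsChart S.toGeom S.nu S.fr ψ κ V h σ) {f : EN N → ℝ}
    (hf : Measurable f) {r : ℝ} (hr : r ≤ 1) :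
    ∫ x in V ∩ κ ⁻¹' Metric.ball 0 r, f x ∂S.nu = ∫ y in Metric.ball (0 : EN 4) r, h y * f (ψ y) := by
  have hm : MeasurableSet (κ ⁻¹' Metric.ball 0 r) :=
    hc.smooth_kap.continuous.measurable Metric.isOpen_ball.measurableSet
  have h1 : Metric.ball (0 : EN 4) 1 ∩ Metric.ball 0 r = Metric.ball 0 r :=
    inter_eq_right.2 (Metric.ball_subset_ball hr)
  have h3 : ∫ y in Metric.ball (0 : EN 4) r, h y * f (ψ y) =
      ∫ y in Metric.ball (0 : EN 4) 1 ∩ Metric.ball 0 r, h y * f (ψ y) := by rw [h1]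
  rw [← setIntegral_indicator hm, hc.integral_eq (hf.indicator hm), h3,
    ← setIntegral_indicator Metric.isOpen_ball.measurableSet]
  refine setIntegral_congr_fun Metric.isOpen_ball.measurableSet fun y hy => ?_
  show h y * (κ ⁻¹' Metric.ball 0 r).indicator f (ψ y) =
    (Metric.ball 0 r).indicator (fun y => h y * f (ψ y)) y
  by_cases hy' : y ∈ Metric.ball (0 : EN 4) r
  · have h2 : ψ y ∈ κ ⁻¹' Metric.ball 0 r := by
      rw [mem_preimage, hc.kap_psi y hy]
      exact hy'
    rw [indicator_of_mem h2, indicator_of_mem hy']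
  · have h2 : ψ y ∉ κ ⁻¹' Metric.ball 0 r := by
      rw [mem_preimage, hc.kap_psi y hy]
      exact hy'
    rw [indicator_of_notMem h2, indicator_of_notMem hy', mul_zero]

/-- on smaller balls h is bounded below: a nonnegative integrable function on X pulls back to an
integrable function, with bound -/
theorem integral_pull_le (hc : IsChart S.toGeom S.nu S.fr ψ κ V h σ) {r : ℝ} (hr : r < 1) :
    ∃ C : ℝ, 0 ≤ C ∧ ∀ f : EN N → ℝ, Measurable f → (∀ x, 0 ≤ f x) → Integrable f S.nu →
      IntegrableOn (fun y => f (ψ y)) (Metric.ball (0 : EN 4) r) ∧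
      ∫ y in Metric.ball (0 : EN 4) r, f (ψ y) ≤ C * ∫ x, f x ∂S.nu := by
  rcases le_or_gt r 0 with h0 | h0
  · refine ⟨0, le_rfl, fun f _ _ _ => ?_⟩
    rw [Metric.ball_eq_empty.2 h0]
    simp
  have hψ : Measurable ψ := hc.smooth_psi.continuous.measurable
  obtain ⟨y0, hy0, hmin⟩ := (isCompact_closedBall (0 : EN 4) r).exists_isMinOn
    ⟨0, Metric.mem_closedBall_self h0.le⟩ hc.smooth_h.continuous.continuousOn
  have hm : 0 < h y0 := hc.h_pos y0 (Metric.closedBall_subset_ball hr hy0)
  have hb : ∀ y ∈ Metric.ball (0 : EN 4) r, h y0 ≤ h y := fun y hy =>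
    hmin (Metric.ball_subset_closedBall hy)
  refine ⟨(h y0)⁻¹, (inv_pos.2 hm).le, fun f hf hf0 hfi => ?_⟩
  have hsub : Metric.ball (0 : EN 4) r ⊆ Metric.ball 0 1 := Metric.ball_subset_ball hr.le
  have hi1 : IntegrableOn (fun y => h y * f (ψ y)) (Metric.ball (0 : EN 4) 1) :=
    (hc.integrableOn_iff hf).1 hfi.integrableOn
  have hi2 : IntegrableOn (fun y => h y * f (ψ y)) (Metric.ball (0 : EN 4) r) := hi1.mono_set hsub
  have hle : ∀ y ∈ Metric.ball (0 : EN 4) r, f (ψ y) ≤ (h y0)⁻¹ * (h y * f (ψ y)) := by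
    intro y hy
    rw [← mul_assoc]
    refine le_mul_of_one_le_left (hf0 _) ?_
    rw [inv_mul_eq_div, one_le_div hm]
    exact hb y hy
  have hi3 : IntegrableOn (fun y => f (ψ y)) (Metric.ball (0 : EN 4) r) := by
    refine Integrable.mono' (hi2.const_mul (h y0)⁻¹) (hf.comp hψ).aestronglyMeasurable ?_
    refine (ae_restrict_iff' Metric.isOpen_ball.measurableSet).2 (Eventually.of_forall fun y hy => ?_)
    rw [Real.norm_of_nonneg (hf0 _)]
    exact hle y hy
  refine ⟨hi3, ?_⟩
  calc ∫ y in Metric.ball (0 : EN 4) r, f (ψ y)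
      ≤ ∫ y in Metric.ball (0 : EN 4) r, (h y0)⁻¹ * (h y * f (ψ y)) :=
        setIntegral_mono_on hi3 (hi2.const_mul _) Metric.isOpen_ball.measurableSet hle
    _ = (h y0)⁻¹ * ∫ y in Metric.ball (0 : EN 4) r, h y * f (ψ y) := integral_const_mul _ _
    _ ≤ (h y0)⁻¹ * ∫ y in Metric.ball (0 : EN 4) 1, h y * f (ψ y) := by
        refine mul_le_mul_of_nonneg_left ?_ (inv_pos.2 hm).le
        refine setIntegral_mono_set hi1 ?_ hsub.eventuallyLE
        refine (ae_restrict_iff' Metric.isOpen_ball.measurableSet).2 (Eventually.of_forall fun y hy => ?_)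
        exact mul_nonneg (hc.h_pos y hy).le (hf0 _)
    _ = (h y0)⁻¹ * ∫ x in V, f x ∂S.nu := by rw [hc.integral_eq hf]
    _ ≤ (h y0)⁻¹ * ∫ x, f x ∂S.nu := by
        refine mul_le_mul_of_nonneg_left ?_ (inv_pos.2 hm).le
        exact setIntegral_le_integral hfi (Eventually.of_forall hf0)

end IsChart

end Pool.Agent.W_MP_d8b8b7_gt
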