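import Pool.Agent.W_MP_d8b8b7_gt_G3.PullD
import Pool.Agent.W_MP_d8b8b7_gt.PtBound

/-!
# Elementary consequences of `IsChart` (geometry)
-/

namespace Pool.Agent.W_MP_d8b8b7_gt

open MeasureTheory Set Filter Topology
open scoped ContDiff ENNReal

variable {N : ℕ}

namespace IsChart

variable {S : Setup N} {ψ : EN 4 → EN N} {κ : EN N → EN 4} {V : Set (EN N)} {h : EN 4 → ℝ} {σ : ℝ}

theorem psi_mem (hc : IsChart S.toGeom S.nu S.fr ψ κ V h σ) {y : EN 4}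
    (hy : y ∈ Metric.ball (0 : EN 4) 1) : ψ y ∈ S.X ∧ ψ y ∈ V := by
  have h1 : ψ y ∈ ψ '' Metric.ball 0 1 := ⟨y, hy, rfl⟩
  rw [← hc.image] at h1
  exact h1

/-- rho ∘ ψ = ψ on the ball -/
theorem tan_psi (hc : IsChart S.toGeom S.nu S.fr ψ κ V h σ) {y : EN 4}
    (hy : y ∈ Metric.ball (0 : EN 4) 1) (v : EN 4) : S.Tan (ψ y) (fderiv ℝ ψ y v) := by
  have hψ : DifferentiableAt ℝ ψ y := (hc.smooth_psi.differentiable (by simp)) y
  have hr : DifferentiableAt ℝ S.rho (ψ y) := (S.smooth_rho.differentiable (by simp)) _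
  have h1 : (fun z => S.rho (ψ z)) =ᶠ[𝓝 y] ψ := by
    filter_upwards [Metric.isOpen_ball.mem_nhds hy] with z hz
    exact S.rho_fix _ (hc.psi_mem hz).1
  have h2 : HasFDerivAt (fun z => S.rho (ψ z)) ((fderiv ℝ S.rho (ψ y)).comp (fderiv ℝ ψ y)) y :=
    hr.hasFDerivAt.comp y hψ.hasFDerivAt
  have h3 : (fderiv ℝ S.rho (ψ y)).comp (fderiv ℝ ψ y) = fderiv ℝ ψ y := by
    rw [← h2.fderiv]
    exact h1.fderiv_eq
  exact congrArg (fun L : EN 4 →L[ℝ] EN N => L v) h3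

theorem dkap_dpsi (hc : IsChart S.toGeom S.nu S.fr ψ κ V h σ) {y : EN 4}
    (hy : y ∈ Metric.ball (0 : EN 4) 1) (v : EN 4) :
    fderiv ℝ κ (ψ y) (fderiv ℝ ψ y v) = v := by
  have hψ : DifferentiableAt ℝ ψ y := (hc.smooth_psi.differentiable (by simp)) y
  have hr : DifferentiableAt ℝ κ (ψ y) := (hc.smooth_kap.differentiable (by simp)) _
  have h1 : (fun z => κ (ψ z)) =ᶠ[𝓝 y] id := by
    filter_upwards [Metric.isOpen_ball.mem_nhds hy] with z hz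
    exact hc.kap_psi z hz
  have h2 : HasFDerivAt (fun z => κ (ψ z)) ((fderiv ℝ κ (ψ y)).comp (fderiv ℝ ψ y)) y :=
    hr.hasFDerivAt.comp y hψ.hasFDerivAt
  have h3 : (fderiv ℝ κ (ψ y)).comp (fderiv ℝ ψ y) = ContinuousLinearMap.id ℝ (EN 4) := by
    rw [← h2.fderiv, h1.fderiv_eq]
    exact fderiv_id
  exact congrArg (fun L : EN 4 →L[ℝ] EN 4 => L v) h3

/-- the tangent space is four dimensional (frame: coordinates `crd` determine a tangent vector) and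
Dψ is injective, so Dψ y maps onto the tangent space -/
theorem dpsi_dkap (hc : IsChart S.toGeom S.nu S.fr ψ κ V h σ) {y : EN 4}
    (hy : y ∈ Metric.ball (0 : EN 4) 1) {u : EN N} (hu : S.Tan (ψ y) u) :
    fderiv ℝ ψ y (fderiv ℝ κ (ψ y) u) = u := by
  have hX := (hc.psi_mem hy).1
  let T : Submodule ℝ (EN N) := Submodule.span ℝ (Set.range fun a : Fin 4 => S.fr a (ψ y))
  have hT : ∀ v, S.Tan (ψ y) v → v ∈ T := by
    intro v hv
    have h1 := S.fr_span (ψ y) hX v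
    have hv' : fderiv ℝ S.rho (ψ y) v = v := hv
    rw [← hv', h1]
    refine Submodule.sum_mem _ fun a _ => Submodule.smul_mem _ _ (Submodule.subset_span ⟨a, rfl⟩)
  have hdim : Module.finrank ℝ T ≤ 4 := by
    have h1 := finrank_range_le_card (R := ℝ) (fun a : Fin 4 => S.fr a (ψ y))
    simpa [T, Set.finrank] using h1
  let R : Submodule ℝ (EN N) := LinearMap.range (fderiv ℝ ψ y : EN 4 →ₗ[ℝ] EN N)
  have hinj : Function.Injective (fderiv ℝ ψ y : EN 4 →ₗ[ℝ] EN N) := by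
    intro a b hab
    have h1 : fderiv ℝ κ (ψ y) (fderiv ℝ ψ y a) = fderiv ℝ κ (ψ y) (fderiv ℝ ψ y b) :=
      congrArg _ hab
    rwa [hc.dkap_dpsi hy, hc.dkap_dpsi hy] at h1
  have hR : Module.finrank ℝ R = 4 := by
    rw [LinearMap.finrank_range_of_inj hinj]
    simp
  have hRT : R ≤ T := by
    rintro _ ⟨v, rfl⟩
    exact hT _ (hc.tan_psi hy v)
  have hRT' : R = T := Submodule.eq_of_le_of_finrank_le hRT (by rw [hR]; exact hdim)
  have hu' : u ∈ R := by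
    rw [hRT']
    exact hT u hu
  obtain ⟨w, hw⟩ := hu'
  have hw' : fderiv ℝ ψ y w = u := hw
  rw [← hw', hc.dkap_dpsi hy]

/-- X ∩ V ∩ κ⁻¹(ball 0 r) = ψ(ball 0 r) for r ≤ 1 -/
theorem image_ball (hc : IsChart S.toGeom S.nu S.fr ψ κ V h σ) {r : ℝ} (hr : r ≤ 1) :
    S.X ∩ (V ∩ κ ⁻¹' Metric.ball 0 r) = ψ '' Metric.ball 0 r := by
  ext x
  constructor
  · rintro ⟨h1, h2, h3⟩
    have h4 : x ∈ ψ '' Metric.ball 0 1 := by
      rw [← hc.image]
      exact ⟨h1, h2⟩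
    obtain ⟨y, hy, rfl⟩ := h4
    refine ⟨y, ?_, rfl⟩
    have h5 : κ (ψ y) ∈ Metric.ball (0 : EN 4) r := h3
    rwa [hc.kap_psi y hy] at h5
  · rintro ⟨y, hy, rfl⟩
    have hy1 : y ∈ Metric.ball (0 : EN 4) 1 := Metric.ball_subset_ball hr hy
    refine ⟨(hc.psi_mem hy1).1, (hc.psi_mem hy1).2, ?_⟩
    show κ (ψ y) ∈ Metric.ball (0 : EN 4) r
    rwa [hc.kap_psi y hy1]

end IsChart

end Pool.Agent.W_MP_d8b8b7_gt
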