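import Pool.Agent.W_MP_d8b8b7_gt_G3.L1Moll
import Pool.Agent.W_MP_d8b8b7_gt_G3.PullD

/-!
# Mollification of a weakly closed form on a ball of R^4
-/

namespace Pool.Agent.W_MP_d8b8b7_gt

open MeasureTheory Set Filter Topology
open scoped ContDiff ENNReal

theorem dOne_smul_const_m4 (φ : EN 4 → ℝ) (hφ : ContDiff ℝ ∞ φ) (c : Cov 4) (y u v : EN 4) :
    dOne (fun y => φ y • c) y u v = fderiv ℝ φ y u * c v - fderiv ℝ φ y v * c u := by
  have h1 : HasFDerivAt φ (fderiv ℝ φ y) y := (hφ.differentiable (by simp) y).hasFDerivAt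
  have h2 : HasFDerivAt (fun y => φ y • c) ((fderiv ℝ φ y).smulRight c) y := h1.smul_const c
  rw [dOne_apply, h2.fderiv]
  rfl

theorem std4_apply_m4 (i j : Fin 4) : (std4 i) j = if j = i then (1 : ℝ) else 0 := by
  unfold std4
  simp

/-- the wedge of dφ ∧ e^l with an alternating form, for a scalar function φ and the constant
covector e^l: this is ± the curl of the three complementary components.  Explicit computation for
the four values of l, with a y = φ y • e^l. -/
theorem wedge_test (φ : EN 4 → ℝ) (hφ : ContDiff ℝ ∞ φ) (l : Fin 4) (y : EN 4) (b : Bil 4) :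
    wedge (comp6 (dOne (fun y => φ y • (EuclideanSpace.proj l : Cov 4)) y) std4) (comp6 b std4) =
      match l with
      | 0 => -(fderiv ℝ φ y (std4 1) * b (std4 2) (std4 3) - fderiv ℝ φ y (std4 2) * b (std4 1) (std4 3)
              + fderiv ℝ φ y (std4 3) * b (std4 1) (std4 2))
      | 1 => fderiv ℝ φ y (std4 0) * b (std4 2) (std4 3) - fderiv ℝ φ y (std4 2) * b (std4 0) (std4 3)
              + fderiv ℝ φ y (std4 3) * b (std4 0) (std4 2)
      | 2 => -(fderiv ℝ φ y (std4 0) * b (std4 1) (std4 3) - fderiv ℝ φ y (std4 1) * b (std4 0) (std4 3)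
              + fderiv ℝ φ y (std4 3) * b (std4 0) (std4 1))
      | 3 => fderiv ℝ φ y (std4 0) * b (std4 1) (std4 2) - fderiv ℝ φ y (std4 1) * b (std4 0) (std4 2)
              + fderiv ℝ φ y (std4 2) * b (std4 0) (std4 1) := by
  fin_cases l <;>
  · simp only [wedge, comp6, dOne_smul_const_m4 φ hφ]
    simp [std4_apply_m4]
    try ring

theorem sum_std4_m4 (u : EN 4) : u = ∑ i, u i • std4 i := by
  ext k
  simp [std4, Pi.single_apply]

theorem lin_zero_std4_m4 (f : EN 4 → ℝ) (hadd : ∀ u v, f (u + v) = f u + f v)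
    (hsmul : ∀ (c : ℝ) u, f (c • u) = c * f u) (h : ∀ i, f (std4 i) = 0) (u : EN 4) : f u = 0 := by
  let L : EN 4 →ₗ[ℝ] ℝ := { toFun := f, map_add' := hadd, map_smul' := fun c u => hsmul c u }
  have h1 : L u = 0 := by
    rw [sum_std4_m4 u, map_sum]
    refine Finset.sum_eq_zero fun i _ => ?_
    rw [map_smul]
    have h2 : L (std4 i) = 0 := h i
    rw [h2, smul_zero]
  exact h1

/-- A smooth alternating form is closed at y as soon as its four components of dβ on the standard
basis vanish (dTwo β y is an alternating trilinear form). -/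
theorem dTwo_eq_zero_of_basis {β : EN 4 → Bil 4} (hβ : IsForm β) (y : EN 4)
    (h : dTwo β y (std4 1) (std4 2) (std4 3) = 0 ∧ dTwo β y (std4 0) (std4 2) (std4 3) = 0 ∧
      dTwo β y (std4 0) (std4 1) (std4 3) = 0 ∧ dTwo β y (std4 0) (std4 1) (std4 2) = 0)
    (u v w : EN 4) : dTwo β y u v w = 0 := by
  have hd : DifferentiableAt ℝ β y := hβ.smooth.differentiable (by simp) y
  have halt0 : ∀ u v, fderiv ℝ β y u v v = 0 := by
    intro u v
    rw [← Bil.fderiv_apply hd u v v]
    have : (fun x => β x v v) = fun _ => (0 : ℝ) := by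
      funext x
      exact hβ.alt x v
    rw [this]
    simp
  have ha : ∀ u v w, fderiv ℝ β y u v w = - fderiv ℝ β y u w v := by
    intro u v w
    have h1 := halt0 u (v + w)
    rw [Bil.add_left, Bil.add_right, Bil.add_right, halt0, halt0] at h1
    linarith
  have s1 : ∀ u v w, dTwo β y u v w = - dTwo β y v u w := by
    intro u v w
    unfold dTwo
    rw [ha w v u]
    ring
  have s2 : ∀ u v w, dTwo β y u v w = - dTwo β y u w v := by
    intro u v w
    unfold dTwo
    rw [ha u v w]
    ring
  obtain ⟨h0, h1, h2, h3⟩ := h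
  have key : ∀ i j k, dTwo β y (std4 i) (std4 j) (std4 k) = 0 := by
    intro i j k
    have e1 := s1 (std4 i) (std4 j) (std4 k)
    have e2 := s2 (std4 j) (std4 i) (std4 k)
    have e3 := s1 (std4 j) (std4 k) (std4 i)
    have e4 := s2 (std4 k) (std4 j) (std4 i)
    have e5 := s1 (std4 k) (std4 i) (std4 j)
    have e6 := s2 (std4 i) (std4 k) (std4 j)
    fin_cases i <;> fin_cases j <;> fin_cases k <;> simp only [Fin.zero_eta, Fin.mk_one, Fin.reduceFinMk] at * <;> linarith
  have hw : ∀ i j w, dTwo β y (std4 i) (std4 j) w = 0 := by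
    intro i j
    refine lin_zero_std4_m4 _ ?_ ?_ (key i j)
    · intro a b
      unfold dTwo
      simp only [Bil.add_right, map_add, Bil.add_apply]
      ring
    · intro c a
      unfold dTwo
      simp only [Bil.smul_right, map_smul, Bil.smul_apply]
      ring
  have hv : ∀ i w v, dTwo β y (std4 i) v w = 0 := by
    intro i w
    refine lin_zero_std4_m4 (fun v => dTwo β y (std4 i) v w) ?_ ?_ (fun j => hw i j w)
    · intro a b
      unfold dTwo
      simp only [Bil.add_left, Bil.add_right, map_add, Bil.add_apply]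
      ring
    · intro c a
      unfold dTwo
      simp only [Bil.smul_left, Bil.smul_right, map_smul, Bil.smul_apply]
      ring
  refine lin_zero_std4_m4 (fun u => dTwo β y u v w) ?_ ?_ (fun i => hv i w v) u
  · intro a b
    unfold dTwo
    simp only [Bil.add_left, map_add, Bil.add_apply]
    ring
  · intro c a
    unfold dTwo
    simp only [Bil.smul_left, map_smul, Bil.smul_apply]
    ring


theorem fderiv_sub_arg_m4 (φ : EN 4 → ℝ) (hφ : ContDiff ℝ ∞ φ) (y t v : EN 4) :
    fderiv ℝ (fun t => φ (y - t)) t v = - fderiv ℝ φ (y - t) v := by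
  have h1 : HasFDerivAt φ (fderiv ℝ φ (y - t)) (y - t) :=
    (hφ.differentiable (by simp) (y - t)).hasFDerivAt
  have h2 : HasFDerivAt (fun t : EN 4 => y - t) (-(ContinuousLinearMap.id ℝ (EN 4))) t :=
    (hasFDerivAt_id t).const_sub y
  have h3 := h1.comp t h2
  have h4 : fderiv ℝ (fun t => φ (y - t)) t = _ := h3.fderiv
  rw [h4]
  simp

/-- Mollification of a weakly closed integrable form: put ζ' y = ∫ φ(y - t) ζ(t) dt over the ball
of radius 7/8, φ a mollifier supported in a small ball (radius < 1/8).  For ‖y‖ < 3/4 the test form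
a(t) = φ(y - t) e^l has support in the ball of radius 7/8 and gives (with fderiv of
t ↦ φ(y - t) equal to - fderiv φ (y - t)) the vanishing of the components of dζ' y
(`wedge_test`, `contDiff_mollify`, `dTwo_eq_zero_of_basis`).  L1 convergence: `mollify_L1` applied to
the indicator of the ball of radius 7/8 times ζ. -/
theorem mollify_closed (ζ : EN 4 → Bil 4) (hm : Measurable ζ) (halt : ∀ y v, ζ y v v = 0)
    (hint : IntegrableOn ζ (Metric.ball 0 (7 / 8)))
    (hw : ∀ a : EN 4 → Cov 4, ContDiff ℝ ∞ a → tsupport a ⊆ Metric.ball 0 (7 / 8) →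
      ∫ y in Metric.ball (0 : EN 4) (7 / 8),
        wedge (comp6 (dOne a y) std4) (comp6 (ζ y) std4) = 0)
    {ε : ℝ} (hε : 0 < ε) :
    ∃ ζ' : EN 4 → Bil 4, IsForm ζ' ∧
      (∀ y ∈ Metric.ball (0 : EN 4) (3 / 4), ∀ u v w, dTwo ζ' y u v w = 0) ∧
      ∫ y in Metric.ball (0 : EN 4) (3 / 4), ‖ζ' y - ζ y‖ < ε := by
  set f : EN 4 → Bil 4 := (Metric.ball (0 : EN 4) (7 / 8)).indicator ζ with hfdef
  have hf : Integrable f := (integrable_indicator_iff measurableSet_ball).mpr hint
  obtain ⟨r1, hr1, hL1⟩ := mollify_L1 hf (half_pos hε)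
  obtain ⟨φ, hφ, hφ0, hφs, hφi⟩ := exists_mollifier 4 (lt_min hr1 (by norm_num : (0 : ℝ) < 1 / 8))
  have hφs1 : ∀ t, r1 ≤ ‖t‖ → φ t = 0 := fun t ht => hφs t ((min_le_left _ _).trans ht)
  have hφs2 : ∀ t, 1 / 8 ≤ ‖t‖ → φ t = 0 := fun t ht => hφs t ((min_le_right _ _).trans ht)
  have hcs : HasCompactSupport φ := by
    refine HasCompactSupport.intro (isCompact_closedBall (0 : EN 4) (1 / 8)) ?_
    intro t ht
    apply hφs2
    simp only [Metric.mem_closedBall, dist_zero_right, not_le] at ht
    exact ht.le
  obtain ⟨hsm, hder⟩ := contDiff_mollify hf hφ hcs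
  have hint2 : ∀ (ψ : EN 4 → ℝ), Continuous ψ → HasCompactSupport ψ → ∀ y,
      Integrable (fun t => ψ (y - t) • f t) := by
    intro ψ hψ hψs y
    obtain ⟨C, hC⟩ := hψs.exists_bound_of_continuous hψ
    refine (hf.norm.const_mul C).mono' ?_ ?_
    · exact ((hψ.comp (continuous_const.sub continuous_id)).aestronglyMeasurable).smul hf.1
    · refine Filter.Eventually.of_forall fun t => ?_
      rw [norm_smul]
      exact mul_le_mul_of_nonneg_right (hC _) (norm_nonneg _)
  have hdc : ∀ v, Continuous (fun t => fderiv ℝ φ t v) := fun v =>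
    (hφ.continuous_fderiv (by simp)).clm_apply continuous_const
  have hdcs : ∀ v, HasCompactSupport (fun t => fderiv ℝ φ t v) := fun v =>
    (hcs.fderiv_apply (𝕜 := ℝ) v)
  have hfalt : ∀ t v, f t v v = 0 := by
    intro t v
    rw [hfdef]
    by_cases ht : t ∈ Metric.ball (0 : EN 4) (7 / 8)
    · rw [indicator_of_mem ht]; exact halt t v
    · rw [indicator_of_notMem ht]; rfl
  refine ⟨fun y => ∫ t, φ (y - t) • f t, ⟨hsm, ?_⟩, ?_, ?_⟩
  · intro y v
    rw [Bil.integral_apply (hint2 φ hφ.continuous hcs y)]
    simp [hfalt]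
  · intro y hy
    -- general formula
    have hform : ∀ p q r : EN 4, dTwo (fun y => ∫ t, φ (y - t) • f t) y p q r =
        ∫ t in Metric.ball (0 : EN 4) (7 / 8), (fderiv ℝ φ (y - t) p * ζ t q r
          - fderiv ℝ φ (y - t) q * ζ t p r + fderiv ℝ φ (y - t) r * ζ t p q) := by
      intro p q r
      unfold dTwo
      have hi : ∀ a b c : EN 4, Integrable (fun t => fderiv ℝ φ (y - t) a * f t b c) := by
        intro a b c
        have := Bil.integrable_apply (hint2 _ (hdc a) (hdcs a) y) b c
        simpa using this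
      rw [hder, hder, hder, Bil.integral_apply (hint2 _ (hdc p) (hdcs p) y),
        Bil.integral_apply (hint2 _ (hdc q) (hdcs q) y),
        Bil.integral_apply (hint2 _ (hdc r) (hdcs r) y)]
      simp only [Bil.smul_apply]
      have hsub : Integrable (fun t => fderiv ℝ φ (y - t) p * f t q r
          - fderiv ℝ φ (y - t) q * f t p r) := (hi p q r).sub (hi q p r)
      rw [← integral_sub (hi p q r) (hi q p r), ← integral_add hsub (hi r p q),
        ← integral_indicator measurableSet_ball]
      refine integral_congr_ae (Filter.Eventually.of_forall fun t => ?_)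
      by_cases ht : t ∈ Metric.ball (0 : EN 4) (7 / 8)
      · simp only [hfdef, indicator_of_mem ht, Pi.sub_apply]
      · simp only [hfdef, indicator_of_notMem ht, Pi.sub_apply, Bil.zero_apply, mul_zero, sub_zero,
          add_zero]
    have hsup : ∀ l : Fin 4, tsupport (fun t => φ (y - t) • (EuclideanSpace.proj l : Cov 4)) ⊆
        Metric.ball 0 (7 / 8) := by
      intro l
      have h1 : tsupport (fun t => φ (y - t) • (EuclideanSpace.proj l : Cov 4)) ⊆
          Metric.closedBall y (1 / 8) := by
        refine closure_minimal ?_ Metric.isClosed_closedBall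
        intro t ht
        by_contra hc
        apply ht
        have : φ (y - t) = 0 := by
          apply hφs2
          simp only [Metric.mem_closedBall, not_le] at hc
          rw [← dist_eq_norm, dist_comm]
          exact hc.le
        simp [this]
      refine h1.trans ?_
      intro t ht
      rw [Metric.mem_ball, dist_zero_right] at hy ⊢
      rw [Metric.mem_closedBall, dist_eq_norm] at ht
      have h2 : ‖t‖ ≤ ‖t - y‖ + ‖y‖ := by
        have := norm_add_le (t - y) y
        simpa using this
      linarith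
    have hcd : ContDiff ℝ ∞ (fun t => φ (y - t)) := hφ.comp (contDiff_const.sub contDiff_id)
    have hl : ∀ l : Fin 4, ∫ t in Metric.ball (0 : EN 4) (7 / 8),
        wedge (comp6 (dOne (fun t => φ (y - t) • (EuclideanSpace.proj l : Cov 4)) t) std4)
          (comp6 (ζ t) std4) = 0 := fun l =>
      hw _ (hcd.smul contDiff_const) (hsup l)
    have hwt := fun (l : Fin 4) (t : EN 4) => wedge_test (fun t => φ (y - t)) hcd l t (ζ t)
    refine dTwo_eq_zero_of_basis ⟨hsm, ?_⟩ y ⟨?_, ?_, ?_, ?_⟩
    · intro y v
      rw [Bil.integral_apply (hint2 φ hφ.continuous hcs y)]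
      simp [hfalt]
    · rw [hform, ← hl 0]
      refine integral_congr_ae (Filter.Eventually.of_forall fun t => ?_)
      simp only [hwt, fderiv_sub_arg_m4 φ hφ]
      ring
    · rw [hform, ← neg_eq_zero, ← integral_neg, ← hl 1]
      refine integral_congr_ae (Filter.Eventually.of_forall fun t => ?_)
      simp only [hwt, fderiv_sub_arg_m4 φ hφ]
      ring
    · rw [hform, ← hl 2]
      refine integral_congr_ae (Filter.Eventually.of_forall fun t => ?_)
      simp only [hwt, fderiv_sub_arg_m4 φ hφ]
      ring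
    · rw [hform, ← neg_eq_zero, ← integral_neg, ← hl 3]
      refine integral_congr_ae (Filter.Eventually.of_forall fun t => ?_)
      simp only [hwt, fderiv_sub_arg_m4 φ hφ]
      ring
  · have hcζ : HasCompactSupport (fun y => ∫ t, φ (y - t) • f t) := by
      refine HasCompactSupport.intro (isCompact_closedBall (0 : EN 4) 1) ?_
      intro y hy
      have : (fun t => φ (y - t) • f t) = fun _ => 0 := by
        funext t
        by_cases ht : t ∈ Metric.ball (0 : EN 4) (7 / 8)
        · have h0 : φ (y - t) = 0 := by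
            apply hφs2
            simp only [Metric.mem_closedBall, dist_zero_right, not_le] at hy
            rw [Metric.mem_ball, dist_zero_right] at ht
            have h2 : ‖y‖ ≤ ‖y - t‖ + ‖t‖ := by
              have := norm_add_le (y - t) t
              simpa using this
            linarith
          rw [h0, zero_smul]
        · rw [hfdef, indicator_of_notMem ht, smul_zero]
      rw [this]
      simp
    have hi : Integrable (fun y => ∫ t, φ (y - t) • f t) :=
      hsm.continuous.integrable_of_hasCompactSupport hcζ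
    have h1 : ∫ y in Metric.ball (0 : EN 4) (3 / 4), ‖(∫ t, φ (y - t) • f t) - ζ y‖ =
        ∫ y in Metric.ball (0 : EN 4) (3 / 4), ‖(∫ t, φ (y - t) • f t) - f y‖ := by
      refine setIntegral_congr_fun measurableSet_ball fun y hy => ?_
      have : y ∈ Metric.ball (0 : EN 4) (7 / 8) := Metric.ball_subset_ball (by norm_num) hy
      simp only [hfdef, indicator_of_mem this]
    rw [h1]
    calc ∫ y in Metric.ball (0 : EN 4) (3 / 4), ‖(∫ t, φ (y - t) • f t) - f y‖
        ≤ ∫ y, ‖(∫ t, φ (y - t) • f t) - f y‖ :=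
          setIntegral_le_integral (hi.sub hf).norm (Filter.Eventually.of_forall fun y => norm_nonneg _)
      _ ≤ ε / 2 := hL1 φ hφ.continuous hφ0 hφs1 hφi
      _ < ε := half_lt_self hε

end Pool.Agent.W_MP_d8b8b7_gt
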