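import Pool.Agent.W_MP_d8b8b7_gt_G3.ChartWeak
import Pool.Agent.W_MP_d8b8b7_gt_G3.Mollify4

/-!
# Approximation of weakly closed forms by smooth closed forms in a chart
-/

namespace Pool.Agent.W_MP_d8b8b7_gt

open MeasureTheory Set Filter Topology
open scoped ContDiff ENNReal

variable {N : ℕ}

namespace Setup

variable (S : Setup N)

/-- comparison of components in the frame with the local components -/
theorem ChartApprox_cp {ψ : EN 4 → EN N} {κ : EN N → EN 4} {V : Set (EN N)} {h : EN 4 → ℝ}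
    {σ : ℝ} (hc : IsChart S.toGeom S.nu S.fr ψ κ V h σ) (z : EN N → C6) (ζ' : EN 4 → Bil 4)
    {y : EN 4} (hy : y ∈ Metric.ball (0 : EN 4) 1) :
    S.cp (pullTwo κ ζ') (ψ y) - z (ψ y) =
      S.cp (fun x => Bil.pull (fderiv ℝ κ x) (ζ' (κ x) - S.loc ψ z (κ x))) (ψ y) := by
  have hX := (hc.psi_mem hy).1
  have h1 : comp6 (S.rc z (ψ y)) (fun a => S.fr a (ψ y)) = z (ψ y) := S.cp_rc hX z
  have hk : κ (ψ y) = y := hc.kap_psi y hy
  have h2 : ∀ a b, Bil.pull (fderiv ℝ κ (ψ y)) (S.loc ψ z y) (S.fr a (ψ y)) (S.fr b (ψ y)) =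
      S.rc z (ψ y) (S.fr a (ψ y)) (S.fr b (ψ y)) := by
    intro a b
    have ha : S.Tan (ψ y) (S.fr a (ψ y)) := S.fr_tan _ hX a
    have hb : S.Tan (ψ y) (S.fr b (ψ y)) := S.fr_tan _ hX b
    unfold loc
    rw [Bil.pull_apply, Bil.pull_apply, hc.dpsi_dkap hy ha, hc.dpsi_dkap hy hb]
  have h3 : ∀ a b, Bil.pull (fderiv ℝ κ (ψ y)) (ζ' (κ (ψ y)) - S.loc ψ z (κ (ψ y)))
      (S.fr a (ψ y)) (S.fr b (ψ y)) = pullTwo κ ζ' (ψ y) (S.fr a (ψ y)) (S.fr b (ψ y)) -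
        S.rc z (ψ y) (S.fr a (ψ y)) (S.fr b (ψ y)) := by
    intro a b
    rw [← h2 a b, hk, Bil.pull_apply, Bil.sub_apply, Bil.pull_apply]
    unfold pullTwo
    rw [Bil.pull_apply, hk]
  rw [← h1]
  ext i
  change comp6 (pullTwo κ ζ' (ψ y)) (fun a => S.fr a (ψ y)) i - comp6 (S.rc z (ψ y)) (fun a => S.fr a (ψ y)) i
    = comp6 (Bil.pull (fderiv ℝ κ (ψ y)) (ζ' (κ (ψ y)) - S.loc ψ z (κ (ψ y)))) (fun a => S.fr a (ψ y)) i
  fin_cases i
  · exact (h3 0 1).symm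
  · exact (h3 0 2).symm
  · exact (h3 0 3).symm
  · exact (h3 1 2).symm
  · exact (h3 1 3).symm
  · exact (h3 2 3).symm

/-- uniform bound with a constant depending on the chart only -/
theorem ChartApprox_bound {ψ : EN 4 → EN N} {κ : EN N → EN 4} {V : Set (EN N)} {h : EN 4 → ℝ}
    {σ : ℝ} (hc : IsChart S.toGeom S.nu S.fr ψ κ V h σ) :
    ∃ M : ℝ, 0 ≤ M ∧ ∀ (z : EN N → C6) (ζ' : EN 4 → Bil 4), ∀ y ∈ Metric.ball (0 : EN 4) 1,
      h y * ‖S.cp (pullTwo κ ζ') (ψ y) - z (ψ y)‖ ≤ M * ‖ζ' y - S.loc ψ z y‖ := by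
  obtain ⟨C, hC1, hC, -, -⟩ := S.exists_bound
  obtain ⟨B, hB0, hB⟩ := PtBound_cpt ((isCompact_closedBall (0 : EN 4) 1).image
    hc.smooth_psi.continuous) (hc.smooth_kap.continuous_fderiv (by simp))
  obtain ⟨H, hH0, hH⟩ := PtBound_cpt (isCompact_closedBall (0 : EN 4) 1) hc.smooth_h.continuous
  refine ⟨H * (C * B ^ 2), by positivity, fun z ζ' y hy => ?_⟩
  have hy' : y ∈ Metric.closedBall (0 : EN 4) 1 := Metric.ball_subset_closedBall hy
  have hX := (hc.psi_mem hy).1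
  have hk : κ (ψ y) = y := hc.kap_psi y hy
  rw [S.ChartApprox_cp hc z ζ' hy]
  have h1 := (hC _ hX).2.2.2.2.2
    (fun x => Bil.pull (fderiv ℝ κ x) (ζ' (κ x) - S.loc ψ z (κ x)))
  have h2 : ‖Bil.pull (fderiv ℝ κ (ψ y)) (ζ' y - S.loc ψ z y)‖ ≤
      ‖fderiv ℝ κ (ψ y)‖ ^ 2 * ‖ζ' y - S.loc ψ z y‖ := ChartWeak_pull_le (N := 4) _ _
  have h3 : ‖fderiv ℝ κ (ψ y)‖ ≤ B := hB _ ⟨y, hy', rfl⟩
  have h4 : h y ≤ H := (le_abs_self _).trans (hH y hy')
  have h5 : ‖fderiv ℝ κ (ψ y)‖ ^ 2 ≤ B ^ 2 := pow_le_pow_left₀ (norm_nonneg _) h3 2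
  have h6 : S.cp (fun x => Bil.pull (fderiv ℝ κ x) (ζ' (κ x) - S.loc ψ z (κ x))) (ψ y) =
      S.cp (fun x => Bil.pull (fderiv ℝ κ x) (ζ' (κ x) - S.loc ψ z (κ x))) (ψ y) := rfl
  have h7 : ‖S.cp (fun x => Bil.pull (fderiv ℝ κ x) (ζ' (κ x) - S.loc ψ z (κ x))) (ψ y)‖ ≤
      C * ‖Bil.pull (fderiv ℝ κ (ψ y)) (ζ' y - S.loc ψ z y)‖ := by
    refine h1.trans (le_of_eq ?_)
    show C * ‖Bil.pull (fderiv ℝ κ (ψ y)) (ζ' (κ (ψ y)) - S.loc ψ z (κ (ψ y)))‖ = _
    rw [hk]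
  have hh : 0 ≤ h y := (hc.h_pos y hy).le
  have hC0 : 0 ≤ C := by linarith
  calc h y * ‖S.cp (fun x => Bil.pull (fderiv ℝ κ x) (ζ' (κ x) - S.loc ψ z (κ x))) (ψ y)‖
      ≤ H * (C * (B ^ 2 * ‖ζ' y - S.loc ψ z y‖)) := by
        refine mul_le_mul h4 (h7.trans ?_) (norm_nonneg _) hH0
        refine mul_le_mul_of_nonneg_left (h2.trans ?_) hC0
        exact mul_le_mul_of_nonneg_right h5 (norm_nonneg _)
    _ = H * (C * B ^ 2) * ‖ζ' y - S.loc ψ z y‖ := by ring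

/-- the weak equation on the smaller ball -/
theorem ChartApprox_weak {ψ : EN 4 → EN N} {κ : EN N → EN 4} {V : Set (EN N)} {h : EN 4 → ℝ}
    {σ : ℝ} (hc : IsChart S.toGeom S.nu S.fr ψ κ V h σ) {z : EN N → C6} (hz : S.L2F z)
    (hw : S.WClosed z) (a : EN 4 → Cov 4) (ha : ContDiff ℝ ∞ a)
    (hs : tsupport a ⊆ Metric.ball 0 (7 / 8)) :
    ∫ y in Metric.ball (0 : EN 4) (7 / 8),
      wedge (comp6 (dOne a y) std4) (comp6 (S.loc ψ z y) std4) = 0 := by
  have hsub : Metric.ball (0 : EN 4) (7 / 8) ⊆ Metric.ball 0 1 :=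
    Metric.ball_subset_ball (by norm_num)
  have h1 := S.weak_chart hc hz hw a ha (hs.trans hsub)
  rw [← h1]
  symm
  refine setIntegral_eq_of_subset_of_forall_sdiff_eq_zero Metric.isOpen_ball.measurableSet hsub ?_
  intro y hy
  have h2 : y ∉ tsupport a := fun h => hy.2 (hs h)
  have h3 : a =ᶠ[𝓝 y] fun _ => (0 : Cov 4) := by
    filter_upwards [(isClosed_tsupport a).isOpen_compl.mem_nhds h2] with t ht
    exact image_eq_zero_of_notMem_tsupport ht
  have h4 : dOne a y = 0 := by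
    rw [dOne_congr h3]
    ext u v
    rw [dOne_apply, fderiv_fun_const]
    simp
  rw [h4]
  have h5 : comp6 (0 : Bil 4) std4 = 0 := by
    apply pt_ext6 <;> rfl
  rw [h5]
  unfold wedge
  simp

/-- In a chart a weakly closed form z is an L1 limit of smooth forms on R^N closed on the part of X
in the chart.  Take ζ = loc ψ z (`weak_chart`, `integrableOn_loc`; dOne a vanishes off tsupport a, so
the integrals over the balls of radius 1 and 7/8 agree), ζ' from `mollify_closed` and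
β = pullTwo κ ζ' (globally smooth).  dTwo β (ψ y) = dTwo ζ' y (..) = 0 (`dTwo_pullTwo`, κ (ψ y) = y).
For y in the ball and tangent u, v at ψ y: pull (Dκ) (ζ y) u v = rc z (ψ y) u v (`dpsi_dkap`), so
cp β (ψ y) - z (ψ y) = comp6 (pull (Dκ (ψ y)) (ζ' y - ζ y)) fr, of norm ≤ C ‖ζ' y - ζ y‖;
h is bounded on the ball of radius 1/2; `integral_ball_eq`. -/
theorem chart_approx {ψ : EN 4 → EN N} {κ : EN N → EN 4} {V : Set (EN N)} {h : EN 4 → ℝ}
    {σ : ℝ} (hc : IsChart S.toGeom S.nu S.fr ψ κ V h σ) {z : EN N → C6} (hz : S.L2F z)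
    (hw : S.WClosed z) {ε : ℝ} (hε : 0 < ε) :
    ∃ β : EN N → Bil N, IsForm β ∧
      (∀ x ∈ S.X, x ∈ V → κ x ∈ Metric.ball (0 : EN 4) (1 / 2) →
        ∀ u v w, S.Tan x u → S.Tan x v → S.Tan x w → dTwo β x u v w = 0) ∧
      ∫ x in V ∩ κ ⁻¹' Metric.ball 0 (1 / 2), ‖S.cp β x - z x‖ ∂S.nu < ε := by
  obtain ⟨M, hM0, hM⟩ := S.ChartApprox_bound hc
  have hε' : 0 < ε / (M + 1) := by positivity
  have hζm : Measurable (S.loc ψ z) := S.measurable_loc hc.smooth_psi hz.meas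
  have hζi : IntegrableOn (S.loc ψ z) (Metric.ball 0 (7 / 8)) :=
    S.integrableOn_loc hc hz (by norm_num)
  obtain ⟨ζ', hf, hcl, hle⟩ := mollify_closed (S.loc ψ z) hζm (fun y v => S.loc_alt ψ z y v) hζi
    (fun a ha hs => S.ChartApprox_weak hc hz hw a ha hs) hε'
  have hβ : IsForm (pullTwo κ ζ') := isForm_pullTwo hc.smooth_kap hf
  refine ⟨pullTwo κ ζ', hβ, ?_, ?_⟩
  · intro x hx hxV hxb u v w _ _ _
    have hb : κ x ∈ Metric.ball (0 : EN 4) (3 / 4) :=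
      Metric.ball_subset_ball (by norm_num) hxb
    rw [dTwo_pullTwo hc.smooth_kap hf]
    exact hcl _ hb _ _ _
  · have hm : Measurable fun x => ‖S.cp (pullTwo κ ζ') x - z x‖ :=
      ((S.measurable_cp hβ.smooth.continuous.measurable).sub hz.meas).norm
    rw [hc.integral_ball_eq hm (by norm_num)]
    have hsub : Metric.ball (0 : EN 4) (1 / 2) ⊆ Metric.ball 0 (3 / 4) :=
      Metric.ball_subset_ball (by norm_num)
    have hsub2 : Metric.ball (0 : EN 4) (3 / 4) ⊆ Metric.ball 0 (7 / 8) :=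
      Metric.ball_subset_ball (by norm_num)
    have hsub3 : Metric.ball (0 : EN 4) (1 / 2) ⊆ Metric.ball 0 1 :=
      Metric.ball_subset_ball (by norm_num)
    have hζ'i : IntegrableOn ζ' (Metric.ball 0 (3 / 4)) :=
      (hf.smooth.continuous.continuousOn.integrableOn_compact
        (isCompact_closedBall (0 : EN 4) (3 / 4))).mono_set Metric.ball_subset_closedBall
    have hdi : IntegrableOn (fun y => ‖ζ' y - S.loc ψ z y‖) (Metric.ball 0 (3 / 4)) :=
      (hζ'i.sub (hζi.mono_set hsub2)).norm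
    have hdi2 : IntegrableOn (fun y => M * ‖ζ' y - S.loc ψ z y‖) (Metric.ball 0 (1 / 2)) :=
      (hdi.mono_set hsub).const_mul M
    have hlei : IntegrableOn (fun y => h y * ‖S.cp (pullTwo κ ζ') (ψ y) - z (ψ y)‖)
        (Metric.ball 0 (1 / 2)) := by
      refine Integrable.mono' hdi2 ?_ ?_
      · exact (hc.smooth_h.continuous.measurable.mul
          (hm.comp hc.smooth_psi.continuous.measurable)).aestronglyMeasurable
      · filter_upwards [ae_restrict_mem Metric.isOpen_ball.measurableSet] with y hy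
        rw [Real.norm_of_nonneg (mul_nonneg (hc.h_pos y (hsub3 hy)).le (norm_nonneg _))]
        exact hM z ζ' y (hsub3 hy)
    have hint : 0 ≤ ∫ y in Metric.ball (0 : EN 4) (3 / 4), ‖ζ' y - S.loc ψ z y‖ :=
      integral_nonneg fun y => norm_nonneg _
    calc ∫ y in Metric.ball (0 : EN 4) (1 / 2), h y * ‖S.cp (pullTwo κ ζ') (ψ y) - z (ψ y)‖
        ≤ ∫ y in Metric.ball (0 : EN 4) (1 / 2), M * ‖ζ' y - S.loc ψ z y‖ :=
          setIntegral_mono_on hlei hdi2 Metric.isOpen_ball.measurableSet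
            fun y hy => hM z ζ' y (hsub3 hy)
      _ = M * ∫ y in Metric.ball (0 : EN 4) (1 / 2), ‖ζ' y - S.loc ψ z y‖ :=
          integral_const_mul _ _
      _ ≤ M * ∫ y in Metric.ball (0 : EN 4) (3 / 4), ‖ζ' y - S.loc ψ z y‖ := by
          refine mul_le_mul_of_nonneg_left ?_ hM0
          exact setIntegral_mono_set hdi (Eventually.of_forall fun y => norm_nonneg _)
            hsub.eventuallyLE
      _ ≤ (M + 1) * ∫ y in Metric.ball (0 : EN 4) (3 / 4), ‖ζ' y - S.loc ψ z y‖ := by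
          refine mul_le_mul_of_nonneg_right (by linarith) hint
      _ < (M + 1) * (ε / (M + 1)) := by
          exact mul_lt_mul_of_pos_left hle (by linarith)
      _ = ε := by
          field_simp

end Setup

end Pool.Agent.W_MP_d8b8b7_gt
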