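import Pool.Agent.W_MP_d8b8b7_gt.Currents

/-!
# Common definitions for part G3
-/

namespace Pool.Agent.W_MP_d8b8b7_gt

open MeasureTheory Set Filter Topology
open scoped ContDiff ENNReal

variable {N : ℕ}

/-- smooth functions vanishing outside the open unit ball -/
structure QF (q : EN N → ℝ) : Prop where
  smooth : ContDiff ℝ ∞ q
  supp : ∀ s, 1 ≤ ‖s‖ → q s = 0

/-- vanishing moments of order < k -/
def Mom : ℕ → (EN N → ℝ) → Prop
  | 0, q => QF q
  | k + 1, q => QF q ∧ ∫ s, q s = 0 ∧ ∀ i, Mom k (fun s => s i * q s)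

/-- iterated directional derivatives of a profile -/
noncomputable def dirs : List (EN N) → (EN N → ℝ) → EN N → ℝ
  | [], q => q
  | v :: l, q => fun s => fderiv ℝ (dirs l q) s v

namespace Setup

variable (S : Setup N)

/-- L2(nu) norm of a field of bilinear forms on R^N (full norm, not only the tangential part) -/
noncomputable def nrmB (β : EN N → Bil N) : ℝ := Real.sqrt (∫ x, ‖β x‖ ^ 2 ∂S.nu)

/-- the L2 closure of the exact forms -/
def Ex (b : EN N → C6) : Prop :=
  S.L2F b ∧ ∀ ε > 0, ∃ α, IsOne α ∧ S.nrm (b - S.cp (dOne α)) < ε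

/-- b is in the L2 closure of the exact forms, g is smooth and self-dual and g - b₊ is weakly
closed -/
structure Ell (b : EN N → C6) (g : EN N → Bil N) : Prop where
  ex : S.Ex b
  form : IsForm g
  self : ∀ x ∈ S.X, sd (S.cp g x) = S.cp g x
  wcl : S.WClosed (fun x => S.cp g x - sd (b x))

/-- the pull back of g by rho has derivatives of order ≤ k bounded by B on Ud -/
def CkUd (k : ℕ) (g : EN N → Bil N) (B : ℝ) : Prop :=
  ∀ y ∈ S.Ud, ∀ j ≤ k, ‖iteratedFDeriv ℝ j (fun y => Bil.pull (S.D y) (g (S.rho y))) y‖ ≤ B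

/-- L̂(h, x) = D(x+h) D(x) + (1 - D(rho(x+h))) (1 - D(x)): maps T_x to T_{rho(x+h)}, equal to the
identity for h = 0, x in X -/
noncomputable def Lhat (z : EN N × EN N) : EN N →L[ℝ] EN N :=
  (S.D (z.2 + z.1)).comp (S.D z.2) +
    (ContinuousLinearMap.id ℝ (EN N) - S.D (S.rho (z.2 + z.1))).comp
      (ContinuousLinearMap.id ℝ (EN N) - S.D z.2)

/-- the form with components z, in a chart -/
noncomputable def loc (ψ : EN 4 → EN N) (z : EN N → C6) (y : EN 4) : Bil 4 :=
  Bil.pull (fderiv ℝ ψ y) (S.rc z (ψ y))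

end Setup

end Pool.Agent.W_MP_d8b8b7_gt
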