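import Pool.Agent.W_MP_d8b8b7_gt_G3.ChartInt
import Pool.Agent.W_MP_d8b8b7_gt_G3.GDefs
import Pool.Agent.W_MP_d8b8b7_gt.L2

/-!
# A weakly closed form is weakly closed in charts
-/

namespace Pool.Agent.W_MP_d8b8b7_gt

open MeasureTheory Set Filter Topology
open scoped ContDiff ENNReal Manifold

variable {N : ℕ}

namespace Setup

variable (S : Setup N)

theorem measurable_loc {ψ : EN 4 → EN N} (hψ : ContDiff ℝ ∞ ψ) {z : EN N → C6}
    (hz : Measurable z) : Measurable (S.loc ψ z) := by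
  rw [Bil.measurable_iff]
  intro u v
  have h1 : Continuous fun p : Bil N × EN N × EN N => p.1 p.2.1 p.2.2 :=
    PtBound_continuous_app continuous_fst (continuous_fst.comp continuous_snd)
      (continuous_snd.comp continuous_snd)
  have h2 : Continuous (fderiv ℝ ψ) := hψ.continuous_fderiv (by simp)
  have h3 : ∀ w : EN 4, Measurable fun y => fderiv ℝ ψ y w := fun w =>
    (h2.clm_apply continuous_const).measurable
  have h4 : Measurable fun y => S.rc z (ψ y) := (S.measurable_rc hz).comp hψ.continuous.measurable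
  exact h1.measurable.comp (h4.prodMk ((h3 u).prodMk (h3 v)))

theorem loc_alt (ψ : EN 4 → EN N) (z : EN N → C6) (y v : EN 4) : S.loc ψ z y v v = 0 := by
  unfold loc
  rw [Bil.pull_apply]
  exact S.rc_alt z _ _

theorem ChartWeak_pull_le {M : ℕ} (A : EN M →L[ℝ] EN N) (b : Bil N) :
    ‖Bil.pull A b‖ ≤ ‖A‖ ^ 2 * ‖b‖ := by
  refine Bil.norm_le (by positivity) fun u v => ?_
  rw [Bil.pull_apply]
  calc |b (A u) (A v)| ≤ ‖b‖ * ‖A u‖ * ‖A v‖ := Bil.abs_apply_le _ _ _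
    _ ≤ ‖b‖ * (‖A‖ * ‖u‖) * (‖A‖ * ‖v‖) := by
        gcongr
        · exact A.le_opNorm u
        · exact A.le_opNorm v
    _ = ‖A‖ ^ 2 * ‖b‖ * ‖u‖ * ‖v‖ := by ring

/-- ‖loc ψ z y‖ ≤ C ‖z (ψ y)‖ for ‖y‖ < 1 (Dψ bounded on the closed unit ball) and
`integral_pull_le` -/
theorem integrableOn_loc {ψ : EN 4 → EN N} {κ : EN N → EN 4} {V : Set (EN N)} {h : EN 4 → ℝ}
    {σ : ℝ} (hc : IsChart S.toGeom S.nu S.fr ψ κ V h σ) {z : EN N → C6} (hz : S.L2F z) {r : ℝ}
    (hr : r < 1) : IntegrableOn (S.loc ψ z) (Metric.ball 0 r) := by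
  obtain ⟨C, hC1, hC, -, -⟩ := S.exists_bound
  obtain ⟨B, hB0, hB⟩ := PtBound_cpt (isCompact_closedBall (0 : EN 4) 1)
    (hc.smooth_psi.continuous_fderiv (by simp))
  obtain ⟨C', hC', hI⟩ := hc.integral_pull_le hr
  have hn : Measurable fun x => ‖z x‖ := hz.meas.norm
  have hi : Integrable (fun x => ‖z x‖) S.nu := (hz.memLp.integrable (by norm_num)).norm
  have h1 := (hI (fun x => ‖z x‖) hn (fun x => norm_nonneg _) hi).1
  have h2 : IntegrableOn (fun y => B ^ 2 * C * ‖z (ψ y)‖) (Metric.ball 0 r) := h1.const_mul _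
  refine Integrable.mono' h2 (S.measurable_loc hc.smooth_psi hz.meas).aestronglyMeasurable ?_
  filter_upwards [ae_restrict_mem Metric.isOpen_ball.measurableSet] with y hy
  have hy1 : y ∈ Metric.ball (0 : EN 4) 1 := Metric.ball_subset_ball hr.le hy
  have hX := (hc.psi_mem hy1).1
  unfold loc
  have h3 := ChartWeak_pull_le (fderiv ℝ ψ y) (S.rc z (ψ y))
  have h4 := (hC _ hX).2.2.2.2.1 z
  have h5 := hB y (Metric.ball_subset_closedBall hy1)
  calc ‖Bil.pull (fderiv ℝ ψ y) (S.rc z (ψ y))‖ ≤ ‖fderiv ℝ ψ y‖ ^ 2 * ‖S.rc z (ψ y)‖ := h3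
    _ ≤ B ^ 2 * (C * ‖z (ψ y)‖) := by gcongr
    _ = B ^ 2 * C * ‖z (ψ y)‖ := by ring

/-- the cut off function -/
theorem ChartWeak_cut {ψ : EN 4 → EN N} {κ : EN N → EN 4} {V : Set (EN N)} {h : EN 4 → ℝ}
    {σ : ℝ} (hc : IsChart S.toGeom S.nu S.fr ψ κ V h σ) {a : EN 4 → Cov 4}
    (hs : tsupport a ⊆ Metric.ball 0 1) :
    ∃ (χ : EN N → ℝ) (L : Set (EN N)), ContDiff ℝ ∞ χ ∧ IsCompact L ∧ L ⊆ V ∧
      (∀ y ∈ tsupport a, χ (ψ y) = 1) ∧ ∀ x ∉ L, χ x = 0 := by
  have hcpt : IsCompact (tsupport a) :=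
    (isCompact_closedBall (0 : EN 4) 1).of_isClosed_subset (isClosed_tsupport a)
      (hs.trans Metric.ball_subset_closedBall)
  have hK : IsCompact (ψ '' tsupport a) := hcpt.image hc.smooth_psi.continuous
  have hKV : ψ '' tsupport a ⊆ V := by
    rintro _ ⟨y, hy, rfl⟩
    exact (hc.psi_mem (hs hy)).2
  obtain ⟨L, hL, hKL, hLV⟩ := exists_compact_between hK hc.openV hKV
  obtain ⟨f, h1, h2, -⟩ := exists_contMDiffMap_one_nhds_of_subset_interior
    (n := ⊤) 𝓘(ℝ, EN N) hK.isClosed hKL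
  refine ⟨f, L, f.contMDiff.contDiff, hL, hLV, ?_, h2⟩
  intro y hy
  have h3 := h1.self_of_nhdsSet
  exact h3 (ψ y) ⟨y, hy, rfl⟩

/-- Test form on R^N: α = χ • (κ pull back of a), χ a smooth function with compact support in V
equal to 1 on a neighbourhood of the compact set ψ (tsupport a).  For y in the ball,
pull (Dψ y) (dOne α (ψ y)) = dOne a y (if y is not in tsupport a both sides vanish, because a = 0 near
y = κ (ψ y); otherwise χ = 1 near ψ y, use `dOne_pullOne` twice and κ ∘ ψ = id near y).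
dOne α = 0 outside V.  Hence
0 = ∫ wedge (cp (dOne α)) z dν = ∫_V = ∫_ball h wedge (cp (dOne α) (ψ y)) (z (ψ y)) dy
  = σ ∫_ball wedge (comp6 (dOne a y) std4) (comp6 (loc ψ z y) std4) dy
by `integral_eq` and the field `orient` with c = rc z (ψ y), `cp_rc`. -/
theorem weak_chart {ψ : EN 4 → EN N} {κ : EN N → EN 4} {V : Set (EN N)} {h : EN 4 → ℝ}
    {σ : ℝ} (hc : IsChart S.toGeom S.nu S.fr ψ κ V h σ) {z : EN N → C6} (hz : S.L2F z)
    (hw : S.WClosed z) (a : EN 4 → Cov 4) (ha : ContDiff ℝ ∞ a)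
    (hs : tsupport a ⊆ Metric.ball 0 1) :
    ∫ y in Metric.ball (0 : EN 4) 1,
      wedge (comp6 (dOne a y) std4) (comp6 (S.loc ψ z y) std4) = 0 := by
  obtain ⟨χ, L, hχ, hL, hLV, hχ1, hχ0⟩ := S.ChartWeak_cut hc hs
  -- the test form
  let α : EN N → Cov N := fun x => χ x • pullOne κ a x
  have hα : IsOne α := hχ.smul (contDiff_pullOne hc.smooth_kap ha)
  have key : ∀ y ∈ Metric.ball (0 : EN 4) 1, ∀ᶠ y' in 𝓝 y, pullOne ψ α y' = a y' := by
    intro y hy
    filter_upwards [Metric.isOpen_ball.mem_nhds hy] with y' hy'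
    ext v
    have e1 : pullOne ψ α y' v = χ (ψ y') * a (κ (ψ y')) (fderiv ℝ κ (ψ y') (fderiv ℝ ψ y' v)) := rfl
    rw [e1, hc.kap_psi y' hy', hc.dkap_dpsi hy']
    by_cases h1 : y' ∈ tsupport a
    · rw [hχ1 y' h1, one_mul]
    · rw [image_eq_zero_of_notMem_tsupport h1]
      simp
  have hpull : ∀ y ∈ Metric.ball (0 : EN 4) 1,
      Bil.pull (fderiv ℝ ψ y) (dOne α (ψ y)) = dOne a y := by
    intro y hy
    have h1 : dOne (pullOne ψ α) y = pullTwo ψ (dOne α) y := dOne_pullOne hc.smooth_psi hα y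
    have h2 : dOne (pullOne ψ α) y = dOne a y := dOne_congr (key y hy)
    rw [← h2, h1]
    rfl
  have hzero : ∀ x, x ∉ V → dOne α x = 0 := by
    intro x hx
    have h1 : α =ᶠ[𝓝 x] fun _ => (0 : Cov N) := by
      have h2 : Lᶜ ∈ 𝓝 x := hL.isClosed.isOpen_compl.mem_nhds fun h => hx (hLV h)
      filter_upwards [h2] with x' hx'
      change χ x' • pullOne κ a x' = 0
      rw [hχ0 x' hx', zero_smul]
    rw [dOne_congr h1]
    ext u v
    rw [dOne_apply, fderiv_fun_const]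
    simp
  have hB : ∫ x, wedge (S.cp (dOne α) x) (z x) ∂S.nu = 0 := hw α hα
  have hV : ∫ x in V, wedge (S.cp (dOne α) x) (z x) ∂S.nu = 0 := by
    rw [setIntegral_eq_integral_of_forall_compl_eq_zero, hB]
    intro x hx
    have h1 : S.cp (dOne α) x = 0 := by
      have h2 : S.cp (dOne α) x = comp6 (dOne α x) (fun a => S.fr a x) := rfl
      rw [h2, hzero x hx]
      apply pt_ext6 <;> rfl
    rw [h1]
    unfold wedge
    simp
  have hm : Measurable fun x => wedge (S.cp (dOne α) x) (z x) :=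
    measurable_wedge (S.measurable_cp (dOne_isForm hα).smooth.continuous.measurable) hz.meas
  rw [hc.integral_eq hm] at hV
  have hσ : σ ≠ 0 := by
    rcases hc.sgn with h | h <;> rw [h] <;> norm_num
  have hcongr : ∫ y in Metric.ball (0 : EN 4) 1, h y * wedge (S.cp (dOne α) (ψ y)) (z (ψ y)) =
      ∫ y in Metric.ball (0 : EN 4) 1,
        σ * wedge (comp6 (dOne a y) std4) (comp6 (S.loc ψ z y) std4) := by
    apply setIntegral_congr_fun Metric.isOpen_ball.measurableSet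
    intro y hy
    have h1 := hc.orient y hy (dOne α (ψ y)) (S.rc z (ψ y)) ((dOne_isForm hα).alt _)
      (S.rc_alt z _)
    rw [hpull y hy] at h1
    have h2 : comp6 (S.rc z (ψ y)) (fun a => S.fr a (ψ y)) = z (ψ y) :=
      S.cp_rc (hc.psi_mem hy).1 z
    rw [h2] at h1
    change h y * wedge (comp6 (dOne α (ψ y)) (fun a => S.fr a (ψ y))) (z (ψ y)) = _
    rw [mul_comm, h1]
    rfl
  rw [hcongr, integral_const_mul] at hV
  exact (mul_eq_zero.1 hV).resolve_left hσ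

end Setup

end Pool.Agent.W_MP_d8b8b7_gt
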