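import Pool.Agent.W_MP_d8b8b7_gt_G3.Lhat
import Pool.Agent.W_MP_d8b8b7_gt_G3.SdField
import Pool.Agent.W_MP_d8b8b7_gt_G3.OpL2
import Pool.Agent.W_MP_d8b8b7_gt.ParamC

/-!
# Commutator of the regularisation with the self-dual projection
-/

namespace Pool.Agent.W_MP_d8b8b7_gt

open MeasureTheory Set Filter Topology
open scoped ContDiff ENNReal

variable {N : ℕ}

namespace Setup

variable (S : Setup N)

/-- the commutator amplitude -/
noncomputable def cmK (A : EN N → (Bil N →L[ℝ] Bil N)) (Λ : EN N × EN N → (EN N →L[ℝ] EN N))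
    (h x : EN N) : Bil N →L[ℝ] Bil N :=
  (A x - (Bil.pullL (S.Lhat (h, x))).comp ((A (S.rho (x + h))).comp
    ((Bil.pullL (Λ (h, x))).comp (Bil.pullL (S.D x))))).comp (S.ampR h x)

theorem cm_smooth {A : EN N → (Bil N →L[ℝ] Bil N)} (hA : ContDiff ℝ ∞ A)
    {Λ : EN N × EN N → (EN N →L[ℝ] EN N)} (hΛ : ContDiff ℝ ∞ Λ) :
    ContDiff ℝ ∞ (fun z : EN N × EN N => S.cmK A Λ z.1 z.2) := by
  unfold cmK
  have h1 : ContDiff ℝ ∞ (fun z : EN N × EN N => A z.2) := hA.comp contDiff_snd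
  have h2 : ContDiff ℝ ∞ (fun z : EN N × EN N => Bil.pullL (S.Lhat (z.1, z.2))) :=
    contDiff_pullL S.smooth_Lhat
  have h3 : ContDiff ℝ ∞ (fun z : EN N × EN N => A (S.rho (z.2 + z.1))) :=
    hA.comp (S.smooth_rho.comp (contDiff_snd.add contDiff_fst))
  have h4 : ContDiff ℝ ∞ (fun z : EN N × EN N => Bil.pullL (Λ (z.1, z.2))) :=
    contDiff_pullL hΛ
  have h5 : ContDiff ℝ ∞ (fun z : EN N × EN N => Bil.pullL (S.D z.2)) :=
    contDiff_pullL (S.smooth_D.comp contDiff_snd)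
  exact (h1.sub (h2.clm_comp (h3.clm_comp (h4.clm_comp h5)))).clm_comp S.smooth_ampR

theorem cm_zero {A : EN N → (Bil N →L[ℝ] Bil N)} {Λ : EN N × EN N → (EN N →L[ℝ] EN N)}
    {x : EN N} (hx : x ∈ S.X) (hA : ∀ b : Bil N, A x b = A x (Bil.pull (S.D x) b))
    (hΛ : ∀ v, S.Lhat (0, x) (Λ (0, x) v) = v) : S.cmK A Λ 0 x = 0 := by
  have hL : S.Lhat (0, x) = ContinuousLinearMap.id ℝ (EN N) := S.Lhat_zero hx
  have hΛ' : Λ (0, x) = ContinuousLinearMap.id ℝ (EN N) := by
    ext1 v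
    have := hΛ v
    rw [hL] at this
    exact this
  refine ContinuousLinearMap.ext fun c => ?_
  show (A x) (S.ampR 0 x c) - Bil.pull (S.Lhat (0, x)) (A (S.rho (x + 0))
    (Bil.pull (Λ (0, x)) (Bil.pull (S.D x) (S.ampR 0 x c)))) = 0
  rw [hL, hΛ', add_zero, S.rho_fix x hx]
  have h1 : ∀ d : Bil N, Bil.pull (ContinuousLinearMap.id ℝ (EN N)) d = d := fun d => rfl
  rw [h1, h1, ← hA, sub_self]

/-- the pointwise identity on tangent vectors -/
theorem cm_key {A : EN N → (Bil N →L[ℝ] Bil N)}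
    (hA : ∀ x ∈ S.X, ∀ b : Bil N,
      A x b = A x (Bil.pull (S.D x) b) ∧ A x b = Bil.pull (S.D x) (A x b) ∧
      ((∀ v, b v v = 0) → (∀ v, A x b v v = 0) ∧
        comp6 (A x b) (fun a => S.fr a x) = sd (comp6 b (fun a => S.fr a x))))
    {Λ : EN N × EN N → (EN N →L[ℝ] EN N)} {x h : EN N} (hx : x ∈ S.X) (hh : ‖h‖ ≤ S.d0 / 4)
    (hΛ : ∀ v, S.Lhat (h, x) (Λ (h, x) v) = v) (b : EN N → C6) {u v : EN N}
    (hu : S.Tan x u) (hv : S.Tan x v) :
    S.cmK A Λ h x (S.ex b (x + h)) u v =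
      A x (Bil.pull (S.D (x + h)) (S.ex b (x + h))) u v -
        Bil.pull (S.D (x + h)) (S.ex (fun y => sd (b y)) (x + h)) u v := by
  have hd := S.d0_pos
  have hy : x + h ∈ S.Ud := S.add_mem_Ud hx (by linarith)
  have hyU : x + h ∈ S.U := S.Ud_subset_U hy
  have hry : S.rho (x + h) ∈ S.X := S.rho_mem_X hy
  set y := x + h with hydef
  have hex : ∀ b' : EN N → C6, S.ex b' y = S.rc b' (S.rho y) := fun b' =>
    Set.indicator_of_mem hy _
  set c : Bil N := S.rc b (S.rho y) with hc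
  -- L̂ on tangent vectors
  have hLt : ∀ w, S.Tan x w → S.Lhat (h, x) w = S.D y w := by
    intro w hw
    show (S.D (x + h)) (S.D x w) + ((ContinuousLinearMap.id ℝ (EN N) - S.D (S.rho (x + h)))
      ((ContinuousLinearMap.id ℝ (EN N) - S.D x) w)) = _
    have hw' : S.D x w = w := hw
    have h1 : (ContinuousLinearMap.id ℝ (EN N) - S.D x) w = 0 := by
      show w - S.D x w = 0
      rw [hw', sub_self]
    rw [h1, map_zero, add_zero, hw']
  -- the form after Λ
  have h2 : Bil.pull (S.D (S.rho y)) (Bil.pull (Λ (h, x)) (Bil.pull (S.D x) (Bil.pull (S.D y) c))) = c := by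
    have h3 : Bil.pull (S.D (S.rho y)) c = c := S.pull_D_rc hry b
    conv_rhs => rw [← h3]
    ext p q
    simp only [Bil.pull_apply]
    have ht : ∀ w, S.D y (S.D x (Λ (h, x) (S.D (S.rho y) w))) = S.D (S.rho y) w := fun w =>
      S.D_D_inv hx hh hΛ (S.tan_D hry w)
    rw [ht, ht]
  have h4 : A (S.rho y) (Bil.pull (Λ (h, x)) (Bil.pull (S.D x) (Bil.pull (S.D y) c))) =
      A (S.rho y) c := by
    rw [(hA _ hry _).1, h2]
  have h5 : A (S.rho y) c = S.rc (fun y => sd (b y)) (S.rho y) := by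
    obtain ⟨-, h6, h7⟩ := hA _ hry c
    obtain ⟨h8, h9⟩ := h7 (fun v => S.rc_alt b _ v)
    have h10 := S.rc_cp hry (fun _ => A (S.rho y) c) h8
    have h11 : S.cp (fun _ => A (S.rho y) c) (S.rho y) = sd (b (S.rho y)) := by
      show comp6 (A (S.rho y) c) (fun a => S.fr a (S.rho y)) = _
      rw [h9]
      have := S.cp_rc hry b
      exact congrArg sd this
    have h12 : S.rc (S.cp (fun _ => A (S.rho y) c)) (S.rho y) =
        S.rc (fun y => sd (b y)) (S.rho y) := by
      unfold rc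
      rw [h11]
    rw [h6, ← h10, h12]
  show (A x (Bil.pull (S.D y) (S.ex b y)) - Bil.pull (S.Lhat (h, x)) (A (S.rho y)
    (Bil.pull (Λ (h, x)) (Bil.pull (S.D x) (Bil.pull (S.D y) (S.ex b y)))))) u v = _
  rw [hex b, hex (fun y => sd (b y)), ← hc, h4, h5, Bil.sub_apply]
  congr 1
  rw [Bil.pull_apply, Bil.pull_apply, hLt u hu, hLt v hv]

/-- commutator of the regularisation with the self-dual projection -/
theorem comm_step : ∃ r : ℝ, 0 < r ∧ r ≤ S.d0 / 4 ∧
    ∃ Ki : Fin N → EN N → EN N → (Bil N →L[ℝ] Bil N),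
      (∀ i, ContDiff ℝ ∞ (fun z : EN N × EN N => Ki i z.1 z.2)) ∧
      ∀ x ∈ S.X, ∀ q : EN N → ℝ, QF q → ∀ δ : ℝ, 0 < δ → δ ≤ r → ∀ b : EN N → C6, S.L2F b →
        sd (S.cp (S.Rb q δ b) x) = S.cp (S.Rb q δ (fun y => sd (b y))) x +
          δ • ∑ i, S.cp (S.Op (fun s => s i * q s) (Ki i) δ b) x := by
  obtain ⟨r, hr0, hr4, Λ, hΛ, hΛi⟩ := S.exists_Lhat_inv
  obtain ⟨A, hA, hA'⟩ := S.exists_sdField
  have hK := S.cm_smooth hA hΛ
  obtain ⟨Ki, hKi, hKs⟩ := hadamard (fun z : EN N × EN N => S.cmK A Λ z.1 z.2) hK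
  refine ⟨r, hr0, hr4, fun i h x => Ki i (h, x), hKi, ?_⟩
  intro x hx q hq δ hδ hδr b hb
  have hd := S.d0_pos
  have hsdb : S.L2F (fun y => sd (b y)) := by
    exact L2F.smul S (L2F.add S hb (L2F.star6 S hb)) (1 / 2 : ℝ)
  -- the expansion of the amplitude
  have hK0 : S.cmK A Λ 0 x = 0 :=
    S.cm_zero hx (fun b => (hA' x hx b).1) ((hΛi x hx 0 (by simpa using hr0.le)).2)
  have hexp : ∀ h : EN N, S.cmK A Λ h x = ∑ i, h i • Ki i (h, x) := by
    intro h
    have := hKs h x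
    simp only [hK0, sub_zero] at this
    exact this
  -- integrability
  have hint1 := S.integrable_Op hq.smooth hq.supp S.ampR S.smooth_ampR hδ hb x
  have hint2 := S.integrable_Op hq.smooth hq.supp S.ampR S.smooth_ampR hδ hsdb x
  have hint3 := S.integrable_Op hq.smooth hq.supp (S.cmK A Λ) hK hδ hb x
  have hint4 : ∀ i : Fin N, Integrable (fun s : EN N => (s i * q s) •
      Ki i (δ • s, x) (S.ex b (x + δ • s))) volume := fun i =>
    S.integrable_Op (hq.coord i).smooth (hq.coord i).supp (fun h x => Ki i (h, x)) (hKi i) hδ hb x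
  -- the identity on tangent vectors
  have hmain : ∀ u v, S.Tan x u → S.Tan x v →
      A x (S.Rb q δ b x) u v = S.Rb q δ (fun y => sd (b y)) x u v +
        δ * ∑ i, S.Op (fun s => s i * q s) (fun h x => Ki i (h, x)) δ b x u v := by
    intro u v hu hv
    have e1 : A x (S.Rb q δ b x) u v =
        ∫ s, q s * A x (Bil.pull (S.D (x + δ • s)) (S.ex b (x + δ • s))) u v := by
      have h1 := ((Bil.app u v).comp (A x)).integral_comp_comm hint1
      have h2 : A x (S.Rb q δ b x) u v = ((Bil.app u v).comp (A x))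
          (∫ s, q s • S.ampR (δ • s) x (S.ex b (x + δ • s))) := rfl
      rw [h2, ← h1]
      refine integral_congr_ae (Eventually.of_forall fun s => ?_)
      show (A x (q s • S.ampR (δ • s) x (S.ex b (x + δ • s)))) u v = _
      rw [map_smul, Bil.smul_apply]
      rfl
    have e2 : S.Rb q δ (fun y => sd (b y)) x u v =
        ∫ s, q s * (Bil.pull (S.D (x + δ • s)) (S.ex (fun y => sd (b y)) (x + δ • s))) u v := by
      have h2 : S.Rb q δ (fun y => sd (b y)) x u v =
          (∫ s, q s • S.ampR (δ • s) x (S.ex (fun y => sd (b y)) (x + δ • s))) u v := rfl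
      rw [h2, Bil.integral_apply hint2]
      rfl
    have e3 : ∫ s, q s * (S.cmK A Λ (δ • s) x (S.ex b (x + δ • s))) u v =
        δ * ∑ i, S.Op (fun s => s i * q s) (fun h x => Ki i (h, x)) δ b x u v := by
      have h1 : ∀ i : Fin N, S.Op (fun s => s i * q s) (fun h x => Ki i (h, x)) δ b x u v =
          ∫ s, (s i * q s) * (Ki i (δ • s, x) (S.ex b (x + δ • s))) u v := by
        intro i
        have h2 : S.Op (fun s => s i * q s) (fun h x => Ki i (h, x)) δ b x u v =
          (∫ s, (s i * q s) • Ki i (δ • s, x) (S.ex b (x + δ • s))) u v := rfl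
        rw [h2, Bil.integral_apply (hint4 i)]
        rfl
      simp only [h1]
      rw [← integral_finsetSum, ← integral_const_mul]
      · refine integral_congr_ae (Eventually.of_forall fun s => ?_)
        show q s * (S.cmK A Λ (δ • s) x (S.ex b (x + δ • s))) u v =
          δ * ∑ i, s i * q s * (Ki i (δ • s, x) (S.ex b (x + δ • s))) u v
        rw [hexp, _root_.sum_apply, Bil.sum_apply, Finset.mul_sum, Finset.mul_sum]
        refine Finset.sum_congr rfl fun i _ => ?_
        have h4 : (((δ • s) i • Ki i (δ • s, x)) (S.ex b (x + δ • s))) u v =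
            (δ * s i) * (Ki i (δ • s, x) (S.ex b (x + δ • s))) u v := rfl
        rw [h4]
        ring
      · intro i _
        have h3 := (Bil.app u v).integrable_comp (hint4 i)
        exact h3
    rw [e1, e2, ← e3, ← integral_add]
    · refine integral_congr_ae (Eventually.of_forall fun s => ?_)
      show q s * A x (Bil.pull (S.D (x + δ • s)) (S.ex b (x + δ • s))) u v =
        q s * (Bil.pull (S.D (x + δ • s)) (S.ex (fun y => sd (b y)) (x + δ • s))) u v +
        q s * (S.cmK A Λ (δ • s) x (S.ex b (x + δ • s))) u v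
      by_cases hs : 1 ≤ ‖s‖
      · rw [hq.supp s hs]; ring
      · have hn : ‖δ • s‖ ≤ r := by
          rw [norm_smul, Real.norm_of_nonneg hδ.le]
          have : ‖s‖ ≤ 1 := (not_le.1 hs).le
          calc δ * ‖s‖ ≤ δ * 1 := by gcongr
            _ ≤ r := by linarith
        rw [S.cm_key hA' hx (hn.trans hr4) (hΛi x hx _ hn).2 b hu hv]
        ring
    · have h3 := (Bil.app u v).integrable_comp hint2
      exact h3
    · have h3 := (Bil.app u v).integrable_comp hint3
      exact h3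
  -- conclusion
  have hform := S.isForm_Rb hq.smooth hδ hb
  obtain ⟨-, -, h7⟩ := hA' x hx (S.Rb q δ b x)
  obtain ⟨-, h9⟩ := h7 (fun v => hform.alt x v)
  have h10 : sd (S.cp (S.Rb q δ b) x) = comp6 (A x (S.Rb q δ b x)) (fun a => S.fr a x) := h9.symm
  rw [h10]
  have hfr : ∀ a, S.Tan x (S.fr a x) := fun a => S.fr_tan x hx a
  have hm := fun a b => hmain (S.fr a x) (S.fr b x) (hfr a) (hfr b)
  ext i
  have hsum : ∀ i : Fin 6, (δ • ∑ j, S.cp (S.Op (fun s => s j * q s) (fun h x => Ki j (h, x)) δ b) x) i =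
      δ * ∑ j, (S.cp (S.Op (fun s => s j * q s) (fun h x => Ki j (h, x)) δ b) x) i := by
    intro i
    rw [PiLp.smul_apply, smul_eq_mul, WithLp.ofLp_sum, Finset.sum_apply]
  rw [PiLp.add_apply, hsum]
  fin_cases i
  · exact hm 0 1
  · exact hm 0 2
  · exact hm 0 3
  · exact hm 1 2
  · exact hm 1 3
  · exact hm 2 3

end Setup

end Pool.Agent.W_MP_d8b8b7_gt
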