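import Pool.Agent.W_MP_d8b8b7_gt_G3.SdField
import Pool.Agent.W_MP_d8b8b7_gt_G3.NrmB
import Pool.Agent.W_MP_d8b8b7_gt.Currents

/-!
# Algebra of the anti-invariant and self-dual parts of smooth forms
-/

namespace Pool.Agent.W_MP_d8b8b7_gt

open MeasureTheory Set Filter Topology
open scoped ContDiff ENNReal

variable {N : ℕ}

namespace Setup

variable (S : Setup N)

theorem corrA_pull_anti {x : EN N} (hx : x ∈ S.X) (b : Bil N) :
    Bil.pull (S.D x) (S.antiB x b) = S.antiB x b := by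
  have hDD : ∀ v, S.D x (S.D x v) = S.D x v := fun v => S.D_D hx v
  have hJD : ∀ v, S.J x (S.D x v) = S.J x v := fun v => S.J_D x hx v
  ext u v
  simp only [Bil.smul_apply, Bil.pull_apply, Geom.antiB, Bil.sub_apply,
      Bil.flip_apply, hDD, hJD]

/-- two alternating forms with the same pr2 of the components have the same anti-invariant part on X:
`cp_anti`, `rc_cp`, antiB x b = pull (D x) (antiB x b) -/
theorem anti_eq_of_pr2 {β γ : EN N → Bil N} {x : EN N} (hx : x ∈ S.X) (hβ : ∀ v, β x v v = 0)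
    (hγ : ∀ v, γ x v v = 0) (h : pr2 (S.cp β x) = pr2 (S.cp γ x)) : S.anti β x = S.anti γ x := by
  have halt : ∀ β : EN N → Bil N, ∀ v, S.anti β x v v = 0 := by
    intro β v
    change S.antiB x (β x) v v = 0
    simp only [Geom.antiB, Bil.smul_apply, Bil.sub_apply, Bil.flip_apply, sub_self, mul_zero]
  have key : ∀ β : EN N → Bil N, S.anti β x = S.rc (S.cp (S.anti β)) x := by
    intro β
    rw [S.rc_cp hx (S.anti β) (halt β)]
    exact (S.corrA_pull_anti hx (β x)).symm
  rw [key β, key γ]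
  unfold rc
  rw [S.cp_anti hx β hβ, S.cp_anti hx γ hγ, h]

/-- the anti-invariant part only depends on the values on tangent vectors -/
theorem anti_congr {β γ : EN N → Bil N} {x : EN N} (hx : x ∈ S.X)
    (h : ∀ u v, S.Tan x u → S.Tan x v → β x u v = γ x u v) : S.anti β x = S.anti γ x := by
  have hDD : ∀ v, S.Tan x (S.D x v) := fun v => S.D_D hx v
  have hDJ : ∀ v, S.Tan x (S.J x v) := fun v => S.D_J x hx v
  change S.antiB x (β x) = S.antiB x (γ x)
  ext u v
  simp only [Bil.smul_apply, Bil.pull_apply, Geom.antiB, Bil.sub_apply, Bil.flip_apply]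
  rw [h _ _ (hDD u) (hDD v), h _ _ (hDJ u) (hDJ v), h _ _ (hDD v) (hDD u),
    h _ _ (hDJ v) (hDJ u)]

/-- the self-dual part of a smooth form is (on X) a smooth form -/
theorem exists_sd_form {w : EN N → Bil N} (hw : IsForm w) : ∃ v : EN N → Bil N, IsForm v ∧
    (∀ x ∈ S.X, S.cp v x = sd (S.cp w x)) ∧ ∀ x ∈ S.X, Bil.pull (S.D x) (v x) = v x := by
  obtain ⟨A, hA, hAx⟩ := S.exists_sdField
  have hs : ContDiff ℝ ∞ (fun x => A x (w x)) := hA.clm_apply hw.smooth
  have heq : ∀ x ∈ S.X, (1 / 2 : ℝ) • (A x (w x) - Bil.flipL (A x (w x))) = A x (w x) := by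
    intro x hx
    obtain ⟨-, -, h3⟩ := hAx x hx (w x)
    have h4 := (h3 (hw.alt x)).1
    ext u v
    rw [Bil.smul_apply, Bil.sub_apply, Bil.flipL_apply, Bil.flip_apply, pt_skew h4 v u]
    ring
  refine ⟨fun x => (1 / 2 : ℝ) • (A x (w x) - Bil.flipL (A x (w x))), ⟨?_, ?_⟩, ?_, ?_⟩
  · exact contDiff_const_smul' _ (hs.sub (Bil.flipL.contDiff.comp hs))
  · intro x v
    change ((1 / 2 : ℝ) • (A x (w x) - Bil.flipL (A x (w x)))) v v = 0
    rw [Bil.smul_apply, Bil.sub_apply, Bil.flipL_apply, Bil.flip_apply, sub_self, mul_zero]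
  · intro x hx
    obtain ⟨-, -, h3⟩ := hAx x hx (w x)
    unfold cp
    simp only
    rw [heq x hx]
    exact (h3 (hw.alt x)).2
  · intro x hx
    simp only
    rw [heq x hx]
    exact (hAx x hx (w x)).2.1.symm

theorem corrA_pr1_om {x : EN N} (hx : x ∈ S.X) : pr1 (S.cp S.om x) = Fc := by
  rw [← S.cp_inv hx S.om (S.om_alt x)]
  exact S.cp_F hx

/-- om is self-dual: om = F + anti om -/
theorem sd_cp_om {x : EN N} (hx : x ∈ S.X) : sd (S.cp S.om x) = S.cp S.om x := by
  have h1 := S.corrA_pr1_om hx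
  have h2 : sd (S.cp S.om x) = pr2 (S.cp S.om x) + (wedge (S.cp S.om x) Fc / 2) • Fc :=
    half_add_star _
  have h3 : wedge (S.cp S.om x) Fc = 2 := by
    rw [wedge_Fc, ← pr1_c0, ← pr1_c5, h1, Fc_c0, Fc_c5]
    norm_num
  have h4 := pr1_add_pr2 (S.cp S.om x)
  rw [h2, h3, div_self two_ne_zero, one_smul]
  rw [h1] at h4
  rw [add_comm]
  exact h4

/-- the closed form om has positive square -/
theorem pair_om_pos : 0 < S.pair S.om S.om := by
  have hL := S.L2F_cp S.smooth_om.continuous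
  have hmu : 0 < S.nu.real univ := by
    rw [Measure.real, ENNReal.toReal_pos_iff]
    exact ⟨S.nu_pos, measure_lt_top _ _⟩
  have h1 : ∫ _x, (2 : ℝ) ∂S.nu ≤ ∫ x, wedge (S.cp S.om x) (S.cp S.om x) ∂S.nu := by
    refine integral_mono_ae (integrable_const _) (S.integrable_wedge hL hL) ?_
    filter_upwards [S.ae_mem_X] with x hx
    have h2 : star6 (S.cp S.om x) = S.cp S.om x := by
      have h3 := S.sd_cp_om hx
      unfold sd at h3
      have h4 : (2 : ℝ) • ((1 / 2 : ℝ) • (S.cp S.om x + star6 (S.cp S.om x))) =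
          (2 : ℝ) • S.cp S.om x := by rw [h3]
      rw [smul_smul, two_smul] at h4
      norm_num at h4
      exact h4
    have h3 : wedge (S.cp S.om x) (S.cp S.om x) = ‖S.cp S.om x‖ ^ 2 := by
      conv_lhs => rw [← h2]
      rw [wedge_comm, h2]
      conv_lhs =>
        arg 2
        rw [← h2]
      rw [wedge_star, real_inner_self_eq_norm_sq]
    rw [h3, norm_sq_split, S.corrA_pr1_om hx, norm_Fc_sq]
    have := sq_nonneg ‖pr2 (S.cp S.om x)‖
    linarith
  rw [integral_const, smul_eq_mul] at h1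
  unfold pair B
  have : 0 < S.nu.real univ * 2 := by positivity
  linarith

end Setup

end Pool.Agent.W_MP_d8b8b7_gt
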