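import Pool.Agent.W_MP_d8b8b7_gt_G3.CorrA
import Pool.Agent.W_MP_d8b8b7_gt_G3.SmoothEll
import Pool.Agent.W_MP_d8b8b7_gt_G3.CkBound
import Pool.Agent.W_MP_d8b8b7_gt.Currents

/-!
# The correction theorems
-/

namespace Pool.Agent.W_MP_d8b8b7_gt

open MeasureTheory Set Filter Topology
open scoped ContDiff ENNReal

variable {N : ℕ}

namespace Setup

variable (S : Setup N)

theorem cr_sd_pr2 (a : C6) : sd (pr2 a) = pr2 a := by
  apply pt_ext6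
  · show (1 / 2 : ℝ) * (0 + 0) = 0
    norm_num
  · show (1 / 2 : ℝ) * ((a 1 - a 4) / 2 + -((a 4 - a 1) / 2)) = (a 1 - a 4) / 2
    ring
  · show (1 / 2 : ℝ) * ((a 2 + a 3) / 2 + (a 2 + a 3) / 2) = (a 2 + a 3) / 2
    ring
  · show (1 / 2 : ℝ) * ((a 2 + a 3) / 2 + (a 2 + a 3) / 2) = (a 2 + a 3) / 2
    ring
  · show (1 / 2 : ℝ) * ((a 4 - a 1) / 2 + -((a 1 - a 4) / 2)) = (a 4 - a 1) / 2
    ring
  · show (1 / 2 : ℝ) * (0 + 0) = 0
    norm_num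

theorem cr_norm_sd_le (a : C6) : ‖sd a‖ ≤ ‖a‖ := by
  unfold sd
  rw [norm_smul]
  have h1 : ‖a + star6 a‖ ≤ ‖a‖ + ‖star6 a‖ := norm_add_le _ _
  rw [norm_star6] at h1
  have h2 : ‖(1 / 2 : ℝ)‖ = 1 / 2 := by norm_num
  rw [h2]
  linarith

/-- `pr2` of `a + (p + (-1) • sd a)` is `pr2 p` -/
theorem cr_pr2_calc (a p : C6) : pr2 (a + (p + (-1 : ℝ) • sd a)) = pr2 p := by
  apply pt_ext6
  · rfl
  · show ((a 1 + (p 1 + (-1) * ((1 / 2) * (a 1 + -(a 4))))) -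
      (a 4 + (p 4 + (-1) * ((1 / 2) * (a 4 + -(a 1)))))) / 2 = (p 1 - p 4) / 2
    ring
  · show ((a 2 + (p 2 + (-1) * ((1 / 2) * (a 2 + a 3)))) +
      (a 3 + (p 3 + (-1) * ((1 / 2) * (a 3 + a 2))))) / 2 = (p 2 + p 3) / 2
    ring
  · show ((a 2 + (p 2 + (-1) * ((1 / 2) * (a 2 + a 3)))) +
      (a 3 + (p 3 + (-1) * ((1 / 2) * (a 3 + a 2))))) / 2 = (p 2 + p 3) / 2
    ring
  · show ((a 4 + (p 4 + (-1) * ((1 / 2) * (a 4 + -(a 1))))) -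
      (a 1 + (p 1 + (-1) * ((1 / 2) * (a 1 + -(a 4)))))) / 2 = (p 4 - p 1) / 2
    ring
  · rfl

/-- (G3), first form.  g = anti β, w from `exists_smooth_ell`, v the self-dual part of w
(`exists_sd_form`), b = w + (g - v): g - v is smooth with components cp g - sd (cp w), weakly closed,
so closed (`closed_of_wclosed`); pr2 (cp b) = pr2 (cp w) + pr2 (cp g) - pr2 (sd (cp w)) = pr2 (cp g). -/
theorem correction_aux : ∃ (k : ℕ) (C : ℝ), ∀ β, IsForm β → ∀ c, S.AntiLe k β c →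
    ∃ b, IsForm b ∧ S.Closed b ∧ (∀ x ∈ S.X, S.anti b x = S.anti β x) ∧
      ∀ z ∈ S.X1, |S.ev b z| ≤ C * c := by
  obtain ⟨C1, hC1, h1⟩ := S.CkUd_anti 5
  obtain ⟨C2, hC2, h2⟩ := S.nrm_cp_anti_le 5
  obtain ⟨C3, hC3, h3⟩ := S.exists_smooth_ell
  obtain ⟨C4, hC4, h4, -, h4'⟩ := S.exists_bound
  refine ⟨5, (C3 * (C1 + C2) + 1 + C4 * (C4 * (C3 * (C1 + C2)))) * C4 * (C4 * C4), ?_⟩
  intro β hβ c hc
  obtain ⟨hc0, hsup, hnrm⟩ := h2 β c hβ.smooth hc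
  have hg : IsForm (S.anti β) := S.isForm_anti hβ.smooth
  have hcpg : ∀ x ∈ S.X, S.cp (S.anti β) x = pr2 (S.cp β x) := fun x hx =>
    S.cp_anti hx β (hβ.alt x)
  have hsdg : ∀ x ∈ S.X, sd (S.cp (S.anti β) x) = S.cp (S.anti β) x := fun x hx => by
    rw [hcpg x hx, cr_sd_pr2]
  have hB0 : 0 ≤ (C1 + C2) * c := by positivity
  have hCk : S.CkUd 5 (S.anti β) ((C1 + C2) * c) := fun y hy j hj =>
    (h1 β c hβ.smooth hc y hy j hj).trans (by nlinarith [mul_nonneg hC2 hc0])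
  obtain ⟨w, hw, hwc, hell, hwp, hwn⟩ := h3 (S.anti β) ((C1 + C2) * c) hg hsdg hB0 hCk
    (hnrm.trans (by nlinarith [mul_nonneg hC1 hc0]))
  obtain ⟨v, hv, hcv, hvp⟩ := S.exists_sd_form hw
  have hγ : IsForm (S.anti β + (-1 : ℝ) • v) := hg.add (hv.smul _)
  have hcγ : ∀ x ∈ S.X, S.cp (S.anti β + (-1 : ℝ) • v) x =
      S.cp (S.anti β) x - sd (S.cp w x) := fun x hx => by
    rw [S.cp_add, S.cp_smul, hcv x hx, neg_one_smul, sub_eq_add_neg]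
  have hwγ : S.WClosed (S.cp (S.anti β + (-1 : ℝ) • v)) := by
    intro α hα
    rw [← hell.wcl α hα]
    unfold B
    refine integral_congr_ae ?_
    filter_upwards [S.ae_mem_X] with x hx
    rw [hcγ x hx]
  have hγc : S.Closed (S.anti β + (-1 : ℝ) • v) := S.closed_of_wclosed hγ hwγ
  refine ⟨w + (S.anti β + (-1 : ℝ) • v), hw.add hγ, ?_, ?_, ?_⟩
  · intro x hx p q r hp hq hr
    rw [dTwo_add hw.smooth hγ.smooth, hwc x hx p q r hp hq hr, hγc x hx p q r hp hq hr, add_zero]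
  · intro x hx
    refine S.anti_eq_of_pr2 hx ((hw.add hγ).alt x) (hβ.alt x) ?_
    rw [S.cp_add, S.cp_add, S.cp_smul, hcv x hx, cr_pr2_calc, hcpg x hx, pr2_pr2]
  · intro z hz
    have hx : z.1 ∈ S.X := hz.1
    obtain ⟨hJ, -, -, -, hrc, hcp⟩ := h4 z.1 hx
    have hC40 : 0 ≤ C4 := zero_le_one.trans hC4
    have hz2 : ‖z.2‖ ≤ C4 := h4' z hz
    have hwx : ‖w z.1‖ ≤ C3 * ((C1 + C2) * c) := hwn z.1 hx
    have hgx : ‖S.anti β z.1‖ ≤ c := hsup z.1 hx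
    have hvx : ‖v z.1‖ ≤ C4 * (C4 * (C3 * ((C1 + C2) * c))) := by
      have e1 : v z.1 = S.rc (S.cp v) z.1 := by
        rw [S.rc_cp hx v (hv.alt z.1), hvp z.1 hx]
      have e2 : ‖S.cp v z.1‖ ≤ C4 * (C3 * ((C1 + C2) * c)) := by
        rw [hcv z.1 hx]
        refine (cr_norm_sd_le _).trans ((hcp w).trans ?_)
        exact mul_le_mul_of_nonneg_left hwx hC40
      rw [e1]
      exact (hrc _).trans (mul_le_mul_of_nonneg_left e2 hC40)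
    have hb : ‖(w + (S.anti β + (-1 : ℝ) • v)) z.1‖ ≤
        (C3 * (C1 + C2) + 1 + C4 * (C4 * (C3 * (C1 + C2)))) * c := by
      have e1 : ‖(w + (S.anti β + (-1 : ℝ) • v)) z.1‖ ≤
          ‖w z.1‖ + (‖S.anti β z.1‖ + ‖v z.1‖) := by
        refine (norm_add_le (w z.1) (S.anti β z.1 + (-1 : ℝ) • v z.1)).trans ?_
        have e2 : ‖S.anti β z.1 + (-1 : ℝ) • v z.1‖ ≤ ‖S.anti β z.1‖ + ‖(-1 : ℝ) • v z.1‖ :=
          norm_add_le _ _
        rw [norm_smul, norm_neg, norm_one, one_mul] at e2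
        linarith
      have e3 : (C3 * (C1 + C2) + 1 + C4 * (C4 * (C3 * (C1 + C2)))) * c =
        C3 * ((C1 + C2) * c) + (c + C4 * (C4 * (C3 * ((C1 + C2) * c)))) := by ring
      rw [e3]
      linarith
    have hJz : ‖S.J z.1 z.2‖ ≤ C4 * C4 :=
      ((S.J z.1).le_opNorm z.2).trans (mul_le_mul hJ hz2 (norm_nonneg _) hC40)
    have hK : 0 ≤ (C3 * (C1 + C2) + 1 + C4 * (C4 * (C3 * (C1 + C2)))) * c :=
      (norm_nonneg _).trans hb
    calc |S.ev (w + (S.anti β + (-1 : ℝ) • v)) z|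
        ≤ ‖(w + (S.anti β + (-1 : ℝ) • v)) z.1‖ * ‖z.2‖ * ‖S.J z.1 z.2‖ :=
          Bil.abs_apply_le _ _ _
      _ ≤ ((C3 * (C1 + C2) + 1 + C4 * (C4 * (C3 * (C1 + C2)))) * c) * C4 * (C4 * C4) := by
          refine mul_le_mul (mul_le_mul hb hz2 (norm_nonneg _) hK) hJz (norm_nonneg _) ?_
          exact mul_nonneg hK hC40
      _ = _ := by ring

end Setup

end Pool.Agent.W_MP_d8b8b7_gt
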