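import Pool.Agent.W_MP_d8b8b7_gt_G3.Weak
import Pool.Agent.W_MP_d8b8b7_gt_G3.CommStep

/-!
# The elliptic problem and the energy inequality for its regularisations
-/

namespace Pool.Agent.W_MP_d8b8b7_gt

open MeasureTheory Set Filter Topology
open scoped ContDiff ENNReal

variable {N : ℕ}

namespace Setup

theorem energy_wedge_sd (a : C6) : 2 * wedge (sd a) a - wedge a a = ‖a‖ ^ 2 := by
  unfold sd
  rw [W_MP_d8b8b7_gt.wedge_smul_left, W_MP_d8b8b7_gt.wedge_add_left,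
    W_MP_d8b8b7_gt.wedge_comm (star6 a) a, wedge_star,
    real_inner_self_eq_norm_sq]
  ring

variable (S : Setup N)

theorem energy_sd {a : EN N → C6} (ha : S.L2F a) : S.L2F (fun x => sd (a x)) := by
  have h := L2F.smul S (L2F.add S ha (L2F.star6 S ha)) (1 / 2 : ℝ)
  exact h

/-- pointwise ‖a‖² = 2 wedge (sd a) a - wedge a a, integrated -/
theorem nrm_sq_eq_B {a : EN N → C6} (ha : S.L2F a) :
    S.nrm a ^ 2 = 2 * S.B (fun x => sd (a x)) a - S.B a a := by
  rw [nrm_sq]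
  unfold B
  rw [← integral_const_mul, ← integral_sub
    ((S.integrable_wedge (S.energy_sd ha) ha).const_mul 2) (S.integrable_wedge ha ha)]
  apply integral_congr_ae
  apply ae_of_all
  intro x
  exact (energy_wedge_sd (a x)).symm

theorem energy_final {n B1 B2 G O δ : ℝ} (hsq : n ^ 2 = 2 * (B1 + δ * B2) - 0)
    (hb1 : B1 ≤ G * n) (hb2 : δ * B2 ≤ δ * (O * n)) : n * n ≤ (2 * G + 2 * δ * O) * n := by
  have h : (2 * G + 2 * δ * O) * n = 2 * (G * n + δ * (O * n)) := by ring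
  rw [h]
  have h2 : n * n = n ^ 2 := by ring
  rw [h2, hsq]
  linarith

theorem energy_B_sum {ι : Type*} (s : Finset ι) {f : ι → EN N → C6} {a : EN N → C6}
    (hf : ∀ i ∈ s, S.L2F (f i)) (ha : S.L2F a) :
    S.B (∑ i ∈ s, f i) a ≤ (∑ i ∈ s, S.nrm (f i)) * S.nrm a ∧ S.L2F (∑ i ∈ s, f i) := by
  classical
  induction s using Finset.induction_on with
  | empty =>
    refine ⟨?_, ?_⟩
    · simp only [Finset.sum_empty, zero_mul]
      have h := S.B_smul_left 0 (0 : EN N → C6) a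
      rw [zero_smul, zero_mul] at h
      exact h.le
    · rw [Finset.sum_empty]
      exact ⟨measurable_const, MemLp.zero⟩
  | insert i s hi ih =>
    obtain ⟨h1, h2⟩ := ih (fun j hj => hf j (Finset.mem_insert_of_mem hj))
    have h3 := hf i (Finset.mem_insert_self i s)
    rw [Finset.sum_insert hi, Finset.sum_insert hi]
    refine ⟨?_, L2F.add S h3 h2⟩
    rw [S.B_add_left h3 h2 ha, add_mul]
    have h4 := (le_abs_self _).trans (S.abs_B_le h3 ha)
    linarith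

theorem energy_B_congr {a b c : EN N → C6} (h : ∀ x ∈ S.X, a x = b x) : S.B a c = S.B b c := by
  unfold B
  apply integral_congr_ae
  filter_upwards [S.ae_mem_X] with x hx
  rw [h x hx]

/-- Energy inequality.  r = min of the radii of `comm_step` and `closed_Rb`, a = cp (Rb q δ b).
a is in the closure of exact forms (`Ex.Rb`) and weakly closed, so B a a = 0 and
nrm a ^ 2 = 2 B (sd a) a.  By `comm_step`, sd a = cp (Rb q δ (sd b)) + δ ∑ cp (Op ..) a.e.;
Rb q δ (sd b) = Rb q δ (cp g) - Rb q δ η with η = cp g - sd b weakly closed; Rb q δ η is a smooth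
closed form (`closed_Rb`, `isForm_Rb`), hence weakly closed and B (cp (Rb q δ η)) a = 0
(`Ex.B_eq_zero`, `B_comm`).  So nrm a ^ 2 = 2 B (cp (Rb q δ (cp g)) + δ ∑ ..) a
≤ 2 (nrm .. + δ ∑ nrm ..) nrm a. -/
theorem energy_step : ∃ r : ℝ, 0 < r ∧ r ≤ S.d0 / 4 ∧
    ∃ Ki : Fin N → EN N → EN N → (Bil N →L[ℝ] Bil N),
      (∀ i, ContDiff ℝ ∞ (fun z : EN N × EN N => Ki i z.1 z.2)) ∧
      ∀ (b : EN N → C6) (g : EN N → Bil N), S.Ell b g → ∀ q : EN N → ℝ, QF q →
        ∀ δ : ℝ, 0 < δ → δ ≤ r →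
          S.nrm (S.cp (S.Rb q δ b)) ≤ 2 * S.nrm (S.cp (S.Rb q δ (S.cp g))) +
            2 * δ * ∑ i, S.nrm (S.cp (S.Op (fun s => s i * q s) (Ki i) δ b)) := by
  obtain ⟨r, hr0, hr4, Ki, hKi, hcomm⟩ := S.comm_step
  obtain ⟨d1, hd1, hd1', hcl⟩ := S.closed_Rb
  refine ⟨min r d1, lt_min hr0 hd1, (min_le_left _ _).trans hr4, Ki, hKi, ?_⟩
  intro b g hbg q hq δ hδ hδr
  have hδ1 : δ ≤ r := hδr.trans (min_le_left _ _)
  have hδ2 : δ ≤ d1 := hδr.trans (min_le_right _ _)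
  have hδh : δ ≤ S.d0 / 2 := hδ2.trans hd1'.le
  have hb : S.L2F b := hbg.ex.1
  have hg : S.L2F (S.cp g) := S.L2F_cp hbg.form.smooth.continuous
  have hsb : S.L2F (fun x => sd (b x)) := S.energy_sd hb
  set a : EN N → C6 := S.cp (S.Rb q δ b) with ha
  have haL : S.L2F a := S.L2F_cp (S.isForm_Rb hq.smooth hδ hb).smooth.continuous
  have haE : S.Ex a := Ex.Rb S hbg.ex hq hδ hδh
  have haW : S.WClosed a := Ex.wclosed S haE
  have haa : S.B a a = 0 := Ex.B_eq_zero S haE haL haW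
  -- the weakly closed form η
  set η : EN N → C6 := S.cp g + (-1 : ℝ) • (fun x => sd (b x)) with hη
  have hη' : η = fun x => S.cp g x - sd (b x) := by
    funext x
    show S.cp g x + (-1 : ℝ) • sd (b x) = S.cp g x - sd (b x)
    rw [neg_one_smul, ← sub_eq_add_neg]
  have hηL : S.L2F η := L2F.add S hg (L2F.smul S hsb _)
  have hηW : S.WClosed η := by
    rw [hη']
    exact hbg.wcl
  have hRη : S.Closed (S.Rb q δ η) := hcl δ hδ hδ2 q hq η hηL hηW
  have hRηF : IsForm (S.Rb q δ η) := S.isForm_Rb hq.smooth hδ hηL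
  have hRηW : S.WClosed (S.cp (S.Rb q δ η)) := S.wclosed_of_closed hRηF hRη
  have hRηL : S.L2F (S.cp (S.Rb q δ η)) := S.L2F_cp hRηF.smooth.continuous
  have h0 : S.B (S.cp (S.Rb q δ η)) a = 0 := by
    rw [S.B_comm]
    exact Ex.B_eq_zero S haE hRηL hRηW
  -- decomposition
  have hdec : S.Rb q δ (fun x => sd (b x)) = S.Rb q δ (S.cp g) + (-1 : ℝ) • S.Rb q δ η := by
    have h1 : (fun x => sd (b x)) = S.cp g + (-1 : ℝ) • η := by
      funext x
      rw [hη']
      show sd (b x) = S.cp g x + (-1 : ℝ) • (S.cp g x - sd (b x))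
      rw [neg_one_smul]
      abel
    rw [h1, S.Rb_add hq.smooth hq.supp hδ hg (L2F.smul S hηL _), S.Rb_smul]
  have hGF : IsForm (S.Rb q δ (S.cp g)) := S.isForm_Rb hq.smooth hδ hg
  have hGL : S.L2F (S.cp (S.Rb q δ (S.cp g))) := S.L2F_cp hGF.smooth.continuous
  have hOL : ∀ i ∈ (Finset.univ : Finset (Fin N)),
      S.L2F (S.cp (S.Op (fun s => s i * q s) (Ki i) δ b)) := fun i _ =>
    S.L2F_cp (S.contDiff_Op (hq.coord i).smooth (Ki i) (hKi i) hδ hb).continuous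
  obtain ⟨hsum, hsumL⟩ := S.energy_B_sum Finset.univ hOL haL
  have hsd : ∀ x ∈ S.X, sd (a x) = (S.cp (S.Rb q δ (S.cp g)) +
      ((-1 : ℝ) • S.cp (S.Rb q δ η) +
        δ • ∑ i, S.cp (S.Op (fun s => s i * q s) (Ki i) δ b))) x := by
    intro x hx
    rw [ha, hcomm x hx q hq δ hδ hδ1 b hb, hdec, S.cp_add, S.cp_smul]
    show S.cp (S.Rb q δ (S.cp g)) x + (-1 : ℝ) • S.cp (S.Rb q δ η) x +
      δ • ∑ i, S.cp (S.Op (fun s => s i * q s) (Ki i) δ b) x =
      S.cp (S.Rb q δ (S.cp g)) x + ((-1 : ℝ) • S.cp (S.Rb q δ η) x +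
        δ • (∑ i, S.cp (S.Op (fun s => s i * q s) (Ki i) δ b)) x)
    rw [Finset.sum_apply, add_assoc]
  have hB : S.B (fun x => sd (a x)) a = S.B (S.cp (S.Rb q δ (S.cp g))) a +
      δ * S.B (∑ i, S.cp (S.Op (fun s => s i * q s) (Ki i) δ b)) a := by
    rw [S.energy_B_congr (c := a) hsd,
      S.B_add_left hGL (L2F.add S (L2F.smul S hRηL _) (L2F.smul S hsumL _)) haL,
      S.B_add_left (L2F.smul S hRηL _) (L2F.smul S hsumL _) haL, S.B_smul_left, S.B_smul_left, h0]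
    ring
  have hsq := S.nrm_sq_eq_B haL
  rw [haa, hB] at hsq
  have hb1 := (le_abs_self _).trans (S.abs_B_le hGL haL)
  have hb2 := mul_le_mul_of_nonneg_left hsum hδ.le
  have hn0 := S.nrm_nonneg a
  have hsn : 0 ≤ ∑ i, S.nrm (S.cp (S.Op (fun s => s i * q s) (Ki i) δ b)) :=
    Finset.sum_nonneg fun i _ => S.nrm_nonneg _
  have hGn := S.nrm_nonneg (S.cp (S.Rb q δ (S.cp g)))
  rcases hn0.eq_or_lt with h | h
  · rw [← h]
    exact add_nonneg (mul_nonneg zero_le_two hGn)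
      (mul_nonneg (mul_nonneg zero_le_two hδ.le) hsn)
  · have hfin := energy_final hsq hb1 hb2
    exact le_of_mul_le_mul_right hfin h

end Setup

end Pool.Agent.W_MP_d8b8b7_gt
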