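import Pool.Agent.W_MP_d8b8b7_gt_G3.Lhat
import Pool.Agent.W_MP_d8b8b7_gt_G3.SdField

/-!
# Every amplitude factors through the pull back
-/

namespace Pool.Agent.W_MP_d8b8b7_gt

open MeasureTheory Set Filter Topology
open scoped ContDiff ENNReal

variable {N : ℕ}

namespace Setup

variable (S : Setup N)

/-- Every amplitude factors through the pull back: with Λ, r from `exists_Lhat_inv` put
A' (h, x) = A (h, x) ∘ pullL (D (rho (x + h))) ∘ pullL (Λ (h, x)) ∘ pullL (D x).  For x in X, ‖h‖ ≤ r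
and a form c with c = pull (D (rho (x+h))) c (for instance c = ex b (x + h), by `pull_D_rc`),
A' (h, x) (pull (D (x+h)) c) = A (h, x) c by `D_D_inv`. -/
theorem exists_factor : ∃ r : ℝ, 0 < r ∧ r ≤ S.d0 / 4 ∧
    ∀ A : EN N → EN N → (Bil N →L[ℝ] Bil N), ContDiff ℝ ∞ (fun z : EN N × EN N => A z.1 z.2) →
    ∃ A' : EN N → EN N → (Bil N →L[ℝ] Bil N), ContDiff ℝ ∞ (fun z : EN N × EN N => A' z.1 z.2) ∧
      ∀ x ∈ S.X, (∀ h c, A' h x c = A' h x (Bil.pull (S.D x) c)) ∧
        ∀ h : EN N, ‖h‖ ≤ r → ∀ c : Bil N, Bil.pull (S.D (S.rho (x + h))) c = c →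
          A' h x (Bil.pull (S.D (x + h)) c) = A h x c := by
  obtain ⟨r, hr, hrd, Λ, hΛ, hinv⟩ := S.exists_Lhat_inv
  refine ⟨r, hr, hrd, fun A hA => ?_⟩
  have hsum : ContDiff ℝ ∞ (fun z : EN N × EN N => z.2 + z.1) :=
    contDiff_snd.add contDiff_fst
  have hDr : ContDiff ℝ ∞ (fun z : EN N × EN N => S.D (S.rho (z.2 + z.1))) :=
    S.smooth_D.comp (S.smooth_rho.comp hsum)
  have hDx : ContDiff ℝ ∞ (fun z : EN N × EN N => S.D z.2) := S.smooth_D.comp contDiff_snd
  refine ⟨fun h x => ((A h x).comp ((Bil.pullL (S.D (S.rho (x + h)))).comp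
    ((Bil.pullL (Λ (h, x))).comp (Bil.pullL (S.D x))))), ?_, ?_⟩
  · exact hA.clm_comp ((contDiff_pullL hDr).clm_comp
      ((contDiff_pullL hΛ).clm_comp (contDiff_pullL hDx)))
  · intro x hx
    refine ⟨fun h c => ?_, fun h hh c hc => ?_⟩
    · have h1 : Bil.pull (S.D x) (Bil.pull (S.D x) c) = Bil.pull (S.D x) c := by
        ext u v
        simp only [Bil.pull_apply, S.D_D hx]
      simp only [ContinuousLinearMap.comp_apply, Bil.pullL_apply, h1]
    · have hd0 := S.d0_pos
      have hU : x + h ∈ S.U := S.tube x hx h (by linarith)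
      have hX : S.rho (x + h) ∈ S.X := S.rho_mem _ hU
      have h2 : ∀ u, S.D (x + h) (S.D x (Λ (h, x) (S.D (S.rho (x + h)) u))) =
          S.D (S.rho (x + h)) u := by
        intro u
        refine S.D_D_inv hx (by linarith) (hinv x hx h hh).2 ?_
        exact S.D_D hX u
      simp only [ContinuousLinearMap.comp_apply, Bil.pullL_apply]
      congr 1
      conv_rhs => rw [← hc]
      ext u v
      simp only [Bil.pull_apply, h2]

end Setup

end Pool.Agent.W_MP_d8b8b7_gt
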