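import Pool.Agent.W_MP_d8b8b7_gt_G3.PullD
import Pool.Agent.W_MP_d8b8b7_gt.PtBound

/-!
# Gluing of a series of smooth forms with bounds on X
-/

namespace Pool.Agent.W_MP_d8b8b7_gt

open MeasureTheory Set Filter Topology
open scoped ContDiff ENNReal

variable {N : ℕ}

theorem glue_exists_bound {F : Type*} [NormedAddCommGroup F] [NormedSpace ℝ F]
    {K : Set (EN N)} (hK : IsCompact K) (G : EN N → F) (hG : ContDiff ℝ ∞ G) (k : ℕ) :
    ∃ M : ℝ, 1 ≤ M ∧ ∀ y ∈ K, ∀ i ≤ k, ‖iteratedFDeriv ℝ i G y‖ ≤ M := by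
  have h : ∀ i : ℕ, ∃ C : ℝ, ∀ y ∈ K, ‖iteratedFDeriv ℝ i G y‖ ≤ C := fun i =>
    hK.exists_bound_of_continuousOn
      (hG.continuous_iteratedFDeriv (by exact_mod_cast le_top)).continuousOn
  choose C hC using h
  refine ⟨1 + ∑ i ∈ Finset.range (k + 1), |C i|, ?_, fun y hy i hi => ?_⟩
  · have : 0 ≤ ∑ i ∈ Finset.range (k + 1), |C i| := Finset.sum_nonneg (fun i _ => abs_nonneg _)
    linarith
  · have h1 : |C i| ≤ ∑ i ∈ Finset.range (k + 1), |C i| :=
      Finset.single_le_sum (f := fun i => |C i|) (fun i _ => abs_nonneg _)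
        (Finset.mem_range.mpr (by omega))
    have h2 := hC i y hy
    linarith [le_abs_self (C i)]

/-- derivatives of G(y) (f(r y)) where G vanishes off K and r maps K to X -/
theorem glue_bound {K X : Set (EN N)} (hK : IsCompact K) (r : EN N → EN N)
    (hr : ContDiff ℝ ∞ r) (hrK : ∀ y ∈ K, r y ∈ X) (G : EN N → (Bil N →L[ℝ] Bil N))
    (hG : ContDiff ℝ ∞ G) (hG0 : ∀ y ∉ K, G y = 0) (k : ℕ) :
    ∃ B : ℝ, 0 ≤ B ∧ ∀ f : EN N → Bil N, ContDiff ℝ ∞ f → ∀ s : ℕ → ℝ,
      (∀ a, 0 ≤ s a) → (∀ a, ∀ x ∈ X, ‖iteratedFDeriv ℝ a f x‖ ≤ s a) → ∀ y,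
      ‖iteratedFDeriv ℝ k (fun y => G y (f (r y))) y‖ ≤
        B * ∑ j ∈ Finset.range (k + 1), s j := by
  obtain ⟨M1, hM1, hM1b⟩ := glue_exists_bound hK G hG k
  obtain ⟨M2, hM2, hM2b⟩ := glue_exists_bound hK r hr k
  have hM10 : 0 ≤ M1 := zero_le_one.trans hM1
  have hM20 : 0 ≤ M2 := zero_le_one.trans hM2
  refine ⟨2 ^ k * M1 * (k.factorial * M2 ^ k), by positivity, ?_⟩
  intro f hf s hs hfs y
  have hS0 : 0 ≤ ∑ j ∈ Finset.range (k + 1), s j := Finset.sum_nonneg (fun j _ => hs j)
  have hfr : ContDiff ℝ ∞ (fun y => f (r y)) := hf.comp hr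
  have hleib := norm_iteratedFDeriv_clm_apply (x := y) (n := k) hG hfr
    (by exact_mod_cast le_top)
  by_cases hy : y ∈ K
  · refine hleib.trans ?_
    calc ∑ i ∈ Finset.range (k + 1), (k.choose i : ℝ) * ‖iteratedFDeriv ℝ i G y‖ *
            ‖iteratedFDeriv ℝ (k - i) (fun y => f (r y)) y‖ ≤
          ∑ i ∈ Finset.range (k + 1), (k.choose i : ℝ) *
            (M1 * (k.factorial * (∑ j ∈ Finset.range (k + 1), s j) * M2 ^ k)) := by
          apply Finset.sum_le_sum
          intro i hi
          have hik : i ≤ k := Nat.lt_succ_iff.mp (Finset.mem_range.mp hi)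
          have e1 : ‖iteratedFDeriv ℝ i G y‖ ≤ M1 := hM1b y hy i hik
          have e2 : ‖iteratedFDeriv ℝ (k - i) (f ∘ r) y‖ ≤
              (k - i).factorial * (∑ j ∈ Finset.range (k + 1), s j) * M2 ^ (k - i) := by
            apply norm_iteratedFDeriv_comp_le (N := ∞) hf hr
              (WithTop.coe_le_coe.mpr le_top)
            · intro l hl
              refine (hfs l (r y) (hrK y hy)).trans ?_
              exact Finset.single_le_sum (f := s) (fun j _ => hs j)
                (Finset.mem_range.mpr (by omega))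
            · intro l hl1 hl2
              refine (hM2b y hy l (by omega)).trans ?_
              exact le_self_pow₀ hM2 (by omega)
          have e3 : ((k - i).factorial : ℝ) ≤ k.factorial := by
            exact_mod_cast Nat.factorial_le (Nat.sub_le _ _)
          have e4 : M2 ^ (k - i) ≤ M2 ^ k := pow_le_pow_right₀ hM2 (Nat.sub_le _ _)
          have e5 : ‖iteratedFDeriv ℝ (k - i) (fun y => f (r y)) y‖ ≤
              k.factorial * (∑ j ∈ Finset.range (k + 1), s j) * M2 ^ k := by
            refine e2.trans ?_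
            exact mul_le_mul (mul_le_mul_of_nonneg_right e3 hS0) e4 (by positivity)
              (by positivity)
          rw [mul_assoc]
          apply mul_le_mul_of_nonneg_left _ (by positivity)
          exact mul_le_mul e1 e5 (norm_nonneg _) hM10
      _ = 2 ^ k * (M1 * (k.factorial * (∑ j ∈ Finset.range (k + 1), s j) * M2 ^ k)) := by
          rw [← Finset.sum_mul]
          congr 1
          have := Nat.sum_range_choose k
          exact_mod_cast this
      _ = 2 ^ k * M1 * (k.factorial * M2 ^ k) * ∑ j ∈ Finset.range (k + 1), s j := by ring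
  · have hG0' : G =ᶠ[𝓝 y] fun _ => 0 := by
      filter_upwards [hK.isClosed.isOpen_compl.mem_nhds hy] with z hz
      exact hG0 z hz
    have h0 : ∀ i, iteratedFDeriv ℝ i G y = 0 := by
      intro i
      rw [(hG0'.iteratedFDeriv ℝ i).eq_of_nhds]
      simp
    have h1 : ‖iteratedFDeriv ℝ k (fun y => G y (f (r y))) y‖ ≤ 0 := by
      refine hleib.trans (le_of_eq ?_)
      apply Finset.sum_eq_zero
      intro i _
      rw [h0 i]
      simp
    exact h1.trans (by positivity)

namespace Setup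

variable (S : Setup N)

/-- Gluing: a sequence of smooth 2-forms f_n on R^N all of whose derivatives are summable on X
gives a smooth form w with w = pull (D x) (f_0 x + ∑ f_n x) on X: take a smooth cut off χ, equal
to 1 near X with compact support in U, and w = χ rho^*f_0 + ∑ χ rho^*f_n, `contDiff_tsum`; the derivatives
of rho^*f_n at y in the support of χ are bounded by those of f_n at rho y ∈ X
(`norm_iteratedFDeriv_comp_le`). -/
theorem glue (f : ℕ → EN N → Bil N) (hf : ∀ n, IsForm (f n)) (s : ℕ → ℕ → ℝ)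
    (hs : ∀ a, Summable (s a)) (hb : ∀ a n, ∀ x ∈ S.X, ‖iteratedFDeriv ℝ a (f n) x‖ ≤ s a n) :
    ∃ w : EN N → Bil N, IsForm w ∧ ∀ x ∈ S.X, w x = Bil.pull (S.D x) (∑' n, f n x) := by
  -- the compact neighbourhood
  set K : Set (EN N) := {y | Metric.infDist y S.X ≤ S.d0 / 2} with hKdef
  have hKclosed : IsClosed K := isClosed_le (Metric.continuous_infDist_pt _) continuous_const
  have hKx : ∀ y ∈ K, ∃ x ∈ S.X, ∃ s : EN N, ‖s‖ ≤ S.d0 / 2 ∧ y = x + s := by
    intro y hy
    obtain ⟨x, hx, he⟩ := S.cptX.exists_infDist_eq_dist S.neX y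
    refine ⟨x, hx, y - x, ?_, by abel⟩
    have h : Metric.infDist y S.X ≤ S.d0 / 2 := hy
    rwa [he, dist_eq_norm] at h
  have hKcpt : IsCompact K := by
    apply Metric.isCompact_of_isClosed_isBounded hKclosed
    refine (S.cptX.isBounded.thickening (δ := S.d0)).subset ?_
    intro y hy
    obtain ⟨x, hx, s, hs, rfl⟩ := hKx y hy
    rw [Metric.mem_thickening_iff]
    refine ⟨x, hx, ?_⟩
    rw [dist_eq_norm, add_sub_cancel_left]
    linarith [S.d0_pos]
  have hrK : ∀ y ∈ K, S.rho y ∈ S.X := by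
    intro y hy
    obtain ⟨x, hx, s, hs, rfl⟩ := hKx y hy
    exact S.rho_mem _ (S.tube x hx s (hs.trans (by linarith [S.d0_pos])))
  -- cut off
  obtain ⟨χ, hχ0, hχ1, -⟩ := exists_contMDiffMap_zero_one_of_isClosed (n := ⊤)
    (modelWithCornersSelf ℝ (EN N)) (s := S.Udᶜ) (t := S.X) S.Ud_open.isClosed_compl
    S.cptX.isClosed (Set.disjoint_left.mpr (fun x hx hx' => hx (S.X_subset_Ud hx')))
  have hχs : ContDiff ℝ ∞ (fun y => χ y) := χ.contMDiff.contDiff
  -- the operator valued cut off
  have hpullL : ContDiff ℝ ∞ (fun y => Bil.pullL (N := N) (S.D y)) := by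
    rw [contDiff_clm_apply_iff]
    intro b
    exact Bil.contDiff_pull contDiff_const S.smooth_D
  have hG : ContDiff ℝ ∞ (fun y => χ y • Bil.pullL (N := N) (S.D y)) := hχs.smul hpullL
  have hG0 : ∀ y ∉ K, χ y • Bil.pullL (N := N) (S.D y) = 0 := by
    intro y hy
    have : y ∈ S.Udᶜ := by
      intro hU
      apply hy
      have hU' : Metric.infDist y S.X < S.d0 / 2 := hU
      exact hU'.le
    rw [hχ0 this]
    simp
  -- nonnegativity of the bounds
  have hs0 : ∀ a n, 0 ≤ s a n := by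
    intro a n
    obtain ⟨x, hx⟩ := S.neX
    exact (norm_nonneg _).trans (hb a n x hx)
  choose B hB0 hB using fun k => glue_bound hKcpt S.rho S.smooth_rho hrK _ hG hG0 k
  set g : ℕ → EN N → Bil N := fun n y => (χ y • Bil.pullL (S.D y)) (f n (S.rho y)) with hgdef
  have hgs : ∀ n, ContDiff ℝ ∞ (g n) := fun n => hG.clm_apply ((hf n).smooth.comp S.smooth_rho)
  have hgb : ∀ k n y, ‖iteratedFDeriv ℝ k (g n) y‖ ≤
      B k * ∑ j ∈ Finset.range (k + 1), s j n := by
    intro k n y
    exact hB k (f n) (hf n).smooth (fun a => s a n) (fun a => hs0 a n) (fun a x hx => hb a n x hx) y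
  have hsum : ∀ k : ℕ, Summable (fun n => B k * ∑ j ∈ Finset.range (k + 1), s j n) :=
    fun k => (summable_sum (fun j _ => hs j)).mul_left _
  have hgsum : ∀ y, Summable (fun n => g n y) := by
    intro y
    refine Summable.of_norm_bounded (hsum 0) (fun n => ?_)
    have := hgb 0 n y
    rwa [norm_iteratedFDeriv_zero] at this
  refine ⟨fun y => ∑' n, g n y, ⟨?_, ?_⟩, ?_⟩
  · exact contDiff_tsum (N := ⊤) hgs (fun k _ => hsum k) (fun k n y _ => hgb k n y)
  · intro x v
    have h1 : Bil.app v v (∑' n, g n x) = ∑' n, Bil.app v v (g n x) :=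
      (Bil.app v v).map_tsum (hgsum x)
    have h2 : ∀ n, Bil.app v v (g n x) = 0 := by
      intro n
      change (χ x • Bil.pull (S.D x) (f n (S.rho x))) v v = 0
      rw [Bil.smul_apply, Bil.pull_apply, (hf n).alt, mul_zero]
    change Bil.app v v (∑' n, g n x) = 0
    rw [h1]
    simp [h2]
  · intro x hx
    have h1 : ∀ n, g n x = Bil.pullL (S.D x) (f n x) := by
      intro n
      simp only [hgdef]
      rw [hχ1 hx, S.rho_fix x hx]
      simp
    have h2 : Summable (fun n => f n x) := by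
      refine Summable.of_norm_bounded (hs 0) (fun n => ?_)
      have := hb 0 n x hx
      rwa [norm_iteratedFDeriv_zero] at this
    change (∑' n, g n x) = Bil.pullL (S.D x) (∑' n, f n x)
    rw [(Bil.pullL (S.D x)).map_tsum h2]
    exact tsum_congr h1

end Setup

end Pool.Agent.W_MP_d8b8b7_gt
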