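import Pool.Agent.W_MP_d8b8b7_gt_G3.GDefs
import Pool.Agent.W_MP_d8b8b7_gt.PtBound

/-!
# Smooth fields of inverse operators near a compact set
-/

namespace Pool.Agent.W_MP_d8b8b7_gt

open MeasureTheory Set Filter Topology
open scoped ContDiff ENNReal Manifold

variable {N : ℕ}

/-- smooth cut off functions, with closed support in U -/
theorem inv_cutoff {E : Type*} [NormedAddCommGroup E] [NormedSpace ℝ E] [FiniteDimensional ℝ E]
    {K U : Set E} (hK : IsCompact K) (hU : IsOpen U) (hKU : K ⊆ U) :
    ∃ χ : E → ℝ, ContDiff ℝ ∞ χ ∧ (∀ x ∈ K, χ x = 1) ∧ tsupport χ ⊆ U := by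
  obtain ⟨t, ht, hKt, htU⟩ := exists_compact_between hK hU hKU
  obtain ⟨f, hf1, hf0, -⟩ := exists_contMDiffMap_one_nhds_of_subset_interior 𝓘(ℝ, E)
    (n := (⊤ : ℕ∞))
    hK.isClosed hKt
  refine ⟨f, f.contMDiff.contDiff, fun x hx => ?_, ?_⟩
  · exact (hf1.self_of_nhdsSet) x hx
  · refine (closure_minimal ?_ ht.isClosed).trans htU
    intro x hx
    by_contra hxt
    exact hx (hf0 x hxt)

/-- A smooth field of operators which is invertible on a compact set K has a globally smooth field
of inverses on K: the set of invertible operators is open and Ring.inverse is smooth there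
(`contDiffAt_ringInverse`); multiply by a smooth cut off function equal to 1 on K and supported in
the open set where L is invertible (`exists_contDiff_...` / `exists_smooth_one_nhds_of_subset_interior`
on the finite dimensional space E). -/
theorem exists_smooth_inverse {E F : Type*} [NormedAddCommGroup E] [NormedSpace ℝ E]
    [FiniteDimensional ℝ E] [NormedAddCommGroup F] [NormedSpace ℝ F] [FiniteDimensional ℝ F]
    {K : Set E} (hK : IsCompact K) (L : E → (F →L[ℝ] F)) (hL : ContDiff ℝ ∞ L)
    (hu : ∀ x ∈ K, IsUnit (L x)) :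
    ∃ Λ : E → (F →L[ℝ] F), ContDiff ℝ ∞ Λ ∧
      ∀ x ∈ K, (∀ v, Λ x (L x v) = v) ∧ ∀ v, L x (Λ x v) = v := by
  have : CompleteSpace F := FiniteDimensional.complete ℝ F
  have hUo : IsOpen {x | IsUnit (L x)} := Units.isOpen.preimage hL.continuous
  obtain ⟨χ, hχ, hχ1, hχs⟩ := inv_cutoff hK hUo (fun x hx => hu x hx)
  refine ⟨fun x => χ x • Ring.inverse (L x), ?_, fun x hx => ?_⟩
  · rw [contDiff_iff_contDiffAt]
    intro x
    by_cases hx : x ∈ tsupport χ
    · obtain ⟨u, hux⟩ := hχs hx
      have h1 : ContDiffAt ℝ ∞ Ring.inverse (L x) := by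
        rw [← hux]
        exact contDiffAt_ringInverse ℝ u
      exact hχ.contDiffAt.smul (h1.comp x hL.contDiffAt)
    · have h2 : (fun x => χ x • Ring.inverse (L x)) =ᶠ[𝓝 x] fun _ => 0 := by
        filter_upwards [(isClosed_tsupport χ).isOpen_compl.mem_nhds hx] with y hy
        rw [image_eq_zero_of_notMem_tsupport hy, zero_smul]
      exact contDiffAt_const.congr_of_eventuallyEq h2
  · have h1 := Ring.inverse_mul_cancel (L x) (hu x hx)
    have h2 := Ring.mul_inverse_cancel (L x) (hu x hx)
    simp only [hχ1 x hx, one_smul]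
    exact ⟨fun v => congrArg (fun T : F →L[ℝ] F => T v) h1,
      fun v => congrArg (fun T : F →L[ℝ] F => T v) h2⟩

end Pool.Agent.W_MP_d8b8b7_gt
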