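import Pool.Agent.W_MP_d8b8b7_gt.Bil

/-!
# Mollification in L1
-/

namespace Pool.Agent.W_MP_d8b8b7_gt

open MeasureTheory Set Filter Topology
open scoped ContDiff ENNReal Convolution

/-- a continuous function with compact support: translations in L1 -/
theorem translation_L1_cont {n : ℕ} {F : Type*} [NormedAddCommGroup F]
    {g : EN n → F} (hs : HasCompactSupport g) (hg : Continuous g) {ε : ℝ} (hε : 0 < ε) :
    ∃ r : ℝ, 0 < r ∧ ∀ t : EN n, ‖t‖ < r → ∫ y, ‖g (y - t) - g y‖ ≤ ε := by
  have huc : UniformContinuous g := hs.uniformContinuous_of_continuous hg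
  set K : Set (EN n) := Metric.cthickening 1 (tsupport g) with hK
  have hKc : IsCompact K := hs.isCompact.cthickening
  set δ : ℝ := ε / (volume.real K + 1) with hδ
  have hv : 0 ≤ volume.real K := measureReal_nonneg
  have hδ0 : 0 < δ := by positivity
  obtain ⟨r, hr, hru⟩ := Metric.uniformContinuous_iff.1 huc δ hδ0
  refine ⟨min r 1, lt_min hr one_pos, fun t ht => ?_⟩
  have ht1 : ‖t‖ < r := lt_of_lt_of_le ht (min_le_left _ _)
  have ht2 : ‖t‖ < 1 := lt_of_lt_of_le ht (min_le_right _ _)
  have hzero : ∀ y, y ∉ K → ‖g (y - t) - g y‖ = 0 := by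
    intro y hy
    have h1 : y ∉ tsupport g := fun h => hy (Metric.self_subset_cthickening _ h)
    have h2 : y - t ∉ tsupport g := by
      intro h
      apply hy
      refine Metric.mem_cthickening_of_dist_le y (y - t) 1 _ h ?_
      rw [dist_eq_norm]
      have : y - (y - t) = t := by abel
      rw [this]
      exact ht2.le
    rw [image_eq_zero_of_notMem_tsupport h1, image_eq_zero_of_notMem_tsupport h2]
    simp
  have h1 : ∫ y, ‖g (y - t) - g y‖ = ∫ y in K, ‖g (y - t) - g y‖ :=
    (setIntegral_eq_integral_of_forall_compl_eq_zero hzero).symm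
  have hb : ∀ y ∈ K, ‖(‖g (y - t) - g y‖)‖ ≤ δ := by
    intro y _
    rw [norm_norm]
    have := hru (a := y - t) (b := y) (by
      rw [dist_eq_norm]
      have : y - t - y = -t := by abel
      rw [this, norm_neg]
      exact ht1)
    rw [dist_eq_norm] at this
    exact this.le
  have h2 : ‖∫ y in K, ‖g (y - t) - g y‖‖ ≤ δ * volume.real K :=
    norm_setIntegral_le_of_norm_le_const hKc.measure_lt_top hb
  have h3 : δ * volume.real K ≤ ε := by
    rw [hδ, div_mul_eq_mul_div, div_le_iff₀ (by positivity)]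
    nlinarith
  rw [h1]
  exact (le_abs_self _).trans (h2.trans h3)

/-- Continuity of translations in L1 (Mathlib: `DomAddAct`/`DomMulAct` acts continuously on Lp,
Mathlib/MeasureTheory/Function/LpSpace/DomAct/Continuous.lean; or approximate f by a continuous
function with compact support, `Integrable.exists_hasCompactSupport_integral_sub_le`). -/
theorem translation_L1 {n : ℕ} {F : Type*} [NormedAddCommGroup F] [NormedSpace ℝ F]
    {f : EN n → F} (hf : Integrable f) {ε : ℝ} (hε : 0 < ε) :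
    ∃ r : ℝ, 0 < r ∧ ∀ t : EN n, ‖t‖ < r → ∫ y, ‖f (y - t) - f y‖ ≤ ε := by
  obtain ⟨g, hgs, hfg, hgc, hgi⟩ :=
    hf.exists_hasCompactSupport_integral_sub_le (ε := ε / 3) (by positivity)
  obtain ⟨r, hr, h⟩ := translation_L1_cont hgs hgc (ε := ε / 3) (by positivity)
  refine ⟨r, hr, fun t ht => ?_⟩
  have hft : Integrable (fun y => f (y - t)) := hf.comp_sub_right t
  have hgt : Integrable (fun y => g (y - t)) := hgi.comp_sub_right t
  have e1 : Integrable (fun y => ‖f (y - t) - g (y - t)‖) := (hft.sub hgt).norm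
  have e2 : Integrable (fun y => ‖g (y - t) - g y‖) := (hgt.sub hgi).norm
  have e3 : Integrable (fun y => ‖f y - g y‖) := (hf.sub hgi).norm
  have h1 : ∫ y, ‖f (y - t) - f y‖ ≤
      ∫ y, (‖f (y - t) - g (y - t)‖ + ‖g (y - t) - g y‖ + ‖f y - g y‖) := by
    refine integral_mono (hft.sub hf).norm ((e1.add e2).add e3) fun y => ?_
    have : f (y - t) - f y = (f (y - t) - g (y - t)) + (g (y - t) - g y) - (f y - g y) := by abel
    show ‖f (y - t) - f y‖ ≤ _
    rw [this]
    exact (norm_sub_le _ _).trans (add_le_add (norm_add_le _ _) le_rfl)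
  have h2 : ∫ y, (‖f (y - t) - g (y - t)‖ + ‖g (y - t) - g y‖ + ‖f y - g y‖) =
      (∫ y, ‖f (y - t) - g (y - t)‖) + (∫ y, ‖g (y - t) - g y‖) + ∫ y, ‖f y - g y‖ := by
    have e12 : Integrable (fun y => ‖f (y - t) - g (y - t)‖ + ‖g (y - t) - g y‖) := e1.add e2
    rw [integral_add e12 e3, integral_add e1 e2]
  have h3 : ∫ y, ‖f (y - t) - g (y - t)‖ = ∫ y, ‖f y - g y‖ :=
    integral_sub_right_eq_self (fun y => ‖f y - g y‖) t
  have h4 := h t ht
  rw [h2, h3] at h1
  linarith

/-- Mollification converges in L1: ∫ ‖∫ φ(t) (f(y - t) - f(y)) dt‖ dy ≤ ∫ φ(t) ∫ ‖f(y - t) - f(y)‖ dy dt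
by Tonelli. -/
theorem mollify_L1 {n : ℕ} {F : Type*} [NormedAddCommGroup F] [NormedSpace ℝ F]
    [FiniteDimensional ℝ F] {f : EN n → F} (hf : Integrable f) {ε : ℝ} (hε : 0 < ε) :
    ∃ r : ℝ, 0 < r ∧ ∀ φ : EN n → ℝ, Continuous φ → (∀ t, 0 ≤ φ t) → (∀ t, r ≤ ‖t‖ → φ t = 0) →
      ∫ t, φ t = 1 → ∫ y, ‖(∫ t, φ (y - t) • f t) - f y‖ ≤ ε := by
  have : CompleteSpace F := FiniteDimensional.complete ℝ F
  obtain ⟨r, hr, h⟩ := translation_L1 hf hε
  refine ⟨r, hr, fun φ hφc hφ0 hφr hφ1 => ?_⟩
  have hφs : HasCompactSupport φ := by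
    refine HasCompactSupport.intro (isCompact_closedBall (0 : EN n) r) fun x hx => hφr x ?_
    rw [Metric.mem_closedBall, dist_zero_right, not_le] at hx
    exact hx.le
  have hφi : Integrable φ := hφc.integrable_of_hasCompactSupport hφs
  -- the integrand on the product, `(y, s) ↦ φ s • (f (y - s) - f y)`
  have hG1 : Integrable (fun p : EN n × EN n => φ p.2 • f (p.1 - p.2))
      ((volume : Measure (EN n)).prod volume) :=
    Integrable.convolution_integrand (ContinuousLinearMap.lsmul ℝ ℝ : ℝ →L[ℝ] F →L[ℝ] F) hφi hf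
  have hG2 : Integrable (fun p : EN n × EN n => φ p.2 • f p.1)
      ((volume : Measure (EN n)).prod volume) := by
    have := (hφi.smul_prod hf (μ := (volume : Measure (EN n))) (ν := (volume : Measure (EN n)))).swap
    exact this
  have hG : Integrable (fun p : EN n × EN n => φ p.2 • (f (p.1 - p.2) - f p.1))
      ((volume : Measure (EN n)).prod volume) := by
    refine (hG1.sub hG2).congr (Eventually.of_forall fun p => ?_)
    simp only [Pi.sub_apply, smul_sub]
  have hsec : ∀ᵐ y : EN n, Integrable (fun s => φ s • f (y - s)) := hG1.prod_right_ae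
  have hE : ∀ᵐ y : EN n, (∫ t, φ (y - t) • f t) - f y = ∫ s, φ s • (f (y - s) - f y) := by
    filter_upwards [hsec] with y hy
    have e1 : ∫ t, φ (y - t) • f t = ∫ s, φ s • f (y - s) := by
      rw [← integral_sub_left_eq_self (fun s => φ s • f (y - s)) volume y]
      refine integral_congr_ae (Eventually.of_forall fun t => ?_)
      simp only [sub_sub_cancel]
    have e2 : f y = ∫ s, φ s • f y := by
      rw [integral_smul_const, hφ1, one_smul]
    have e3 : ∫ s, φ s • (f (y - s) - f y) = (∫ s, φ s • f (y - s)) - ∫ s, φ s • f y := by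
      rw [← integral_sub hy (hφi.smul_const (f y))]
      refine integral_congr_ae (Eventually.of_forall fun s => ?_)
      simp only [smul_sub]
    rw [e3, e1, ← e2]
  have hN : Integrable (fun p : EN n × EN n => ‖φ p.2 • (f (p.1 - p.2) - f p.1)‖)
      ((volume : Measure (EN n)).prod volume) := hG.norm
  calc ∫ y, ‖(∫ t, φ (y - t) • f t) - f y‖
      = ∫ y, ‖∫ s, φ s • (f (y - s) - f y)‖ :=
        integral_congr_ae (hE.mono fun y hy => by simp only [hy])
    _ ≤ ∫ y, ∫ s, ‖φ s • (f (y - s) - f y)‖ := by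
        refine integral_mono_ae ?_ hN.integral_prod_left
          (Eventually.of_forall fun y => norm_integral_le_integral_norm _)
        exact hG.integral_prod_left.norm
    _ = ∫ s, ∫ y, ‖φ s • (f (y - s) - f y)‖ := integral_integral_swap hN
    _ ≤ ∫ s, φ s * ε := by
        refine integral_mono_ae hN.swap.integral_prod_left (hφi.mul_const ε)
          (Eventually.of_forall fun s => ?_)
        show ∫ y, ‖φ s • (f (y - s) - f y)‖ ≤ φ s * ε
        have e1 : ∫ y, ‖φ s • (f (y - s) - f y)‖ = φ s * ∫ y, ‖f (y - s) - f y‖ := by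
          rw [← integral_const_mul]
          refine integral_congr_ae (Eventually.of_forall fun y => ?_)
          simp only [norm_smul, Real.norm_of_nonneg (hφ0 s)]
        rw [e1]
        rcases lt_or_ge ‖s‖ r with hs | hs
        · exact mul_le_mul_of_nonneg_left (h s hs) (hφ0 s)
        · rw [hφr s hs]; simp
    _ = ε := by rw [integral_mul_const, hφ1, one_mul]

/-- existence of smooth mollifiers (`ContDiffBump`, normalised) -/
theorem exists_mollifier (n : ℕ) {r : ℝ} (hr : 0 < r) :
    ∃ φ : EN n → ℝ, ContDiff ℝ ∞ φ ∧ (∀ t, 0 ≤ φ t) ∧ (∀ t, r ≤ ‖t‖ → φ t = 0) ∧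
      ∫ t, φ t = 1 := by
  let b : ContDiffBump (0 : EN n) := ⟨r / 2, r, by positivity, by linarith⟩
  refine ⟨b.normed volume, b.contDiff_normed, b.nonneg_normed, fun t ht => ?_, b.integral_normed⟩
  have h1 : b t = 0 := b.zero_of_le_dist (by simpa using ht)
  rw [b.normed_def, h1, zero_div]

/-- derivative of a mollification -/
theorem contDiff_mollify {n : ℕ} {F : Type*} [NormedAddCommGroup F] [NormedSpace ℝ F]
    [FiniteDimensional ℝ F] {f : EN n → F} (hf : Integrable f) {φ : EN n → ℝ}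
    (hφ : ContDiff ℝ ∞ φ) (hs : HasCompactSupport φ) :
    ContDiff ℝ ∞ (fun y => ∫ t, φ (y - t) • f t) ∧
      ∀ y v, fderiv ℝ (fun y => ∫ t, φ (y - t) • f t) y v = ∫ t, fderiv ℝ φ (y - t) v • f t := by
  have : CompleteSpace F := FiniteDimensional.complete ℝ F
  have hl : LocallyIntegrable f := hf.locallyIntegrable
  let L : F →L[ℝ] ℝ →L[ℝ] F := (ContinuousLinearMap.lsmul ℝ ℝ : ℝ →L[ℝ] F →L[ℝ] F).flip
  have hfun : (fun y => ∫ t, φ (y - t) • f t) = (f ⋆[L, volume] φ) := by
    funext y
    rfl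
  refine ⟨?_, fun y v => ?_⟩
  · rw [hfun]
    exact hs.contDiff_convolution_right L hl hφ
  · rw [hfun]
    have h1 : ContDiff ℝ 1 φ := hφ.of_le (by exact_mod_cast le_top)
    have hd := (hs.hasFDerivAt_convolution_right L hl h1 y).fderiv
    rw [hd, convolution_precompR_apply L hl (hs.fderiv ℝ) (h1.continuous_fderiv one_ne_zero)]
    rfl

end Pool.Agent.W_MP_d8b8b7_gt
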