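import Mathlib

/-!
# Abstract Lax-Milgram step
-/

namespace Pool.Agent.W_MP_d8b8b7_gt

open MeasureTheory Set Filter Topology
open scoped ContDiff ENNReal

/-- abstract step: W is a closed subspace of a Hilbert space H, P a bounded operator with
‖x‖ ≤ C ‖P x‖ on W.  Then P(W) is closed (hence complete); let p = P b be the orthogonal projection
of g on P(W). -/
theorem lax {H : Type*} [NormedAddCommGroup H] [InnerProductSpace ℝ H] [CompleteSpace H]
    (W : Submodule ℝ H) (hW : IsClosed (W : Set H)) (P : H →L[ℝ] H) (C : ℝ)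
    (hP : ∀ x ∈ W, ‖x‖ ≤ C * ‖P x‖) (g : H) :
    ∃ b ∈ W, ‖P b‖ ≤ ‖g‖ ∧ ∀ b' ∈ W, inner ℝ (g - P b) (P b') = 0 := by
  have hcW : CompleteSpace W := hW.completeSpace_coe
  set Q : W →L[ℝ] H := P.comp W.subtypeL with hQ
  have hQa : ∀ x : W, Q x = P x := fun x => rfl
  have hanti : AntilipschitzWith (Real.toNNReal C) Q := by
    refine AddMonoidHomClass.antilipschitz_of_bound Q ?_
    intro x
    have h1 := hP x x.2
    rw [hQa]
    refine (h1.trans ?_)
    exact mul_le_mul_of_nonneg_right (Real.le_coe_toNNReal C) (norm_nonneg _)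
  have hclosed : IsClosed (Set.range Q) :=
    hanti.isClosed_range Q.uniformContinuous
  set R : Submodule ℝ H := LinearMap.range (Q : W →ₗ[ℝ] H) with hR
  have hRc : IsClosed (R : Set H) := by
    have : (R : Set H) = Set.range Q := by
      ext y
      simp [hR]
    rw [this]
    exact hclosed
  have hcR : CompleteSpace R := hRc.completeSpace_coe
  have hmem : R.starProjection g ∈ R := R.starProjection_apply_mem g
  obtain ⟨b, hb⟩ := hmem
  have hb' : P (b : H) = R.starProjection g := hb
  refine ⟨b, b.2, ?_, ?_⟩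
  · rw [hb']
    exact R.norm_starProjection_apply_le g
  · intro b' hb1
    rw [hb']
    exact R.starProjection_inner_eq_zero g (P b') ⟨⟨b', hb1⟩, rfl⟩

end Pool.Agent.W_MP_d8b8b7_gt
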