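import Pool.Agent.W_MP_d8b8b7_gt_G3.Inv
import Pool.Agent.W_MP_d8b8b7_gt.PtBound

/-!
# The operators L̂
-/

namespace Pool.Agent.W_MP_d8b8b7_gt

open MeasureTheory Set Filter Topology
open scoped ContDiff ENNReal

variable {N : ℕ}

namespace Setup

variable (S : Setup N)

theorem smooth_Lhat : ContDiff ℝ ∞ S.Lhat := by
  have hD : ContDiff ℝ ∞ S.D := S.smooth_D
  have h1 : ContDiff ℝ ∞ fun z : EN N × EN N => S.D (z.2 + z.1) :=
    hD.comp (contDiff_snd.add contDiff_fst)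
  have h2 : ContDiff ℝ ∞ fun z : EN N × EN N => S.D z.2 := hD.comp contDiff_snd
  have h3 : ContDiff ℝ ∞ fun z : EN N × EN N => S.D (S.rho (z.2 + z.1)) :=
    hD.comp (S.smooth_rho.comp (contDiff_snd.add contDiff_fst))
  exact (h1.clm_comp h2).add ((contDiff_const.sub h3).clm_comp (contDiff_const.sub h2))

theorem Lhat_zero {x : EN N} (hx : x ∈ S.X) : S.Lhat (0, x) = ContinuousLinearMap.id ℝ (EN N) := by
  ext1 v
  have h1 : ∀ w, S.D x (S.D x w) = S.D x w := fun w => S.D_D hx w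
  change S.D (x + 0) (S.D x v) + ((v - S.D x v) - S.D (S.rho (x + 0)) (v - S.D x v)) = v
  rw [add_zero, S.rho_fix x hx, map_sub, h1]
  abel

/-- ‖L̂(h,x) - 1‖ < 1/2 for small h, uniformly for x in the compact set X (uniform continuity of L̂
on a compact set), so L̂ is a unit there; `exists_smooth_inverse` with K = closedBall 0 r × X -/
theorem exists_Lhat_inv : ∃ r : ℝ, 0 < r ∧ r ≤ S.d0 / 4 ∧ ∃ Λ : EN N × EN N → (EN N →L[ℝ] EN N),
    ContDiff ℝ ∞ Λ ∧ ∀ x ∈ S.X, ∀ h : EN N, ‖h‖ ≤ r →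
      (∀ v, Λ (h, x) (S.Lhat (h, x) v) = v) ∧ ∀ v, S.Lhat (h, x) (Λ (h, x) v) = v := by
  have hd := S.d0_pos
  have hUo : IsOpen {z | IsUnit (S.Lhat z)} := Units.isOpen.preimage S.smooth_Lhat.continuous
  have hsub : ({0} : Set (EN N)) ×ˢ S.X ⊆ {z | IsUnit (S.Lhat z)} := by
    rintro ⟨h, x⟩ ⟨hh, hx⟩
    have hh' : h = 0 := hh
    have hx' : x ∈ S.X := hx
    change IsUnit (S.Lhat (h, x))
    rw [hh', S.Lhat_zero hx']
    exact isUnit_one
  obtain ⟨u, v, hu, -, h0u, hXv, huv⟩ := generalized_tube_lemma (isCompact_singleton (x := (0 : EN N)))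
    S.cptX hUo hsub
  obtain ⟨r, hr, hru⟩ := Metric.isOpen_iff.1 hu 0 (h0u rfl)
  set r' : ℝ := min (r / 2) (S.d0 / 4) with hr'
  have hr'0 : 0 < r' := lt_min (by linarith) (by linarith)
  have hK : IsCompact (Metric.closedBall (0 : EN N) r' ×ˢ S.X) :=
    (isCompact_closedBall _ _).prod S.cptX
  obtain ⟨Λ, hΛ, hinv⟩ := exists_smooth_inverse hK S.Lhat S.smooth_Lhat (by
    rintro ⟨h, x⟩ ⟨hh, hx⟩
    apply huv
    refine ⟨hru ?_, hXv hx⟩
    have hh' : h ∈ Metric.closedBall (0 : EN N) r' := hh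
    rw [mem_closedBall_zero_iff] at hh'
    rw [mem_ball_zero_iff]
    have := min_le_left (r / 2) (S.d0 / 4)
    linarith)
  refine ⟨r', hr'0, min_le_right _ _, Λ, hΛ, fun x hx h hh => ?_⟩
  exact hinv (h, x) ⟨by rw [mem_closedBall_zero_iff]; exact hh, hx⟩

/-- consequence: D(x+h) D(x) Λ t = t for t tangent at rho(x+h).  (Apply D(rho(x+h)) to
L̂ Λ t = t; D(rho y) D(y) = D(y), D(rho y)(1 - D(rho y)) = 0.) -/
theorem D_D_inv {x h : EN N} (hx : x ∈ S.X) (hh : ‖h‖ ≤ S.d0 / 4)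
    {L : EN N →L[ℝ] EN N} (hL : ∀ v, S.Lhat (h, x) (L v) = v) {t : EN N}
    (ht : S.Tan (S.rho (x + h)) t) : S.D (x + h) (S.D x (L t)) = t := by
  have hd := S.d0_pos
  have hy : x + h ∈ S.Ud := S.add_mem_Ud hx (by linarith)
  have hyU : x + h ∈ S.U := S.Ud_subset_U hy
  have hρX : S.rho (x + h) ∈ S.X := S.rho_mem_X hy
  have h1 : S.D (x + h) (S.D x (L t)) + ((L t - S.D x (L t)) -
      S.D (S.rho (x + h)) (L t - S.D x (L t))) = t := hL t
  have h2 := congrArg (S.D (S.rho (x + h))) h1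
  have ht' : S.D (S.rho (x + h)) t = t := ht
  rw [map_add, map_sub, S.D_rho_D hyU, S.D_D hρX, sub_self, add_zero, ht'] at h2
  exact h2

end Setup

end Pool.Agent.W_MP_d8b8b7_gt
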