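import Pool.Agent.W_MP_d8b8b7_gt_G3.Inv
import Pool.Agent.W_MP_d8b8b7_gt.PtBound

/-!
# The inverse metric is smooth
-/

namespace Pool.Agent.W_MP_d8b8b7_gt

open MeasureTheory Set Filter Topology
open scoped ContDiff ENNReal

variable {N : ℕ}

/-- the operator representing a bilinear form -/
noncomputable def mi_gr (b : Bil N) : EN N →L[ℝ] EN N :=
  ∑ i, (b.right (EuclideanSpace.single i 1)).smulRight (EuclideanSpace.single i (1 : ℝ))

theorem mi_gr_apply (b : Bil N) (v : EN N) :
    mi_gr b v = ∑ i, b v (EuclideanSpace.single i 1) • EuclideanSpace.single i (1 : ℝ) := by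
  unfold mi_gr
  rw [ContinuousLinearMap.sum_apply]
  rfl

theorem mi_inner (b : Bil N) (v w : EN N) : inner ℝ (mi_gr b v) w = b v w := by
  have hs : w = ∑ i, w i • EuclideanSpace.single i (1 : ℝ) := by
    ext k
    simp [Pi.single_apply]
  rw [mi_gr_apply, sum_inner]
  conv_rhs => rw [hs]
  rw [Bil.sum_right]
  refine Finset.sum_congr rfl fun i _ => ?_
  rw [inner_smul_left, Bil.smul_right]
  simp [EuclideanSpace.inner_single_left, mul_comm]

theorem mi_contDiff {f : EN N → Bil N} (hf : ContDiff ℝ ∞ f) :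
    ContDiff ℝ ∞ (fun x => mi_gr (f x)) := by
  rw [contDiff_clm_apply_iff]
  intro v
  have h : (fun x => mi_gr (f x) v) =
      fun x => ∑ i, f x v (EuclideanSpace.single i 1) • EuclideanSpace.single i (1 : ℝ) := by
    funext x
    exact mi_gr_apply _ _
  rw [h]
  refine ContDiff.sum fun i _ => ?_
  exact (Bil.contDiff_apply hf contDiff_const contDiff_const).smul contDiff_const

theorem mi_isUnit (b : Bil N) (hb : ∀ v, v ≠ 0 → 0 < b v v) : IsUnit (mi_gr b) := by
  have hinj : LinearMap.ker (mi_gr b : EN N →ₗ[ℝ] EN N) = ⊥ := by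
    rw [LinearMap.ker_eq_bot']
    intro v hv
    by_contra h0
    have h1 := hb v h0
    rw [← mi_inner] at h1
    have h2 : mi_gr b v = 0 := hv
    rw [h2, inner_zero_left] at h1
    exact lt_irrefl _ h1
  let e : EN N ≃ₗ[ℝ] EN N := LinearEquiv.ofInjectiveEndo _ (LinearMap.ker_eq_bot.mp hinj)
  let e' : EN N ≃L[ℝ] EN N := e.toContinuousLinearEquiv
  have he : ∀ v, e' v = mi_gr b v := fun v => rfl
  refine ⟨⟨mi_gr b, (e'.symm : EN N →L[ℝ] EN N), ?_, ?_⟩, rfl⟩
  · ext1 v
    show mi_gr b (e'.symm v) = v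
    rw [← he]
    exact e'.apply_symm_apply v
  · ext1 v
    show e'.symm (mi_gr b v) = v
    rw [← he]
    exact e'.symm_apply_apply v

namespace Setup

variable (S : Setup N)

/-- the extended metric -/
noncomputable def mi_b (x : EN N) : Bil N :=
  Bil.mk₂ (fun v w => S.F x (S.D x v) (S.J x w) + inner ℝ (v - S.D x v) (w - S.D x w))
    (fun u u' v => by
      have h : u + u' - S.D x (u + u') = (u - S.D x u) + (u' - S.D x u') := by
        rw [map_add]; abel
      rw [h, inner_add_left, map_add, Bil.add_left]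
      ring)
    (fun c u v => by
      have h : c • u - S.D x (c • u) = c • (u - S.D x u) := by
        rw [map_smul, smul_sub]
      rw [h, inner_smul_left, map_smul, Bil.smul_left]
      simp
      ring)
    (fun u v v' => by
      have h : v + v' - S.D x (v + v') = (v - S.D x v) + (v' - S.D x v') := by
        rw [map_add]; abel
      rw [h, inner_add_right, map_add, Bil.add_right]
      ring)
    (fun c u v => by
      have h : c • v - S.D x (c • v) = c • (v - S.D x v) := by
        rw [map_smul, smul_sub]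
      rw [h, inner_smul_right, map_smul, Bil.smul_right]
      ring)

theorem mi_b_apply (x v w : EN N) :
    S.mi_b x v w = S.F x (S.D x v) (S.J x w) + inner ℝ (v - S.D x v) (w - S.D x w) := rfl

/-- (v, w) ↦ ⟨v, D w⟩ -/
noncomputable def mi_c (x : EN N) : Bil N :=
  Bil.mk₂ (fun v w => inner ℝ v (S.D x w))
    (fun u u' v => by rw [inner_add_left])
    (fun c u v => by rw [inner_smul_left]; simp)
    (fun u v v' => by rw [map_add, inner_add_right])
    (fun c u v => by rw [map_smul, inner_smul_right])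

theorem mi_c_apply (x v w : EN N) : S.mi_c x v w = inner ℝ v (S.D x w) := rfl

theorem mi_contDiff_b : ContDiff ℝ ∞ S.mi_b := by
  rw [Bil.contDiff_iff]
  intro u v
  have h1 : ContDiff ℝ ∞ (fun x => S.D x u) := S.smooth_D.clm_apply contDiff_const
  have h2 : ContDiff ℝ ∞ (fun x => S.D x v) := S.smooth_D.clm_apply contDiff_const
  have h3 : ContDiff ℝ ∞ (fun x => S.J x v) := S.smooth_J.clm_apply contDiff_const
  have h4 : ContDiff ℝ ∞ (fun x => S.F x (S.D x u) (S.J x v)) :=
    Bil.contDiff_apply S.PtBound_smooth_F h1 h3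
  have h5 : ContDiff ℝ ∞ (fun x => inner ℝ (u - S.D x u) (v - S.D x v)) :=
    (contDiff_const.sub h1).inner ℝ (contDiff_const.sub h2)
  exact h4.add h5

theorem mi_contDiff_c : ContDiff ℝ ∞ S.mi_c := by
  rw [Bil.contDiff_iff]
  intro u v
  have h2 : ContDiff ℝ ∞ (fun x => S.D x v) := S.smooth_D.clm_apply contDiff_const
  exact contDiff_const.inner ℝ h2

theorem mi_pos {x : EN N} (hx : x ∈ S.X) (v : EN N) (hv : v ≠ 0) : 0 < S.mi_b x v v := by
  rw [mi_b_apply, ← S.pt_JD hx v, real_inner_self_eq_norm_sq]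
  have hT : S.Tan x (S.D x v) := S.D_D hx v
  rw [S.F_self hx _ hT]
  by_cases h0 : S.D x v = 0
  · rw [h0, map_zero, Bil.zero_left, sub_zero, zero_add]
    have := norm_pos_iff.mpr hv
    positivity
  · have h1 := S.om_tame x hx (S.D x v) hT h0
    have h2 : 0 ≤ ‖v - S.D x v‖ ^ 2 := sq_nonneg _
    linarith

/-- Inverse metric: P(x) v = ∑ ⟨f_a, v⟩ f_a is the restriction to X of a smooth field.  With
Ĝ(x) defined by ⟨Ĝ(x) v, w⟩ = F_x(D v, J w) + ⟨(1 - D) v, (1 - D) w⟩ (smooth, for x in X positive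
definite, hence invertible) one has Ĝ P = D^* (⟨Ĝ P v, w⟩ = ∑ ⟨f_a, v⟩ g(f_a, w) = ⟨v, D w⟩), so
P = Ĝ⁻¹ D^*; `exists_smooth_inverse` with K = X. -/
theorem exists_metric_inv : ∃ P : EN N → (EN N →L[ℝ] EN N), ContDiff ℝ ∞ P ∧
    ∀ x ∈ S.X, ∀ v, P x v = ∑ a, inner ℝ (S.fr a x) v • S.fr a x := by
  obtain ⟨Λ, hΛ, hinv⟩ := exists_smooth_inverse S.cptX (fun x => mi_gr (S.mi_b x))
    (mi_contDiff S.mi_contDiff_b) (fun x hx => mi_isUnit _ (S.mi_pos hx))
  refine ⟨fun x => (Λ x).comp (mi_gr (S.mi_c x)), hΛ.clm_comp (mi_contDiff S.mi_contDiff_c), ?_⟩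
  intro x hx v
  show Λ x (mi_gr (S.mi_c x) v) = _
  rw [← (hinv x hx).1 (∑ a, inner ℝ (S.fr a x) v • S.fr a x)]
  congr 1
  refine ext_inner_right ℝ fun w => ?_
  rw [mi_inner, mi_inner, mi_c_apply, Bil.sum_left]
  have h := S.fr_span x hx w
  rw [show S.D x w = ∑ a, S.F x w (S.J x (S.fr a x)) • S.fr a x from h, inner_sum]
  refine Finset.sum_congr rfl fun a _ => ?_
  rw [inner_smul_right, Bil.smul_left, mi_b_apply, S.pt_Dfr hx, sub_self, inner_zero_left,
    add_zero, S.F_J_symm hx (S.fr a x) w, real_inner_comm]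
  ring

end Setup

end Pool.Agent.W_MP_d8b8b7_gt
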