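import Pool.Agent.W_MP_d8b8b7_gt_G3.GDefs

/-!
# Profiles and vanishing moments

`QF q`: q is smooth and vanishes outside the open unit ball.
`Mom k q`: moreover all moments of q of order < k vanish, in recursive form.
-/

namespace Pool.Agent.W_MP_d8b8b7_gt

open MeasureTheory Set Filter Topology
open scoped ContDiff ENNReal

variable {N : ℕ}

/-- `Function.support q ⊆ closedBall 0 1`, which is compact -/
theorem QF.hasCompactSupport {q : EN N → ℝ} (hq : QF q) : HasCompactSupport q := by
  refine HasCompactSupport.of_support_subset_isCompact (isCompact_closedBall (0 : EN N) 1) ?_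
  intro s hs
  by_contra h
  rw [mem_closedBall_zero_iff, not_le] at h
  exact hs (hq.supp s h.le)

theorem QF.integrable {q : EN N → ℝ} (hq : QF q) : Integrable q :=
  hq.smooth.continuous.integrable_of_hasCompactSupport hq.hasCompactSupport

/-- q is bounded -/
theorem QF.bounded {q : EN N → ℝ} (hq : QF q) : ∃ c : ℝ, 0 ≤ c ∧ ∀ s, |q s| ≤ c := by
  obtain ⟨C, hC⟩ := hq.hasCompactSupport.exists_bound_of_continuous hq.smooth.continuous
  exact ⟨C, (norm_nonneg _).trans (hC 0), hC⟩

theorem QF.add {p q : EN N → ℝ} (hp : QF p) (hq : QF q) : QF (fun s => p s + q s) :=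
  ⟨hp.smooth.add hq.smooth, fun s hs => by rw [hp.supp s hs, hq.supp s hs, add_zero]⟩

theorem QF.sub {p q : EN N → ℝ} (hp : QF p) (hq : QF q) : QF (fun s => p s - q s) :=
  ⟨hp.smooth.sub hq.smooth, fun s hs => by rw [hp.supp s hs, hq.supp s hs, sub_zero]⟩

theorem QF.smul {q : EN N → ℝ} (hq : QF q) (c : ℝ) : QF (fun s => c * q s) :=
  ⟨contDiff_const.mul hq.smooth, fun s hs => by rw [hq.supp s hs, mul_zero]⟩

theorem mom_coord_smooth (i : Fin N) : ContDiff ℝ ∞ (fun s : EN N => s i) :=
  (EuclideanSpace.proj (𝕜 := ℝ) i).contDiff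

theorem QF.coord {q : EN N → ℝ} (hq : QF q) (i : Fin N) : QF (fun s => s i * q s) :=
  ⟨(mom_coord_smooth i).mul hq.smooth, fun s hs => by rw [hq.supp s hs, mul_zero]⟩

/-- derivative: for ‖s‖ > 1 the function q vanishes near s; for ‖s‖ = 1 use that s is the limit of
the points (1 + 1/n) • s and that the derivative is continuous -/
theorem QF.dir {q : EN N → ℝ} (hq : QF q) (v : EN N) :
    QF (fun s => fderiv ℝ q s v) := by
  have h1 : ContDiff ℝ ∞ (fderiv ℝ q) := hq.smooth.fderiv_right (m := ∞) (by simp)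
  have h2 : ContDiff ℝ ∞ (fun s => fderiv ℝ q s v) := h1.clm_apply contDiff_const
  refine ⟨h2, ?_⟩
  have h3 : IsClosed {s : EN N | fderiv ℝ q s v = 0} := isClosed_eq h2.continuous continuous_const
  have h4 : (Metric.closedBall (0 : EN N) 1)ᶜ ⊆ {s : EN N | fderiv ℝ q s v = 0} := by
    intro s hs
    have h5 : q =ᶠ[𝓝 s] fun _ => 0 := by
      filter_upwards [Metric.isClosed_closedBall.isOpen_compl.mem_nhds hs] with y hy
      rw [mem_compl_iff, mem_closedBall_zero_iff, not_le] at hy
      exact hq.supp y hy.le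
    show fderiv ℝ q s v = 0
    rw [h5.fderiv_eq, fderiv_fun_const]
    rfl
  intro s hs
  have h6 : s ∈ closure (Metric.closedBall (0 : EN N) 1)ᶜ := by
    rw [closure_compl, interior_closedBall _ one_ne_zero, mem_compl_iff, mem_ball_zero_iff, not_lt]
    exact hs
  exact (h3.closure_subset_iff.2 h4) h6

/-- rescaling -/
theorem QF.rescale {q : EN N → ℝ} (hq : QF q) : QF (fun s => 2 ^ N * q ((2 : ℝ) • s)) := by
  refine ⟨contDiff_const.mul (hq.smooth.comp (contDiff_id.const_smul (2 : ℝ))), fun s hs => ?_⟩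
  rw [hq.supp, mul_zero]
  rw [norm_smul, Real.norm_eq_abs, abs_two]
  linarith

theorem Mom.qf {k : ℕ} {q : EN N → ℝ} (hq : Mom k q) : QF q := by
  cases k with
  | zero => exact hq
  | succ k => exact hq.1

theorem Mom.coord {k : ℕ} {q : EN N → ℝ} (hq : Mom (k + 1) q) (i : Fin N) :
    Mom k (fun s => s i * q s) := hq.2.2 i

theorem Mom.of_succ {k : ℕ} {q : EN N → ℝ} (hq : Mom (k + 1) q) : Mom k q := by
  induction k generalizing q with
  | zero => exact hq.1
  | succ k ih => exact ⟨hq.1, hq.2.1, fun i => ih (hq.2.2 i)⟩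

theorem Mom.of_le {j k : ℕ} (h : j ≤ k) {q : EN N → ℝ} (hq : Mom k q) : Mom j q := by
  induction h with
  | refl => exact hq
  | step _ ih => exact ih hq.of_succ

theorem Mom.add {k : ℕ} {p q : EN N → ℝ} (hp : Mom k p) (hq : Mom k q) :
    Mom k (fun s => p s + q s) := by
  induction k generalizing p q with
  | zero => exact QF.add hp hq
  | succ k ih =>
    refine ⟨QF.add hp.1 hq.1, ?_, fun i => ?_⟩
    · rw [integral_add hp.1.integrable hq.1.integrable, hp.2.1, hq.2.1, add_zero]
    · have h1 := ih (hp.2.2 i) (hq.2.2 i)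
      have h2 : (fun s : EN N => s i * (p s + q s)) = fun s => s i * p s + s i * q s := by
        funext s
        ring
      rw [h2]
      exact h1

theorem Mom.smul {k : ℕ} {q : EN N → ℝ} (hq : Mom k q) (c : ℝ) : Mom k (fun s => c * q s) := by
  induction k generalizing q with
  | zero => exact QF.smul hq c
  | succ k ih =>
    refine ⟨QF.smul hq.1 c, ?_, fun i => ?_⟩
    · rw [integral_const_mul, hq.2.1, mul_zero]
    · have h1 := ih (hq.2.2 i)
      have h2 : (fun s : EN N => s i * (c * q s)) = fun s => c * (s i * q s) := by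
        funext s
        ring
      rw [h2]
      exact h1

theorem mom_integral_dir {q : EN N → ℝ} (hq : QF q) (v : EN N) : ∫ s, fderiv ℝ q s v = 0 := by
  have h1 := integral_mul_fderiv_eq_neg_fderiv_mul_of_integrable (μ := (volume : Measure (EN N)))
    (f := fun _ : EN N => (1 : ℝ)) (g := q) (v := v) ?_ ?_ ?_ ?_ ?_
  · simpa using h1
  · simp
  · simpa using (hq.dir v).integrable
  · simpa using hq.integrable
  · exact fun x _ => differentiableAt_const _
  · exact fun x _ => (hq.smooth.differentiable (by simp)) x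

theorem mom_fderiv_coord {q : EN N → ℝ} (hq : QF q) (v s : EN N) (i : Fin N) :
    fderiv ℝ (fun s => s i * q s) s v = v i * q s + s i * fderiv ℝ q s v := by
  have h1 : HasFDerivAt (fun s : EN N => s i) (EuclideanSpace.proj (𝕜 := ℝ) i) s :=
    (EuclideanSpace.proj (𝕜 := ℝ) i).hasFDerivAt
  have h2 : HasFDerivAt q (fderiv ℝ q s) s :=
    ((hq.smooth.differentiable (by simp)) s).hasFDerivAt
  have h3 : HasFDerivAt (fun s : EN N => s i * q s)
      (s i • fderiv ℝ q s + q s • (EuclideanSpace.proj (𝕜 := ℝ) i : EN N →L[ℝ] ℝ)) s := h1.mul h2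
  rw [h3.fderiv]
  change s i * fderiv ℝ q s v + q s * v i = _
  ring

/-- A derivative gains one vanishing moment.  Induction on k, for all q:
∫ ∂_v q = 0 (`integral_fderiv_eq_zero` style lemma for compact support), and
s_i ∂_v q = ∂_v (s_i q) - v_i q, where s_i q has k - 1 vanishing moments. -/
theorem Mom.dir {k : ℕ} {q : EN N → ℝ} (hq : Mom k q) (v : EN N) :
    Mom (k + 1) (fun s => fderiv ℝ q s v) := by
  induction k generalizing q with
  | zero => exact ⟨QF.dir hq v, mom_integral_dir hq v, fun i => (QF.dir hq v).coord i⟩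
  | succ k ih =>
    refine ⟨QF.dir hq.1 v, mom_integral_dir hq.1 v, fun i => ?_⟩
    have h1 := (ih (hq.2.2 i)).add (Mom.smul hq (-(v i)))
    have h2 : (fun s : EN N => s i * fderiv ℝ q s v) =
        fun s => fderiv ℝ (fun s => s i * q s) s v + -(v i) * q s := by
      funext s
      rw [mom_fderiv_coord hq.1]
      ring
    rw [h2]
    exact h1

/-- the difference of two scales has integral zero -/
theorem Mom.two_scales {p : EN N → ℝ} (hp : QF p) :
    Mom 1 (fun s => 2 ^ N * p ((2 : ℝ) • s) - p s) := by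
  refine ⟨hp.rescale.sub hp, ?_, fun i => (hp.rescale.sub hp).coord i⟩
  rw [integral_sub hp.rescale.integrable hp.integrable, integral_const_mul,
    Measure.integral_comp_smul, finrank_euclideanSpace_fin, smul_eq_mul, abs_of_pos (by positivity),
    ← mul_assoc, mul_inv_cancel₀ (by positivity), one_mul, sub_self]

/-- there is a profile of integral one -/
theorem exists_QF_one : ∃ p : EN N → ℝ, QF p ∧ (∀ s, 0 ≤ p s) ∧ ∫ s, p s = 1 := by
  let χ : ContDiffBump (0 : EN N) := ⟨1 / 2, 1, by norm_num, by norm_num⟩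
  refine ⟨χ.normed volume, ⟨χ.contDiff_normed, fun s hs => ?_⟩, fun s => χ.nonneg_normed s,
    χ.integral_normed⟩
  have h1 : s ∉ Function.support (χ.normed volume) := by
    rw [χ.support_normed_eq]
    intro h2
    rw [mem_ball_zero_iff] at h2
    exact absurd hs (not_le.2 h2)
  exact Function.notMem_support.1 h1

end Pool.Agent.W_MP_d8b8b7_gt
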