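import Pool.Agent.W_MP_d8b8b7_gt_G3.Moment
import Pool.Agent.W_MP_d8b8b7_gt_G3.RbDeriv

/-!
# Iterated derivatives of the regularisation
-/

namespace Pool.Agent.W_MP_d8b8b7_gt

open MeasureTheory Set Filter Topology
open scoped ContDiff ENNReal

variable {N : ℕ}

namespace Setup

variable (S : Setup N)

/-- the same for iterated derivatives of Rb in L1: `norm_iteratedFDeriv_Rb_le`, `Mom_dirs`
(dirs l q has m + j vanishing moments), `Rb_eq_Op`, `moment_est`, `integral_norm_le` -/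
theorem integral_iteratedFDeriv_le : ∃ r : ℝ, 0 < r ∧ r ≤ S.d0 / 4 ∧
    ∀ (m j : ℕ) (q : EN N → ℝ), Mom m q →
    ∃ C : ℝ, 0 ≤ C ∧ ∀ (b : EN N → C6) (g : EN N → Bil N) (B : ℝ), S.Ell b g → S.nrm b ≤ B →
      S.CkUd (m + j) g B → ∀ δ : ℝ, 0 < δ → δ ≤ r →
        ∫ x, ‖iteratedFDeriv ℝ j (S.Rb q δ b) x‖ ∂S.nu ≤ C * B * δ ^ m := by
  obtain ⟨r, hr0, hr4, hr⟩ := S.moment_est
  refine ⟨r, hr0, hr4, fun m j q hq => ?_⟩
  obtain ⟨C1, hC1, hC1'⟩ := S.integral_norm_le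
  set qf : (Fin j → Fin N) → EN N → ℝ := fun f =>
    dirs (List.ofFn fun a => EuclideanSpace.single (f a) (1 : ℝ)) q with hqf
  have hm : ∀ f, Mom (m + j) (qf f) := by
    intro f
    have h := Mom_dirs hq (List.ofFn fun a => EuclideanSpace.single (f a) (1 : ℝ))
    rwa [List.length_ofFn] at h
  choose Cf hCf0 hCf using fun f => hr (m + j) (qf f) (hm f) S.ampR S.smooth_ampR
  refine ⟨C1 * ∑ f, Cf f, mul_nonneg hC1 (Finset.sum_nonneg fun f _ => hCf0 f), ?_⟩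
  intro b g B hE hb hk δ hδ hδr
  have hL : S.L2F b := hE.ex.1
  have hcont : ∀ f, Continuous (S.Rb (qf f) δ b) := fun f =>
    (S.isForm_Rb (hm f).qf.smooth hδ hL).smooth.continuous
  have hint : ∀ f, Integrable (fun x => ‖S.Rb (qf f) δ b x‖) S.nu := fun f =>
    (memLp_one_iff_integrable.1 (S.memLp_of_continuous (hcont f) 1)).norm
  have h1 : ∫ x, ‖iteratedFDeriv ℝ j (S.Rb q δ b) x‖ ∂S.nu ≤
      ∫ x, δ⁻¹ ^ j * ∑ f : Fin j → Fin N, ‖S.Rb (qf f) δ b x‖ ∂S.nu := by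
    refine integral_mono_of_nonneg (Eventually.of_forall fun x => norm_nonneg _) ?_
      (Eventually.of_forall fun x => S.norm_iteratedFDeriv_Rb_le hq.qf hδ hL j x)
    exact (integrable_finsetSum _ fun f _ => hint f).const_mul _
  have h2 : ∫ x, δ⁻¹ ^ j * ∑ f : Fin j → Fin N, ‖S.Rb (qf f) δ b x‖ ∂S.nu =
      δ⁻¹ ^ j * ∑ f : Fin j → Fin N, ∫ x, ‖S.Rb (qf f) δ b x‖ ∂S.nu := by
    rw [integral_const_mul, integral_finsetSum _ fun f _ => hint f]
  have h3 : ∀ f, ∫ x, ‖S.Rb (qf f) δ b x‖ ∂S.nu ≤ C1 * (Cf f * B * δ ^ (m + j)) := by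
    intro f
    refine (hC1' _ (hcont f)).trans (mul_le_mul_of_nonneg_left ?_ hC1)
    have h4 := hCf f b g B hE hb hk δ hδ hδr
    rw [← S.Rb_eq_Op] at h4
    exact h4
  refine (h1.trans_eq h2).trans ?_
  calc δ⁻¹ ^ j * ∑ f : Fin j → Fin N, ∫ x, ‖S.Rb (qf f) δ b x‖ ∂S.nu
      ≤ δ⁻¹ ^ j * ∑ f : Fin j → Fin N, C1 * (Cf f * B * δ ^ (m + j)) := by
        refine mul_le_mul_of_nonneg_left (Finset.sum_le_sum fun f _ => h3 f) ?_
        exact pow_nonneg (inv_pos.2 hδ).le j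
    _ = C1 * (∑ f, Cf f) * B * δ ^ m := by
        have h5 : ∑ f : Fin j → Fin N, C1 * (Cf f * B * δ ^ (m + j)) =
            C1 * (∑ f, Cf f) * B * δ ^ (m + j) := by
          rw [Finset.mul_sum, Finset.sum_mul, Finset.sum_mul]
          refine Finset.sum_congr rfl fun f _ => by ring
        rw [h5, pow_add, inv_pow]
        have : δ ^ j ≠ 0 := pow_ne_zero _ hδ.ne'
        field_simp

end Setup

end Pool.Agent.W_MP_d8b8b7_gt
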