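import Pool.Agent.W_MP_d8b8b7_gt_G3.MomTaylor
import Pool.Agent.W_MP_d8b8b7_gt_G3.RbCp
import Pool.Agent.W_MP_d8b8b7_gt_G3.NrmB

/-!
# Regularisation with vanishing moments of a smooth form
-/

namespace Pool.Agent.W_MP_d8b8b7_gt

open MeasureTheory Set Filter Topology
open scoped ContDiff ENNReal

variable {N : ℕ}

namespace Setup

variable (S : Setup N)

/-- sup bound for the norm of component fields -/
theorem MomSmooth_nrm_le {a : EN N → C6} {c : ℝ} (hc : 0 ≤ c) (h : ∀ x ∈ S.X, ‖a x‖ ≤ c) :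
    S.nrm a ≤ Real.sqrt (S.nu.real univ) * c := by
  have h1 : ∫ x, ‖a x‖ ^ 2 ∂S.nu ≤ ∫ _x, c ^ 2 ∂S.nu := by
    refine integral_mono_of_nonneg (Eventually.of_forall fun x => by positivity)
      (integrable_const _) ?_
    filter_upwards [S.ae_mem_X] with x hx
    exact pow_le_pow_left₀ (norm_nonneg _) (h x hx) 2
  have h2 : ∫ _x, c ^ 2 ∂S.nu = S.nu.real univ * c ^ 2 := by
    rw [integral_const, smul_eq_mul]
  unfold Setup.nrm
  calc Real.sqrt (∫ x, ‖a x‖ ^ 2 ∂S.nu) ≤ Real.sqrt (S.nu.real univ * c ^ 2) := by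
        rw [← h2]
        exact Real.sqrt_le_sqrt h1
    _ = Real.sqrt (S.nu.real univ) * c := by
        rw [Real.sqrt_mul measureReal_nonneg, Real.sqrt_sq hc]

/-- the pulled back form is smooth -/
theorem MomSmooth_contDiff {g : EN N → Bil N} (hg : IsForm g) :
    ContDiff ℝ ∞ (fun y => Bil.pull (S.D y) (g (S.rho y))) :=
  Bil.contDiff_pull (hg.smooth.comp S.smooth_rho) S.smooth_D

/-- points close to X are in Ud -/
theorem MomSmooth_mem_Ud {x y : EN N} (hx : x ∈ S.X) {δ : ℝ} (hδ : δ < S.d0 / 2)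
    (hy : y ∈ Metric.closedBall x δ) : y ∈ S.Ud := by
  have h1 : Metric.infDist y S.X ≤ dist y x := Metric.infDist_le_dist_of_mem hx
  have h2 : dist y x ≤ δ := Metric.mem_closedBall.mp hy
  show Metric.infDist y S.X < S.d0 / 2
  linarith

/-- `g3_Rb_cp`: at x in X, Rb q δ (cp g) x = ∫ q(s) ĝ(x + δ s) ds with ĝ(y) = pull (D y) (g (rho y));
`Mom.taylor` -/
theorem nrm_Rb_smooth_le (k : ℕ) (q : EN N → ℝ) (hq : Mom k q) : ∃ C : ℝ, 0 ≤ C ∧
    ∀ (g : EN N → Bil N) (B : ℝ), IsForm g → 0 ≤ B → S.CkUd k g B → ∀ δ : ℝ, 0 < δ →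
      δ ≤ S.d0 / 4 → S.nrm (S.cp (S.Rb q δ (S.cp g))) ≤ C * B * δ ^ k := by
  obtain ⟨C0, hC0, hT⟩ := Mom.taylor (F := Bil N) k q hq
  obtain ⟨C1, hC1, hb, -, -⟩ := S.exists_bound
  have hC1' : 0 ≤ C1 := by linarith
  refine ⟨Real.sqrt (S.nu.real univ) * (C1 * C0), by positivity, ?_⟩
  intro g B hg hB hck δ hδ hδ'
  have hd0 := S.d0_pos
  have hd1 := S.d0_le
  have key : ∀ x ∈ S.X, ‖S.cp (S.Rb q δ (S.cp g)) x‖ ≤ C1 * (C0 * δ ^ k * B) := by
    intro x hx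
    refine ((hb x hx).2.2.2.2.2 _).trans ?_
    refine mul_le_mul_of_nonneg_left ?_ hC1'
    rw [S.g3_Rb_cp hq.qf hδ (by linarith) hg.alt hx]
    have h3 := hT (fun y => Bil.pull (S.D y) (g (S.rho y))) (S.MomSmooth_contDiff hg) x δ B
      hδ.le (by linarith) hB (fun y hy =>
        hck y (S.MomSmooth_mem_Ud hx (by linarith) hy) k le_rfl)
    exact h3
  refine (S.MomSmooth_nrm_le (by positivity) key).trans (le_of_eq ?_)
  ring

end Setup

end Pool.Agent.W_MP_d8b8b7_gt
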