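import Pool.Agent.W_MP_d8b8b7_gt_G3.Mom
import Pool.Agent.W_MP_d8b8b7_gt.ParamC

/-!
# Averages with vanishing moments of smooth functions are small
-/

namespace Pool.Agent.W_MP_d8b8b7_gt

open MeasureTheory Set Filter Topology
open scoped ContDiff ENNReal

variable {N : ℕ}

theorem MomTaylor_coord {F : Type*} [NormedAddCommGroup F] [NormedSpace ℝ F] {f : EN N → F}
    (hf : ContDiff ℝ ∞ f) (k : ℕ) (i : Fin N) (y : EN N) :
    ‖iteratedFDeriv ℝ k (fun y => fderiv ℝ f y (EuclideanSpace.single i (1 : ℝ))) y‖ ≤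
      ‖iteratedFDeriv ℝ (k + 1) f y‖ := by
  have h1 : ContDiff ℝ ∞ (fderiv ℝ f) := hf.fderiv_right (m := ∞) (by simp)
  rw [← norm_iteratedFDeriv_fderiv]
  refine ContinuousMultilinearMap.opNorm_le_bound (norm_nonneg _) fun m => ?_
  rw [iteratedFDeriv_clm_apply_const_apply (n := ∞) h1 (by exact_mod_cast le_top)]
  refine (ContinuousLinearMap.le_opNorm _ _).trans ?_
  have h2 : ‖(EuclideanSpace.single i (1 : ℝ) : EN N)‖ = 1 := by simp
  rw [h2, mul_one]
  exact ContinuousMultilinearMap.le_opNorm _ _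

theorem MomTaylor_int {F : Type*} [NormedAddCommGroup F] [NormedSpace ℝ F] {q : EN N → ℝ}
    (hq : QF q) {g : EN N → F} (hg : Continuous g) :
    Integrable (fun s => q s • g s) := by
  refine (hq.smooth.continuous.smul hg).integrable_of_hasCompactSupport ?_
  exact hq.hasCompactSupport.smul_right

/-- the derivative of t ↦ ∫ q(s) f(x + t δ s) ds -/
theorem MomTaylor_deriv {F : Type*} [NormedAddCommGroup F] [NormedSpace ℝ F]
    [FiniteDimensional ℝ F] {q : EN N → ℝ} (hq : QF q) {f : EN N → F} (hf : ContDiff ℝ ∞ f)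
    (x : EN N) (δ t : ℝ) :
    HasDerivAt (fun t : ℝ => ∫ s, q s • f (x + (t * δ) • s))
      (δ • ∑ i, ∫ s, (s i * q s) • fderiv ℝ f (x + (t * δ) • s) (EuclideanSpace.single i (1 : ℝ)))
      t := by
  have : CompleteSpace F := FiniteDimensional.complete ℝ F
  set Φ : ℝ × EN N → (ℝ →L[ℝ] F) := fun z =>
    ContinuousLinearMap.toSpanSingleton ℝ (f (x + (z.1 * δ) • z.2)) with hΦdef
  have hin : ContDiff ℝ ∞ (fun z : ℝ × EN N => x + (z.1 * δ) • z.2) :=
    contDiff_const.add ((contDiff_fst.mul contDiff_const).smul contDiff_snd)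
  have hΦ : ContDiff ℝ ∞ Φ :=
    ((ContinuousLinearMap.toSpanSingletonCLE (𝕜 := ℝ) (E := F)).contDiff).comp (hf.comp hin)
  have hqK : ∀ y ∉ Metric.ball (0 : EN N) 1, q y = 0 := by
    intro y hy
    refine hq.supp y ?_
    rw [mem_ball_zero_iff, not_lt] at hy
    exact hy
  have h1 := paramC_hasFDerivAt (E := ℝ) (F := EN N) (G := ℝ) (H := F)
    (μ := (volume : Measure (EN N))) hΦ hq.integrable Metric.isBounded_ball hqK t
  have h2 := paramC_fderiv_apply (E := ℝ) (F := EN N) (G := ℝ) (H := F)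
    (μ := (volume : Measure (EN N))) hΦ hq.integrable Metric.isBounded_ball hqK t 1
  have h3 : (fun t : ℝ => ∫ y, Φ (t, y) (q y)) = fun t : ℝ => ∫ s, q s • f (x + (t * δ) • s) := by
    funext t
    rfl
  rw [h3] at h1 h2
  have h4 := h1.hasDerivAt
  have h5 : HasDerivAt (fun t : ℝ => ∫ s, q s • f (x + (t * δ) • s))
      (fderiv ℝ (fun t : ℝ => ∫ s, q s • f (x + (t * δ) • s)) t 1) t := by
    rw [h1.fderiv]
    exact h4
  rw [h2] at h5
  refine h5.congr_deriv ?_
  have hpd : ∀ y : EN N, pdir Φ 1 (t, y) (q y) =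
      δ • ∑ i, (y i * q y) • fderiv ℝ f (x + (t * δ) • y) (EuclideanSpace.single i (1 : ℝ)) := by
    intro y
    have h6 : HasFDerivAt Φ (fderiv ℝ Φ (t, y)) (t, y) :=
      (hΦ.differentiable (by simp) _).hasFDerivAt
    have hc : HasDerivAt (fun t : ℝ => x + (t * δ) • y) (δ • y) t := by
      have := ((hasDerivAt_id t).mul_const δ).smul_const y
      simp only [one_mul] at this
      exact this.const_add x
    have h7 : HasDerivAt (fun t : ℝ => f (x + (t * δ) • y))
        (fderiv ℝ f (x + (t * δ) • y) (δ • y)) t :=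
      ((hf.differentiable (by simp) _).hasFDerivAt).comp_hasDerivAt t hc
    have h8 : HasDerivAt (fun t : ℝ => Φ (t, y) (q y))
        (q y • fderiv ℝ f (x + (t * δ) • y) (δ • y)) t := h7.const_smul (q y)
    have h9 : HasDerivAt (fun t : ℝ => Φ (t, y)) (pdir Φ 1 (t, y)) t := by
      have h10 := h6.comp_hasDerivAt t ((hasDerivAt_id t).prodMk (hasDerivAt_const t y))
      exact h10
    have h11 : HasDerivAt (fun t : ℝ => Φ (t, y) (q y)) (pdir Φ 1 (t, y) (q y)) t := by
      have := h9.clm_apply (hasDerivAt_const t (q y))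
      simpa using this
    rw [h11.unique h8]
    have hy : y = ∑ i, y i • EuclideanSpace.single i (1 : ℝ) := by
      ext k
      simp [Pi.single_apply]
    conv_lhs => rw [map_smul, hy, map_sum]
    simp only [← hy, map_smul]
    rw [smul_comm, Finset.smul_sum]
    congr 1
    refine Finset.sum_congr rfl fun i _ => ?_
    rw [smul_smul, mul_comm]
  simp only [hpd]
  rw [integral_smul, integral_finsetSum]
  intro i _
  refine MomTaylor_int (hq.coord i) ?_
  have hc : Continuous (fun s : EN N => x + (t * δ) • s) := by fun_prop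
  exact ((hf.continuous_fderiv (by simp)).comp hc).clm_apply continuous_const

/-- If the moments of q of order < k vanish, the average ∫ q(s) f(x + δ s) ds is O(δ^k).  Induction
on k (for all q and f, all δ in [0, 1]):
k = 0: bounded by ∫ |q| sup ‖f‖.
k + 1: ∫ q = 0 gives ∫ q(s) (f(x + δ s) - f(x)) ds = ∫_0^1 ∫ q(s) δ (Df(x + t δ s) s) ds dt
= δ ∑_i ∫_0^1 (∫ s_i q(s) (∂_i f)(x + t δ s) ds) dt; apply the induction hypothesis to s_i q, ∂_i f and
t δ; ‖D^k (∂_i f)‖ ≤ ‖D^{k+1} f‖. -/
theorem Mom.taylor {F : Type*} [NormedAddCommGroup F] [NormedSpace ℝ F] [FiniteDimensional ℝ F]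
    (k : ℕ) (q : EN N → ℝ) (hq : Mom k q) : ∃ C : ℝ, 0 ≤ C ∧
    ∀ f : EN N → F, ContDiff ℝ ∞ f → ∀ (x : EN N) (δ B : ℝ), 0 ≤ δ → δ ≤ 1 → 0 ≤ B →
      (∀ y ∈ Metric.closedBall x δ, ‖iteratedFDeriv ℝ k f y‖ ≤ B) →
      ‖∫ s, q s • f (x + δ • s)‖ ≤ C * δ ^ k * B := by
  induction k generalizing q with
  | zero =>
    have hqf : QF q := hq
    refine ⟨∫ s, ‖q s‖, integral_nonneg fun s => norm_nonneg _,
      fun f hf x δ B hδ hδ1 hB hb => ?_⟩
    rw [pow_zero, mul_one, ← integral_mul_const]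
    refine norm_integral_le_of_norm_le (hqf.integrable.norm.mul_const B)
      (Eventually.of_forall fun s => ?_)
    rw [norm_smul]
    rcases lt_or_ge ‖s‖ 1 with hs | hs
    · refine mul_le_mul_of_nonneg_left ?_ (norm_nonneg _)
      have h1 := hb (x + δ • s) (by
        rw [mem_closedBall_iff_norm, add_sub_cancel_left, norm_smul, Real.norm_of_nonneg hδ]
        nlinarith [norm_nonneg s])
      rwa [norm_iteratedFDeriv_zero] at h1
    · rw [hqf.supp s hs, norm_zero, zero_mul, zero_mul]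
  | succ k ih =>
    obtain ⟨hqf, hq0, hqi⟩ := hq
    choose C hC0 hC using fun i => ih _ (hqi i)
    refine ⟨∑ i, C i, Finset.sum_nonneg fun i _ => hC0 i, fun f hf x δ B hδ hδ1 hB hb => ?_⟩
    have hgs : ∀ i : Fin N, ContDiff ℝ ∞
        (fun y => fderiv ℝ f y (EuclideanSpace.single i (1 : ℝ))) := fun i =>
      (hf.fderiv_right (m := ∞) (by simp)).clm_apply contDiff_const
    have hbound : ∀ t ∈ Ico (0 : ℝ) 1, ‖δ • ∑ i, ∫ s, (s i * q s) •
        fderiv ℝ f (x + (t * δ) • s) (EuclideanSpace.single i (1 : ℝ))‖ ≤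
          (∑ i, C i) * δ ^ (k + 1) * B := by
      intro t ht
      have htδ : 0 ≤ t * δ := mul_nonneg ht.1 hδ
      have htδ' : t * δ ≤ δ := by nlinarith [ht.2.le]
      rw [norm_smul, Real.norm_of_nonneg hδ]
      have h1 : ∀ i : Fin N, ‖∫ s, (s i * q s) •
          fderiv ℝ f (x + (t * δ) • s) (EuclideanSpace.single i (1 : ℝ))‖ ≤ C i * δ ^ k * B := by
        intro i
        have h2 := hC i _ (hgs i) x (t * δ) B htδ (htδ'.trans hδ1) hB (fun y hy =>
          (MomTaylor_coord hf k i y).trans (hb y (Metric.closedBall_subset_closedBall htδ' hy)))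
        refine h2.trans ?_
        have h3 : (t * δ) ^ k ≤ δ ^ k := pow_le_pow_left₀ htδ htδ' k
        exact mul_le_mul_of_nonneg_right (mul_le_mul_of_nonneg_left h3 (hC0 i)) hB
      calc δ * ‖∑ i, ∫ s, (s i * q s) •
            fderiv ℝ f (x + (t * δ) • s) (EuclideanSpace.single i (1 : ℝ))‖
          ≤ δ * ∑ i, (C i * δ ^ k * B) := by
            refine mul_le_mul_of_nonneg_left ((norm_sum_le _ _).trans
              (Finset.sum_le_sum fun i _ => h1 i)) hδ
        _ = (∑ i, C i) * δ ^ (k + 1) * B := by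
            rw [← Finset.sum_mul, ← Finset.sum_mul, pow_succ]
            ring
    have hmv := norm_image_sub_le_of_norm_deriv_le_segment_01'
      (f := fun t : ℝ => ∫ s, q s • f (x + (t * δ) • s))
      (fun t _ => (MomTaylor_deriv hqf hf x δ t).hasDerivWithinAt) hbound
    have h0 : ∫ s, q s • f (x + ((0 : ℝ) * δ) • s) = 0 := by
      simp only [zero_mul, zero_smul, add_zero]
      rw [integral_smul_const, hq0, zero_smul]
    simp only [one_mul] at hmv
    rwa [h0, sub_zero] at hmv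

end Pool.Agent.W_MP_d8b8b7_gt
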