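import Pool.Agent.W_MP_d8b8b7_gt_G3.Factor
import Pool.Agent.W_MP_d8b8b7_gt_G3.OpL2
import Pool.Agent.W_MP_d8b8b7_gt.ParamC

/-!
# First order expansion of operators with amplitude
-/

namespace Pool.Agent.W_MP_d8b8b7_gt

open MeasureTheory Set Filter Topology
open scoped ContDiff ENNReal

variable {N : ℕ}

theorem opStep_qf_coord {q : EN N → ℝ} (hq : QF q) (i : Fin N) :
    ContDiff ℝ ∞ (fun s : EN N => s i * q s) ∧ ∀ s : EN N, 1 ≤ ‖s‖ → s i * q s = 0 := by
  refine ⟨?_, fun s hs => by rw [hq.supp s hs, mul_zero]⟩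
  have h1 : ContDiff ℝ ∞ (fun s : EN N => s i) :=
    (EuclideanSpace.proj (𝕜 := ℝ) i).contDiff
  exact h1.mul hq.smooth

namespace Setup

variable (S : Setup N)

/-- the pointwise identity behind `Op_step` -/
theorem opStep_point {r : ℝ} (hr : r ≤ S.d0 / 4) {A A' : EN N → EN N → (Bil N →L[ℝ] Bil N)}
    {x : EN N} (hx : x ∈ S.X)
    (hA' : ∀ h : EN N, ‖h‖ ≤ r → ∀ c : Bil N, Bil.pull (S.D (S.rho (x + h))) c = c →
          A' h x (Bil.pull (S.D (x + h)) c) = A h x c)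
    {δ : ℝ} (hδ : 0 < δ) (hδr : δ ≤ r) (b : EN N → C6) {s : EN N} (hs : ‖s‖ < 1) :
    A (δ • s) x (S.ex b (x + δ • s)) = A' (δ • s) x (S.ampR (δ • s) x (S.ex b (x + δ • s))) := by
  have hd : δ ≤ S.d0 / 2 := by
    have := S.d0_pos
    linarith
  have hU := S.rbAlg_mem_Ud hx hδ hd hs
  have hex : S.ex b (x + δ • s) = S.rc b (S.rho (x + δ • s)) := Set.indicator_of_mem hU _
  have hn : ‖δ • s‖ ≤ r := by
    rw [norm_smul, Real.norm_eq_abs, abs_of_pos hδ]
    nlinarith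
  rw [hex, S.ampR_apply]
  exact (hA' (δ • s) hn _ (S.pull_D_rc (S.rho_mem_X hU) b)).symm

/-- Expansion: with A' from `exists_factor` and Hadamard's lemma A'(h,x) = A'(0,x) + ∑ h_i A'_i(h,x):
Op q A δ b x = ∫ q(s) A'(δ s, x)(pull (D (x + δ s)) (ex b (x + δ s))) ds
= A'(0,x) (Rb q δ b x) + δ ∑_i ∫ s_i q(s) A'_i(δ s, x) (pull (D (x+δ s)) (ex b (x + δ s))) ds, i.e.
A0 x = A'(0,x) and Ai i h x = A'_i(h,x) ∘ ampR h x. -/
theorem Op_step : ∃ r : ℝ, 0 < r ∧ r ≤ S.d0 / 4 ∧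
    ∀ A : EN N → EN N → (Bil N →L[ℝ] Bil N), ContDiff ℝ ∞ (fun z : EN N × EN N => A z.1 z.2) →
    ∃ (A0 : EN N → (Bil N →L[ℝ] Bil N)) (Ai : Fin N → EN N → EN N → (Bil N →L[ℝ] Bil N)),
      ContDiff ℝ ∞ A0 ∧ (∀ i, ContDiff ℝ ∞ (fun z : EN N × EN N => Ai i z.1 z.2)) ∧
      ∀ x ∈ S.X, (∀ c, A0 x c = A0 x (Bil.pull (S.D x) c)) ∧
        ∀ q : EN N → ℝ, QF q → ∀ δ : ℝ, 0 < δ → δ ≤ r → ∀ b : EN N → C6, S.L2F b →
          S.Op q A δ b x = A0 x (S.Rb q δ b x) +
            δ • ∑ i, S.Op (fun s => s i * q s) (Ai i) δ b x := by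
  obtain ⟨r, hr0, hr, hfac⟩ := S.exists_factor
  refine ⟨r, hr0, hr, fun A hA => ?_⟩
  obtain ⟨A', hA's, hA'⟩ := hfac A hA
  obtain ⟨Bi, hBis, hBi⟩ := hadamard (n := N) (E := EN N) (G := Bil N →L[ℝ] Bil N)
    (fun z => A' z.1 z.2) hA's
  have hAis : ∀ i, ContDiff ℝ ∞
      (fun z : EN N × EN N => (Bi i (z.1, z.2)).comp (S.ampR z.1 z.2)) := fun i =>
    (hBis i).clm_comp S.smooth_ampR
  refine ⟨fun x => A' 0 x, fun i h x => (Bi i (h, x)).comp (S.ampR h x), ?_, hAis, ?_⟩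
  · have h0 : ContDiff ℝ ∞ (fun x : EN N => ((0 : EN N), x)) := contDiff_const.prodMk contDiff_id
    exact hA's.comp h0
  intro x hx
  obtain ⟨hpull, hpt⟩ := hA' x hx
  refine ⟨hpull 0, fun q hq δ hδ hδr b hb => ?_⟩
  have hintR := S.rbAlg_int_s hq.smooth.continuous hq.supp hδ hb x
  have hinti := fun i => S.integrable_Op (opStep_qf_coord hq i).1 (opStep_qf_coord hq i).2
    (fun h x => (Bi i (h, x)).comp (S.ampR h x)) (hAis i) hδ hb x
  have hpoint : ∀ s : EN N, q s • A (δ • s) x (S.ex b (x + δ • s)) =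
      A' 0 x (q s • Bil.pull (S.D (x + δ • s)) (S.ex b (x + δ • s))) +
        δ • ∑ i, (s i * q s) • ((Bi i (δ • s, x)).comp (S.ampR (δ • s) x))
          (S.ex b (x + δ • s)) := by
    intro s
    rcases lt_or_ge ‖s‖ 1 with hs | hs
    · rw [S.opStep_point hr hx hpt hδ hδr b hs]
      have h1 : A' (δ • s) x = A' 0 x + ∑ i, (δ • s) i • Bi i (δ • s, x) := by
        have := hBi (δ • s) x
        simp only at this
        rw [← this]
        abel
      rw [h1, add_apply, smul_add, map_smul]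
      congr 1
      rw [sum_apply, Finset.smul_sum, Finset.smul_sum]
      refine Finset.sum_congr rfl fun i _ => ?_
      simp only [smul_apply, ContinuousLinearMap.comp_apply, smul_smul,
        PiLp.smul_apply, smul_eq_mul]
      congr 1
      ring
    · rw [hq.supp s hs]
      simp
  have h2 : S.Op q A δ b x = ∫ s, (A' 0 x (q s • Bil.pull (S.D (x + δ • s))
      (S.ex b (x + δ • s))) + δ • ∑ i, (s i * q s) •
        ((Bi i (δ • s, x)).comp (S.ampR (δ • s) x)) (S.ex b (x + δ • s))) := by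
    unfold Op
    exact integral_congr_ae (Eventually.of_forall hpoint)
  rw [h2]
  have h3 : Integrable (fun s => ∑ i, (s i * q s) •
        ((Bi i (δ • s, x)).comp (S.ampR (δ • s) x)) (S.ex b (x + δ • s))) volume :=
    integrable_finsetSum _ fun i _ => hinti i
  have h4 : Integrable (fun s => A' 0 x (q s • Bil.pull (S.D (x + δ • s))
      (S.ex b (x + δ • s)))) volume := (A' 0 x).integrable_comp hintR
  have h5 : Integrable (fun s => δ • ∑ i, (s i * q s) •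
        ((Bi i (δ • s, x)).comp (S.ampR (δ • s) x)) (S.ex b (x + δ • s))) volume := h3.smul δ
  rw [integral_add h4 h5, integral_smul, integral_finsetSum _ fun i _ => hinti i,
    ContinuousLinearMap.integral_comp_comm _ hintR]
  rfl

end Setup

end Pool.Agent.W_MP_d8b8b7_gt
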