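import Pool.Agent.W_MP_d8b8b7_gt_G3.Energy
import Pool.Agent.W_MP_d8b8b7_gt_G3.MomSmooth
import Pool.Agent.W_MP_d8b8b7_gt_G3.OpStep

/-!
# The vanishing moment estimate
-/

namespace Pool.Agent.W_MP_d8b8b7_gt

open MeasureTheory Set Filter Topology
open scoped ContDiff ENNReal

variable {N : ℕ}

namespace Setup

variable (S : Setup N)

/-- The moment estimate, by induction on k for all q, A.
k = 0: `nrmB_Op_le`.  k + 1: first nrm (cp (Rb q δ b)) ≤ C B δ^(k+1) by `energy_step`,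
`nrm_Rb_smooth_le`, and the induction hypothesis for s_i q (which has k vanishing moments) and the
amplitudes Ki; then `Op_step`: Op q A δ b x = A0 x (pull (D x) (Rb q δ b x)) + δ ∑ Op (s_i q) (Ai i) δ b x
with A0 bounded on X, `nrmB_pull_le`, and the induction hypothesis for s_i q, Ai i.
(r = min of the radii of `energy_step` and `Op_step`, independent of k, q, A.) -/
theorem moment_est : ∃ r : ℝ, 0 < r ∧ r ≤ S.d0 / 4 ∧ ∀ (k : ℕ) (q : EN N → ℝ), Mom k q →
    ∀ A : EN N → EN N → (Bil N →L[ℝ] Bil N), ContDiff ℝ ∞ (fun z : EN N × EN N => A z.1 z.2) →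
    ∃ C : ℝ, 0 ≤ C ∧ ∀ (b : EN N → C6) (g : EN N → Bil N) (B : ℝ), S.Ell b g → S.nrm b ≤ B →
      S.CkUd k g B → ∀ δ : ℝ, 0 < δ → δ ≤ r → S.nrmB (S.Op q A δ b) ≤ C * B * δ ^ k := by
  obtain ⟨r1, hr1, hr1d, Ki, hKi, hE⟩ := S.energy_step
  obtain ⟨r2, hr2, hr2d, hO⟩ := S.Op_step
  obtain ⟨Ccp, hCcp, hcp⟩ := S.nrm_cp_le
  obtain ⟨Cpl, hCpl, hpl⟩ := S.nrmB_pull_le
  refine ⟨min r1 r2, lt_min hr1 hr2, (min_le_left _ _).trans hr1d, ?_⟩
  intro k
  induction k with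
  | zero =>
    intro q hq A hA
    have hq' : QF q := hq.qf
    obtain ⟨c, hc, hqc⟩ := hq'.bounded
    obtain ⟨C0, hC0, h0⟩ := S.nrmB_Op_le A hA
    refine ⟨C0 * c, mul_nonneg hC0 hc, ?_⟩
    intro b g B hell hB hCk δ hδ hδr
    have hδ4 : δ ≤ S.d0 / 4 := (hδr.trans (min_le_left _ _)).trans hr1d
    have hd := S.d0_pos
    have hδ2 : δ ≤ S.d0 / 2 := by linarith only [hδ4, hd]
    calc S.nrmB (S.Op q A δ b) ≤ C0 * c * S.nrm b := h0 q c hq' hqc δ hδ hδ2 b hell.ex.1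
      _ ≤ C0 * c * B := mul_le_mul_of_nonneg_left hB (mul_nonneg hC0 hc)
      _ = C0 * c * B * δ ^ 0 := by rw [pow_zero, mul_one]
  | succ k ih =>
    intro q hq A hA
    have hq' : QF q := hq.qf
    obtain ⟨A0, Ai, hA0, hAi, hx⟩ := hO A hA
    choose CK hCK0 hCK using fun i => ih (fun s => s i * q s) (hq.coord i) (Ki i) (hKi i)
    choose CA hCA0 hCA using fun i => ih (fun s => s i * q s) (hq.coord i) (Ai i) (hAi i)
    obtain ⟨C3, hC3, h3⟩ := S.nrm_Rb_smooth_le (k + 1) q hq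
    obtain ⟨M, hM0, hM⟩ : ∃ M : ℝ, 0 ≤ M ∧ ∀ x ∈ S.X, ‖A0 x‖ ≤ M := by
      obtain ⟨M, hM⟩ := S.cptX.exists_bound_of_continuousOn hA0.continuous.continuousOn
      exact ⟨|M|, abs_nonneg _, fun x hx => (hM x hx).trans (le_abs_self _)⟩
    have hsK : 0 ≤ ∑ i, Ccp * CK i := Finset.sum_nonneg (fun i _ => mul_nonneg hCcp (hCK0 i))
    have hsA : 0 ≤ ∑ i, CA i := Finset.sum_nonneg (fun i _ => hCA0 i)
    refine ⟨M * (Cpl * (2 * C3 + 2 * ∑ i, Ccp * CK i)) + ∑ i, CA i, ?_, ?_⟩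
    · exact add_nonneg (mul_nonneg hM0 (mul_nonneg hCpl
        (add_nonneg (mul_nonneg zero_le_two hC3) (mul_nonneg zero_le_two hsK)))) hsA
    intro b g B hell hB hCk δ hδ hδr
    have hδ4 : δ ≤ S.d0 / 4 := (hδr.trans (min_le_left _ _)).trans hr1d
    have hδ1 : δ ≤ r1 := hδr.trans (min_le_left _ _)
    have hδ2 : δ ≤ r2 := hδr.trans (min_le_right _ _)
    have hb : S.L2F b := hell.ex.1
    have hB0 : 0 ≤ B := (Real.sqrt_nonneg _).trans hB
    have hCk' : S.CkUd k g B := fun y hy j hj => hCk y hy j (hj.trans (Nat.le_succ k))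
    have hOpc : ∀ (p : EN N → ℝ) (A : EN N → EN N → (Bil N →L[ℝ] Bil N)), QF p →
        ContDiff ℝ ∞ (fun z : EN N × EN N => A z.1 z.2) → Continuous (S.Op p A δ b) :=
      fun p A hp hA => (S.contDiff_Op hp.smooth A hA hδ hb).continuous
    have hqi : ∀ i, QF (fun s : EN N => s i * q s) := fun i => (hq.coord i).qf
    -- step 1
    have h1 : S.nrm (S.cp (S.Rb q δ b)) ≤ 2 * (C3 * B * δ ^ (k + 1)) +
        2 * δ * ∑ i, Ccp * (CK i * B * δ ^ k) := by
      refine (hE b g hell q hq' δ hδ hδ1).trans ?_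
      refine add_le_add (mul_le_mul_of_nonneg_left (h3 g B hell.form hB0 hCk δ hδ hδ4)
        zero_le_two) (mul_le_mul_of_nonneg_left ?_ (mul_nonneg zero_le_two hδ.le))
      refine Finset.sum_le_sum (fun i _ => ?_)
      exact (hcp _ (hOpc _ _ (hqi i) (hKi i))).trans
        (mul_le_mul_of_nonneg_left (hCK i b g B hell hB hCk' δ hδ hδr) hCcp)
    -- step 2
    have hRb : IsForm (S.Rb q δ b) := S.isForm_Rb hq'.smooth hδ hb
    have hPc : Continuous (fun x => Bil.pull (S.D x) (S.Rb q δ b x)) :=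
      (Bil.contDiff_pull hRb.smooth S.smooth_D).continuous
    have hγ1 : Continuous (fun x => A0 x (Bil.pull (S.D x) (S.Rb q δ b x))) :=
      hA0.continuous.clm_apply hPc
    have hγs : Continuous (∑ i, S.Op (fun s => s i * q s) (Ai i) δ b) := by
      have : (∑ i, S.Op (fun s => s i * q s) (Ai i) δ b) =
          fun x => ∑ i, S.Op (fun s => s i * q s) (Ai i) δ b x := by
        ext1 x
        exact Finset.sum_apply _ _ _
      rw [this]
      exact continuous_finset_sum _ (fun i _ => hOpc _ _ (hqi i) (hAi i))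
    have hγ2 : Continuous (δ • ∑ i, S.Op (fun s => s i * q s) (Ai i) δ b) :=
      hγs.const_smul δ
    have h2 : S.nrmB (S.Op q A δ b) ≤ 1 * S.nrmB
        ((fun x => A0 x (Bil.pull (S.D x) (S.Rb q δ b x))) +
          δ • ∑ i, S.Op (fun s => s i * q s) (Ai i) δ b) := by
      refine S.nrmB_le_of_le (hγ1.add hγ2) zero_le_one (fun x hxX => ?_)
      rw [one_mul, (hx x hxX).2 q hq' δ hδ hδ2 b hb, (hx x hxX).1]
      apply le_of_eq
      congr 1
      simp only [Pi.add_apply, Pi.smul_apply, Finset.sum_apply]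
    have h4 : S.nrmB (fun x => A0 x (Bil.pull (S.D x) (S.Rb q δ b x))) ≤
        M * S.nrmB (fun x => Bil.pull (S.D x) (S.Rb q δ b x)) := by
      refine S.nrmB_le_of_le hPc hM0 (fun x hxX => ?_)
      exact ((A0 x).le_opNorm _).trans (mul_le_mul_of_nonneg_right (hM x hxX) (norm_nonneg _))
    have h5 : S.nrmB (fun x => Bil.pull (S.D x) (S.Rb q δ b x)) ≤
        Cpl * S.nrm (S.cp (S.Rb q δ b)) := hpl _ hRb.smooth.continuous hRb.alt
    have h6 : S.nrmB (δ • ∑ i, S.Op (fun s => s i * q s) (Ai i) δ b) ≤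
        δ * ∑ i, CA i * B * δ ^ k := by
      rw [S.nrmB_smul, abs_of_pos hδ]
      refine mul_le_mul_of_nonneg_left ?_ hδ.le
      refine (S.nrmB_sum_le Finset.univ (fun i _ => hOpc _ _ (hqi i) (hAi i))).trans ?_
      exact Finset.sum_le_sum (fun i _ => hCA i b g B hell hB hCk' δ hδ hδr)
    have h7 : ∑ i, Ccp * (CK i * B * δ ^ k) = (∑ i, Ccp * CK i) * (B * δ ^ k) := by
      rw [Finset.sum_mul]
      exact Finset.sum_congr rfl (fun i _ => by ring)
    have h8 : ∑ i, CA i * B * δ ^ k = (∑ i, CA i) * (B * δ ^ k) := by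
      rw [Finset.sum_mul]
      exact Finset.sum_congr rfl (fun i _ => by ring)
    calc S.nrmB (S.Op q A δ b)
        ≤ S.nrmB ((fun x => A0 x (Bil.pull (S.D x) (S.Rb q δ b x))) +
          δ • ∑ i, S.Op (fun s => s i * q s) (Ai i) δ b) := by rw [one_mul] at h2; exact h2
      _ ≤ S.nrmB (fun x => A0 x (Bil.pull (S.D x) (S.Rb q δ b x))) +
          S.nrmB (δ • ∑ i, S.Op (fun s => s i * q s) (Ai i) δ b) := S.nrmB_add_le hγ1 hγ2
      _ ≤ M * (Cpl * (2 * (C3 * B * δ ^ (k + 1)) +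
          2 * δ * ∑ i, Ccp * (CK i * B * δ ^ k))) + δ * ∑ i, CA i * B * δ ^ k :=
        add_le_add (h4.trans (mul_le_mul_of_nonneg_left
          (h5.trans (mul_le_mul_of_nonneg_left h1 hCpl)) hM0)) h6
      _ = (M * (Cpl * (2 * C3 + 2 * ∑ i, Ccp * CK i)) + ∑ i, CA i) * B * δ ^ (k + 1) := by
        rw [h7, h8, pow_succ]
        ring

end Setup

end Pool.Agent.W_MP_d8b8b7_gt
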