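import Pool.Agent.W_MP_d8b8b7_gt_G3.PullD
import Pool.Agent.W_MP_d8b8b7_gt_G3.Mom
import Pool.Agent.W_MP_d8b8b7_gt.Tube
import Pool.Agent.W_MP_d8b8b7_gt.ParamC

/-!
# Regularisation of smooth forms commutes with d

`G.R q δ β x = ∫ q(s) (pullTwo (fun x => rho (x + δ s)) β) x ds`, the maps x ↦ rho (x + δ s) are
globally smooth; q has compact support, so everything can be differentiated under the integral sign
(`contDiff_integral_param` with g = q, K = ball).
-/

namespace Pool.Agent.W_MP_d8b8b7_gt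

open MeasureTheory Set Filter Topology
open scoped ContDiff ENNReal

variable {N : ℕ}

/-! ## Generic lemmas on x ↦ ∫ q(s) f (x + δ s) ds -/

theorem rs_integrable {q : EN N → ℝ} (hq : QF q) {f : EN N → ℝ} (hf : Continuous f) :
    Integrable (fun s => q s * f s) :=
  (hq.smooth.continuous.mul hf).integrable_of_hasCompactSupport hq.hasCompactSupport.mul_right

theorem rs_integrable_smul {H : Type*} [NormedAddCommGroup H] [NormedSpace ℝ H]
    {q : EN N → ℝ} (hq : QF q) {f : EN N → H} (hf : Continuous f) :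
    Integrable (fun s => q s • f s) :=
  (hq.smooth.continuous.smul hf).integrable_of_hasCompactSupport hq.hasCompactSupport.smul_right

theorem rs_aff (δ : ℝ) : ContDiff ℝ ∞ (fun z : EN N × EN N => z.1 + δ • z.2) :=
  contDiff_fst.add (contDiff_snd.const_smul δ)

/-- the smooth kernel used below -/
theorem rs_ker {f : EN N → ℝ} (hf : ContDiff ℝ ∞ f) (δ : ℝ) :
    ContDiff ℝ ∞ (fun z : EN N × EN N =>
      (f (z.1 + δ • z.2)) • ContinuousLinearMap.id ℝ ℝ) :=
  (hf.comp (rs_aff δ)).smul contDiff_const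

theorem rs_bdd : Bornology.IsBounded (Metric.closedBall (0 : EN N) 1) :=
  Metric.isBounded_closedBall

theorem rs_vanish {q : EN N → ℝ} (hq : QF q) : ∀ y ∉ Metric.closedBall (0 : EN N) 1, q y = 0 := by
  intro y hy
  rw [mem_closedBall_zero_iff, not_le] at hy
  exact hq.supp y hy.le

theorem rs_congr {H : Type*} [NormedAddCommGroup H] [NormedSpace ℝ H] {f g : EN N → H}
    (hf : ContDiff ℝ ∞ f) (h : ∀ x, g x = f x) : ContDiff ℝ ∞ g := by
  rw [show g = f from funext h]
  exact hf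

theorem rs_contDiff {q : EN N → ℝ} (hq : QF q) {f : EN N → ℝ} (hf : ContDiff ℝ ∞ f) (δ : ℝ) :
    ContDiff ℝ ∞ (fun x => ∫ s, q s * f (x + δ • s)) := by
  have h1 := contDiff_integral_param (μ := (volume : Measure (EN N))) _ (rs_ker hf δ) q
    hq.integrable _ rs_bdd (rs_vanish hq)
  refine rs_congr h1 fun x => ?_
  refine integral_congr_ae (Eventually.of_forall fun s => ?_)
  simp [mul_comm]

theorem rs_fderiv {q : EN N → ℝ} (hq : QF q) {f : EN N → ℝ} (hf : ContDiff ℝ ∞ f) (δ : ℝ)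
    (x u : EN N) : fderiv ℝ (fun x => ∫ s, q s * f (x + δ • s)) x u =
      ∫ s, q s * fderiv ℝ f (x + δ • s) u := by
  have h1 := paramC_fderiv_apply (μ := (volume : Measure (EN N))) (rs_ker hf δ)
    hq.integrable rs_bdd (rs_vanish hq) x u
  have h0 : (fun x => ∫ s, q s * f (x + δ • s)) = fun x => ∫ s,
      ((f ((x, s).1 + δ • (x, s).2)) • ContinuousLinearMap.id ℝ ℝ) (q s) := by
    funext x
    refine integral_congr_ae (Eventually.of_forall fun s => ?_)
    simp [mul_comm]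
  rw [h0]
  refine h1.trans (integral_congr_ae (Eventually.of_forall fun s => ?_))
  show (pdir (fun z : EN N × EN N => (f (z.1 + δ • z.2)) • ContinuousLinearMap.id ℝ ℝ) u (x, s))
    (q s) = q s * fderiv ℝ f (x + δ • s) u
  have h2 : HasFDerivAt f (fderiv ℝ f (x + δ • s)) (x + δ • s) :=
    ((hf.differentiable (by simp)) _).hasFDerivAt
  have h3 : HasFDerivAt (fun z : EN N × EN N => z.1 + δ • z.2)
      (ContinuousLinearMap.fst ℝ (EN N) (EN N) + δ • ContinuousLinearMap.snd ℝ (EN N) (EN N))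
      (x, s) := _root_.hasFDerivAt_fst.add (_root_.hasFDerivAt_snd.const_smul δ)
  have h4 : HasFDerivAt (fun z : EN N × EN N => f (z.1 + δ • z.2))
      ((fderiv ℝ f (x + δ • s)).comp (ContinuousLinearMap.fst ℝ (EN N) (EN N) +
        δ • ContinuousLinearMap.snd ℝ (EN N) (EN N))) (x, s) := h2.comp (x, s) h3
  have h5 := h4.smul_const (ContinuousLinearMap.id ℝ ℝ)
  unfold pdir
  rw [h5.fderiv]
  simp [mul_comm]

/-! ## fields of bilinear forms -/

theorem rs_bil_int {q : EN N → ℝ} (hq : QF q) {P : EN N → Bil N} (hP : ContDiff ℝ ∞ P) (δ : ℝ)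
    (x : EN N) : Integrable (fun s => q s • P (x + δ • s)) :=
  rs_integrable_smul hq (hP.continuous.comp (by fun_prop))

theorem rs_bil_apply {q : EN N → ℝ} (hq : QF q) {P : EN N → Bil N} (hP : ContDiff ℝ ∞ P) (δ : ℝ)
    (x v w : EN N) : (∫ s, q s • P (x + δ • s)) v w = ∫ s, q s * P (x + δ • s) v w :=
  Bil.integral_apply (rs_bil_int hq hP δ x) v w

theorem rs_bil_contDiff {q : EN N → ℝ} (hq : QF q) {P : EN N → Bil N} (hP : ContDiff ℝ ∞ P)
    (δ : ℝ) : ContDiff ℝ ∞ (fun x => ∫ s, q s • P (x + δ • s)) := by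
  rw [Bil.contDiff_iff]
  intro v w
  refine rs_congr (rs_contDiff hq (Bil.contDiff_iff.mp hP v w) δ) fun x => ?_
  exact rs_bil_apply hq hP δ x v w

theorem rs_bil_fderiv {q : EN N → ℝ} (hq : QF q) {P : EN N → Bil N} (hP : ContDiff ℝ ∞ P)
    (δ : ℝ) (x u v w : EN N) : fderiv ℝ (fun x => ∫ s, q s • P (x + δ • s)) x u v w =
      ∫ s, q s * fderiv ℝ P (x + δ • s) u v w := by
  have hd : DifferentiableAt ℝ (fun x => ∫ s, q s • P (x + δ • s)) x :=
    ((rs_bil_contDiff hq hP δ).differentiable (by simp)) x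
  rw [← Bil.fderiv_apply hd u v w]
  have h0 : (fun x => (∫ s, q s • P (x + δ • s)) v w) = fun x => ∫ s, q s * P (x + δ • s) v w :=
    funext fun x => rs_bil_apply hq hP δ x v w
  rw [h0, rs_fderiv hq (f := fun z => P z v w) (Bil.contDiff_iff.mp hP v w) δ x u]
  refine integral_congr_ae (Eventually.of_forall fun s => ?_)
  show q s * _ = q s * _
  rw [Bil.fderiv_apply ((hP.differentiable (by simp)) _)]

theorem rs_bil_dcont {P : EN N → Bil N} (hP : ContDiff ℝ ∞ P) (δ : ℝ) (x u v w : EN N) :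
    Continuous (fun s => fderiv ℝ P (x + δ • s) u v w) := by
  have h0 : ContDiff ℝ ∞ (fun z => P z v w) := Bil.contDiff_iff.mp hP v w
  have h1 : (fun s => fderiv ℝ P (x + δ • s) u v w) =
      fun s => fderiv ℝ (fun z => P z v w) (x + δ • s) u := by
    funext s
    rw [Bil.fderiv_apply ((hP.differentiable (by simp)) _)]
  rw [h1]
  have h2 : Continuous (fun z => fderiv ℝ (fun z => P z v w) z u) :=
    (h0.continuous_fderiv (by simp)).clm_apply continuous_const
  exact h2.comp (by fun_prop)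

theorem rs_bil_dTwo {q : EN N → ℝ} (hq : QF q) {P : EN N → Bil N} (hP : ContDiff ℝ ∞ P)
    (δ : ℝ) (x u v w : EN N) : dTwo (fun x => ∫ s, q s • P (x + δ • s)) x u v w =
      ∫ s, q s * dTwo P (x + δ • s) u v w := by
  unfold dTwo
  rw [rs_bil_fderiv hq hP, rs_bil_fderiv hq hP, rs_bil_fderiv hq hP]
  have i1 := rs_integrable hq (rs_bil_dcont hP δ x u v w)
  have i2 := rs_integrable hq (rs_bil_dcont hP δ x v u w)
  have i3 := rs_integrable hq (rs_bil_dcont hP δ x w u v)
  have e1 := integral_sub i1 i2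
  have e2 := integral_add (i1.sub i2) i3
  refine Eq.trans ?_ (Eq.trans e2.symm ?_)
  · exact congrArg (fun t => t + ∫ s, q s * fderiv ℝ P (x + δ • s) w u v) e1.symm
  · refine integral_congr_ae (Eventually.of_forall fun s => ?_)
    show q s * _ - q s * _ + q s * _ = q s * (_ - _ + _)
    ring

/-! ## fields of covectors -/

theorem rs_cov_int {q : EN N → ℝ} (hq : QF q) {P : EN N → Cov N} (hP : ContDiff ℝ ∞ P) (δ : ℝ)
    (x : EN N) : Integrable (fun s => q s • P (x + δ • s)) :=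
  rs_integrable_smul hq (hP.continuous.comp (by fun_prop))

theorem rs_cov_apply {q : EN N → ℝ} (hq : QF q) {P : EN N → Cov N} (hP : ContDiff ℝ ∞ P) (δ : ℝ)
    (x v : EN N) : (∫ s, q s • P (x + δ • s)) v = ∫ s, q s * P (x + δ • s) v := by
  rw [ContinuousLinearMap.integral_apply (rs_cov_int hq hP δ x)]
  rfl

theorem rs_cov_coord {P : EN N → Cov N} (hP : ContDiff ℝ ∞ P) (v : EN N) :
    ContDiff ℝ ∞ (fun x => P x v) := hP.clm_apply contDiff_const

theorem rs_cov_contDiff {q : EN N → ℝ} (hq : QF q) {P : EN N → Cov N} (hP : ContDiff ℝ ∞ P)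
    (δ : ℝ) : ContDiff ℝ ∞ (fun x => ∫ s, q s • P (x + δ • s)) := by
  rw [contDiff_clm_apply_iff]
  intro v
  refine rs_congr (rs_contDiff hq (rs_cov_coord hP v) δ) fun x => ?_
  exact rs_cov_apply hq hP δ x v

theorem rs_cov_fderiv_apply {P : EN N → Cov N} {x : EN N} (hP : DifferentiableAt ℝ P x)
    (u v : EN N) : fderiv ℝ (fun x => P x v) x u = fderiv ℝ P x u v := by
  rw [(hP.hasFDerivAt.clm_apply (hasFDerivAt_const v x)).fderiv]
  simp

theorem rs_cov_fderiv {q : EN N → ℝ} (hq : QF q) {P : EN N → Cov N} (hP : ContDiff ℝ ∞ P)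
    (δ : ℝ) (x u v : EN N) : fderiv ℝ (fun x => ∫ s, q s • P (x + δ • s)) x u v =
      ∫ s, q s * fderiv ℝ P (x + δ • s) u v := by
  have hd : DifferentiableAt ℝ (fun x => ∫ s, q s • P (x + δ • s)) x :=
    ((rs_cov_contDiff hq hP δ).differentiable (by simp)) x
  rw [← rs_cov_fderiv_apply hd u v]
  have h0 : (fun x => (∫ s, q s • P (x + δ • s)) v) = fun x => ∫ s, q s * P (x + δ • s) v :=
    funext fun x => rs_cov_apply hq hP δ x v
  rw [h0, rs_fderiv hq (f := fun z => P z v) (rs_cov_coord hP v) δ x u]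
  refine integral_congr_ae (Eventually.of_forall fun s => ?_)
  show q s * _ = q s * _
  rw [rs_cov_fderiv_apply ((hP.differentiable (by simp)) _)]

theorem rs_cov_dcont {P : EN N → Cov N} (hP : ContDiff ℝ ∞ P) (δ : ℝ) (x u v : EN N) :
    Continuous (fun s => fderiv ℝ P (x + δ • s) u v) := by
  have h1 : Continuous (fun z => fderiv ℝ P z u v) :=
    ((hP.continuous_fderiv (by simp)).clm_apply continuous_const).clm_apply continuous_const
  exact h1.comp (by fun_prop)

namespace Geom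

variable (G : Geom N)

/-- the map x ↦ rho (x + h) -/
noncomputable def sh (h x : EN N) : EN N := G.rho (x + h)

theorem contDiff_sh (h : EN N) : ContDiff ℝ ∞ (G.sh h) := by
  exact G.smooth_rho.comp (contDiff_id.add contDiff_const)

theorem fderiv_sh (h x : EN N) : fderiv ℝ (G.sh h) x = G.D (x + h) := by
  exact fderiv_comp_add_right h

theorem R_eq (q : EN N → ℝ) (δ : ℝ) (β : EN N → Bil N) (x : EN N) :
    G.R q δ β x = ∫ s, q s • pullTwo (G.sh (δ • s)) β x := by
  refine integral_congr_ae (Eventually.of_forall fun s => ?_)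
  show q s • Bil.pull (G.D (x + δ • s)) (β (G.rho (x + δ • s))) =
    q s • Bil.pull (fderiv ℝ (G.sh (δ • s)) x) (β (G.rho (x + δ • s)))
  rw [G.fderiv_sh]

theorem Rone_eq (q : EN N → ℝ) (δ : ℝ) (α : EN N → Cov N) (x : EN N) :
    G.Rone q δ α x = ∫ s, q s • pullOne (G.sh (δ • s)) α x := by
  refine integral_congr_ae (Eventually.of_forall fun s => ?_)
  show q s • (α (G.rho (x + δ • s))).comp (G.D (x + δ • s)) =
    q s • (α (G.rho (x + δ • s))).comp (fderiv ℝ (G.sh (δ • s)) x)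
  rw [G.fderiv_sh]

/-- R in terms of the pull back by rho -/
theorem R_eq_pull (q : EN N → ℝ) (δ : ℝ) (β : EN N → Bil N) :
    G.R q δ β = fun x => ∫ s, q s • pullTwo G.rho β (x + δ • s) := rfl

theorem Rone_eq_pull (q : EN N → ℝ) (δ : ℝ) (α : EN N → Cov N) :
    G.Rone q δ α = fun x => ∫ s, q s • pullOne G.rho α (x + δ • s) := rfl

theorem isForm_R {q : EN N → ℝ} (hq : QF q) (δ : ℝ) {β : EN N → Bil N} (hβ : IsForm β) :
    IsForm (G.R q δ β) := by
  have hP := contDiff_pullTwo G.smooth_rho hβ.smooth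
  rw [G.R_eq_pull]
  refine ⟨rs_bil_contDiff hq hP δ, fun x v => ?_⟩
  refine (rs_bil_apply hq hP δ x v v).trans ?_
  have h1 : (fun s => q s * pullTwo G.rho β (x + δ • s) v v) = fun _ => (0 : ℝ) := by
    funext s
    rw [(isForm_pullTwo G.smooth_rho hβ).alt, mul_zero]
  rw [h1, integral_zero]

theorem isOne_Rone {q : EN N → ℝ} (hq : QF q) (δ : ℝ) {α : EN N → Cov N} (hα : IsOne α) :
    IsOne (G.Rone q δ α) := by
  rw [G.Rone_eq_pull]
  exact rs_cov_contDiff hq (contDiff_pullOne G.smooth_rho hα) δ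

theorem dOne_Rone {q : EN N → ℝ} (hq : QF q) (δ : ℝ) {α : EN N → Cov N} (hα : IsOne α)
    (x : EN N) : dOne (G.Rone q δ α) x = G.R q δ (dOne α) x := by
  have hP := contDiff_pullOne G.smooth_rho hα
  ext u v
  rw [dOne_apply, G.Rone_eq_pull, rs_cov_fderiv hq hP, rs_cov_fderiv hq hP, G.R_eq_pull]
  refine Eq.trans ?_
    (rs_bil_apply hq (contDiff_pullTwo G.smooth_rho (dOne_isForm hα).smooth) δ x u v).symm
  have i1 := rs_integrable hq (rs_cov_dcont hP δ x u v)
  have i2 := rs_integrable hq (rs_cov_dcont hP δ x v u)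
  rw [← integral_sub i1 i2]
  refine integral_congr_ae (Eventually.of_forall fun s => ?_)
  show q s * _ - q s * _ = q s * _
  rw [← dOne_pullOne G.smooth_rho hα, dOne_apply]
  ring

theorem dTwo_R {q : EN N → ℝ} (hq : QF q) (δ : ℝ) {β : EN N → Bil N} (hβ : IsForm β)
    (x u v w : EN N) : dTwo (G.R q δ β) x u v w =
      ∫ s, q s * dTwo β (G.rho (x + δ • s)) (G.D (x + δ • s) u) (G.D (x + δ • s) v)
        (G.D (x + δ • s) w) := by
  have hP := contDiff_pullTwo G.smooth_rho hβ.smooth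
  rw [G.R_eq_pull, rs_bil_dTwo hq hP]
  refine integral_congr_ae (Eventually.of_forall fun s => ?_)
  show q s * _ = q s * _
  rw [dTwo_pullTwo G.smooth_rho hβ]
  rfl

end Geom

namespace Setup

variable (S : Setup N)

/-- local version: if dβ vanishes on tangent vectors at all points of X in closedBall x r and
C1 δ ≤ r, then d(Rβ) vanishes at x.  (rho (x + δ s) ∈ X ∩ closedBall x (C1 δ) by `near`, and
D (x + δ s) u is tangent at rho (x + δ s) by `D_rho_D`.) -/
theorem dTwo_R_eq_zero {q : EN N → ℝ} (hq : QF q) {δ : ℝ} (hδ : 0 < δ) (hδ' : δ ≤ S.d0)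
    {β : EN N → Bil N} (hβ : IsForm β) {x : EN N} (hx : x ∈ S.X)
    (h : ∀ z ∈ S.X, ‖z - x‖ ≤ S.C1 * δ → ∀ u v w, S.Tan z u → S.Tan z v → S.Tan z w →
      dTwo β z u v w = 0) (u v w : EN N) : dTwo (S.R q δ β) x u v w = 0 := by
  rw [S.dTwo_R hq δ hβ]
  have h1 : (fun s => q s * dTwo β (S.rho (x + δ • s)) (S.D (x + δ • s) u) (S.D (x + δ • s) v)
        (S.D (x + δ • s) w)) = fun _ => (0 : ℝ) := by
    funext s
    rcases le_or_gt 1 ‖s‖ with hs | hs
    · rw [hq.supp s hs, zero_mul]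
    · have h2 : ‖δ • s‖ ≤ δ := by
        rw [norm_smul, Real.norm_eq_abs, abs_of_pos hδ]
        nlinarith [norm_nonneg s]
      have h3 : ‖δ • s‖ ≤ S.d0 := h2.trans hδ'
      have hU : x + δ • s ∈ S.U := S.tube x hx _ h3
      have h4 : ‖S.rho (x + δ • s) - x‖ ≤ S.C1 * δ :=
        (S.near x hx _ h3).trans
          (mul_le_mul_of_nonneg_left h2 (zero_le_one.trans S.one_le_C1))
      rw [h _ (S.rho_mem _ hU) h4 _ _ _ (S.D_rho_D hU u) (S.D_rho_D hU v) (S.D_rho_D hU w),
        mul_zero]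
  rw [h1, integral_zero]

/-- R preserves closed forms -/
theorem closed_R {q : EN N → ℝ} (hq : QF q) {δ : ℝ} (hδ : 0 < δ) (hδ' : δ ≤ S.d0)
    {β : EN N → Bil N} (hβ : IsForm β) (hc : S.Closed β) : S.Closed (S.R q δ β) := by
  intro x hx u v w _ _ _
  exact S.dTwo_R_eq_zero hq hδ hδ' hβ hx (fun z hz _ u v w hu hv hw => hc z hz u v w hu hv hw)
    u v w

end Setup

end Pool.Agent.W_MP_d8b8b7_gt
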