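import Pool.Agent.W_MP_d8b8b7_gt_G3.SobChart
import Pool.Agent.W_MP_d8b8b7_gt_G3.ChartRad

/-!
# Sobolev inequality on X
-/

namespace Pool.Agent.W_MP_d8b8b7_gt

open MeasureTheory Set Filter Topology
open scoped ContDiff ENNReal

variable {N : ℕ}

/-- continuous real functions are integrable for nu -/
theorem Setup.sobX_integrable (S : Setup N) {f : EN N → ℝ} (hf : Continuous f) :
    Integrable f S.nu := by
  obtain ⟨C, hC⟩ := S.cptX.exists_bound_of_continuousOn hf.continuousOn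
  refine Integrable.of_bound hf.aestronglyMeasurable C ?_
  have h : ∀ᵐ x ∂S.nu, x ∈ S.X := by
    rw [ae_iff]
    exact S.nu_compl
  filter_upwards [h] with x hx
  exact hC x hx

theorem sobX_norm_iter_iter (a : ℕ) :
    ∀ {F : Type*} [NormedAddCommGroup F] [NormedSpace ℝ F] (f : EN N → F) (j : ℕ) (z : EN N),
      ‖iteratedFDeriv ℝ j (iteratedFDeriv ℝ a f) z‖ = ‖iteratedFDeriv ℝ (a + j) f z‖ := by
  induction a with
  | zero =>
    intro F _ _ f j z
    have h0 : iteratedFDeriv ℝ 0 f = (continuousMultilinearCurryFin0 ℝ (EN N) F).symm ∘ f :=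
      iteratedFDeriv_zero_eq_comp
    rw [h0, LinearIsometryEquiv.norm_iteratedFDeriv_comp_left, Nat.zero_add]
  | succ a ih =>
    intro F _ _ f j z
    have h1 : iteratedFDeriv ℝ (a + 1) f =
        (continuousMultilinearCurryRightEquiv' ℝ a (EN N) F).symm ∘
          iteratedFDeriv ℝ a (fun y => fderiv ℝ f y) := by
      funext x
      exact iteratedFDeriv_succ_eq_comp_right
    have h2 := LinearIsometryEquiv.norm_iteratedFDeriv_comp_left (𝕜 := ℝ)
      (continuousMultilinearCurryRightEquiv' ℝ a (EN N) F).symm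
      (iteratedFDeriv ℝ a (fun y => fderiv ℝ f y)) z j
    have h3 := ih (fun y => fderiv ℝ f y) j z
    have h4 : ‖iteratedFDeriv ℝ (a + j) (fun y => fderiv ℝ f y) z‖ =
        ‖iteratedFDeriv ℝ (a + j + 1) f z‖ := norm_iteratedFDeriv_fderiv
    rw [h1, show a + 1 + j = (a + j) + 1 by ring, ← h4, ← h3]
    exact h2

/-- the real valued case -/
theorem Setup.sobX_real (S : Setup N) :
    ∃ C : ℝ, 0 ≤ C ∧ ∀ f : EN N → ℝ, ContDiff ℝ ∞ f → ∀ x ∈ S.X,
      |f x| ≤ C * ∑ j ∈ Finset.range 5, ∫ z, ‖iteratedFDeriv ℝ j f z‖ ∂S.nu := by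
  obtain ⟨r, hr, hch⟩ := S.chart_radius
  choose! ψ κ V h σ hc hz using hch
  have hC : ∀ x : EN N, ∃ C : ℝ, 0 ≤ C ∧ (x ∈ S.X → ∀ f : EN N → ℝ, ContDiff ℝ ∞ f →
      ∀ y ∈ Metric.closedBall (0 : EN 4) (1 / 2),
      |f (ψ x y)| ≤ C * ∑ j ∈ Finset.range 5, ∫ z, ‖iteratedFDeriv ℝ j f z‖ ∂S.nu) := by
    intro x
    by_cases hx : x ∈ S.X
    · obtain ⟨C, hC0, hC⟩ := (hc x hx).sobolev
      exact ⟨C, hC0, fun _ => hC⟩
    · exact ⟨0, le_rfl, fun h => absurd h hx⟩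
  choose C hC0 hC using hC
  obtain ⟨t, htX, hcov⟩ := S.cptX.elim_nhds_subcover (fun x => Metric.ball x r)
    (fun x _ => Metric.ball_mem_nhds x hr)
  refine ⟨∑ i ∈ t, C i, Finset.sum_nonneg fun i _ => hC0 i, fun f hf x hx => ?_⟩
  obtain ⟨i, hit, hxi⟩ := mem_iUnion₂.mp (hcov hx)
  have hxi' : ‖x - i‖ ≤ r := by
    rw [← dist_eq_norm]
    exact (Metric.mem_ball.mp hxi).le
  obtain ⟨_, h2, h3⟩ := hz i (htX i hit) x hx hxi'
  have h4 := hC i (htX i hit) f hf (κ i x) (Metric.ball_subset_closedBall h2)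
  rw [h3] at h4
  refine h4.trans (mul_le_mul_of_nonneg_right
    (Finset.single_le_sum (f := C) (fun i _ => hC0 i) hit) ?_)
  exact Finset.sum_nonneg fun j _ => integral_nonneg fun z => norm_nonneg _

/-- Sobolev inequality on X: X is covered by finitely many sets V ∩ κ⁻¹(ball 0 (1/2)) (`charts`,
compactness); for F-valued maps compose with a norming linear functional (`exists_dual_vector`). -/
theorem Setup.sobolev (S : Setup N) {F : Type*} [NormedAddCommGroup F] [NormedSpace ℝ F] :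
    ∃ C : ℝ, 0 ≤ C ∧ ∀ f : EN N → F, ContDiff ℝ ∞ f → ∀ x ∈ S.X,
      ‖f x‖ ≤ C * ∑ j ∈ Finset.range 5, ∫ z, ‖iteratedFDeriv ℝ j f z‖ ∂S.nu := by
  obtain ⟨C, hC0, hC⟩ := S.sobX_real
  refine ⟨C, hC0, fun f hf x hx => ?_⟩
  obtain ⟨g, hg1, hg2⟩ := exists_dual_vector'' ℝ (f x)
  have hgf : ContDiff ℝ ∞ (fun z => g (f z)) := g.contDiff.comp hf
  have h1 := hC (fun z => g (f z)) hgf x hx
  have h2 : |g (f x)| = ‖f x‖ := by
    rw [hg2]
    simp
  rw [h2] at h1
  refine h1.trans (mul_le_mul_of_nonneg_left (Finset.sum_le_sum fun j _ => ?_) hC0)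
  have hcf : Continuous (fun z => ‖iteratedFDeriv ℝ j f z‖) :=
    (hf.continuous_iteratedFDeriv (m := j) (by exact_mod_cast le_top)).norm
  have hcg : Continuous (fun z => ‖iteratedFDeriv ℝ j (fun z => g (f z)) z‖) :=
    (hgf.continuous_iteratedFDeriv (m := j) (by exact_mod_cast le_top)).norm
  refine integral_mono (S.sobX_integrable hcg) (S.sobX_integrable hcf) (fun z => ?_)
  have hf' : ContDiff ℝ j f := hf.of_le (by exact_mod_cast le_top)
  have h3 := g.norm_iteratedFDeriv_comp_left (f := f) (x := z) hf'.contDiffAt (n := j) le_rfl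
  exact h3.trans (mul_le_of_le_one_left (norm_nonneg _) hg1)

/-- applied to the a-th derivative: D^j D^a f has the norm of D^(a+j) f -/
theorem Setup.sobolev_iter (S : Setup N) {F : Type*} [NormedAddCommGroup F] [NormedSpace ℝ F]
    (a : ℕ) : ∃ C : ℝ, 0 ≤ C ∧ ∀ f : EN N → F, ContDiff ℝ ∞ f → ∀ x ∈ S.X,
      ‖iteratedFDeriv ℝ a f x‖ ≤
        C * ∑ j ∈ Finset.range 5, ∫ z, ‖iteratedFDeriv ℝ (a + j) f z‖ ∂S.nu := by
  obtain ⟨C, hC0, hC⟩ := S.sobolev (F := EN N [×a]→L[ℝ] F)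
  refine ⟨C, hC0, fun f hf x hx => ?_⟩
  have hfa : ContDiff ℝ ∞ (iteratedFDeriv ℝ a f) := hf.iteratedFDeriv_right (by
    exact_mod_cast le_top)
  have h := hC _ hfa x hx
  simp only [sobX_norm_iter_iter] at h
  exact h

end Pool.Agent.W_MP_d8b8b7_gt
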