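import Pool.Agent.W_MP_d8b8b7_gt_G3.MomIter
import Pool.Agent.W_MP_d8b8b7_gt_G3.SobX

/-!
# One step of the telescoping series
-/

namespace Pool.Agent.W_MP_d8b8b7_gt

open MeasureTheory Set Filter Topology
open scoped ContDiff ENNReal

variable {N : ℕ}

/-- iterated derivatives of a smooth function are bounded on bounded sets -/
theorem regStep_bdd {E F : Type*} [NormedAddCommGroup E] [NormedSpace ℝ E] [ProperSpace E]
    [NormedAddCommGroup F] [NormedSpace ℝ F] {f : E → F} (hf : ContDiff ℝ ∞ f) {U : Set E}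
    (hU : Bornology.IsBounded U) (k : ℕ) :
    ∃ B : ℝ, 0 ≤ B ∧ ∀ y ∈ U, ∀ j ≤ k, ‖iteratedFDeriv ℝ j f y‖ ≤ B := by
  have h1 : ∀ j : ℕ, ∃ B : ℝ, ∀ y ∈ U, ‖iteratedFDeriv ℝ j f y‖ ≤ B := by
    intro j
    have hc : Continuous (iteratedFDeriv ℝ j f) :=
      hf.continuous_iteratedFDeriv (m := j) (by exact_mod_cast le_top)
    obtain ⟨B, hB⟩ := hU.isCompact_closure.exists_bound_of_continuousOn hc.continuousOn
    exact ⟨B, fun y hy => hB y (subset_closure hy)⟩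
  choose B hB using h1
  refine ⟨∑ j ∈ Finset.range (k + 1), |B j|, Finset.sum_nonneg fun j _ => abs_nonneg _,
    fun y hy j hj => ?_⟩
  refine (hB j y hy).trans ((le_abs_self _).trans ?_)
  exact Finset.single_le_sum (f := fun j => |B j|) (fun i _ => abs_nonneg _)
    (Finset.mem_range.2 (Nat.lt_succ_of_le hj))

namespace Setup

variable (S : Setup N)

/-- for a smooth g the derivatives of y ↦ pull (D y) (g (rho y)) are bounded on the bounded set Ud -/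
theorem exists_CkUd (k : ℕ) {g : EN N → Bil N} (hg : IsForm g) : ∃ B : ℝ, 0 ≤ B ∧ S.CkUd k g B := by
  have h1 : ContDiff ℝ ∞ (fun y => g (S.rho y)) := hg.smooth.comp S.smooth_rho
  have h2 : ContDiff ℝ ∞ (fun y => S.D y) := S.smooth_rho.fderiv_right (m := ∞) (by simp)
  have h3 : ContDiff ℝ ∞ (fun y => Bil.pull (S.D y) (g (S.rho y))) := Bil.contDiff_pull h1 h2
  exact regStep_bdd h3 S.Ud_bounded k

/-- one step of the telescoping series: for a profile p,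
Rb p (δ/2) b - Rb p δ b = Rb q δ b, q s = 2^N p (2 s) - p s (`Rb_rescale`, `Rb_profile_sub`) -/
theorem Rb_half_sub {p : EN N → ℝ} (hp : QF p) {δ : ℝ} (hδ : 0 < δ) {b : EN N → C6}
    (hb : S.L2F b) :
    S.Rb p (δ / 2) b - S.Rb p δ b = S.Rb (fun s => 2 ^ N * p ((2 : ℝ) • s) - p s) δ b := by
  have h1 : S.Rb p (δ / 2) b = S.Rb (fun s => 2 ^ N * p ((2 : ℝ) • s)) δ b := by
    rw [S.Rb_rescale p (half_pos hδ) b]
    congr 1
    ring
  have hq := hp.rescale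
  rw [h1, S.Rb_profile_sub hq.smooth hq.supp hp.smooth hp.supp hδ hb]

/-- sup bound of all derivatives at points of X of one step: `integral_iteratedFDeriv_le` with m = 1
(`Mom.two_scales`) and `sobolev_iter`; gains a factor δ -/
theorem sup_step_le : ∃ r : ℝ, 0 < r ∧ r ≤ S.d0 / 4 ∧ ∀ (p : EN N → ℝ), QF p → ∀ a : ℕ,
    ∃ C : ℝ, 0 ≤ C ∧ ∀ (b : EN N → C6) (g : EN N → Bil N) (B : ℝ), S.Ell b g → S.nrm b ≤ B →
      S.CkUd (a + 5) g B → ∀ δ : ℝ, 0 < δ → δ ≤ r → ∀ x ∈ S.X,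
        ‖iteratedFDeriv ℝ a (S.Rb p (δ / 2) b - S.Rb p δ b) x‖ ≤ C * B * δ := by
  obtain ⟨r, hr, hr', H⟩ := S.integral_iteratedFDeriv_le
  refine ⟨r, hr, hr', fun p hp a => ?_⟩
  have hq : Mom 1 (fun s : EN N => 2 ^ N * p ((2 : ℝ) • s) - p s) := Mom.two_scales hp
  obtain ⟨CS, hCS, hS⟩ := S.sobolev_iter (F := Bil N) a
  choose C hC hCb using fun j : ℕ => H 1 (a + j) _ hq
  refine ⟨CS * ∑ j ∈ Finset.range 5, C j,
    mul_nonneg hCS (Finset.sum_nonneg fun j _ => hC j), fun b g B hE hB hk δ hδ hδr x hx => ?_⟩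
  have hb : S.L2F b := hE.ex.1
  rw [S.Rb_half_sub hp hδ hb]
  have hsm : ContDiff ℝ ∞ (S.Rb (fun s => 2 ^ N * p ((2 : ℝ) • s) - p s) δ b) :=
    (S.isForm_Rb hq.qf.smooth hδ hb).smooth
  refine (hS _ hsm x hx).trans ?_
  have h1 : ∀ j ∈ Finset.range 5, ∫ z, ‖iteratedFDeriv ℝ (a + j)
      (S.Rb (fun s => 2 ^ N * p ((2 : ℝ) • s) - p s) δ b) z‖ ∂S.nu ≤ C j * B * δ := by
    intro j hj
    have hk' : S.CkUd (1 + (a + j)) g B := by
      intro y hy i hi
      have hj' := Finset.mem_range.1 hj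
      exact hk y hy i (by omega)
    have := hCb j b g B hE hB hk' δ hδ hδr
    rwa [pow_one] at this
  calc CS * ∑ j ∈ Finset.range 5, ∫ z, ‖iteratedFDeriv ℝ (a + j)
        (S.Rb (fun s => 2 ^ N * p ((2 : ℝ) • s) - p s) δ b) z‖ ∂S.nu
      ≤ CS * ∑ j ∈ Finset.range 5, C j * B * δ :=
        mul_le_mul_of_nonneg_left (Finset.sum_le_sum h1) hCS
    _ = CS * (∑ j ∈ Finset.range 5, C j) * B * δ := by
        rw [← Finset.sum_mul, ← Finset.sum_mul]
        ring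

end Setup

end Pool.Agent.W_MP_d8b8b7_gt
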