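import Pool.Agent.W_MP_d8b8b7_gt_G3.RegStep
import Pool.Agent.W_MP_d8b8b7_gt_G3.Glue
import Pool.Agent.W_MP_d8b8b7_gt_G3.Weak

/-!
# Regularity of the solution of the elliptic problem
-/

namespace Pool.Agent.W_MP_d8b8b7_gt

open MeasureTheory Set Filter Topology
open scoped ContDiff ENNReal

variable {N : ℕ}

namespace Setup

variable (S : Setup N)

/-- the scales r 2^-n -/
noncomputable def regular_δ (r : ℝ) (n : ℕ) : ℝ := r / 2 ^ n

theorem regular_δ_succ (r : ℝ) (n : ℕ) : regular_δ r (n + 1) = regular_δ r n / 2 := by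
  unfold regular_δ
  rw [pow_succ]
  field_simp

theorem regular_δ_pos {r : ℝ} (hr : 0 < r) (n : ℕ) : 0 < regular_δ r n := by
  unfold regular_δ
  positivity

theorem regular_δ_le {r : ℝ} (hr : 0 < r) (n : ℕ) : regular_δ r n ≤ r := by
  unfold regular_δ
  exact div_le_self hr.le (one_le_pow₀ one_le_two)

theorem regular_δ_summable (r : ℝ) : Summable (regular_δ r) := by
  have h : regular_δ r = fun n => r * (1 / 2) ^ n := by
    funext n
    unfold regular_δ
    rw [one_div, inv_pow]
    rfl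
  rw [h]
  exact summable_geometric_two.mul_left r

theorem regular_δ_tendsto (r : ℝ) : Tendsto (regular_δ r) atTop (𝓝 0) :=
  (regular_δ_summable r).tendsto_atTop_zero

/-- the terms of the telescoping series -/
noncomputable def regular_f (p : EN N → ℝ) (r : ℝ) (b : EN N → C6) : ℕ → EN N → Bil N
  | 0 => S.Rb p r b
  | n + 1 => S.Rb p (regular_δ r n / 2) b - S.Rb p (regular_δ r n) b

theorem regular_sum (p : EN N → ℝ) (r : ℝ) (b : EN N → C6) (n : ℕ) (x : EN N) :
    ∑ i ∈ Finset.range (n + 1), S.regular_f p r b i x = S.Rb p (regular_δ r n) b x := by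
  induction n with
  | zero =>
    rw [Finset.sum_range_one]
    have h : regular_δ r 0 = r := by
      unfold regular_δ
      rw [pow_zero, div_one]
    rw [h]
    rfl
  | succ n ih =>
    rw [Finset.sum_range_succ, ih, regular_δ_succ]
    change _ + (S.Rb p (regular_δ r n / 2) b x - S.Rb p (regular_δ r n) b x) = _
    abel

theorem regular_pull_norm (A : EN N →L[ℝ] EN N) (b : Bil N) {C : ℝ} (hC : 0 ≤ C) (hA : ‖A‖ ≤ C) :
    ‖Bil.pull A b‖ ≤ C * C * ‖b‖ := by
  refine Bil.norm_le (by positivity) fun u v => ?_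
  rw [Bil.pull_apply]
  have h1 := Bil.abs_apply_le b (A u) (A v)
  have h2 : ‖A u‖ ≤ C * ‖u‖ := (A.le_opNorm u).trans (mul_le_mul_of_nonneg_right hA (norm_nonneg _))
  have h3 : ‖A v‖ ≤ C * ‖v‖ := (A.le_opNorm v).trans (mul_le_mul_of_nonneg_right hA (norm_nonneg _))
  calc |b (A u) (A v)| ≤ ‖b‖ * ‖A u‖ * ‖A v‖ := h1
    _ ≤ ‖b‖ * (C * ‖u‖) * (C * ‖v‖) := by gcongr
    _ = C * C * ‖b‖ * ‖u‖ * ‖v‖ := by ring

/-- components do not see the projection -/
theorem regular_cp_pull {x : EN N} (hx : x ∈ S.X) {w F : EN N → Bil N}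
    (h : w x = Bil.pull (S.D x) (F x)) : S.cp w x = S.cp F x := by
  unfold cp comp6
  rw [h]
  have h1 : ∀ a, S.D x (S.fr a x) = S.fr a x := fun a => S.fr_tan x hx a
  simp only [Bil.pull_apply, h1]

theorem regular_cp_sub (β γ : EN N → Bil N) (x : EN N) :
    S.cp (fun y => β y - γ y) x = S.cp β x - S.cp γ x := by
  ext i
  fin_cases i <;> rfl

theorem regular_L2F_sub {a b : EN N → C6} (ha : S.L2F a) (hb : S.L2F b) : S.L2F (a - b) :=
  ⟨ha.meas.sub hb.meas, ha.memLp.sub hb.memLp⟩

/-- bound of the L2 norm by the sup norm -/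
theorem regular_nrm_le {a : EN N → C6} {c : ℝ} (hc : 0 ≤ c) (h : ∀ x ∈ S.X, ‖a x‖ ≤ c) :
    S.nrm a ≤ c * S.nrm (fun _ : EN N => Fc) := by
  refine S.nrm_mono ⟨measurable_const, memLp_const _⟩ hc fun x hx => (h x hx).trans ?_
  have h2 : 1 ≤ ‖Fc‖ := by
    have h3 := norm_Fc_sq
    nlinarith [norm_nonneg Fc]
  nlinarith

/-- Regularity: with p a profile of integral one, δ_n = r 2^-n, f_0 = Rb p r b,
f_(n+1) = Rb p δ_(n+1) b - Rb p δ_n b, the partial sums are Rb p δ_n b.  The derivatives of f_(n+1)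
at points of X are O(δ_n) by `sup_step_le` (for every order a the constant B is chosen by
`exists_CkUd`), `glue` gives w; cp w = lim cp (Rb p δ_n b) uniformly on X, and
cp (Rb p δ_n b) → b in L2 by `Rb_conv`, so cp w = b a.e.  The bound: ‖f_0 x‖ ≤ C nrm b (`sup_Op_le`) and
`sup_step_le` for a = 0. -/
theorem regular : ∃ C : ℝ, 0 ≤ C ∧ ∀ (b : EN N → C6) (g : EN N → Bil N) (B : ℝ), S.Ell b g →
    S.nrm b ≤ B → S.CkUd 5 g B →
    ∃ w : EN N → Bil N, IsForm w ∧ S.cp w =ᵐ[S.nu] b ∧
      (∀ x ∈ S.X, w x = Bil.pull (S.D x) (w x)) ∧ ∀ x ∈ S.X, ‖w x‖ ≤ C * B := by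
  obtain ⟨r, hr, hr4, hstep⟩ := S.sup_step_le
  obtain ⟨p, hp, -, hp1⟩ := exists_QF_one (N := N)
  obtain ⟨c, hc, hpc⟩ := hp.bounded
  obtain ⟨C0, hC0, h0⟩ := hstep p hp 0
  obtain ⟨C1, hC1, hOp⟩ := S.sup_Op_le S.ampR S.smooth_ampR
  obtain ⟨CD, hCD, hbd, hUd, -⟩ := S.exists_bound
  have hCD0 : 0 ≤ CD := zero_le_one.trans hCD
  have hd0 := S.d0_pos
  have hr2 : r ≤ S.d0 / 2 := by linarith
  refine ⟨CD * CD * (C1 * c * r⁻¹ ^ 2 + 2 * C0 * r), by positivity, ?_⟩
  intro b g B hE hnb hCk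
  have hB : 0 ≤ B := (S.nrm_nonneg b).trans hnb
  have hb : S.L2F b := hE.ex.1
  have hform : ∀ n, IsForm (S.Rb p (regular_δ r n) b) := fun n =>
    S.isForm_Rb hp.smooth (regular_δ_pos hr n) hb
  have hform0 : IsForm (S.Rb p r b) := S.isForm_Rb hp.smooth hr hb
  have hf : ∀ n, IsForm (S.regular_f p r b n) := by
    intro n
    cases n with
    | zero => exact hform0
    | succ n =>
      have h1 : IsForm (S.Rb p (regular_δ r n / 2) b) :=
        S.isForm_Rb hp.smooth (half_pos (regular_δ_pos hr n)) hb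
      refine ⟨h1.smooth.sub (hform n).smooth, fun x v => ?_⟩
      change S.Rb p (regular_δ r n / 2) b x v v - S.Rb p (regular_δ r n) b x v v = 0
      rw [h1.alt, (hform n).alt, sub_zero]
  -- constants for all orders
  have hconst : ∀ a : ℕ, ∃ M K : ℝ, (∀ x ∈ S.X, ‖iteratedFDeriv ℝ a (S.Rb p r b) x‖ ≤ M) ∧
      ∀ n, ∀ x ∈ S.X, ‖iteratedFDeriv ℝ a (S.regular_f p r b (n + 1)) x‖ ≤ K * regular_δ r n := by
    intro a
    obtain ⟨Ca, hCa, ha⟩ := hstep p hp a
    obtain ⟨Ba, hBa, hCka⟩ := S.exists_CkUd (a + 5) hE.form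
    have hcont : Continuous (fun x => iteratedFDeriv ℝ a (S.Rb p r b) x) :=
      hform0.smooth.continuous_iteratedFDeriv (by exact_mod_cast le_top)
    obtain ⟨M, hM⟩ := S.cptX.exists_bound_of_continuousOn hcont.continuousOn
    refine ⟨M, Ca * max Ba B, hM, fun n x hx => ?_⟩
    exact ha b g (max Ba B) hE (hnb.trans (le_max_right _ _))
      (fun y hy j hj => (hCka y hy j hj).trans (le_max_left _ _)) (regular_δ r n)
      (regular_δ_pos hr n) (regular_δ_le hr n) x hx
  choose M K hM hK using hconst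
  have hsum : ∀ a, Summable (fun n : ℕ => if n = 0 then M a else K a * regular_δ r (n - 1)) := by
    intro a
    rw [← summable_nat_add_iff 1]
    have h1 : (fun n : ℕ => if n + 1 = 0 then M a else K a * regular_δ r (n + 1 - 1)) =
        fun n => K a * regular_δ r n := by
      funext n
      rw [if_neg (Nat.succ_ne_zero n), Nat.add_sub_cancel]
    rw [h1]
    exact (regular_δ_summable r).mul_left _
  obtain ⟨w, hw, hwX⟩ := S.glue (S.regular_f p r b) hf
    (fun a n => if n = 0 then M a else K a * regular_δ r (n - 1)) hsum (by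
      intro a n x hx
      cases n with
      | zero =>
        simp only [if_true]
        exact hM a x hx
      | succ n =>
        simp only [Nat.succ_ne_zero, if_false, Nat.add_sub_cancel]
        exact hK a n x hx)
  -- pointwise limits
  have hstep0 : ∀ n, ∀ x ∈ S.X, ‖S.regular_f p r b (n + 1) x‖ ≤ C0 * B * regular_δ r n := by
    intro n x hx
    have h1 := h0 b g B hE hnb hCk (regular_δ r n) (regular_δ_pos hr n) (regular_δ_le hr n) x hx
    rwa [norm_iteratedFDeriv_zero] at h1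
  have hlim : ∀ x ∈ S.X, Tendsto (fun n => S.Rb p (regular_δ r n) b x) atTop
      (𝓝 (∑' n, S.regular_f p r b n x)) := by
    intro x hx
    have hs : Summable (fun n => S.regular_f p r b n x) := by
      rw [← summable_nat_add_iff 1]
      exact Summable.of_norm_bounded ((regular_δ_summable r).mul_left (C0 * B))
        fun n => hstep0 n x hx
    have h1 := (tendsto_add_atTop_iff_nat 1).2 hs.hasSum.tendsto_sum_nat
    simpa only [regular_sum] using h1
  have hdist : ∀ x ∈ S.X, ∀ n, dist (S.Rb p (regular_δ r n) b x) (∑' n, S.regular_f p r b n x) ≤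
      2 * C0 * B * r / 2 ^ n := by
    intro x hx n
    refine dist_le_of_le_geometric_two_of_tendsto ?_ (hlim x hx) n
    intro n
    have h1 := hstep0 n x hx
    have h2 : S.regular_f p r b (n + 1) x =
        S.Rb p (regular_δ r (n + 1)) b x - S.Rb p (regular_δ r n) b x := by
      rw [regular_δ_succ]
      rfl
    rw [h2] at h1
    rw [dist_comm, dist_eq_norm]
    refine h1.trans (le_of_eq ?_)
    unfold regular_δ
    ring
  refine ⟨w, hw, ?_, ?_, ?_⟩
  · -- the components of w
    have hLw : S.L2F (S.cp w) := S.L2F_cp hw.smooth.continuous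
    have hLn : ∀ n, S.L2F (S.cp (S.Rb p (regular_δ r n) b)) := fun n =>
      S.L2F_cp (hform n).smooth.continuous
    have hsup : ∀ n, S.nrm (S.cp w - S.cp (S.Rb p (regular_δ r n) b)) ≤
        CD * (2 * C0 * B * r / 2 ^ n) * S.nrm (fun _ : EN N => Fc) := by
      intro n
      refine S.regular_nrm_le (by positivity) fun x hx => ?_
      have h1 : (S.cp w - S.cp (S.Rb p (regular_δ r n) b)) x =
          S.cp (fun y => (∑' n, S.regular_f p r b n y) - S.Rb p (regular_δ r n) b y) x := by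
        rw [regular_cp_sub, Pi.sub_apply,
          S.regular_cp_pull (F := fun y => ∑' n, S.regular_f p r b n y) hx (hwX x hx)]
      rw [h1]
      refine ((hbd x hx).2.2.2.2.2 _).trans (mul_le_mul_of_nonneg_left ?_ hCD0)
      have h2 := hdist x hx n
      rwa [dist_comm, dist_eq_norm] at h2
    have hzero : S.nrm (S.cp w - b) = 0 := by
      refine le_antisymm (le_of_forall_pos_le_add fun ε hε => ?_) (S.nrm_nonneg _)
      obtain ⟨d, hd, -, hconv⟩ := S.Rb_conv hp hp1 hb (half_pos hε)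
      have ht1 : Tendsto (fun n : ℕ => CD * (2 * C0 * B * r / 2 ^ n) *
          S.nrm (fun _ : EN N => Fc)) atTop (𝓝 0) := by
        have h3 : Tendsto (fun n : ℕ => CD * (2 * C0 * B) * S.nrm (fun _ : EN N => Fc) *
            regular_δ r n) atTop (𝓝 (CD * (2 * C0 * B) * S.nrm (fun _ : EN N => Fc) * 0)) :=
          (regular_δ_tendsto r).const_mul _
        rw [mul_zero] at h3
        refine h3.congr fun n => ?_
        unfold regular_δ
        ring
      have e1 : ∀ᶠ n : ℕ in atTop, CD * (2 * C0 * B * r / 2 ^ n) *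
          S.nrm (fun _ : EN N => Fc) < ε / 2 := ht1.eventually (gt_mem_nhds (half_pos hε))
      have e2 : ∀ᶠ n : ℕ in atTop, regular_δ r n < d :=
        (regular_δ_tendsto r).eventually (gt_mem_nhds hd)
      obtain ⟨n, hn1, hn2⟩ := (e1.and e2).exists
      have h4 := hconv (regular_δ r n) (regular_δ_pos hr n) hn2.le
      have h5 : S.cp w - b = (S.cp w - S.cp (S.Rb p (regular_δ r n) b)) +
          (S.cp (S.Rb p (regular_δ r n) b) - b) := by abel
      rw [h5]
      have h6 := S.nrm_add_le (S.regular_L2F_sub hLw (hLn n)) (S.regular_L2F_sub (hLn n) hb)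
      linarith [hsup n]
    have h7 := (S.nrm_zero_iff (S.regular_L2F_sub hLw hb)).1 hzero
    filter_upwards [h7] with x hx
    have h8 : S.cp w x - b x = 0 := hx
    exact sub_eq_zero.1 h8
  · intro x hx
    rw [hwX x hx]
    refine Bil.ext fun u v => ?_
    rw [Bil.pull_apply, Bil.pull_apply, Bil.pull_apply, S.D_D hx, S.D_D hx]
  · intro x hx
    rw [hwX x hx]
    have h1 := regular_pull_norm (S.D x) (∑' n, S.regular_f p r b n x) hCD0
      (hUd x (S.X_subset_Ud hx))
    have h2 := hdist x hx 0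
    have h3 : regular_δ r 0 = r := by
      unfold regular_δ
      rw [pow_zero, div_one]
    rw [h3, pow_zero, div_one, dist_comm, dist_eq_norm] at h2
    have h4 := hOp p c hp hpc r hr hr2 b hb x hx
    rw [← S.Rb_eq_Op] at h4
    have h5 : ‖∑' n, S.regular_f p r b n x‖ ≤ (C1 * c * r⁻¹ ^ 2 + 2 * C0 * r) * B := by
      have h6 : ‖∑' n, S.regular_f p r b n x‖ ≤
          ‖(∑' n, S.regular_f p r b n x) - S.Rb p r b x‖ + ‖S.Rb p r b x‖ := by
        have := norm_add_le ((∑' n, S.regular_f p r b n x) - S.Rb p r b x) (S.Rb p r b x)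
        rwa [sub_add_cancel] at this
      have h7 : C1 * c * r⁻¹ ^ 2 * S.nrm b ≤ C1 * c * r⁻¹ ^ 2 * B :=
        mul_le_mul_of_nonneg_left hnb (by positivity)
      nlinarith
    calc ‖Bil.pull (S.D x) (∑' n, S.regular_f p r b n x)‖
        ≤ CD * CD * ‖∑' n, S.regular_f p r b n x‖ := h1
      _ ≤ CD * CD * ((C1 * c * r⁻¹ ^ 2 + 2 * C0 * r) * B) :=
          mul_le_mul_of_nonneg_left h5 (by positivity)
      _ = _ := by ring

end Setup

end Pool.Agent.W_MP_d8b8b7_gt
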