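import Pool.Agent.W_MP_d8b8b7_gt_G3.SobR4
import Pool.Agent.W_MP_d8b8b7_gt_G3.ChartInt

/-!
# Sobolev inequality in a chart
-/

namespace Pool.Agent.W_MP_d8b8b7_gt

open MeasureTheory Set Filter Topology
open scoped ContDiff ENNReal

variable {N : ℕ}

theorem sobChart_bound {E F : Type*} [TopologicalSpace E] [NormedAddCommGroup F] {K : Set E}
    (hK : IsCompact K) {β : E → F} (hβ : Continuous β) : ∃ B, ∀ x ∈ K, ‖β x‖ ≤ B :=
  hK.exists_bound_of_continuousOn hβ.continuousOn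

/-- continuous functions are integrable on X -/
theorem sobChart_integrable (S : Setup N) {u : EN N → ℝ} (hu : Continuous u) :
    Integrable u S.nu := by
  obtain ⟨B, hB⟩ := sobChart_bound S.cptX hu
  have := S.fin_nu
  refine Integrable.of_bound hu.measurable.aestronglyMeasurable B ?_
  have hae : ∀ᵐ x ∂S.nu, x ∈ S.X := by
    rw [ae_iff]
    exact S.nu_compl
  filter_upwards [hae] with x hx
  exact hB x hx

/-- pointwise bound of the fourth derivative of a cut off composition -/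
theorem sobChart_point {χ : EN 4 → ℝ} {ψ : EN 4 → EN N} (hχ : ContDiff ℝ ∞ χ)
    (hψ : ContDiff ℝ ∞ ψ) {K : Set (EN 4)} (hK : IsCompact K) :
    ∃ C : ℝ, 0 ≤ C ∧ ∀ f : EN N → ℝ, ContDiff ℝ ∞ f → ∀ z ∈ K,
      ‖iteratedFDeriv ℝ 4 (fun y => χ y * f (ψ y)) z‖ ≤
        C * ∑ j ∈ Finset.range 5, ‖iteratedFDeriv ℝ j f (ψ z)‖ := by
  have hb1 : ∀ i : ℕ, ∃ B : ℝ, ∀ z ∈ K, ‖iteratedFDeriv ℝ i χ z‖ ≤ B := fun i =>
    sobChart_bound hK (hχ.continuous_iteratedFDeriv (m := i) (by exact_mod_cast le_top))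
  have hb2 : ∀ i : ℕ, ∃ B : ℝ, ∀ z ∈ K, ‖iteratedFDeriv ℝ i ψ z‖ ≤ B := fun i =>
    sobChart_bound hK (hψ.continuous_iteratedFDeriv (m := i) (by exact_mod_cast le_top))
  choose B1 hB1 using hb1
  choose B2 hB2 using hb2
  set A : ℝ := ∑ i ∈ Finset.range 5, |B1 i| with hA
  set D : ℝ := 1 + ∑ i ∈ Finset.range 5, |B2 i| with hD
  have hA0 : 0 ≤ A := Finset.sum_nonneg fun i _ => abs_nonneg _
  have hD1 : 1 ≤ D := by
    have : 0 ≤ ∑ i ∈ Finset.range 5, |B2 i| := Finset.sum_nonneg fun i _ => abs_nonneg _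
    linarith
  have hAi : ∀ i < 5, ∀ z ∈ K, ‖iteratedFDeriv ℝ i χ z‖ ≤ A := by
    intro i hi z hz
    refine (hB1 i z hz).trans ((le_abs_self _).trans ?_)
    exact Finset.single_le_sum (f := fun i => |B1 i|) (fun j _ => abs_nonneg _)
      (Finset.mem_range.2 hi)
  have hDi : ∀ i < 5, ∀ z ∈ K, ‖iteratedFDeriv ℝ i ψ z‖ ≤ D := by
    intro i hi z hz
    have h1 : |B2 i| ≤ ∑ i ∈ Finset.range 5, |B2 i| :=
      Finset.single_le_sum (f := fun i => |B2 i|) (fun j _ => abs_nonneg _) (Finset.mem_range.2 hi)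
    have h2 := hB2 i z hz
    have h3 := le_abs_self (B2 i)
    linarith
  refine ⟨∑ i ∈ Finset.range 5, ((4 : ℕ).choose i : ℝ) * A * (((4 - i).factorial : ℝ) * D ^ (4 - i)),
    Finset.sum_nonneg fun i _ => by positivity, fun f hf z hz => ?_⟩
  set G : ℝ := ∑ j ∈ Finset.range 5, ‖iteratedFDeriv ℝ j f (ψ z)‖ with hG
  have hG0 : 0 ≤ G := Finset.sum_nonneg fun i _ => norm_nonneg _
  have hcomp : ∀ n < 5, ‖iteratedFDeriv ℝ n (fun y => f (ψ y)) z‖ ≤ (n.factorial : ℝ) * G * D ^ n := by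
    intro n hn
    refine norm_iteratedFDeriv_comp_le (g := f) (f := ψ) (N := ∞) hf hψ (by exact_mod_cast le_top) z
      (C := G) (D := D) ?_ ?_
    · intro i hi
      exact Finset.single_le_sum (f := fun j => ‖iteratedFDeriv ℝ j f (ψ z)‖)
        (fun j _ => norm_nonneg _) (Finset.mem_range.2 (by omega))
    · intro i hi1 hi2
      refine (hDi i (by omega) z hz).trans ?_
      calc D = D ^ 1 := (pow_one D).symm
        _ ≤ D ^ i := pow_le_pow_right₀ hD1 hi1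
  have hmul := norm_iteratedFDeriv_mul_le (𝕜 := ℝ) (A := ℝ) (N := ∞) (f := χ)
    (g := fun y => f (ψ y)) hχ (hf.comp hψ) z (n := 4)
    (by
      have h4 : ((4 : ℕ) : WithTop ℕ∞) ≤ ((⊤ : ℕ∞) : WithTop ℕ∞) := WithTop.coe_le_coe.2 le_top
      exact h4)
  refine hmul.trans ?_
  rw [Finset.sum_mul]
  refine Finset.sum_le_sum fun i hi => ?_
  have hi5 : i < 5 := Finset.mem_range.1 hi
  have h1 := hAi i hi5 z hz
  have h2 := hcomp (4 - i) (by omega)
  have h3 : ((4 : ℕ).choose i : ℝ) * ‖iteratedFDeriv ℝ i χ z‖ ≤ ((4 : ℕ).choose i : ℝ) * A :=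
    mul_le_mul_of_nonneg_left h1 (by positivity)
  calc ((4 : ℕ).choose i : ℝ) * ‖iteratedFDeriv ℝ i χ z‖ *
        ‖iteratedFDeriv ℝ (4 - i) (fun y => f (ψ y)) z‖
      ≤ ((4 : ℕ).choose i : ℝ) * A * (((4 - i).factorial : ℝ) * G * D ^ (4 - i)) :=
        mul_le_mul h3 h2 (norm_nonneg _) (by positivity)
    _ = ((4 : ℕ).choose i : ℝ) * A * (((4 - i).factorial : ℝ) * D ^ (4 - i)) * G := by ring

/-- in a chart: apply `sobolev_R4` to χ (f ∘ ψ), χ a cut off function equal to 1 on the ball of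
radius 1/2 and supported in the ball of radius 3/4; ‖D⁴(χ (f ∘ ψ))(y)‖ ≤ C ∑_{j ≤ 4} ‖D^j f (ψ y)‖ for
‖y‖ ≤ 3/4 (`norm_iteratedFDeriv_comp_le`, `norm_iteratedFDeriv_mul_le`), `integral_pull_le`. -/
theorem IsChart.sobolev {S : Setup N} {ψ : EN 4 → EN N} {κ : EN N → EN 4} {V : Set (EN N)}
    {h : EN 4 → ℝ} {σ : ℝ} (hc : IsChart S.toGeom S.nu S.fr ψ κ V h σ) :
    ∃ C : ℝ, 0 ≤ C ∧ ∀ f : EN N → ℝ, ContDiff ℝ ∞ f → ∀ y ∈ Metric.closedBall (0 : EN 4) (1 / 2),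
      |f (ψ y)| ≤ C * ∑ j ∈ Finset.range 5, ∫ z, ‖iteratedFDeriv ℝ j f z‖ ∂S.nu := by
  let χ : ContDiffBump (0 : EN 4) := ⟨1 / 2, 3 / 4, by norm_num, by norm_num⟩
  have hχ : ContDiff ℝ ∞ (fun y => χ y) := χ.contDiff
  obtain ⟨C1, hC1, hp⟩ := sobChart_point (χ := fun y => χ y) hχ hc.smooth_psi
    (isCompact_closedBall (0 : EN 4) (3 / 4))
  obtain ⟨C2, hC2, hi⟩ := hc.integral_pull_le (r := 7 / 8) (by norm_num)
  refine ⟨C1 * C2, mul_nonneg hC1 hC2, fun f hf y hy => ?_⟩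
  have hF : ContDiff ℝ ∞ (fun y => χ y * f (ψ y)) := hχ.mul (hf.comp hc.smooth_psi)
  have hFs : HasCompactSupport (fun y => χ y * f (ψ y)) := χ.hasCompactSupport.mul_right
  have h1 := sobolev_R4 hF hFs y
  have hχ1 : χ y = 1 := χ.one_of_mem_closedBall hy
  simp only [hχ1, one_mul] at h1
  refine h1.trans ?_
  set g : EN N → ℝ := fun x => ∑ j ∈ Finset.range 5, ‖iteratedFDeriv ℝ j f x‖ with hg
  have hgj : ∀ j : ℕ, Continuous fun x => ‖iteratedFDeriv ℝ j f x‖ := fun j =>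
    (hf.continuous_iteratedFDeriv (m := j) (by exact_mod_cast le_top)).norm
  have hgc : Continuous g := continuous_finsetSum _ fun j _ => hgj j
  have hint : ∀ {u : EN N → ℝ}, Continuous u → Integrable u S.nu := fun hu =>
    sobChart_integrable S hu
  obtain ⟨hi1, hi2⟩ := hi g hgc.measurable (fun x => Finset.sum_nonneg fun j _ => norm_nonneg _)
    (hint hgc)
  have hsum : ∫ x, g x ∂S.nu = ∑ j ∈ Finset.range 5, ∫ z, ‖iteratedFDeriv ℝ j f z‖ ∂S.nu :=
    integral_finsetSum _ fun j _ => hint (hgj j)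
  have hzero : ∀ z, z ∉ Metric.closedBall (0 : EN 4) (3 / 4) →
      ‖iteratedFDeriv ℝ 4 (fun y => χ y * f (ψ y)) z‖ = 0 := by
    intro z hz
    have h2 : z ∉ tsupport (fun y => χ y * f (ψ y)) := by
      intro h3
      apply hz
      have h4 : tsupport (fun y => χ y * f (ψ y)) ⊆ tsupport (fun y => χ y) :=
        tsupport_mul_subset_left
      have h5 := h4 h3
      rw [χ.tsupport_eq] at h5
      exact h5
    have h3 : z ∉ Function.support (iteratedFDeriv ℝ 4 (fun y => χ y * f (ψ y))) := fun h4 =>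
      h2 (support_iteratedFDeriv_subset (𝕜 := ℝ) 4 h4)
    rw [Function.notMem_support.1 h3, norm_zero]
  have h2 : ∫ z, ‖iteratedFDeriv ℝ 4 (fun y => χ y * f (ψ y)) z‖ ≤
      ∫ z in Metric.ball (0 : EN 4) (7 / 8), C1 * g (ψ z) := by
    have h3 : ∫ z, ‖iteratedFDeriv ℝ 4 (fun y => χ y * f (ψ y)) z‖ =
        ∫ z in Metric.ball (0 : EN 4) (7 / 8), ‖iteratedFDeriv ℝ 4 (fun y => χ y * f (ψ y)) z‖ := by
      symm
      apply setIntegral_eq_integral_of_forall_compl_eq_zero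
      intro z hz
      apply hzero
      intro h4
      apply hz
      have h5 : ‖z‖ ≤ 3 / 4 := by simpa using h4
      simp only [Metric.mem_ball, dist_zero_right]
      linarith
    rw [h3]
    refine integral_mono_of_nonneg (Filter.Eventually.of_forall fun z => norm_nonneg _)
      (hi1.const_mul C1) (Filter.Eventually.of_forall fun z => ?_)
    by_cases hz : z ∈ Metric.closedBall (0 : EN 4) (3 / 4)
    · exact hp f hf z hz
    · show ‖iteratedFDeriv ℝ 4 (fun y => χ y * f (ψ y)) z‖ ≤ C1 * g (ψ z)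
      rw [hzero z hz]
      exact mul_nonneg hC1 (Finset.sum_nonneg fun j _ => norm_nonneg _)
  refine h2.trans ?_
  rw [integral_const_mul, mul_assoc, ← hsum]
  exact mul_le_mul_of_nonneg_left hi2 hC1

end Pool.Agent.W_MP_d8b8b7_gt
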