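import Pool.Agent.W_MP_d8b8b7_gt.Bil

/-!
# Sobolev inequality W^{4,1}(R^4) ⊂ L∞
-/

namespace Pool.Agent.W_MP_d8b8b7_gt

open MeasureTheory Set Filter Topology
open scoped ContDiff ENNReal

/-- one variable: a C^1 function with compact support satisfies |u(a)| ≤ ∫ |u'| -/
theorem abs_le_integral_deriv {u : ℝ → ℝ} (hu : ContDiff ℝ 1 u) (hs : HasCompactSupport u) (a : ℝ) :
    |u a| ≤ ∫ t, |deriv u t| := by
  rw [← HasCompactSupport.integral_Iic_deriv_eq hu hs a]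
  have hint : Integrable (fun t => |deriv u t|) :=
    ((hu.continuous_deriv le_rfl).integrable_of_hasCompactSupport hs.deriv).abs
  have h1 : |∫ x in Iic a, deriv u x| ≤ ∫ x in Iic a, |deriv u x| :=
    abs_integral_le_integral_abs
  exact h1.trans (setIntegral_le_integral hint (Eventually.of_forall fun _ => abs_nonneg _))

/-- the coordinate directions -/
noncomputable def sobE (i : Fin 4) : EN 4 := EuclideanSpace.single i 1

theorem norm_sobE (i : Fin 4) : ‖sobE i‖ = 1 := by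
  simp [sobE]

theorem sob_update (x : Fin 4 → ℝ) (i : Fin 4) (t : ℝ) :
    (WithLp.toLp 2 (Function.update x i t) : EN 4) = WithLp.toLp 2 x + (t - x i) • sobE i := by
  ext j
  by_cases h : j = i
  · subst h
    simp [sobE]
  · simp [sobE, h]

theorem sob_one {G : EN 4 → ℝ} (hG : ContDiff ℝ 1 G) (hs : HasCompactSupport G) (i : Fin 4)
    (x : Fin 4 → ℝ) :
    ‖G (WithLp.toLp 2 x)‖ₑ ≤
      ∫⁻ t, ‖fderiv ℝ G (WithLp.toLp 2 (Function.update x i t)) (sobE i)‖ₑ := by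
  set u : ℝ → ℝ := fun t => G (WithLp.toLp 2 x + (t - x i) • sobE i) with hu
  have hline : ∀ t, HasDerivAt (fun t : ℝ => (WithLp.toLp 2 x : EN 4) + (t - x i) • sobE i)
      (sobE i) t := by
    intro t
    have h1 : HasDerivAt (fun t : ℝ => t - x i) 1 t := (hasDerivAt_id t).sub_const _
    have h2 := h1.smul_const (sobE i)
    rw [one_smul] at h2
    exact h2.const_add (WithLp.toLp 2 x : EN 4)
  have huc : ContDiff ℝ 1 u :=
    hG.comp (contDiff_const.add ((contDiff_id.sub contDiff_const).smul contDiff_const))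
  have hder : ∀ t, deriv u t =
      fderiv ℝ G (WithLp.toLp 2 x + (t - x i) • sobE i) (sobE i) := by
    intro t
    have h3 := (hG.differentiable one_ne_zero _).hasFDerivAt.comp_hasDerivAt t (hline t)
    exact h3.deriv
  obtain ⟨R, hR⟩ := hs.isCompact.isBounded.subset_closedBall (0 : EN 4)
  have hsu : HasCompactSupport u := by
    refine HasCompactSupport.of_support_subset_isCompact (isCompact_Icc (a := -R) (b := R)) ?_
    intro t ht
    have h4 : WithLp.toLp 2 x + (t - x i) • sobE i ∈ Metric.closedBall (0 : EN 4) R :=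
      hR (subset_tsupport G ht)
    rw [mem_closedBall_zero_iff] at h4
    have h5 := (PiLp.norm_apply_le (WithLp.toLp 2 x + (t - x i) • sobE i : EN 4) i).trans h4
    have h6 : (WithLp.toLp 2 x + (t - x i) • sobE i : EN 4) i = t := by
      simp [sobE]
    rw [h6, Real.norm_eq_abs, abs_le] at h5
    exact h5
  have h7 := HasCompactSupport.enorm_le_lintegral_Ici_deriv huc hsu (x i)
  have h8 : u (x i) = G (WithLp.toLp 2 x) := by
    simp [hu]
  rw [h8] at h7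
  refine h7.trans ((setLIntegral_le_lintegral _ _).trans (le_of_eq ?_))
  refine lintegral_congr fun t => ?_
  rw [hder t, sob_update]

/-- one more derivative -/
theorem sob_succ {f : EN 4 → ℝ} (hf : ContDiff ℝ ∞ f) (k : ℕ) (w : Fin k → EN 4) (v y : EN 4) :
    fderiv ℝ (fun y => iteratedFDeriv ℝ k f y w) y v =
      iteratedFDeriv ℝ (k + 1) f y (Fin.cons v w) := by
  have h1 : DifferentiableAt ℝ (iteratedFDeriv ℝ k f) y := by
    have : ContDiff ℝ 1 (iteratedFDeriv ℝ k f) :=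
      hf.iteratedFDeriv_right (m := 1) (by
        have : ((1 : ℕ∞) + (k : ℕ∞) : ℕ∞) ≤ ⊤ := le_top
        exact_mod_cast this)
    exact this.differentiable one_ne_zero y
  have h2 := (ContinuousMultilinearMap.apply ℝ (fun _ : Fin k => EN 4) ℝ w).hasFDerivAt.comp y
    h1.hasFDerivAt
  have h3 : fderiv ℝ (fun y => iteratedFDeriv ℝ k f y w) y =
      (ContinuousMultilinearMap.apply ℝ (fun _ : Fin k => EN 4) ℝ w).comp
        (fderiv ℝ (iteratedFDeriv ℝ k f) y) := h2.fderiv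
  rw [h3, iteratedFDeriv_succ_apply_left]
  rfl

theorem sob_contDiff {f : EN 4 → ℝ} (hf : ContDiff ℝ ∞ f) (k : ℕ) (w : Fin k → EN 4) :
    ContDiff ℝ 1 (fun y => iteratedFDeriv ℝ k f y w) := by
  have h1 : ContDiff ℝ 1 (iteratedFDeriv ℝ k f) :=
    hf.iteratedFDeriv_right (m := 1) (by
      have : ((1 : ℕ∞) + (k : ℕ∞) : ℕ∞) ≤ ⊤ := le_top
      exact_mod_cast this)
  exact (ContinuousMultilinearMap.apply ℝ (fun _ : Fin k => EN 4) ℝ w).contDiff.comp h1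

theorem sob_supp {f : EN 4 → ℝ} (hs : HasCompactSupport f) (k : ℕ) (w : Fin k → EN 4) :
    HasCompactSupport (fun y => iteratedFDeriv ℝ k f y w) :=
  (hs.iteratedFDeriv (𝕜 := ℝ) k).comp_left
    (g := fun L : ContinuousMultilinearMap ℝ (fun _ : Fin k => EN 4) ℝ => L w) rfl

theorem sob_step {f : EN 4 → ℝ} (hf : ContDiff ℝ ∞ f) (hs : HasCompactSupport f) (k : ℕ)
    (w : Fin k → EN 4) (i : Fin 4) :
    (fun x : Fin 4 → ℝ => ‖iteratedFDeriv ℝ k f (WithLp.toLp 2 x) w‖ₑ) ≤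
      ∫⋯∫⁻_{i}, (fun x : Fin 4 → ℝ => ‖iteratedFDeriv ℝ (k + 1) f (WithLp.toLp 2 x)
        (Fin.cons (sobE i) w)‖ₑ) ∂(fun _ => volume) := by
  intro x
  rw [lmarginal_singleton]
  have h1 := sob_one (sob_contDiff hf k w) (sob_supp hs k w) i x
  simp only [sob_succ hf] at h1
  exact h1

/-- For n = 0, 1, ..: |f y| ≤ ∫ |∂_1 ... ∂_n f|.  Induction over the coordinates: with
f_k = ∂_1 ... ∂_k f one has |f_k(.., y_{k+1}, ..)| ≤ ∫ |f_{k+1}(.., t, ..)| dt in the (k+1)-st variable;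
integrate over the first k variables (for instance with `MeasureTheory.lmarginal`, as in Mathlib's
Gagliardo-Nirenberg-Sobolev file).  ∂_1 ∂_2 ∂_3 ∂_4 f y = iteratedFDeriv ℝ 4 f y (e_1, .., e_4) has
absolute value at most ‖iteratedFDeriv ℝ 4 f y‖. -/
theorem sobolev_R4 {f : EN 4 → ℝ} (hf : ContDiff ℝ ∞ f) (hs : HasCompactSupport f) (y : EN 4) :
    |f y| ≤ ∫ z, ‖iteratedFDeriv ℝ 4 f z‖ := by
  classical
  let w0 : Fin 0 → EN 4 := Fin.elim0
  let w1 : Fin 1 → EN 4 := Fin.cons (sobE 0) w0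
  let w2 : Fin 2 → EN 4 := Fin.cons (sobE 1) w1
  let w3 : Fin 3 → EN 4 := Fin.cons (sobE 2) w2
  let w4 : Fin 4 → EN 4 := Fin.cons (sobE 3) w3
  let F : (k : ℕ) → (Fin k → EN 4) → (Fin 4 → ℝ) → ℝ≥0∞ :=
    fun k w x => ‖iteratedFDeriv ℝ k f (WithLp.toLp 2 x) w‖ₑ
  have hmeas : ∀ (k : ℕ) (w : Fin k → EN 4), Measurable (F k w) := by
    intro k w
    have h1 : Continuous (fun x : Fin 4 → ℝ => iteratedFDeriv ℝ k f (WithLp.toLp 2 x) w) :=
      (sob_contDiff hf k w).continuous.comp (PiLp.continuous_toLp 2 _)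
    exact h1.measurable.enorm
  have s0 : F 0 w0 ≤ ∫⋯∫⁻_{0}, F 1 w1 ∂(fun _ => volume) := sob_step hf hs 0 w0 0
  have s1 : F 1 w1 ≤ ∫⋯∫⁻_{1}, F 2 w2 ∂(fun _ => volume) := sob_step hf hs 1 w1 1
  have s2 : F 2 w2 ≤ ∫⋯∫⁻_{2}, F 3 w3 ∂(fun _ => volume) := sob_step hf hs 2 w2 2
  have s3 : F 3 w3 ≤ ∫⋯∫⁻_{3}, F 4 w4 ∂(fun _ => volume) := sob_step hf hs 3 w3 3
  have t1 : F 0 w0 ≤ ∫⋯∫⁻_{0} ∪ {1}, F 2 w2 ∂(fun _ => volume) := by
    rw [lmarginal_union _ _ (hmeas 2 w2) (by decide)]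
    exact s0.trans (lmarginal_mono s1)
  have t2 : F 0 w0 ≤ ∫⋯∫⁻_({0} ∪ {1}) ∪ {2}, F 3 w3 ∂(fun _ => volume) := by
    rw [lmarginal_union _ _ (hmeas 3 w3) (by decide)]
    exact t1.trans (lmarginal_mono s2)
  have t3 : F 0 w0 ≤ ∫⋯∫⁻_(({0} ∪ {1}) ∪ {2}) ∪ {3}, F 4 w4 ∂(fun _ => volume) := by
    rw [lmarginal_union _ _ (hmeas 4 w4) (by decide)]
    exact t2.trans (lmarginal_mono s3)
  have huniv : ((({0} ∪ {1}) ∪ {2}) ∪ {3} : Finset (Fin 4)) = Finset.univ := by decide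
  rw [huniv, lmarginal_univ] at t3
  have hw4 : ∀ j, ‖w4 j‖ = 1 := by
    intro j
    fin_cases j
    · exact norm_sobE 3
    · exact norm_sobE 2
    · exact norm_sobE 1
    · exact norm_sobE 0
  have hF4 : ∀ x, F 4 w4 x ≤ ‖iteratedFDeriv ℝ 4 f (WithLp.toLp 2 x)‖ₑ := by
    intro x
    have h1 := (iteratedFDeriv ℝ 4 f (WithLp.toLp 2 x)).le_opNorm w4
    simp only [hw4, Finset.prod_const_one, mul_one] at h1
    exact enorm_le_iff_norm_le.2 h1
  have hc4 : Continuous (fun z : EN 4 => iteratedFDeriv ℝ 4 f z) :=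
    (contDiff_infty.1 hf 4).continuous_iteratedFDeriv le_rfl
  have hcont : Continuous (fun z : EN 4 => ‖iteratedFDeriv ℝ 4 f z‖) := hc4.norm
  have hint : Integrable (fun z : EN 4 => iteratedFDeriv ℝ 4 f z) :=
    hc4.integrable_of_hasCompactSupport (hs.iteratedFDeriv (𝕜 := ℝ) 4)
  have h0 : F 0 w0 (WithLp.ofLp y) = ‖f y‖ₑ := by
    change ‖iteratedFDeriv ℝ 0 f (WithLp.toLp 2 (WithLp.ofLp y)) w0‖ₑ = ‖f y‖ₑ
    rw [iteratedFDeriv_zero_apply]
  have h2 := t3 (WithLp.ofLp y)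
  rw [h0] at h2
  have h3 : ∫⁻ x : Fin 4 → ℝ, F 4 w4 x ∂(Measure.pi fun _ => volume) ≤
      ∫⁻ x : Fin 4 → ℝ, ‖iteratedFDeriv ℝ 4 f (WithLp.toLp 2 x)‖ₑ := by
    rw [← volume_pi]
    exact lintegral_mono hF4
  have h4 : ∫⁻ x : Fin 4 → ℝ, ‖iteratedFDeriv ℝ 4 f (WithLp.toLp 2 x)‖ₑ =
      ∫⁻ z : EN 4, ‖iteratedFDeriv ℝ 4 f z‖ₑ := by
    have hcm : Measurable (fun z : EN 4 => ‖iteratedFDeriv ℝ 4 f z‖ₑ) := by
      have h5 : (fun z : EN 4 => ‖iteratedFDeriv ℝ 4 f z‖ₑ) =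
          fun z : EN 4 => ENNReal.ofReal ‖iteratedFDeriv ℝ 4 f z‖ := by
        ext z
        exact (ofReal_norm _).symm
      rw [h5]
      exact hcont.measurable.ennreal_ofReal
    exact (PiLp.volume_preserving_toLp (Fin 4)).lintegral_comp hcm
  have h6 : ‖f y‖ₑ ≤ ∫⁻ z : EN 4, ‖iteratedFDeriv ℝ 4 f z‖ₑ := h2.trans (h3.trans h4.le)
  rw [← ofReal_integral_norm_eq_lintegral_enorm hint] at h6
  have h7 : 0 ≤ ∫ z : EN 4, ‖iteratedFDeriv ℝ 4 f z‖ := integral_nonneg fun _ => norm_nonneg _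
  rw [← ofReal_norm, ENNReal.ofReal_le_ofReal_iff h7] at h6
  exact h6

end Pool.Agent.W_MP_d8b8b7_gt
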